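import Pool.Agent.Lib.MP_40021b_an.Defs
import Pool.Agent.Lib.MP_1f4a82_an.Limits
import Pool.Agent.Lib.MP_1f4a82_an.Local

/-!
# The extremal candidate for the Riemann map
-/

namespace DY

open Complex Metric Set Filter Topology Polynomial

/-- A holomorphic function on a connected open set which is constant on a small ball is
constant. -/
theorem eqOn_const_of_ball {U : Set ℂ} (ho : IsOpen U) (hc : IsPreconnected U) {g : ℂ → ℂ}
    (hg : DifferentiableOn ℂ g U) {c : ℂ} {b : ℂ} (hb : b ∈ U) (h : ∀ᶠ z in 𝓝 b, g z = c) :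
    ∀ z ∈ U, g z = c := by
  have h1 : AnalyticOnNhd ℂ g U := hg.analyticOnNhd ho
  have h2 : AnalyticOnNhd ℂ (fun _ : ℂ => c) U := analyticOnNhd_const
  exact h1.eqOn_of_preconnected_of_eventuallyEq h2 hc hb h

/-- A function constant near `0` has zero derivative at `0`. -/
theorem deriv_zero_of_const {U : Set ℂ} (ho : IsOpen U) (h0 : (0 : ℂ) ∈ U) {g : ℂ → ℂ} {c : ℂ}
    (h : ∀ z ∈ U, g z = c) : deriv g 0 = 0 := by
  have h1 : g =ᶠ[𝓝 0] fun _ => c := by
    filter_upwards [ho.mem_nhds h0] with z hz using h z hz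
  rw [h1.deriv_eq, deriv_const]

theorem exists_extremal {U : Set ℂ} (ho : IsOpen U) (hc : IsPreconnected U)
    (hb : Bornology.IsBounded U) (h0 : (0 : ℂ) ∈ U) :
    ∃ g : ℂ → ℂ, Cand U g ∧ (∀ z ∈ U, deriv g z ≠ 0) ∧
      ∀ g' : ℂ → ℂ, Cand U g' → ‖deriv g' 0‖ ≤ ‖deriv g 0‖ := by
  classical
  -- the set of values
  set S : Set ℝ := {x | ∃ g, Cand U g ∧ ‖deriv g 0‖ = x} with hS
  obtain ⟨r, hr, hrU⟩ : ∃ r > 0, closedBall (0 : ℂ) r ⊆ U := by
    obtain ⟨r, hr, h⟩ := Metric.isOpen_iff.mp ho 0 h0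
    exact ⟨r / 2, by positivity, (closedBall_subset_ball (by linarith)).trans h⟩
  have hbdd : ∀ g : ℂ → ℂ, Cand U g → ‖deriv g 0‖ ≤ 1 / r := by
    intro g hg
    refine Complex.norm_deriv_le_of_forall_mem_sphere_norm_le hr
      ((hg.diff.mono hrU).diffContOnCl_ball le_rfl) ?_
    intro z hz
    have := hg.maps (hrU (sphere_subset_closedBall hz))
    rw [mem_ball_zero_iff] at this
    exact this.le
  have hSb : BddAbove S := by
    refine ⟨1 / r, ?_⟩
    rintro x ⟨g, hg, rfl⟩
    exact hbdd g hg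
  obtain ⟨R, hR, hUR⟩ : ∃ R > 0, U ⊆ ball (0 : ℂ) R := by
    obtain ⟨R, hR⟩ := hb.subset_ball (0 : ℂ)
    refine ⟨max R 1, by positivity, hR.trans (ball_subset_ball (le_max_left _ _))⟩
  have hcand : Cand U (fun z => z / R) := by
    refine ⟨?_, ?_, ?_, ?_⟩
    · exact (differentiable_id.div_const _).differentiableOn
    · intro a _ b _ hab
      have hR' : (R : ℂ) ≠ 0 := by exact_mod_cast hR.ne'
      exact (div_left_inj' hR').mp hab
    · intro z hz
      have := hUR hz
      rw [mem_ball_zero_iff] at this ⊢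
      rw [norm_div, Complex.norm_real, Real.norm_of_nonneg hR.le, div_lt_one hR]
      exact this
    · simp
  have hder : ‖deriv (fun z : ℂ => z / R) 0‖ = 1 / R := by
    have : deriv (fun z : ℂ => z / R) 0 = 1 / R := by
      have h : HasDerivAt (fun z : ℂ => z / R) (1 / R) 0 := (hasDerivAt_id (0 : ℂ)).div_const _
      exact h.deriv
    rw [this, norm_div, norm_one, Complex.norm_real, Real.norm_of_nonneg hR.le]
  have hSne : S.Nonempty := ⟨_, _, hcand, rfl⟩
  set s : ℝ := sSup S with hs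
  have hspos : 0 < s := by
    have : (1 / R : ℝ) ≤ s := le_csSup hSb ⟨_, hcand, hder⟩
    have h1 : 0 < 1 / R := by positivity
    linarith
  -- a maximizing sequence
  have hex : ∀ n : ℕ, ∃ g, Cand U g ∧ s - 1 / (n + 1 : ℝ) < ‖deriv g 0‖ := by
    intro n
    have h1 : s - 1 / (n + 1 : ℝ) < sSup S := by
      have : (0 : ℝ) < 1 / (n + 1 : ℝ) := by positivity
      linarith
    obtain ⟨x, ⟨g, hg, rfl⟩, hx⟩ := exists_lt_of_lt_csSup hSne h1
    exact ⟨g, hg, hx⟩
  choose G hG hGs using hex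
  have hGle : ∀ n, ‖deriv (G n) 0‖ ≤ s := fun n => le_csSup hSb ⟨_, hG n, rfl⟩
  have hGn : ∀ n, ∀ z ∈ U, ‖G n z‖ ≤ 1 := by
    intro n z hz
    have := (hG n).maps hz
    rw [mem_ball_zero_iff] at this
    exact this.le
  -- the limit along an ultrafilter
  set F : Ultrafilter ℕ := hyperfilter ℕ with hF
  have hlim : ∀ z : ℂ, ∃ y : ℂ, z ∈ U → Tendsto (fun n => G n z) (F : Filter ℕ) (𝓝 y) := by
    intro z
    by_cases hz : z ∈ U
    · have h1 : ((F.map fun n => G n z : Ultrafilter ℂ) : Filter ℂ) ≤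
          𝓟 (closedBall (0 : ℂ) 1) := by
        rw [le_principal_iff, Ultrafilter.coe_map]
        refine mem_map.mpr (Filter.univ_mem' fun n => ?_)
        simp only [mem_preimage, mem_closedBall_zero_iff]
        exact hGn n z hz
      obtain ⟨y, _, hy⟩ := (isCompact_closedBall (0 : ℂ) 1).ultrafilter_le_nhds _ h1
      exact ⟨y, fun _ => hy⟩
    · exact ⟨0, fun h => absurd h hz⟩
  choose g hg using hlim
  have hdiff : ∀ᶠ n in (F : Filter ℕ), DifferentiableOn ℂ (G n) U :=
    Filter.Eventually.of_forall fun n => (hG n).diff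
  have hbnd : ∀ᶠ n in (F : Filter ℕ), ∀ z ∈ U, ‖G n z‖ ≤ 1 :=
    Filter.Eventually.of_forall fun n => hGn n
  obtain ⟨hu, hd⟩ := Pool.Agent.Lib.MP_1f4a82_an.tendstoLocallyUniformlyOn_of_bounded ho hdiff
    hbnd (fun z hz => hg z hz)
  have hderiv : Tendsto (fun n => deriv (G n) 0) (F : Filter ℕ) (𝓝 (deriv g 0)) := by
    have h1 := hu.deriv hdiff ho
    exact h1.tendsto_at h0
  have hnorm : Tendsto (fun n => ‖deriv (G n) 0‖) (F : Filter ℕ) (𝓝 s) := by
    have h1 : Tendsto (fun n : ℕ => ‖deriv (G n) 0‖) atTop (𝓝 s) := by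
      have h2 : Tendsto (fun n : ℕ => s - 1 / (n + 1 : ℝ)) atTop (𝓝 (s - 0)) :=
        tendsto_const_nhds.sub tendsto_one_div_add_atTop_nhds_zero_nat
      rw [sub_zero] at h2
      exact tendsto_of_tendsto_of_tendsto_of_le_of_le h2 tendsto_const_nhds
        (fun n => (hGs n).le) (fun n => hGle n)
    exact h1.mono_left (Nat.hyperfilter_le_atTop)
  have hgs : ‖deriv g 0‖ = s := tendsto_nhds_unique hderiv.norm hnorm
  have hgder : deriv g 0 ≠ 0 := by
    intro h
    rw [h, norm_zero] at hgs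
    exact hspos.ne hgs
  have hnc : ∀ c : ℂ, ¬ ∀ z ∈ U, g z = c := fun c h => hgder (deriv_zero_of_const ho h0 h)
  -- norm at most one
  have hg1 : ∀ z ∈ U, ‖g z‖ ≤ 1 := by
    intro z hz
    exact le_of_tendsto (hg z hz).norm (Filter.Eventually.of_forall fun n => hGn n z hz)
  have hmaps : MapsTo g U (ball 0 1) := by
    intro z hz
    rw [mem_ball_zero_iff]
    by_contra hcon
    have h1 : ‖g z‖ = 1 := le_antisymm (hg1 z hz) (not_lt.mp hcon)
    have hmax : IsMaxOn (norm ∘ g) U z := by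
      intro w hw
      simp only [Function.comp_apply, mem_ofPred_eq, h1]
      exact hg1 w hw
    have h2 := Complex.eqOn_of_isPreconnected_of_isMaxOn_norm hc ho hd hz hmax
    exact hnc (g z) (fun w hw => h2 hw)
  have hzero : g 0 = 0 := by
    have h1 : Tendsto (fun n => G n 0) (F : Filter ℕ) (𝓝 0) := by
      have : (fun n => G n 0) = fun _ => (0 : ℂ) := by
        funext n; exact (hG n).zero
      rw [this]; exact tendsto_const_nhds
    exact tendsto_nhds_unique (hg 0 h0) h1
  -- injectivity, by the theorem of Hurwitz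
  have hinj : InjOn g U := by
    intro a ha b hbU hab
    by_contra hne
    obtain ⟨ρ, hρ, hρU⟩ := Metric.isOpen_iff.mp ho b hbU
    have hdist : 0 < dist a b := dist_pos.mpr hne
    set t : ℝ := min ρ (dist a b) with ht
    have ht0 : 0 < t := lt_min hρ hdist
    have hsub : ball b t ⊆ U := (ball_subset_ball (min_le_left _ _)).trans hρU
    have haball : a ∉ ball b t := by
      intro h
      rw [mem_ball] at h
      exact absurd h (not_lt.mpr (min_le_right _ _))
    have h3 := Pool.Agent.Lib.MP_1f4a82_an.hurwitz_of_bounded (l := (F : Filter ℕ))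
      (F := fun n z => G n z - G n a) (g := fun z => g z - g a) (Ω := ball b t) (M := 2)
      isOpen_ball (convex_ball b t).isPreconnected
      (Filter.Eventually.of_forall fun n => ((hG n).diff.mono hsub).sub_const _)
      (Filter.Eventually.of_forall fun n z hz => by
        have e1 := hGn n z (hsub hz)
        have e2 := hGn n a ha
        calc ‖G n z - G n a‖ ≤ ‖G n z‖ + ‖G n a‖ := norm_sub_le _ _
          _ ≤ 2 := by linarith)
      (fun z hz => (hg z (hsub hz)).sub (hg a ha))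
      (Filter.Eventually.of_forall fun n z hz => by
        intro h
        have h4 : G n z = G n a := sub_eq_zero.mp h
        have h5 := (hG n).inj (hsub hz) ha h4
        rw [h5] at hz
        exact haball hz)
      (z₀ := b) (mem_ball_self ht0) (by simp [hab])
    have h6 : ∀ᶠ z in 𝓝 b, g z = g a := by
      filter_upwards [ball_mem_nhds b ht0] with z hz
      exact sub_eq_zero.mp (h3 z hz)
    exact hnc (g a) (eqOn_const_of_ball ho hc hd hbU h6)
  refine ⟨g, ⟨hd, hinj, hmaps, hzero⟩, ?_, ?_⟩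
  · intro z hz
    exact Pool.Agent.Lib.MP_1f4a82_an.deriv_ne_zero_of_injOn
      (hd.analyticAt (ho.mem_nhds hz)) (ho.mem_nhds hz) hinj
  · intro g' hg'
    rw [hgs]
    exact le_csSup hSb ⟨_, hg', rfl⟩

end DY
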