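import Pool.Agent.Lib.MP_40021b_an.Koebe
import Pool.Agent.Lib.MP_40021b_an.Extremal

/-!
# MP_40021b_an, module RIEMANN: the Riemann mapping theorem for domains with square roots
-/

namespace DY

open Complex Metric Set Filter Topology Polynomial

/-- The Riemann mapping theorem for bounded domains on which zero-free holomorphic functions
have holomorphic square roots. -/
theorem riemann_map {U : Set ℂ} (ho : IsOpen U) (hc : IsPreconnected U)
    (hb : Bornology.IsBounded U) (h0 : (0 : ℂ) ∈ U) (hs : HasSqrt U) :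
    ∃ (ψ G : ℂ → ℂ) (c : ℝ), 0 < c ∧ DifferentiableOn ℂ ψ (ball 0 1) ∧
      MapsTo ψ (ball 0 1) U ∧ DifferentiableOn ℂ G U ∧ MapsTo G U (ball 0 1) ∧
      (∀ w ∈ ball (0 : ℂ) 1, G (ψ w) = w) ∧ (∀ z ∈ U, ψ (G z) = z) ∧ ψ 0 = 0 ∧
      deriv ψ 0 = (c : ℂ) :=
  riemann_map_of_extremal ho hc h0 hs (exists_extremal ho hc hb h0)

end DY
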