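import Pool.Agent.Lib.MP_40021b_an.Defs

/-!
# MP_40021b_an: two facts on best approximations
-/

namespace DY

open Complex Metric Set Filter Topology Polynomial

private noncomputable def ex (t : ℝ) : ℂ := Complex.exp (I * ((2 * Real.pi * t : ℝ) : ℂ))

private theorem ex_add (s t : ℝ) : ex (s + t) = ex s * ex t := by
  unfold ex
  rw [← Complex.exp_add]
  congr 1
  push_cast
  ring

private theorem ex_int (n : ℤ) : ex n = 1 := by
  unfold ex
  rw [show (I * ((2 * Real.pi * (n : ℝ) : ℝ) : ℂ)) = (n : ℂ) * (2 * (Real.pi : ℂ) * I) by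
    push_cast; ring]
  exact Complex.exp_int_mul_two_pi_mul_I n

private theorem ex_pow (t : ℝ) (n : ℕ) : ex t ^ n = ex (n * t) := by
  unfold ex
  rw [← Complex.exp_nat_mul]
  congr 1
  push_cast
  ring

private theorem ex_sub_int (t : ℝ) (n : ℤ) : ex (t - n) = ex t := by
  have h : ex (t - n + n) = ex (t - n) * ex n := ex_add _ _
  rw [ex_int, mul_one, sub_add_cancel] at h
  exact h.symm

private theorem ex_norm (t : ℝ) : ‖ex t‖ = 1 := by
  unfold ex
  rw [mul_comm]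
  exact Complex.norm_exp_ofReal_mul_I _

private theorem ex_sub_one (t : ℝ) : ‖ex t - 1‖ = 2 * |Real.sin (Real.pi * t)| := by
  unfold ex
  rw [Complex.norm_exp_I_mul_ofReal_sub_one, Real.norm_eq_abs, abs_mul, abs_two]
  congr 3
  ring

private theorem ex_sub_one_le (t : ℝ) : ‖ex t - 1‖ ≤ 2 * Real.pi * |t| := by
  rw [ex_sub_one]
  have h : |Real.sin (Real.pi * t)| ≤ |Real.pi * t| := Real.abs_sin_le_abs
  rw [abs_mul, abs_of_pos Real.pi_pos] at h
  linarith

private theorem ex_surj {z : ℂ} (h : ‖z‖ = 1) : ∃ t : ℝ, z = ex t := by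
  refine ⟨Complex.arg z / (2 * Real.pi), ?_⟩
  have h1 := Complex.norm_mul_exp_arg_mul_I z
  rw [h, Complex.ofReal_one, one_mul] at h1
  have hp : (2 * Real.pi) ≠ 0 := by positivity
  unfold ex
  rw [mul_div_cancel₀ _ hp, mul_comm, h1]

private theorem sin_abs {t : ℝ} (ht : |t| ≤ 1 / 2) :
    |Real.sin (Real.pi * t)| = Real.sin (Real.pi * |t|) := by
  have h0 : 0 ≤ Real.sin (Real.pi * |t|) := by
    apply Real.sin_nonneg_of_nonneg_of_le_pi (by positivity)
    nlinarith [Real.pi_pos]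
  rcases abs_cases t with ⟨h, _⟩ | ⟨h, _⟩
  · rw [h] at h0 ⊢; exact abs_of_nonneg h0
  · rw [h] at h0 ⊢
    rw [mul_neg, Real.sin_neg] at h0 ⊢
    exact abs_of_nonpos (by linarith)

private theorem sin_mono {s t : ℝ} (hs : |s| ≤ |t|) (ht : |t| ≤ 1 / 2) :
    |Real.sin (Real.pi * s)| ≤ |Real.sin (Real.pi * t)| := by
  rw [sin_abs ht, sin_abs (hs.trans ht)]
  have hpi := Real.pi_pos
  apply Real.sin_le_sin_of_le_of_le_pi_div_two
  · have : 0 ≤ Real.pi * |s| := by positivity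
    linarith
  · nlinarith
  · exact mul_le_mul_of_nonneg_left hs hpi.le

private theorem le_sin' {t : ℝ} (ht : |t| ≤ 1 / 2) : 2 * |t| ≤ |Real.sin (Real.pi * t)| := by
  rw [sin_abs ht]
  have hpi := Real.pi_pos
  have h := Real.mul_le_sin (x := Real.pi * |t|) (by positivity) (by nlinarith)
  calc 2 * |t| = 2 / Real.pi * (Real.pi * |t|) := by field_simp
    _ ≤ _ := h

private theorem lt_of_norm_lt {s t : ℝ} (hs : |s| ≤ 1 / 2) (h : ‖ex s - 1‖ < ‖ex t - 1‖) :
    |s| < |t| := by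
  by_contra hc
  rw [not_lt] at hc
  have := sin_mono hc hs
  rw [ex_sub_one, ex_sub_one] at h
  linarith

private theorem round_abs (t : ℝ) : |t - round t| ≤ 1 / 2 := abs_sub_round t

theorem arith_dense {l : ℂ} (hl : ‖l‖ = 1) (hl' : ∀ n : ℕ, 1 ≤ n → l ^ n ≠ 1) {q : ℕ}
    (hq : 1 ≤ q) (hrec : ∀ j, 1 ≤ j → j < q → ‖l ^ q - 1‖ < ‖l ^ j - 1‖)
    (hs : ‖l ^ q - 1‖ ≤ 1 / q) : ∀ ζ : ℂ, ‖ζ‖ = 1 → ∃ j < q, ‖ζ - l ^ j‖ ≤ 5 / q := by
  obtain ⟨x, rfl⟩ := ex_surj hl
  have hqR : (0 : ℝ) < q := by exact_mod_cast hq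
  set p : ℤ := round ((q : ℝ) * x) with hp
  set θ : ℝ := (q : ℝ) * x - p with hθ
  have hθ2 : |θ| ≤ 1 / 2 := round_abs _
  have hlq : ex x ^ q = ex θ := by rw [ex_pow, hθ, ex_sub_int]
  rw [hlq] at hs hrec
  have hθq : |θ| ≤ 1 / (4 * q) := by
    have h1 := le_sin' hθ2
    rw [ex_sub_one] at hs
    have h2 : |θ| ≤ (1 / (q : ℝ)) / 4 := by linarith
    rwa [div_div, mul_comm (q : ℝ) 4] at h2
  -- coprimality
  have hcop : IsCoprime (p : ℤ) (q : ℤ) := by
    rw [Int.isCoprime_iff_gcd_eq_one]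
    by_contra hg
    set g : ℕ := Int.gcd p q with hgdef
    have hg0 : g ≠ 0 := by
      intro h0
      have := Int.gcd_eq_zero_iff.mp h0
      omega
    have hg2 : 2 ≤ g := by omega
    obtain ⟨p', hp'⟩ : (g : ℤ) ∣ p := Int.gcd_dvd_left _ _
    obtain ⟨q'', hq''⟩ : (g : ℤ) ∣ (q : ℤ) := Int.gcd_dvd_right _ _
    have hq''pos : 0 < q'' := by
      by_contra hneg
      have : (g : ℤ) * q'' ≤ 0 := mul_nonpos_of_nonneg_of_nonpos (by positivity) (by omega)
      omega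
    obtain ⟨q', rfl⟩ := Int.eq_ofNat_of_zero_le hq''pos.le
    have hqq : q = g * q' := by exact_mod_cast hq''
    have hq'1 : 1 ≤ q' := by omega
    have hlt : q' < q := by rw [hqq]; nlinarith
    have h1 := hrec q' hq'1 hlt
    have hgR : (2 : ℝ) ≤ g := by exact_mod_cast hg2
    have h2 : ex x ^ q' = ex (θ / g) := by
      rw [ex_pow, ← ex_sub_int ((q' : ℝ) * x) p']
      congr 1
      rw [hθ]
      have e1 : (q : ℝ) = g * q' := by exact_mod_cast hqq
      have e2 : (p : ℝ) = g * p' := by exact_mod_cast hp'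
      rw [e1, e2]
      field_simp
    rw [h2] at h1
    have h3 := lt_of_norm_lt hθ2 h1
    rw [abs_div, abs_of_pos (by linarith : (0 : ℝ) < g), lt_div_iff₀ (by linarith)] at h3
    nlinarith [abs_nonneg θ]
  intro ζ hζ
  obtain ⟨y, rfl⟩ := ex_surj hζ
  set s : ℤ := round ((q : ℝ) * y) with hsdef
  have hsy : |(q : ℝ) * y - s| ≤ 1 / 2 := round_abs _
  -- j with j p ≡ s mod q
  obtain ⟨u, v, huv⟩ := hcop
  have hqZ : (0 : ℤ) < q := by exact_mod_cast hq
  obtain ⟨j, hj⟩ := Int.eq_ofNat_of_zero_le (Int.emod_nonneg (s * u) hqZ.ne')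
  have hjlt : (j : ℤ) < q := by
    have h1 := Int.emod_lt_of_pos (s * u) hqZ
    rw [hj] at h1
    exact h1
  have hjlt' : j < q := by exact_mod_cast hjlt
  have hdiv := Int.mul_ediv_add_emod (s * u) q
  set w : ℤ := (s * u) / q with hw
  -- s*u = q*w + j ; u*p + v*q = 1
  have hjp : (j : ℤ) * p = s + q * (-(v * s) - w * p) := by
    have e1 : (j : ℤ) = s * u - q * w := by
      have : (s * u) % (q : ℤ) = (j : ℤ) := hj
      rw [this] at hdiv
      linarith
    rw [e1]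
    linear_combination s * huv
  refine ⟨j, hjlt', ?_⟩
  have hjpR : (j : ℝ) * p = s + q * ((-(v * s) - w * p : ℤ) : ℝ) := by exact_mod_cast hjp
  set t : ℤ := -(v * s) - w * p with ht
  have hjx : (j : ℝ) * x - t = s / q + j * θ / q := by
    rw [hθ]
    field_simp
    linear_combination hjpR
  have hnorm : ‖ex y - ex x ^ j‖ = ‖ex (y - ((j : ℝ) * x - t)) - 1‖ := by
    rw [ex_pow, ← ex_sub_int ((j : ℝ) * x) t]
    set z := (j : ℝ) * x - t with hz
    have e : ex y = ex (y - z) * ex z := by rw [← ex_add, sub_add_cancel]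
    rw [e, show ex (y - z) * ex z - ex z = (ex (y - z) - 1) * ex z by ring, norm_mul, ex_norm,
      mul_one]
  rw [hnorm]
  refine (ex_sub_one_le _).trans ?_
  rw [hjx]
  have hb : |y - (s / q + j * θ / q)| ≤ 3 / (4 * q) := by
    have e : y - (s / q + j * θ / q) = ((q : ℝ) * y - s) / q - (j / q) * θ := by
      field_simp
      ring
    rw [e]
    refine (abs_sub _ _).trans ?_
    rw [abs_div, abs_mul, abs_of_pos hqR, abs_of_nonneg (by positivity : (0 : ℝ) ≤ j / q)]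
    have h1 : |(q : ℝ) * y - s| / q ≤ (1 / 2) / q := by gcongr
    have h2 : (j : ℝ) / q * |θ| ≤ 1 * (1 / (4 * q)) := by
      apply mul_le_mul _ hθq (abs_nonneg _) zero_le_one
      rw [div_le_one hqR]
      exact_mod_cast hjlt'.le
    have h3 : (1 / 2 : ℝ) / q + 1 * (1 / (4 * q)) = 3 / (4 * q) := by
      field_simp
      norm_num
    linarith
  have hpi := Real.pi_lt_d2
  calc 2 * Real.pi * |y - (s / q + j * θ / q)| ≤ 2 * Real.pi * (3 / (4 * q)) := by gcongr
    _ = (3 / 2 * Real.pi) / q := by field_simp; norm_num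
    _ ≤ 5 / q := by
      gcongr
      linarith

theorem arith_gap {l : ℂ} (hl : ‖l‖ = 1) (hl' : ∀ n : ℕ, 1 ≤ n → l ^ n ≠ 1) {q q' : ℕ}
    (hq : 1 ≤ q) (hqq : q < q')
    (hrec' : ∀ j, 1 ≤ j → j < q' → ‖l ^ q' - 1‖ < ‖l ^ j - 1‖) :
    2 ≤ q' * ‖l ^ q - 1‖ := by
  obtain ⟨x, rfl⟩ := ex_surj hl
  have hqR : (0 : ℝ) < q := by exact_mod_cast hq
  have hqqR : (q : ℝ) < q' := by exact_mod_cast hqq
  set p : ℤ := round ((q : ℝ) * x) with hp
  set θ : ℝ := (q : ℝ) * x - p with hθ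
  have hθ2 : |θ| ≤ 1 / 2 := round_abs _
  have hlq : ex x ^ q = ex θ := by rw [ex_pow, hθ, ex_sub_int]
  set p' : ℤ := round ((q' : ℝ) * x) with hp'
  set θ' : ℝ := (q' : ℝ) * x - p' with hθ'
  have hθ2' : |θ'| ≤ 1 / 2 := round_abs _
  have hlq' : ex x ^ q' = ex θ' := by rw [ex_pow, hθ', ex_sub_int]
  have h1 := hrec' q hq hqq
  rw [hlq, hlq'] at h1
  have hlt : |θ'| < |θ| := lt_of_norm_lt hθ2' h1
  rw [hlq, ex_sub_one]
  have h2 := le_sin' hθ2
  have key : 1 ≤ (q : ℝ) * |θ'| + q' * |θ| := by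
    by_cases he : p * q' = p' * q
    · exfalso
      have heR : (p : ℝ) * q' = p' * q := by exact_mod_cast he
      have h3 : θ' * q = θ * q' := by
        rw [hθ', hθ]
        linear_combination heR
      have h4 : |θ'| * q = |θ| * q' := by
        have h5 := congrArg abs h3
        rwa [abs_mul, abs_mul, abs_of_pos hqR, abs_of_pos (hqR.trans hqqR)] at h5
      nlinarith [abs_nonneg θ, abs_nonneg θ']
    · have h3 : (1 : ℝ) ≤ |(p : ℝ) * q' - p' * q| := by
        have : (1 : ℤ) ≤ |p * q' - p' * q| := Int.one_le_abs (sub_ne_zero.mpr he)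
        exact_mod_cast this
      have h4 : (p : ℝ) * q' - p' * q = θ' * q - θ * q' := by
        rw [hθ', hθ]; ring
      rw [h4] at h3
      refine h3.trans ((abs_sub _ _).trans ?_)
      rw [abs_mul, abs_mul, abs_of_pos hqR, abs_of_pos (hqR.trans hqqR)]
      linarith
  nlinarith [abs_nonneg θ, abs_nonneg θ']

end DY
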