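import Pool.Agent.Lib.MP_40021b_an.Defs
import Pool.Agent.Lib.MP_40021b_an.Arith1

namespace DY

open Complex Metric Set Filter Topology Polynomial

theorem exists_record (l : ℂ) {m : ℕ} (hm : 1 ≤ m) :
    ∃ q, 1 ≤ q ∧ q ≤ m ∧ Om l m = ‖l ^ q - 1‖ ∧
      ∀ j, 1 ≤ j → j < q → ‖l ^ q - 1‖ < ‖l ^ j - 1‖ := by
  classical
  obtain ⟨x, hx, hx'⟩ := (Finset.Icc 1 m).exists_min_image (fun q => ‖l ^ q - 1‖)
    ⟨1, Finset.mem_Icc.mpr ⟨le_refl _, hm⟩⟩
  have hex : ∃ q, q ∈ Finset.Icc 1 m ∧ ∀ y ∈ Finset.Icc 1 m, ‖l ^ q - 1‖ ≤ ‖l ^ y - 1‖ :=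
    ⟨x, hx, hx'⟩
  obtain ⟨h1, h2⟩ := Nat.find_spec hex
  have h3 := Finset.mem_Icc.mp h1
  refine ⟨Nat.find hex, h3.1, h3.2, ?_, ?_⟩
  · apply IsLeast.csInf_eq
    refine ⟨⟨Nat.find hex, ⟨h3.1, h3.2⟩, rfl⟩, ?_⟩
    rintro _ ⟨y, hy, rfl⟩
    exact h2 y (Finset.mem_Icc.mpr ⟨hy.1, hy.2⟩)
  · intro j hj1 hj2
    have h4 := Nat.find_min hex hj2
    by_contra h5
    push Not at h5
    exact h4 ⟨Finset.mem_Icc.mpr ⟨hj1, by omega⟩, fun y hy => h5.trans (h2 y hy)⟩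

theorem geo_filter (k0 : ℕ) : ∀ n, k0 ≤ n →
    ∑ k ∈ (Finset.range n).filter (fun k => k0 ≤ k), (2 : ℝ)⁻¹ ^ k =
      2 * (2 : ℝ)⁻¹ ^ k0 - 2 * (2 : ℝ)⁻¹ ^ n := by
  intro n hn
  induction n, hn using Nat.le_induction with
  | base =>
    rw [sub_self]
    apply Finset.sum_eq_zero
    intro k hk
    rw [Finset.mem_filter, Finset.mem_range] at hk
    omega
  | succ n hn ih =>
    rw [Finset.range_add_one, Finset.filter_insert, if_pos hn, Finset.sum_insert, ih, pow_succ]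
    · ring
    · simp

theorem geo_filter_le (k0 n : ℕ) :
    ∑ k ∈ (Finset.range n).filter (fun k => k0 ≤ k), (2 : ℝ)⁻¹ ^ k ≤ 2 * (2 : ℝ)⁻¹ ^ k0 := by
  rcases le_total k0 n with h | h
  · rw [geo_filter k0 n h]
    have : (0 : ℝ) ≤ 2 * (2 : ℝ)⁻¹ ^ n := by positivity
    linarith
  · rw [Finset.sum_eq_zero]
    · positivity
    · intro k hk
      rw [Finset.mem_filter, Finset.mem_range] at hk
      omega

theorem pigeon {a : ℕ → ℝ} (ha : ∀ k, 0 ≤ a k) {A : ℝ}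
    (hA : ∀ n, ∑ k ∈ Finset.range n, a k ≤ A) (s n : ℕ) (hn : 0 < n) :
    ∃ m, s ≤ m ∧ m < s + n ∧ n * a m ≤ A := by
  have h1 : ∑ k ∈ Finset.Ico s (s + n), a k ≤ ∑ k ∈ Finset.Ico s (s + n), A / n := by
    rw [Finset.sum_const, Nat.card_Ico, Nat.add_sub_cancel_left, nsmul_eq_mul,
      mul_div_cancel₀ _ (by positivity)]
    refine le_trans (Finset.sum_le_sum_of_subset_of_nonneg (t := Finset.range (s + n)) ?_ ?_)
      (hA (s + n))
    · intro x hx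
      rw [Finset.mem_Ico] at hx
      exact Finset.mem_range.mpr hx.2
    · intro i _ _
      exact ha i
  obtain ⟨m, hm, hm'⟩ := Finset.exists_le_of_sum_le
    ⟨s, Finset.mem_Ico.mpr ⟨le_refl _, by omega⟩⟩ h1
  rw [Finset.mem_Ico] at hm
  refine ⟨m, hm.1, hm.2, ?_⟩
  have : (0 : ℝ) < n := by exact_mod_cast hn
  rw [le_div_iff₀ this] at hm'
  linarith

/-- Interval sums with multiplicity two. -/
theorem double_cover {a : ℕ → ℝ} (ha : ∀ k, 0 ≤ a k) {m K : ℕ → ℕ}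
    (hK : ∀ i, K i + 1 ≤ m (i + 2)) (hmK : ∀ i, m i ≤ K i) (n : ℕ) :
    ∑ i ∈ Finset.range n, ∑ k ∈ Finset.Icc (m i) (K i), a k ≤
      ∑ k ∈ Finset.range (m n), a k + ∑ k ∈ Finset.range (m (n + 1)), a k := by
  induction n with
  | zero =>
    rw [Finset.range_zero, Finset.sum_empty]
    exact add_nonneg (Finset.sum_nonneg fun k _ => ha k) (Finset.sum_nonneg fun k _ => ha k)
  | succ n ih =>
    rw [Finset.sum_range_succ]
    have h1 : ∑ k ∈ Finset.range (m n), a k + ∑ k ∈ Finset.Icc (m n) (K n), a k =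
        ∑ k ∈ Finset.range (K n + 1), a k := by
      have e : Finset.Icc (m n) (K n) = Finset.Ico (m n) (K n + 1) := by
        ext x
        rw [Finset.mem_Icc, Finset.mem_Ico]
        omega
      rw [e, Finset.sum_range_add_sum_Ico _ (by have := hmK n; omega)]
    have h2 : ∑ k ∈ Finset.range (K n + 1), a k ≤ ∑ k ∈ Finset.range (m (n + 2)), a k := by
      refine Finset.sum_le_sum_of_subset_of_nonneg ?_ fun i _ _ => ha i
      exact Finset.range_subset_range.mpr (hK n)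
    linarith

theorem summable_group {Q : ℕ → ℕ} (hQ1 : ∀ k, 1 ≤ Q k) (hQ : ∀ k, Q k ≤ 2 ^ (k + 1))
    {v : ℕ → ℝ} (hv : ∀ q, 0 ≤ v q) (hs : Summable fun q : ℕ => v q / q) :
    Summable fun k => (2 : ℝ)⁻¹ ^ k * v (Q k) := by
  classical
  refine summable_of_sum_range_le (c := 4 * ∑' q : ℕ, v q / q)
    (fun k => mul_nonneg (by positivity) (hv _)) fun n => ?_
  have hmaps : ∀ k ∈ Finset.range n, Q k ∈ Finset.range (2 ^ n + 1) := by
    intro k hk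
    rw [Finset.mem_range] at hk ⊢
    have h1 : 2 ^ (k + 1) ≤ 2 ^ n := Nat.pow_le_pow_right (by norm_num) hk
    have := hQ k
    omega
  rw [← Finset.sum_fiberwise_of_maps_to hmaps]
  have h1 : ∀ q ∈ Finset.range (2 ^ n + 1),
      ∑ k ∈ (Finset.range n).filter (fun k => Q k = q), (2 : ℝ)⁻¹ ^ k * v (Q k) ≤
        4 * (v q / q) := by
    intro q _
    by_cases hq : q = 0
    · rw [Finset.sum_eq_zero]
      · have := hv q
        positivity
      · intro k hk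
        rw [Finset.mem_filter] at hk
        have := hQ1 k
        omega
    · have hex : ∃ k, q ≤ 2 ^ (k + 1) := by
        refine ⟨q, ?_⟩
        have := Nat.lt_two_pow_self (n := q)
        have h2 : 2 ^ q ≤ 2 ^ (q + 1) := Nat.pow_le_pow_right (by norm_num) (by omega)
        omega
      have hk0 := Nat.find_spec hex
      have hmin := fun k (hk : k < Nat.find hex) => Nat.find_min hex hk
      generalize Nat.find hex = k0 at hk0 hmin
      have h2 : ∑ k ∈ (Finset.range n).filter (fun k => Q k = q), (2 : ℝ)⁻¹ ^ k * v (Q k) ≤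
          ∑ k ∈ (Finset.range n).filter (fun k => k0 ≤ k), (2 : ℝ)⁻¹ ^ k * v q := by
        have e : ∑ k ∈ (Finset.range n).filter (fun k => Q k = q), (2 : ℝ)⁻¹ ^ k * v (Q k) =
            ∑ k ∈ (Finset.range n).filter (fun k => Q k = q), (2 : ℝ)⁻¹ ^ k * v q := by
          apply Finset.sum_congr rfl
          intro k hk
          rw [(Finset.mem_filter.mp hk).2]
        rw [e]
        refine Finset.sum_le_sum_of_subset_of_nonneg ?_ fun i _ _ =>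
          mul_nonneg (by positivity) (hv q)
        intro k hk
        rw [Finset.mem_filter] at hk ⊢
        refine ⟨hk.1, ?_⟩
        by_contra h3
        have h4 := hmin k (by omega)
        have h5 := hQ k
        rw [hk.2] at h5
        exact h4 h5
      refine h2.trans ?_
      rw [← Finset.sum_mul]
      refine (mul_le_mul_of_nonneg_right (geo_filter_le k0 n) (hv q)).trans ?_
      have hq0 : (0 : ℝ) < q := by exact_mod_cast Nat.pos_of_ne_zero hq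
      have h6 : (2 : ℝ)⁻¹ ^ k0 ≤ 2 / q := by
        rw [le_div_iff₀ hq0]
        have h7 : (q : ℝ) ≤ 2 ^ (k0 + 1) := by exact_mod_cast hk0
        calc (2 : ℝ)⁻¹ ^ k0 * q ≤ (2 : ℝ)⁻¹ ^ k0 * 2 ^ (k0 + 1) :=
              mul_le_mul_of_nonneg_left h7 (by positivity)
          _ = 2 := by
              rw [pow_succ, ← mul_assoc, ← mul_pow, inv_mul_cancel₀ (by norm_num), one_pow,
                one_mul]
      calc 2 * (2 : ℝ)⁻¹ ^ k0 * v q ≤ 2 * (2 / q) * v q :=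
            mul_le_mul_of_nonneg_right (by linarith) (hv q)
        _ = 4 * (v q / q) := by ring
  refine (Finset.sum_le_sum h1).trans ?_
  rw [← Finset.mul_sum]
  refine mul_le_mul_of_nonneg_left ?_ (by norm_num)
  refine hs.sum_le_tsum _ fun q _ => ?_
  exact div_nonneg (hv q) (Nat.cast_nonneg q)

/-- the consequence of the key inequality for one pair of big records. -/
theorem one_step {l : ℂ} (hl : ‖l‖ = 1) (hl' : ∀ n : ℕ, 1 ≤ n → l ^ n ≠ 1) {a : ℕ → ℝ}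
    (ha : ∀ k, 0 ≤ a k) {A : ℝ} (hA : ∀ n, ∑ k ∈ Finset.range n, a k ≤ A) {C : ℝ} (hC : 1 ≤ C)
    (hkey : ∀ q q' m K : ℕ, 1 ≤ q → 40 ≤ q' →
      (∀ ζ : ℂ, ‖ζ‖ = 1 → ∃ j < q', ‖ζ - l ^ j‖ ≤ 5 / q') → 1 ≤ m → m ≤ K →
      a K ≤ ‖l ^ q - 1‖ → (q' : ℝ) ^ 2 * a m ≤ 1 → C * (q' : ℝ) ^ 4 * ‖l ^ q - 1‖ ≤ 1 →
      Real.log (1 / ‖l ^ q - 1‖) ≤
        C * (m + q * (1 / q' + ∑ k ∈ Finset.Icc m K, a k + (q' : ℝ) ^ 2 * a m)
          + Real.log q')) {q' q r : ℕ} (h40 : 40 ≤ q') (hAN : A + 5 ≤ q') (hCN : C ≤ q')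
    (hqr : q ≤ r) (hrec : ∀ j, 1 ≤ j → j < q' → ‖l ^ q' - 1‖ < ‖l ^ j - 1‖)
    (hbig' : (q' : ℝ) ^ 8 * ‖l ^ q' - 1‖ ≤ 1) (hbig : (q : ℝ) ^ 8 * ‖l ^ q - 1‖ ≤ 1)
    (hgrow : q' ^ 8 ≤ q) (hgap : 2 ≤ (r : ℝ) * ‖l ^ q - 1‖) :
    ∃ m K : ℕ, 1 ≤ m ∧ m ≤ K ∧ Nat.sqrt q ≤ m ∧ K + 1 ≤ r ^ 2 ∧
      Real.log (1 / ‖l ^ q - 1‖) / q ≤ C * (5 * (1 / q') + ∑ k ∈ Finset.Icc m K, a k) := by
  have hA0 : 0 ≤ A := by simpa using hA 0
  have hq'R : (40 : ℝ) ≤ q' := by exact_mod_cast h40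
  have hq'0 : (0 : ℝ) < q' := by linarith
  have hq'q : q' ≤ q := le_trans (by
    calc q' = q' ^ 1 := (pow_one _).symm
      _ ≤ q' ^ 8 := Nat.pow_le_pow_right (by omega) (by norm_num)) hgrow
  have hq1 : 1 ≤ q := by omega
  have hqR : (1 : ℝ) ≤ q := by exact_mod_cast hq1
  have hq0 : (0 : ℝ) < q := by linarith
  have hr1 : (q : ℝ) ≤ r := by exact_mod_cast hqr
  have hr' : (q' : ℝ) ≤ r := by exact_mod_cast hq'q.trans hqr
  have hε : 0 < ‖l ^ q - 1‖ := norm_pos_iff.mpr (sub_ne_zero.mpr (hl' q hq1))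
  have hε' : 0 < ‖l ^ q' - 1‖ := norm_pos_iff.mpr (sub_ne_zero.mpr (hl' q' (by omega)))
  generalize hεd : ‖l ^ q - 1‖ = ε at *
  set M := Nat.sqrt q with hM
  have hMq : M * M ≤ q := Nat.sqrt_le q
  have hM4 : q' ^ 4 ≤ M := by
    rw [hM, Nat.le_sqrt]
    calc q' ^ 4 * q' ^ 4 = q' ^ 8 := by ring
      _ ≤ q := hgrow
  have hM4R : (q' : ℝ) ^ 4 ≤ M := by exact_mod_cast hM4
  have hMqR : (M : ℝ) * M ≤ q := by exact_mod_cast hMq
  have hpos4 : (1 : ℝ) ≤ (q' : ℝ) ^ 4 := one_le_pow₀ (by linarith)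
  have hM0 : 0 < M := by
    have : (0 : ℝ) < M := by linarith
    exact_mod_cast this
  have hM0R : (0 : ℝ) < M := by exact_mod_cast hM0
  have hq'M : (q' : ℝ) ≤ M := by
    refine le_trans ?_ hM4R
    calc (q' : ℝ) = (q' : ℝ) ^ 1 := (pow_one _).symm
      _ ≤ (q' : ℝ) ^ 4 := pow_le_pow_right₀ (by linarith) (by norm_num)
  obtain ⟨m, hm1, hm2, hm3⟩ := pigeon ha hA M M hM0
  obtain ⟨K, hK1, hK2, hK3⟩ := pigeon ha hA (M + M) (⌈A / ε⌉₊ + 1) (by omega)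
  have hJ : A / ε ≤ ((⌈A / ε⌉₊ + 1 : ℕ) : ℝ) := by
    push_cast
    have := Nat.le_ceil (A / ε)
    linarith
  have hJ0 : (0 : ℝ) < ((⌈A / ε⌉₊ + 1 : ℕ) : ℝ) := by positivity
  have haK : a K ≤ ε := by
    rw [div_le_iff₀ hε] at hJ
    exact le_of_mul_le_mul_left (hK3.trans hJ) hJ0
  have ham3 : (q' : ℝ) ^ 3 * a m ≤ 1 := by
    have h1 : (q' : ℝ) ^ 4 * a m ≤ q' := by
      calc (q' : ℝ) ^ 4 * a m ≤ M * a m := mul_le_mul_of_nonneg_right hM4R (ha m)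
        _ ≤ A := hm3
        _ ≤ q' := by linarith
    refine le_of_mul_le_mul_left ?_ hq'0
    calc (q' : ℝ) * ((q' : ℝ) ^ 3 * a m) = (q' : ℝ) ^ 4 * a m := by ring
      _ ≤ (q' : ℝ) := h1
      _ = (q' : ℝ) * 1 := (mul_one _).symm
  have ham2 : (q' : ℝ) ^ 2 * a m ≤ 1 / q' := by
    rw [le_div_iff₀ hq'0]
    calc (q' : ℝ) ^ 2 * a m * q' = (q' : ℝ) ^ 3 * a m := by ring
      _ ≤ 1 := ham3
  have hinv : 1 / (q' : ℝ) ≤ 1 := by
    rw [div_le_one hq'0]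
    linarith
  have hCe : C * (q' : ℝ) ^ 4 * ε ≤ 1 := by
    have h1 : (q' : ℝ) ^ 8 ≤ q := by exact_mod_cast hgrow
    have h2 : (q : ℝ) ≤ (q : ℝ) ^ 8 := by
      calc (q : ℝ) = (q : ℝ) ^ 1 := (pow_one _).symm
        _ ≤ (q : ℝ) ^ 8 := pow_le_pow_right₀ hqR (by norm_num)
    calc C * (q' : ℝ) ^ 4 * ε ≤ q' * (q' : ℝ) ^ 4 * ε := by gcongr
      _ = (q' : ℝ) ^ 5 * ε := by ring
      _ ≤ (q' : ℝ) ^ 8 * ε := by
          gcongr
          · linarith
          · norm_num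
      _ ≤ q * ε := by gcongr
      _ ≤ (q : ℝ) ^ 8 * ε := by gcongr
      _ ≤ 1 := hbig
  have hdense : ∀ ζ : ℂ, ‖ζ‖ = 1 → ∃ j < q', ‖ζ - l ^ j‖ ≤ 5 / q' := by
    refine arith_dense hl hl' (by omega) hrec ?_
    rw [le_div_iff₀ hq'0]
    refine le_trans ?_ hbig'
    rw [mul_comm]
    refine mul_le_mul_of_nonneg_right ?_ hε'.le
    calc (q' : ℝ) = (q' : ℝ) ^ 1 := (pow_one _).symm
      _ ≤ (q' : ℝ) ^ 8 := pow_le_pow_right₀ (by linarith) (by norm_num)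
  have hmain := hkey q q' m K hq1 h40 hdense (by omega) (by omega) (by rw [hεd]; exact haK)
    (ham2.trans hinv) (by rw [hεd]; exact hCe)
  rw [hεd] at hmain
  refine ⟨m, K, by omega, by omega, hm1, ?_, ?_⟩
  · have h1 : ((⌈A / ε⌉₊ : ℕ) : ℝ) < A / ε + 1 :=
      Nat.ceil_lt_add_one (div_nonneg hA0 hε.le)
    have h2 : A / ε ≤ A * r / 2 := by
      rw [div_le_iff₀ hε]
      nlinarith
    have h3 : (K : ℝ) + 1 ≤ M + M + (((⌈A / ε⌉₊ : ℕ) : ℝ) + 1) := by exact_mod_cast hK2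
    have h4 : (M : ℝ) ≤ q := by
      have : M ≤ q := Nat.sqrt_le_self q
      exact_mod_cast this
    have h5 : (K : ℝ) + 1 ≤ (r : ℝ) ^ 2 := by nlinarith
    exact_mod_cast h5
  · rw [div_le_iff₀ hq0]
    refine hmain.trans ?_
    rw [mul_assoc]
    refine mul_le_mul_of_nonneg_left ?_ (by linarith)
    have e1 : (m : ℝ) ≤ 2 * (1 / q') * q := by
      have h1 : (m : ℝ) ≤ 2 * M := by
        have : m ≤ 2 * M := by omega
        exact_mod_cast this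
      have h2 : (M : ℝ) ≤ 1 / q' * q := by
        rw [one_div, inv_mul_eq_div, le_div_iff₀ hq'0]
        exact (mul_le_mul_of_nonneg_left hq'M hM0R.le).trans hMqR
      linarith
    have e2 : Real.log q' ≤ 1 / q' * q := by
      have h1 : Real.log q' ≤ q' := by
        have := Real.log_le_sub_one_of_pos hq'0
        linarith
      refine h1.trans ?_
      rw [one_div, inv_mul_eq_div, le_div_iff₀ hq'0]
      have h2 : (q' : ℝ) * q' ≤ M * M := mul_le_mul hq'M hq'M hq'0.le hM0R.le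
      linarith
    have e3 : (q : ℝ) * ((q' : ℝ) ^ 2 * a m) ≤ q * (1 / q') :=
      mul_le_mul_of_nonneg_left ham2 hq0.le
    calc (m : ℝ) + q * (1 / q' + ∑ k ∈ Finset.Icc m K, a k + (q' : ℝ) ^ 2 * a m) + Real.log q'
        = m + (q * (1 / q') + q * ∑ k ∈ Finset.Icc m K, a k + q * ((q' : ℝ) ^ 2 * a m)) +
          Real.log q' := by ring
      _ ≤ 2 * (1 / q') * q + (q * (1 / q') + q * ∑ k ∈ Finset.Icc m K, a k + q * (1 / q')) +
          1 / q' * q := by linarith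
      _ = (5 * (1 / q') + ∑ k ∈ Finset.Icc m K, a k) * q := by ring

theorem seq_summable {l : ℂ} (hl : ‖l‖ = 1) (hl' : ∀ n : ℕ, 1 ≤ n → l ^ n ≠ 1) {a : ℕ → ℝ}
    (ha : ∀ k, 0 ≤ a k) {A : ℝ} (hA : ∀ n, ∑ k ∈ Finset.range n, a k ≤ A) {C : ℝ} (hC : 1 ≤ C)
    (hkey : ∀ q q' m K : ℕ, 1 ≤ q → 40 ≤ q' →
      (∀ ζ : ℂ, ‖ζ‖ = 1 → ∃ j < q', ‖ζ - l ^ j‖ ≤ 5 / q') → 1 ≤ m → m ≤ K →
      a K ≤ ‖l ^ q - 1‖ → (q' : ℝ) ^ 2 * a m ≤ 1 → C * (q' : ℝ) ^ 4 * ‖l ^ q - 1‖ ≤ 1 →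
      Real.log (1 / ‖l ^ q - 1‖) ≤
        C * (m + q * (1 / q' + ∑ k ∈ Finset.Icc m K, a k + (q' : ℝ) ^ 2 * a m)
          + Real.log q')) {N0 : ℕ} (h40 : 40 ≤ N0) (hAN : A + 5 ≤ N0) (hCN : C ≤ N0)
    {b : ℕ → ℕ} (hb : StrictMono b) (hN : ∀ i, N0 ≤ b i)
    (hrec : ∀ i j, 1 ≤ j → j < b i → ‖l ^ b i - 1‖ < ‖l ^ j - 1‖)
    (hbig : ∀ i, (b i : ℝ) ^ 8 * ‖l ^ b i - 1‖ ≤ 1) :
    Summable fun i => Real.log (1 / ‖l ^ b (i + 1) - 1‖) / b (i + 1) := by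
  have hN' : ∀ i, (N0 : ℝ) ≤ b i := fun i => by exact_mod_cast hN i
  have hbR : ∀ i, (40 : ℝ) ≤ b i := fun i => by
    have : 40 ≤ b i := h40.trans (hN i)
    exact_mod_cast this
  have hgap : ∀ i, 2 ≤ (b (i + 1) : ℝ) * ‖l ^ b i - 1‖ := fun i =>
    arith_gap hl hl' (by have := hN i; omega) (hb (Nat.lt_succ_self i)) (hrec (i + 1))
  have hgrowR : ∀ i, (b i : ℝ) ^ 8 ≤ b (i + 1) := by
    intro i
    have h1 := hgap i
    have h2 := hbig i
    have h3 : (0 : ℝ) ≤ (b i : ℝ) ^ 8 := by positivity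
    have h4 : (0 : ℝ) ≤ b (i + 1) := by positivity
    calc (b i : ℝ) ^ 8 ≤ (b i : ℝ) ^ 8 * 2 := by linarith
      _ ≤ (b i : ℝ) ^ 8 * ((b (i + 1) : ℝ) * ‖l ^ b i - 1‖) := by gcongr
      _ = (b (i + 1) : ℝ) * ((b i : ℝ) ^ 8 * ‖l ^ b i - 1‖) := by ring
      _ ≤ (b (i + 1) : ℝ) * 1 := by gcongr
      _ = b (i + 1) := mul_one _
  have hgrow : ∀ i, b i ^ 8 ≤ b (i + 1) := fun i => by exact_mod_cast hgrowR i
  have hpow : ∀ i, (2 : ℝ) ^ i ≤ b i := by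
    intro i
    induction i with
    | zero =>
      have := hbR 0
      rw [pow_zero]
      linarith
    | succ i ih =>
      have h1 := hbR i
      have h2 := hgrowR i
      have h3 : (b i : ℝ) ^ 2 ≤ (b i : ℝ) ^ 8 := pow_le_pow_right₀ (by linarith) (by norm_num)
      rw [pow_succ]
      nlinarith
  have hex : ∀ i, ∃ m K : ℕ, 1 ≤ m ∧ m ≤ K ∧ Nat.sqrt (b (i + 1)) ≤ m ∧ K + 1 ≤ b (i + 2) ^ 2 ∧
      Real.log (1 / ‖l ^ b (i + 1) - 1‖) / b (i + 1) ≤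
        C * (5 * (1 / b i) + ∑ k ∈ Finset.Icc m K, a k) := fun i =>
    one_step hl hl' ha hA hC hkey (h40.trans (hN i)) (hAN.trans (hN' i)) (hCN.trans (hN' i))
      (hb (Nat.lt_succ_self (i + 1))).le (hrec i) (hbig i) (hbig (i + 1)) (hgrow i) (hgap (i + 1))
  choose m K h1 h2 h3 h4 h5 using hex
  have hK : ∀ i, K i + 1 ≤ m (i + 2) := by
    intro i
    refine (h4 i).trans (le_trans ?_ (h3 (i + 2)))
    rw [Nat.le_sqrt]
    refine le_trans ?_ (hgrow (i + 2))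
    have := hN (i + 2)
    calc b (i + 2) ^ 2 * b (i + 2) ^ 2 = b (i + 2) ^ 4 := by ring
      _ ≤ b (i + 2) ^ 8 := Nat.pow_le_pow_right (by omega) (by norm_num)
  have hD : Summable fun i => ∑ k ∈ Finset.Icc (m i) (K i), a k := by
    refine summable_of_sum_range_le (c := A + A) (fun i => Finset.sum_nonneg fun k _ => ha k)
      fun n => ?_
    exact (double_cover ha hK h2 n).trans (add_le_add (hA _) (hA _))
  have hB : Summable fun i => 1 / (b i : ℝ) := by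
    refine Summable.of_nonneg_of_le (fun i => by positivity) (fun i => ?_)
      (summable_geometric_of_lt_one (r := (2 : ℝ)⁻¹) (by norm_num) (by norm_num))
    rw [inv_pow, ← one_div]
    exact one_div_le_one_div_of_le (by positivity) (hpow i)
  refine Summable.of_nonneg_of_le (fun i => ?_) (fun i => h5 i)
    (((hB.mul_left 5).add hD).mul_left C)
  refine div_nonneg (Real.log_nonneg ?_) (by positivity)
  have h6 := hbig (i + 1)
  have h7 : (1 : ℝ) ≤ (b (i + 1) : ℝ) ^ 8 := one_le_pow₀ (by linarith [hbR (i + 1)])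
  have h8 : 0 < ‖l ^ b (i + 1) - 1‖ :=
    norm_pos_iff.mpr (sub_ne_zero.mpr (hl' _ (by have := hN (i + 1); omega)))
  rw [le_div_iff₀ h8, one_mul]
  nlinarith

theorem arith {l : ℂ} (hl : ‖l‖ = 1) (hl' : ∀ n : ℕ, 1 ≤ n → l ^ n ≠ 1) {a : ℕ → ℝ}
    (ha : ∀ k, 0 ≤ a k) {A : ℝ} (hA : ∀ n, ∑ k ∈ Finset.range n, a k ≤ A) {C : ℝ} (hC : 1 ≤ C)
    (hkey : ∀ q q' m K : ℕ, 1 ≤ q → 40 ≤ q' →
      (∀ ζ : ℂ, ‖ζ‖ = 1 → ∃ j < q', ‖ζ - l ^ j‖ ≤ 5 / q') → 1 ≤ m → m ≤ K →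
      a K ≤ ‖l ^ q - 1‖ → (q' : ℝ) ^ 2 * a m ≤ 1 → C * (q' : ℝ) ^ 4 * ‖l ^ q - 1‖ ≤ 1 →
      Real.log (1 / ‖l ^ q - 1‖) ≤
        C * (m + q * (1 / q' + ∑ k ∈ Finset.Icc m K, a k + (q' : ℝ) ^ 2 * a m)
          + Real.log q')) : Brjuno l := by
  classical
  obtain ⟨N0, hN0⟩ := exists_nat_ge (max 40 (max (A + 5) C))
  have h40R : (40 : ℝ) ≤ N0 := (le_max_left _ _).trans hN0
  have h40 : 40 ≤ N0 := by exact_mod_cast h40R
  have hAN : A + 5 ≤ N0 := ((le_max_left _ _).trans (le_max_right _ _)).trans hN0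
  have hCN : C ≤ N0 := ((le_max_right _ _).trans (le_max_right _ _)).trans hN0
  have hd : ∀ n, 1 ≤ n → 0 < ‖l ^ n - 1‖ := fun n hn =>
    norm_pos_iff.mpr (sub_ne_zero.mpr (hl' n hn))
  let B : ℕ → Prop := fun q => N0 ≤ q ∧ (∀ j, 1 ≤ j → j < q → ‖l ^ q - 1‖ < ‖l ^ j - 1‖) ∧
    (q : ℝ) ^ 8 * ‖l ^ q - 1‖ ≤ 1
  let v : ℕ → ℝ := fun q => if B q then Real.log (1 / ‖l ^ q - 1‖) else 0
  have hv : ∀ q, 0 ≤ v q := by
    intro q
    change 0 ≤ if B q then Real.log (1 / ‖l ^ q - 1‖) else 0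
    split_ifs with hB
    · obtain ⟨h1, _, h3⟩ := hB
      have hq1 : 1 ≤ q := by omega
      have h4 : (1 : ℝ) ≤ (q : ℝ) ^ 8 := one_le_pow₀ (by exact_mod_cast hq1)
      have h5 := hd q hq1
      apply Real.log_nonneg
      rw [le_div_iff₀ h5, one_mul]
      nlinarith
    · exact le_refl _
  have hvs : Summable fun q : ℕ => v q / q := by
    by_cases hinf : (setOf B).Infinite
    · have hmono : StrictMono (Nat.nth B) := Nat.nth_strictMono hinf
      have hmem : ∀ i, B (Nat.nth B i) := fun i => Nat.nth_mem_of_infinite hinf i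
      have h1 := seq_summable hl hl' ha hA hC hkey h40 hAN hCN hmono (fun i => (hmem i).1)
        (fun i => (hmem i).2.1) (fun i => (hmem i).2.2)
      have h2 : Summable ((fun q : ℕ => v q / q) ∘ Nat.nth B) := by
        refine (summable_nat_add_iff 1).mp (h1.congr fun i => ?_)
        change _ = (if B (Nat.nth B (i + 1)) then _ else _) / _
        rw [if_pos (hmem (i + 1))]
      refine (Function.Injective.summable_iff hmono.injective fun q hq => ?_).mp h2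
      rw [Nat.range_nth_of_infinite hinf] at hq
      have hq' : ¬ B q := hq
      change (if B q then _ else _) / _ = _
      rw [if_neg hq', zero_div]
    · have hfin : (setOf B).Finite := Set.not_infinite.mp hinf
      refine summable_of_ne_finset_zero (s := hfin.toFinset) fun q hq => ?_
      rw [Set.Finite.mem_toFinset] at hq
      have hq' : ¬ B q := hq
      change (if B q then _ else _) / _ = _
      rw [if_neg hq', zero_div]
  choose Q hQ1 hQ2 hQ3 hQ4 using fun k : ℕ => exists_record l (m := 2 ^ (k + 1)) Nat.one_le_two_pow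
  have hs1 : Summable fun k => (2 : ℝ)⁻¹ ^ k * v (Q k) := summable_group hQ1 hQ2 hv hvs
  let c0 : ℝ := ∑ q ∈ Finset.range N0, |Real.log (1 / ‖l ^ q - 1‖)|
  have hc0 : 0 ≤ c0 := Finset.sum_nonneg fun q _ => abs_nonneg _
  have hrest : ∀ k : ℕ, ‖(2 : ℝ)⁻¹ ^ k * Real.log (1 / Om l (2 ^ (k + 1))) -
      (2 : ℝ)⁻¹ ^ k * v (Q k)‖ ≤ (2 : ℝ)⁻¹ ^ k * (c0 + 9 + 8 * k) := by
    intro k
    have hk0 : (0 : ℝ) ≤ k := Nat.cast_nonneg k
    rw [hQ3 k, ← mul_sub, norm_mul, norm_pow, norm_inv, Real.norm_ofNat]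
    refine mul_le_mul_of_nonneg_left ?_ (by positivity)
    change ‖_ - (if B (Q k) then _ else _)‖ ≤ _
    split_ifs with hB
    · rw [sub_self, norm_zero]
      positivity
    · rw [sub_zero, Real.norm_eq_abs]
      by_cases hlt : Q k < N0
      · have h1 : |Real.log (1 / ‖l ^ Q k - 1‖)| ≤ c0 :=
          Finset.single_le_sum (f := fun q => |Real.log (1 / ‖l ^ q - 1‖)|)
            (fun q _ => abs_nonneg _) (Finset.mem_range.mpr hlt)
        linarith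
      · have h1 : 1 < (Q k : ℝ) ^ 8 * ‖l ^ Q k - 1‖ := by
          by_contra h2
          exact hB ⟨not_lt.mp hlt, hQ4 k, not_lt.mp h2⟩
        have h3 := hd (Q k) (hQ1 k)
        have h4 : ‖l ^ Q k - 1‖ ≤ 2 := by
          refine (norm_sub_le _ _).trans ?_
          rw [norm_pow, hl, one_pow, norm_one]
          norm_num
        have h5 : Real.log ‖l ^ Q k - 1‖ ≤ 1 := by
          have := Real.log_le_sub_one_of_pos h3
          linarith
        have hQR : (1 : ℝ) ≤ Q k := by exact_mod_cast hQ1 k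
        have h6 : Real.log (Q k) ≤ k + 1 := by
          have h7 : (Q k : ℝ) ≤ 2 ^ (k + 1) := by exact_mod_cast hQ2 k
          have h8 := Real.log_le_log (by linarith) h7
          rw [Real.log_pow] at h8
          have h9 := Real.log_le_sub_one_of_pos (x := 2) (by norm_num)
          push_cast at h8
          nlinarith
        have h10 : -Real.log ‖l ^ Q k - 1‖ ≤ 8 * (k + 1) := by
          have h11 : Real.log 1 ≤ Real.log ((Q k : ℝ) ^ 8 * ‖l ^ Q k - 1‖) :=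
            Real.log_le_log one_pos h1.le
          rw [Real.log_one, Real.log_mul (by positivity) h3.ne', Real.log_pow] at h11
          push_cast at h11
          linarith
        rw [one_div, Real.log_inv, abs_le]
        constructor
        · linarith
        · linarith
  have hs2 : Summable fun k : ℕ => (2 : ℝ)⁻¹ ^ k * (c0 + 9 + 8 * k) := by
    have h1 : Summable fun k : ℕ => (2 : ℝ)⁻¹ ^ k * (c0 + 9) :=
      (summable_geometric_of_lt_one (r := (2 : ℝ)⁻¹) (by norm_num) (by norm_num)).mul_right _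
    have h2 : Summable fun k : ℕ => (k : ℝ) ^ 1 * (2 : ℝ)⁻¹ ^ k :=
      summable_pow_mul_geometric_of_norm_lt_one 1 (by norm_num)
    refine (h1.add (h2.mul_left 8)).congr fun k => ?_
    ring
  have h3 := (Summable.of_norm_bounded hs2 hrest).add hs1
  refine h3.congr fun k => ?_
  ring

end DY
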