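import Pool.Agent.Lib.MP_40021b_an.BrFormal

/-!
# MP_40021b_an, module BR4: convergence of the formal linearization and the local inverse
-/

namespace DY

open Complex Metric Set Filter Topology Polynomial

/-- absolute convergence of a power series at a point. -/
def PSConv (f : PowerSeries ℂ) (w : ℂ) : Prop :=
  Summable fun n => ‖PowerSeries.coeff n f * w ^ n‖

/-- the value of a power series at a point. -/
noncomputable def psVal (f : PowerSeries ℂ) (w : ℂ) : ℂ :=
  ∑' n, PowerSeries.coeff n f * w ^ n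

lemma PSConv.add {f g : PowerSeries ℂ} {w : ℂ} (hf : PSConv f w) (hg : PSConv g w) :
    PSConv (f + g) w ∧ psVal (f + g) w = psVal f w + psVal g w := by
  have h : ∀ n, PowerSeries.coeff n (f + g) * w ^ n =
      PowerSeries.coeff n f * w ^ n + PowerSeries.coeff n g * w ^ n := by
    intro n
    rw [map_add, add_mul]
  constructor
  · unfold PSConv
    simp_rw [h]
    exact (Summable.add hf hg).of_nonneg_of_le (fun _ => norm_nonneg _)
      (fun n => norm_add_le _ _)
  · unfold psVal
    simp_rw [h]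
    exact (Summable.of_norm hf).tsum_add (Summable.of_norm hg)

lemma PSConv.mul {f g : PowerSeries ℂ} {w : ℂ} (hf : PSConv f w) (hg : PSConv g w) :
    PSConv (f * g) w ∧ psVal (f * g) w = psVal f w * psVal g w := by
  obtain ⟨u, hu⟩ : ∃ u : ℕ → ℂ, u = fun n => PowerSeries.coeff n f * w ^ n := ⟨_, rfl⟩
  obtain ⟨v, hv⟩ : ∃ v : ℕ → ℂ, v = fun n => PowerSeries.coeff n g * w ^ n := ⟨_, rfl⟩
  have hf' : Summable fun n => ‖u n‖ := by
    rw [hu]
    exact hf
  have hg' : Summable fun n => ‖v n‖ := by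
    rw [hv]
    exact hg
  have h : (fun n => PowerSeries.coeff n (f * g) * w ^ n) =
      fun n => ∑ kl ∈ Finset.HasAntidiagonal.antidiagonal n, u kl.1 * v kl.2 := by
    funext n
    rw [PowerSeries.coeff_mul, Finset.sum_mul]
    refine Finset.sum_congr rfl fun kl hkl => ?_
    have h2 : kl.1 + kl.2 = n := Finset.HasAntidiagonal.mem_antidiagonal.1 hkl
    rw [hu, hv, ← h2, pow_add]
    ring
  have h1 := summable_norm_sum_mul_antidiagonal_of_summable_norm hf' hg'
  have h2 := tsum_mul_tsum_eq_tsum_sum_antidiagonal_of_summable_norm hf' hg'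
  rw [← h] at h2
  constructor
  · have h3 : (fun n => ‖PowerSeries.coeff n (f * g) * w ^ n‖) =
        fun n => ‖∑ kl ∈ Finset.HasAntidiagonal.antidiagonal n, u kl.1 * v kl.2‖ := by
      funext n
      exact congrArg norm (congrFun h n)
    unfold PSConv
    rw [h3]
    exact h1
  · rw [hu, hv] at h2
    exact h2.symm

lemma PSConv.const (a w : ℂ) : PSConv (PowerSeries.C a) w ∧ psVal (PowerSeries.C a) w = a := by
  have h : ∀ n, n ≠ 0 → PowerSeries.coeff n (PowerSeries.C a) * w ^ n = 0 := by
    intro n hn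
    rw [PowerSeries.coeff_C, if_neg hn, zero_mul]
  constructor
  · refine summable_of_ne_finset_zero (s := {0}) fun n hn => ?_
    rw [Finset.mem_singleton] at hn
    rw [h n hn, norm_zero]
  · unfold psVal
    rw [tsum_eq_single 0 h]
    simp

lemma PSConv.pow {f : PowerSeries ℂ} {w : ℂ} (hf : PSConv f w) (k : ℕ) :
    PSConv (f ^ k) w ∧ psVal (f ^ k) w = psVal f w ^ k := by
  induction k with
  | zero =>
    have h := PSConv.const 1 w
    rw [map_one] at h
    rw [pow_zero, pow_zero]
    exact h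
  | succ n ih =>
    have h := ih.1.mul hf
    rw [pow_succ, pow_succ, h.2, ih.2]
    exact ⟨h.1, rfl⟩

lemma PSConv.aeval {f : PowerSeries ℂ} {w : ℂ} (hf : PSConv f w) (P : ℂ[X]) :
    PSConv (Polynomial.aeval f P) w ∧ psVal (Polynomial.aeval f P) w = P.eval (psVal f w) := by
  induction P using Polynomial.induction_on' with
  | add p q hp hq =>
    have h := hp.1.add hq.1
    rw [map_add, Polynomial.eval_add, h.2, hp.2, hq.2]
    exact ⟨h.1, rfl⟩
  | monomial n a =>
    have h1 := hf.pow n
    have h2 := PSConv.const a w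
    have h3 := h2.1.mul h1.1
    have h4 : (Polynomial.aeval f) (Polynomial.monomial n a) = PowerSeries.C a * f ^ n := by
      rw [Polynomial.aeval_monomial]
      rfl
    rw [h4, h3.2, h2.2, h1.2, Polynomial.eval_monomial]
    exact ⟨h3.1, rfl⟩

lemma psConv_of_bound {f : PowerSeries ℂ} {C : ℝ} (hC : 0 ≤ C)
    (hf : ∀ n, ‖PowerSeries.coeff n f‖ ≤ C ^ n) {w : ℂ} (hw : C * ‖w‖ < 1) : PSConv f w := by
  refine (summable_geometric_of_lt_one (mul_nonneg hC (norm_nonneg w)) hw).of_nonneg_of_le
    (fun _ => norm_nonneg _) fun n => ?_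
  rw [norm_mul, norm_pow, mul_pow]
  exact mul_le_mul_of_nonneg_right (hf n) (pow_nonneg (norm_nonneg w) n)

theorem brjuno_converse {P : ℂ[X]} (h0 : P.eval 0 = 0) {l : ℂ} (hd : P.derivative.eval 0 = l)
    (hl : ‖l‖ = 1) (hl' : ∀ n : ℕ, 1 ≤ n → l ^ n ≠ 1) (hB : Brjuno l) :
    Linearizable (pm P) l := by
  obtain ⟨φ, C, hφ0, hφ1, hφ, hfe⟩ := brjuno_formal h0 hd hl hl' hB
  have hC : 1 ≤ C := by
    have h := hφ 1
    rwa [hφ1, norm_one, pow_one] at h
  have hC0 : 0 < C := by linarith
  -- the analytic function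
  have hp : HasFPowerSeriesAt (psVal φ)
      (FormalMultilinearSeries.ofScalars ℂ (fun n => PowerSeries.coeff n φ)) 0 := by
    have hr : (0 : ENNReal) <
        (FormalMultilinearSeries.ofScalars ℂ (fun n => PowerSeries.coeff n φ)).radius := by
      refine lt_of_lt_of_le ?_
        (FormalMultilinearSeries.le_radius_of_bound _ 1 (r := Real.toNNReal C⁻¹) ?_)
      · rw [ENNReal.coe_pos]
        exact Real.toNNReal_pos.2 (inv_pos.2 hC0)
      · intro n
        rw [FormalMultilinearSeries.ofScalars_norm, Real.coe_toNNReal _ (inv_nonneg.2 hC0.le)]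
        calc ‖PowerSeries.coeff n φ‖ * C⁻¹ ^ n ≤ C ^ n * C⁻¹ ^ n :=
              mul_le_mul_of_nonneg_right (hφ n) (pow_nonneg (inv_nonneg.2 hC0.le) n)
          _ = 1 := by rw [← mul_pow, mul_inv_cancel₀ hC0.ne', one_pow]
    have h2 := (FormalMultilinearSeries.ofScalars ℂ
      (fun n => PowerSeries.coeff n φ)).hasFPowerSeriesOnBall hr
    have h3 : (FormalMultilinearSeries.ofScalars ℂ (fun n => PowerSeries.coeff n φ)).sum =
        psVal φ := by
      funext w
      have h4 := FormalMultilinearSeries.ofScalars_sum_eq (E := ℂ)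
        (fun n => PowerSeries.coeff n φ) w
      exact h4
    rw [h3] at h2
    exact h2.hasFPowerSeriesAt
  have hA : AnalyticAt ℂ (psVal φ) 0 := hp.analyticAt
  have hder : deriv (psVal φ) 0 = 1 := by
    rw [hp.deriv, FormalMultilinearSeries.ofScalars_apply_eq, hφ1]
    simp
  have hder0 : deriv (psVal φ) 0 ≠ 0 := by
    rw [hder]
    exact one_ne_zero
  have hval0 : psVal φ 0 = 0 := by
    unfold psVal
    rw [tsum_eq_single 0]
    · rw [hφ0, zero_mul]
    · intro n hn
      rw [zero_pow hn, mul_zero]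
  -- the functional equation
  have hev : ∀ᶠ w in 𝓝 (0 : ℂ), P.eval (psVal φ w) = psVal φ (l * w) := by
    have h1 : ∀ᶠ w in 𝓝 (0 : ℂ), C * ‖w‖ < 1 := by
      have h2 : Tendsto (fun w : ℂ => C * ‖w‖) (𝓝 0) (𝓝 (C * ‖(0 : ℂ)‖)) :=
        (continuous_const.mul continuous_norm).tendsto 0
      rw [norm_zero, mul_zero] at h2
      exact h2.eventually (gt_mem_nhds one_pos)
    filter_upwards [h1] with w hw
    have h3 := (psConv_of_bound hC0.le hφ hw).aeval P
    rw [← h3.2]
    unfold psVal
    refine tsum_congr fun n => ?_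
    rw [hfe n, mul_pow]
    ring
  have hlin : Tendsto (fun w : ℂ => l * w) (𝓝 0) (𝓝 0) := by
    have h : Tendsto (fun w : ℂ => l * w) (𝓝 0) (𝓝 (l * 0)) :=
      (continuous_const_mul l).tendsto 0
    rwa [mul_zero] at h
  refine ⟨hA.hasStrictDerivAt.localInverse _ _ _ hder0, psVal φ, ?_, hA, ?_, hval0, ?_, ?_, ?_⟩
  · have h := hA.analyticAt_localInverse hder0
    rwa [hval0] at h
  · have h : (hA.hasStrictDerivAt.localInverse _ _ _ hder0) (psVal φ 0) = 0 :=
      HasStrictFDerivAt.localInverse_apply_image ..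
    rwa [hval0] at h
  · exact HasStrictDerivAt.eventually_left_inverse ..
  · have h := HasStrictDerivAt.eventually_right_inverse (hf := hA.hasStrictDerivAt)
      (hf' := hder0)
    rwa [hval0] at h
  · have h1 := HasStrictDerivAt.eventually_left_inverse (hf := hA.hasStrictDerivAt)
      (hf' := hder0)
    filter_upwards [hev, hlin.eventually h1] with w hw1 hw2
    have h2 : pm P (psVal φ w) = psVal φ (l * w) := hw1
    rw [h2]
    exact hw2

end DY
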