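import Pool.Agent.Lib.MP_40021b_an.Defs

/-! The classical converse (Brjuno's theorem for polynomials): an explicit majorant series. -/

namespace DY

namespace BrMajorantX

theorem sum_inv_sq (n : ℕ) : ∑ a ∈ Finset.range (n + 2), (1 / (a : ℝ) ^ 2) ≤ 2 - 1 / ((n : ℝ) + 1) := by
  induction n with
  | zero => norm_num [Finset.sum_range_succ]
  | succ n ih =>
    rw [Finset.sum_range_succ]
    have h1 : (1 : ℝ) / (((n + 2 : ℕ) : ℝ)) ^ 2 ≤ 1 / ((n : ℝ) + 1) - 1 / ((n : ℝ) + 2) := by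
      push_cast
      have h2 : (0 : ℝ) ≤ (n : ℝ) := Nat.cast_nonneg n
      rw [div_sub_div _ _ (by positivity) (by positivity), div_le_div_iff₀ (by positivity) (by positivity)]
      nlinarith
    have h3 : ((n + 1 : ℕ) : ℝ) + 1 = (n : ℝ) + 2 := by push_cast; ring
    rw [h3]
    linarith

theorem sum_inv_sq_le (n : ℕ) : ∑ a ∈ Finset.range (n + 1), (1 / (a : ℝ) ^ 2) ≤ 2 := by
  rcases n with _ | n
  · norm_num [Finset.sum_range_succ]
  · refine (sum_inv_sq n).trans ?_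
    have : (0 : ℝ) ≤ 1 / ((n : ℝ) + 1) := by positivity
    linarith

theorem anti_fst (n : ℕ) : ∑ p ∈ Finset.HasAntidiagonal.antidiagonal n, (1 / (p.1 : ℝ) ^ 2) ≤ 2 := by
  have h := Finset.Nat.sum_antidiagonal_eq_sum_range_succ (fun a _ : ℕ => (1 / (a : ℝ) ^ 2)) n
  rw [h]
  exact sum_inv_sq_le n

theorem anti_snd (n : ℕ) : ∑ p ∈ Finset.HasAntidiagonal.antidiagonal n, (1 / (p.2 : ℝ) ^ 2) ≤ 2 := by
  have h := Finset.Nat.sum_antidiagonal_swap (n := n) (f := fun p : ℕ × ℕ => (1 / (p.1 : ℝ) ^ 2))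
  simp only [Prod.fst_swap] at h
  rw [h]
  exact anti_fst n

/-- the coefficients of the majorant series -/
noncomputable def sc (n : ℕ) : ℝ := 16 ^ n / (16 * (n : ℝ) ^ 2)

theorem sc_nonneg (n : ℕ) : 0 ≤ sc n := by
  unfold sc
  positivity

theorem sc_mul (n : ℕ) (p : ℕ × ℕ) (hp : p ∈ Finset.HasAntidiagonal.antidiagonal n) :
    sc p.1 * sc p.2 ≤ 16 ^ n / (128 * (n : ℝ) ^ 2) * (1 / (p.1 : ℝ) ^ 2 + 1 / (p.2 : ℝ) ^ 2) := by
  obtain ⟨a, b⟩ := p
  have hab : a + b = n := Finset.HasAntidiagonal.mem_antidiagonal.1 hp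
  subst hab
  rcases Nat.eq_zero_or_pos a with rfl | ha
  · have : sc 0 = 0 := by simp [sc]
    simp only [this, zero_mul]
    positivity
  rcases Nat.eq_zero_or_pos b with rfl | hb
  · have : sc 0 = 0 := by simp [sc]
    simp only [this, mul_zero]
    positivity
  have ha' : (0 : ℝ) < a := Nat.cast_pos.2 ha
  have hb' : (0 : ℝ) < b := Nat.cast_pos.2 hb
  unfold sc
  simp only [Nat.cast_add]
  have e1 : (16 : ℝ) ^ a / (16 * (a : ℝ) ^ 2) * (16 ^ b / (16 * (b : ℝ) ^ 2)) =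
      16 ^ (a + b) * (1 / (256 * ((a : ℝ) ^ 2 * (b : ℝ) ^ 2))) := by
    rw [pow_add]
    field_simp
    ring
  have e2 : (16 : ℝ) ^ (a + b) / (128 * ((a : ℝ) + b) ^ 2) * (1 / (a : ℝ) ^ 2 + 1 / (b : ℝ) ^ 2) =
      16 ^ (a + b) * ((a ^ 2 + b ^ 2) / (128 * ((a : ℝ) + b) ^ 2 * ((a : ℝ) ^ 2 * (b : ℝ) ^ 2))) := by
    field_simp
    ring
  rw [e1, e2]
  refine mul_le_mul_of_nonneg_left ?_ (by positivity)
  rw [div_le_div_iff₀ (by positivity) (by positivity)]
  have h3 : ((a : ℝ) + b) ^ 2 ≤ 2 * (a ^ 2 + b ^ 2) := by nlinarith [sq_nonneg ((a : ℝ) - b)]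
  have h4 : (0 : ℝ) < (a : ℝ) ^ 2 * (b : ℝ) ^ 2 := by positivity
  nlinarith

theorem conv_le (n : ℕ) : ∑ p ∈ Finset.HasAntidiagonal.antidiagonal n, sc p.1 * sc p.2 ≤ sc n / 2 := by
  have h1 : ∑ p ∈ Finset.HasAntidiagonal.antidiagonal n, sc p.1 * sc p.2 ≤
      ∑ p ∈ Finset.HasAntidiagonal.antidiagonal n,
        16 ^ n / (128 * (n : ℝ) ^ 2) * (1 / (p.1 : ℝ) ^ 2 + 1 / (p.2 : ℝ) ^ 2) :=
    Finset.sum_le_sum fun p hp => sc_mul n p hp
  refine h1.trans ?_
  rw [← Finset.mul_sum, Finset.sum_add_distrib]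
  have h2 := anti_fst n
  have h3 := anti_snd n
  have h4 : (0 : ℝ) ≤ 16 ^ n / (128 * (n : ℝ) ^ 2) := by positivity
  have h5 : sc n / 2 = 16 ^ n / (128 * (n : ℝ) ^ 2) * 4 := by
    unfold sc
    rcases Nat.eq_zero_or_pos n with rfl | hn
    · simp
    · have hn' : (0 : ℝ) < n := Nat.cast_pos.2 hn
      field_simp
      norm_num
  rw [h5]
  exact mul_le_mul_of_nonneg_left (by linarith) h4

/-- the majorant series -/
noncomputable def ss : PowerSeries ℝ := PowerSeries.mk sc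

theorem coeff_ss (n : ℕ) : PowerSeries.coeff n ss = sc n := PowerSeries.coeff_mk n sc

theorem pow_le (k : ℕ) : ∀ n, 0 ≤ PowerSeries.coeff n (ss ^ (k + 1)) ∧
    PowerSeries.coeff n (ss ^ (k + 1)) ≤ (1 / 2) ^ k * sc n := by
  induction k with
  | zero =>
    intro n
    rw [zero_add, pow_one, coeff_ss, pow_zero, one_mul]
    exact ⟨sc_nonneg n, le_rfl⟩
  | succ k ih =>
    intro n
    rw [pow_succ, PowerSeries.coeff_mul]
    constructor
    · refine Finset.sum_nonneg fun p _ => mul_nonneg (ih p.1).1 ?_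
      rw [coeff_ss]
      exact sc_nonneg _
    · have h1 : ∑ p ∈ Finset.HasAntidiagonal.antidiagonal n, PowerSeries.coeff p.1 (ss ^ (k + 1)) *
          PowerSeries.coeff p.2 ss ≤ ∑ p ∈ Finset.HasAntidiagonal.antidiagonal n, (1 / 2) ^ k * (sc p.1 * sc p.2) := by
        refine Finset.sum_le_sum fun p _ => ?_
        rw [coeff_ss, ← mul_assoc]
        exact mul_le_mul_of_nonneg_right (ih p.1).2 (sc_nonneg _)
      refine h1.trans ?_
      rw [← Finset.mul_sum, pow_succ, mul_assoc]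
      refine mul_le_mul_of_nonneg_left ?_ (by positivity)
      have := conv_le n
      linarith

theorem sum_half (d : ℕ) : ∑ k ∈ Finset.Icc 2 d, ((1 : ℝ) / 2) ^ (k - 1) ≤ 1 := by
  have key : ∀ d : ℕ, ∑ k ∈ Finset.Icc 2 (d + 1), ((1 : ℝ) / 2) ^ (k - 1) = 1 - (1 / 2) ^ d := by
    intro d
    induction d with
    | zero => simp
    | succ d ih =>
      rw [Finset.sum_Icc_succ_top (by omega), ih, Nat.add_sub_cancel, pow_succ]
      ring
  rcases d with _ | d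
  · simp
  · rw [key]
    have : (0 : ℝ) ≤ (1 / 2) ^ d := by positivity
    linarith

end BrMajorantX

open Complex Metric Set Filter Topology Polynomial

open BrMajorantX in
/-- A majorant series. -/
theorem brjuno_majorant : ∃ (s : PowerSeries ℝ) (A : ℝ), 1 ≤ A ∧
      (∀ n, 0 ≤ PowerSeries.coeff n s) ∧ PowerSeries.coeff 0 s = 0 ∧
      1 ≤ PowerSeries.coeff 1 s ∧ (∀ n, PowerSeries.coeff n s ≤ A ^ n) ∧
      ∀ (d n : ℕ), ∑ k ∈ Finset.Icc 2 d, PowerSeries.coeff n (s ^ k) ≤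
        PowerSeries.coeff n s := by
  refine ⟨ss, 16, by norm_num, ?_, ?_, ?_, ?_, ?_⟩
  · intro n
    rw [coeff_ss]
    exact sc_nonneg n
  · rw [coeff_ss]
    simp [sc]
  · rw [coeff_ss]
    norm_num [sc]
  · intro n
    rw [coeff_ss]
    unfold sc
    rcases Nat.eq_zero_or_pos n with rfl | hn
    · simp
    · have hn' : (1 : ℝ) ≤ n := by exact_mod_cast hn
      refine div_le_self (by positivity) ?_
      nlinarith
  · intro d n
    have h1 : ∑ k ∈ Finset.Icc 2 d, PowerSeries.coeff n (ss ^ k) ≤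
        ∑ k ∈ Finset.Icc 2 d, ((1 : ℝ) / 2) ^ (k - 1) * sc n := by
      refine Finset.sum_le_sum fun k hk => ?_
      have hk2 : 2 ≤ k := (Finset.mem_Icc.1 hk).1
      have := (pow_le (k - 1) n).2
      rwa [Nat.sub_add_cancel (by omega)] at this
    refine h1.trans ?_
    rw [← Finset.sum_mul, coeff_ss]
    have h2 := sum_half d
    have h3 := sc_nonneg n
    nlinarith

end DY
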