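import Pool.Agent.Lib.MP_40021b_an.Defs

/-!
# MP_40021b_an, module BR1: Brjuno's counting lemma in the form of superadditive weights

For a set `S` of positive integers, all `> m` and with gaps `> m`, the explicit function
`brU S m` is superadditive, jumps by one at `a + b` when `a + b - 1` is in `S`, and is at most
`2 n / m`.
-/

namespace DY

open Complex Metric Set Filter Topology Polynomial

/-- The explicit superadditive weight. -/
noncomputable def brU (S : ℕ → Prop) (m n : ℕ) : ℝ :=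
  if n ≤ m then 0 else sInf (insert (2 * (n : ℝ) / m - 1)
    {x | ∃ n' : ℕ, n < n' ∧ S (n' - 1) ∧ x = 2 * (n' : ℝ) / m - 2})

theorem brU_zero {S : ℕ → Prop} {m n : ℕ} (h : n ≤ m) : brU S m n = 0 := by
  rw [brU, if_pos h]

theorem brU_lb {S : ℕ → Prop} {m n : ℕ} (hm : 1 ≤ m) (h : m < n) {y : ℝ}
    (hy : y ∈ insert (2 * (n : ℝ) / m - 1)
      {x | ∃ n' : ℕ, n < n' ∧ S (n' - 1) ∧ x = 2 * (n' : ℝ) / m - 2}) : 0 ≤ y := by
  have hm0 : (0 : ℝ) < m := by exact_mod_cast hm
  have hn : (m : ℝ) < n := by exact_mod_cast h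
  rcases hy with rfl | ⟨n', h1, _, rfl⟩
  · have : 2 ≤ 2 * (n : ℝ) / m := by rw [le_div_iff₀ hm0]; linarith
    linarith
  · have h1' : (n : ℝ) < n' := by exact_mod_cast h1
    have : 2 ≤ 2 * (n' : ℝ) / m := by rw [le_div_iff₀ hm0]; linarith
    linarith

theorem brU_bdd {S : ℕ → Prop} {m n : ℕ} (hm : 1 ≤ m) (h : m < n) :
    BddBelow (insert (2 * (n : ℝ) / m - 1)
      {x | ∃ n' : ℕ, n < n' ∧ S (n' - 1) ∧ x = 2 * (n' : ℝ) / m - 2}) :=
  ⟨0, fun _ hy => brU_lb hm h hy⟩

theorem brU_le1 {S : ℕ → Prop} {m n : ℕ} (hm : 1 ≤ m) (h : m < n) :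
    brU S m n ≤ 2 * (n : ℝ) / m - 1 := by
  rw [brU, if_neg (by omega)]
  exact csInf_le (brU_bdd hm h) (mem_insert _ _)

theorem brU_le2 {S : ℕ → Prop} {m n n' : ℕ} (hm : 1 ≤ m) (h : m < n) (hn : n < n')
    (hS : S (n' - 1)) : brU S m n ≤ 2 * (n' : ℝ) / m - 2 := by
  rw [brU, if_neg (by omega)]
  exact csInf_le (brU_bdd hm h) (mem_insert_of_mem _ ⟨n', hn, hS, rfl⟩)

theorem brU_ge {S : ℕ → Prop} {m n : ℕ} (h : m < n) {x : ℝ}
    (h1 : x ≤ 2 * (n : ℝ) / m - 1)
    (h2 : ∀ n' : ℕ, n < n' → S (n' - 1) → x ≤ 2 * (n' : ℝ) / m - 2) : x ≤ brU S m n := by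
  rw [brU, if_neg (by omega)]
  apply le_csInf (insert_nonempty _ _)
  rintro y (rfl | ⟨n', h3, h4, rfl⟩)
  · exact h1
  · exact h2 n' h3 h4

theorem brU_nonneg {S : ℕ → Prop} {m : ℕ} (hm : 1 ≤ m) (n : ℕ) : 0 ≤ brU S m n := by
  by_cases h : n ≤ m
  · rw [brU_zero h]
  · rw [brU, if_neg h]
    exact le_csInf (insert_nonempty _ _) fun y hy => brU_lb hm (by omega) hy

theorem brU_le {S : ℕ → Prop} {m : ℕ} (hm : 1 ≤ m) (n : ℕ) : brU S m n ≤ 2 * (n : ℝ) / m := by
  by_cases h : n ≤ m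
  · rw [brU_zero h]; positivity
  · have := brU_le1 (S := S) hm (not_le.1 h)
    linarith

/-- Superadditivity, first for `b ≤ a`. -/
theorem brU_super_aux {S : ℕ → Prop} {m : ℕ} (hm : 1 ≤ m) {a b : ℕ}
    (hab : b ≤ a) : brU S m a + brU S m b ≤ brU S m (a + b) := by
  have hm0 : (0 : ℝ) < m := by exact_mod_cast hm
  by_cases ha : a ≤ m
  · rw [brU_zero ha, brU_zero (hab.trans ha), add_zero]
    exact brU_nonneg hm _
  push Not at ha
  have hab' : m < a + b := by omega
  by_cases hb : b ≤ m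
  · rw [brU_zero hb, add_zero]
    rcases Nat.eq_zero_or_pos b with rfl | hb0
    · simp
    apply brU_ge hab'
    · refine (brU_le1 hm ha).trans ?_
      have : (a : ℝ) ≤ ((a + b : ℕ) : ℝ) := by exact_mod_cast Nat.le_add_right a b
      have := div_le_div_of_nonneg_right (by linarith : 2 * (a : ℝ) ≤ 2 * ((a + b : ℕ) : ℝ))
        hm0.le
      linarith
    · intro n' h1 h2
      exact brU_le2 hm ha (by omega) h2
  · push Not at hb
    have h1 := brU_le1 (S := S) hm ha
    have h2 := brU_le1 (S := S) hm hb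
    have h3 : brU S m a + brU S m b ≤ 2 * ((a + b : ℕ) : ℝ) / m - 2 := by
      push_cast
      have : 2 * ((a : ℝ) + b) / m = 2 * (a : ℝ) / m + 2 * (b : ℝ) / m := by ring
      rw [this]
      linarith
    apply brU_ge hab'
    · linarith
    · intro n' h4 _
      refine h3.trans ?_
      have : ((a + b : ℕ) : ℝ) ≤ n' := by exact_mod_cast h4.le
      have := div_le_div_of_nonneg_right (by linarith : 2 * ((a + b : ℕ) : ℝ) ≤ 2 * (n' : ℝ))
        hm0.le
      linarith

theorem brU_super {S : ℕ → Prop} {m : ℕ} (hm : 1 ≤ m) (a b : ℕ) :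
    brU S m a + brU S m b ≤ brU S m (a + b) := by
  rcases le_total b a with h | h
  · exact brU_super_aux hm h
  · have := brU_super_aux (S := S) hm h
    rw [add_comm a b]; linarith

theorem brU_jump_aux {S : ℕ → Prop} {m : ℕ} (hm : 1 ≤ m) (hS : ∀ r, S r → m < r)
    (hgap : ∀ x y, S x → S y → y < x → m < x - y) {a b : ℕ} (hb1 : 1 ≤ b)
    (hab : b ≤ a) (hj : S (a + b - 1)) : brU S m a + brU S m b + 1 ≤ brU S m (a + b) := by
  have hm0 : (0 : ℝ) < m := by exact_mod_cast hm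
  have hr := hS _ hj
  have hab' : m < a + b := by omega
  -- the value at `a + b` is `2 (a + b) / m - 1`
  have hval : 2 * ((a + b : ℕ) : ℝ) / m - 1 ≤ brU S m (a + b) := by
    apply brU_ge hab' le_rfl
    intro n' h1 h2
    have h3 := hgap _ _ h2 hj (by omega)
    have h4 : ((a + b : ℕ) : ℝ) + m ≤ n' := by
      have : a + b + m ≤ n' := by omega
      exact_mod_cast this
    have h5 := div_le_div_of_nonneg_right
      (by linarith : 2 * (((a + b : ℕ) : ℝ) + m) ≤ 2 * (n' : ℝ)) hm0.le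
    have h6 : 2 * (((a + b : ℕ) : ℝ) + m) / m = 2 * ((a + b : ℕ) : ℝ) / m + 2 := by
      field_simp
    linarith
  by_cases ha : a ≤ m
  · rw [brU_zero ha, brU_zero (hab.trans ha)]
    refine le_trans ?_ hval
    have : (m : ℝ) ≤ ((a + b : ℕ) : ℝ) := by exact_mod_cast hab'.le
    have : 2 ≤ 2 * ((a + b : ℕ) : ℝ) / m := by rw [le_div_iff₀ hm0]; linarith
    linarith
  push Not at ha
  by_cases hb : b ≤ m
  · rw [brU_zero hb, add_zero]
    have h1 := brU_le2 (S := S) hm ha (by omega : a < a + b) hj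
    linarith
  · push Not at hb
    have h1 := brU_le1 (S := S) hm ha
    have h2 := brU_le1 (S := S) hm hb
    refine le_trans ?_ hval
    push_cast
    have : 2 * ((a : ℝ) + b) / m = 2 * (a : ℝ) / m + 2 * (b : ℝ) / m := by ring
    rw [this]
    linarith

theorem brU_jump {S : ℕ → Prop} {m : ℕ} (hm : 1 ≤ m) (hS : ∀ r, S r → m < r)
    (hgap : ∀ x y, S x → S y → y < x → m < x - y) {a b : ℕ} (ha1 : 1 ≤ a) (hb1 : 1 ≤ b)
    (hj : S (a + b - 1)) : brU S m a + brU S m b + 1 ≤ brU S m (a + b) := by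
  rcases le_total b a with h | h
  · exact brU_jump_aux hm hS hgap hb1 h hj
  · have := brU_jump_aux (S := S) hm hS hgap ha1 h (by rw [add_comm b a]; exact hj)
    rw [add_comm a b]; linarith

theorem Om_bdd (l : ℂ) (m : ℕ) : BddBelow ((fun k : ℕ => ‖l ^ k - 1‖) '' Set.Icc 1 m) :=
  ⟨0, by rintro _ ⟨k, _, rfl⟩; exact norm_nonneg _⟩

theorem Om_le {l : ℂ} {m k : ℕ} (h1 : 1 ≤ k) (h2 : k ≤ m) : Om l m ≤ ‖l ^ k - 1‖ :=
  csInf_le (Om_bdd l m) ⟨k, ⟨h1, h2⟩, rfl⟩

theorem Om_pos {l : ℂ} (hl' : ∀ n : ℕ, 1 ≤ n → l ^ n ≠ 1) {m : ℕ} (hm : 1 ≤ m) :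
    0 < Om l m := by
  have h1 : ((fun k : ℕ => ‖l ^ k - 1‖) '' Set.Icc 1 m).Nonempty :=
    ⟨_, 1, ⟨le_rfl, hm⟩, rfl⟩
  have h2 : ((fun k : ℕ => ‖l ^ k - 1‖) '' Set.Icc 1 m).Finite := (Set.finite_Icc 1 m).image _
  obtain ⟨k, hk, hk'⟩ := h1.csInf_mem h2
  rw [Om, ← hk']
  exact norm_pos_iff.2 (sub_ne_zero.2 (hl' k hk.1))

theorem norm_pow_sub_one_le_two {l : ℂ} (hl : ‖l‖ = 1) (n : ℕ) : ‖l ^ n - 1‖ ≤ 2 := by
  refine (norm_sub_le _ _).trans ?_
  rw [norm_pow, hl, one_pow, norm_one]; norm_num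

theorem Om_le_two {l : ℂ} (hl : ‖l‖ = 1) {m : ℕ} (hm : 1 ≤ m) : Om l m ≤ 2 :=
  (Om_le le_rfl hm).trans (norm_pow_sub_one_le_two hl 1)

/-- Brjuno's counting lemma in the form of weights. -/
theorem brjuno_weight {l : ℂ} (hl : ‖l‖ = 1) (hl' : ∀ n : ℕ, 1 ≤ n → l ^ n ≠ 1)
    (hB : Brjuno l) : ∃ (K : ℕ → ℝ) (C : ℝ), K 1 = 0 ∧ (∀ n, 0 ≤ K n) ∧
      (∀ a b, 1 ≤ a → 1 ≤ b → K a + K b ≤ K (a + b)) ∧
      (∀ a b, 1 ≤ a → 1 ≤ b → K a + K b + Real.log (1 / ‖l ^ (a + b - 1) - 1‖) ≤ K (a + b)) ∧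
      ∀ n, K n ≤ C * n := by
  -- the sets `S j`, the weights `y j` and `c0`
  set S : ℕ → ℕ → Prop := fun j r => 1 ≤ r ∧ ‖l ^ r - 1‖ < Om l (2 ^ j) / 2 with hSdef
  set U : ℕ → ℕ → ℝ := fun j n => brU (S j) (2 ^ j) n with hUdef
  set y : ℕ → ℝ := fun j => Real.log (2 / Om l (2 ^ (j + 1))) with hydef
  obtain ⟨c0, hc0⟩ : ∃ c0 : ℝ, c0 = Real.log (2 / Om l (2 ^ 0)) := ⟨_, rfl⟩
  have h2j : ∀ j : ℕ, 1 ≤ 2 ^ j := fun j => Nat.one_le_two_pow
  have hOp : ∀ j, 0 < Om l (2 ^ j) := fun j => Om_pos hl' (h2j j)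
  have hlog : ∀ j, 0 ≤ Real.log (2 / Om l (2 ^ j)) := fun j => by
    apply Real.log_nonneg
    rw [one_le_div (hOp j)]
    exact Om_le_two hl (h2j j)
  have hy0 : ∀ j, 0 ≤ y j := fun j => hlog (j + 1)
  have hc00 : 0 ≤ c0 := by rw [hc0]; exact hlog 0
  have hS1 : ∀ j r, S j r → 2 ^ j < r := by
    rintro j r ⟨h1, h2⟩
    by_contra h
    have := Om_le (l := l) h1 (not_lt.1 h)
    have := hOp j
    linarith
  have hgap : ∀ j x z, S j x → S j z → z < x → 2 ^ j < x - z := by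
    rintro j x z ⟨_, h1⟩ ⟨_, h2⟩ hzx
    by_contra h
    have h3 := Om_le (l := l) (by omega : 1 ≤ x - z) (not_lt.1 h)
    have h4 : ‖l ^ (x - z) - 1‖ ≤ ‖l ^ x - 1‖ + ‖l ^ z - 1‖ := by
      have h5 : ‖l ^ (x - z) - 1‖ = ‖l ^ x - l ^ z‖ := by
        have h6 : l ^ x - l ^ z = (l ^ (x - z) - 1) * l ^ z := by
          rw [sub_mul, one_mul, ← pow_add, Nat.sub_add_cancel hzx.le]
        rw [h6, norm_mul, norm_pow, hl, one_pow, mul_one]
      rw [h5]
      have h7 : l ^ x - l ^ z = (l ^ x - 1) - (l ^ z - 1) := by ring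
      rw [h7]
      exact norm_sub_le _ _
    linarith
  have hU0 : ∀ j n, 0 ≤ U j n := fun j n => brU_nonneg (h2j j) n
  have hUs : ∀ j a b, U j a + U j b ≤ U j (a + b) := fun j a b => brU_super (h2j j) a b
  have hUj : ∀ j a b, 1 ≤ a → 1 ≤ b → S j (a + b - 1) → U j a + U j b + 1 ≤ U j (a + b) :=
    fun j a b ha hb h => brU_jump (h2j j) (hS1 j) (hgap j) ha hb h
  have hUz : ∀ j n, n ≤ j → U j n = 0 := fun j n h =>
    brU_zero (h.trans (Nat.lt_two_pow_self).le)
  have hUle : ∀ j n, U j n ≤ 2 * (n : ℝ) / ((2 ^ j : ℕ) : ℝ) := fun j n => brU_le (h2j j) n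
  have hU01 : U 0 1 = 0 := brU_zero (by simp)
  have hyj : ∀ j, y j = Real.log (2 / Om l (2 ^ (j + 1))) := fun _ => rfl
  clear_value U y
  have hext : ∀ n N, n ≤ N → ∑ j ∈ Finset.range n, y j * U j n =
      ∑ j ∈ Finset.range N, y j * U j n := by
    intro n N h
    apply Finset.sum_subset (Finset.range_mono h)
    intro j _ h2
    rw [Finset.mem_range, not_lt] at h2
    rw [hUz j n h2, mul_zero]
  refine ⟨fun n => c0 * ((n - 1 : ℕ) : ℝ) + ∑ j ∈ Finset.range n, y j * U j n,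
    c0 + 2 * ∑' j : ℕ, (2 : ℝ)⁻¹ ^ j * y j, ?_, ?_, ?_, ?_, ?_⟩
  · simp [hU01]
  · intro n
    have : 0 ≤ ∑ j ∈ Finset.range n, y j * U j n :=
      Finset.sum_nonneg fun j _ => mul_nonneg (hy0 j) (hU0 j n)
    exact add_nonneg (mul_nonneg hc00 (Nat.cast_nonneg _)) this
  · intro a b ha hb
    simp only
    rw [hext a (a + b) (by omega), hext b (a + b) (by omega)]
    have h1 : ∑ j ∈ Finset.range (a + b), y j * U j a + ∑ j ∈ Finset.range (a + b), y j * U j b ≤
        ∑ j ∈ Finset.range (a + b), y j * U j (a + b) := by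
      rw [← Finset.sum_add_distrib]
      apply Finset.sum_le_sum
      intro j _
      rw [← mul_add]
      exact mul_le_mul_of_nonneg_left (hUs j a b) (hy0 j)
    have h2 : ((a - 1 : ℕ) : ℝ) + ((b - 1 : ℕ) : ℝ) ≤ ((a + b - 1 : ℕ) : ℝ) := by
      have : a - 1 + (b - 1) ≤ a + b - 1 := by omega
      exact_mod_cast this
    have h3 := mul_le_mul_of_nonneg_left h2 hc00
    linarith
  · intro a b ha hb
    simp only
    rw [hext a (a + b) (by omega), hext b (a + b) (by omega)]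
    have h2 : ((a - 1 : ℕ) : ℝ) + ((b - 1 : ℕ) : ℝ) + 1 = ((a + b - 1 : ℕ) : ℝ) := by
      have : a - 1 + (b - 1) + 1 = a + b - 1 := by omega
      exact_mod_cast this
    have hwr : 0 < ‖l ^ (a + b - 1) - 1‖ :=
      norm_pos_iff.2 (sub_ne_zero.2 (hl' _ (by omega)))
    by_cases hbig : Om l (2 ^ 0) / 2 ≤ ‖l ^ (a + b - 1) - 1‖
    · have h1 : ∑ j ∈ Finset.range (a + b), y j * U j a +
          ∑ j ∈ Finset.range (a + b), y j * U j b ≤
          ∑ j ∈ Finset.range (a + b), y j * U j (a + b) := by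
        rw [← Finset.sum_add_distrib]
        apply Finset.sum_le_sum
        intro j _
        rw [← mul_add]
        exact mul_le_mul_of_nonneg_left (hUs j a b) (hy0 j)
      have h3 : Real.log (1 / ‖l ^ (a + b - 1) - 1‖) ≤ c0 := by
        rw [hc0]
        have hO := hOp 0
        generalize Om l (2 ^ 0) = O0 at hbig hO ⊢
        apply Real.log_le_log (by positivity)
        rw [div_le_div_iff₀ hwr hO]
        linarith
      rw [← h2]
      nlinarith
    · push Not at hbig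
      -- the maximal `j` with `r ∈ S j`
      have hne : ∃ j, ¬ S (j + 1) (a + b - 1) ∧ S j (a + b - 1) := by
        by_contra hcon
        push Not at hcon
        have hall : ∀ j, S j (a + b - 1) := by
          intro j
          induction j with
          | zero => exact ⟨by omega, hbig⟩
          | succ j ih =>
            by_contra h
            exact hcon j h ih
        have h4 := hS1 _ _ (hall (a + b - 1))
        have h5 : a + b - 1 < 2 ^ (a + b - 1) := Nat.lt_two_pow_self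
        omega
      obtain ⟨j, hj1, hj2⟩ := hne
      have hw : Om l (2 ^ (j + 1)) / 2 ≤ ‖l ^ (a + b - 1) - 1‖ := by
        by_contra h
        exact hj1 ⟨by omega, not_le.1 h⟩
      have h3 : Real.log (1 / ‖l ^ (a + b - 1) - 1‖) ≤ y j := by
        rw [hyj]
        apply Real.log_le_log (by positivity)
        rw [div_le_div_iff₀ hwr (hOp (j + 1))]
        linarith
      have hjr : j ∈ Finset.range (a + b) := by
        have h4 := hS1 _ _ hj2
        have h5 : j < 2 ^ j := Nat.lt_two_pow_self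
        rw [Finset.mem_range]; omega
      have h1 : ∑ i ∈ Finset.range (a + b), y i * U i a +
          ∑ i ∈ Finset.range (a + b), y i * U i b + y j ≤
          ∑ i ∈ Finset.range (a + b), y i * U i (a + b) := by
        have h4 : y j = ∑ i ∈ Finset.range (a + b), if i = j then y i else 0 := by
          rw [Finset.sum_ite_eq' (Finset.range (a + b)) j y, if_pos hjr]
        calc ∑ i ∈ Finset.range (a + b), y i * U i a +
              ∑ i ∈ Finset.range (a + b), y i * U i b + y j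
            = ∑ i ∈ Finset.range (a + b), (y i * U i a + y i * U i b +
                if i = j then y i else 0) := by
              rw [Finset.sum_add_distrib, Finset.sum_add_distrib, ← h4]
          _ ≤ _ := by
              apply Finset.sum_le_sum
              intro i _
              by_cases hij : i = j
              · subst hij
                rw [if_pos rfl]
                have := mul_le_mul_of_nonneg_left (hUj i a b ha hb hj2) (hy0 i)
                linarith
              · rw [if_neg hij, add_zero, ← mul_add]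
                exact mul_le_mul_of_nonneg_left (hUs i a b) (hy0 i)
      have h6 : c0 * ((a - 1 : ℕ) : ℝ) + c0 * ((b - 1 : ℕ) : ℝ) ≤
          c0 * ((a + b - 1 : ℕ) : ℝ) := by
        rw [← mul_add]
        apply mul_le_mul_of_nonneg_left _ hc00
        linarith
      linarith
  · intro n
    simp only
    have hsum : Summable fun j : ℕ => (2 : ℝ)⁻¹ ^ j * y j := by
      have h1 : Summable fun j : ℕ => (2 : ℝ)⁻¹ ^ j * Real.log 2 :=
        (summable_geometric_of_lt_one (by norm_num) (by norm_num)).mul_right _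
      have h2 : (fun j : ℕ => (2 : ℝ)⁻¹ ^ j * y j) = fun j : ℕ =>
          (2 : ℝ)⁻¹ ^ j * Real.log 2 + (2 : ℝ)⁻¹ ^ j * Real.log (1 / Om l (2 ^ (j + 1))) := by
        funext j
        rw [← mul_add, ← Real.log_mul (by norm_num) (by have := hOp (j + 1); positivity)]
        rw [hyj]
        congr 2
        ring
      rw [h2]
      exact h1.add hB
    have h1 : ∑ j ∈ Finset.range n, y j * U j n ≤
        ∑ j ∈ Finset.range n, 2 * n * ((2 : ℝ)⁻¹ ^ j * y j) := by
      apply Finset.sum_le_sum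
      intro j _
      have h2 : U j n ≤ 2 * n * (2 : ℝ)⁻¹ ^ j := by
        have := hUle j n
        push_cast at this
        rw [inv_pow]
        exact this
      calc y j * U j n ≤ y j * (2 * n * (2 : ℝ)⁻¹ ^ j) :=
            mul_le_mul_of_nonneg_left h2 (hy0 j)
        _ = _ := by ring
    rw [← Finset.mul_sum] at h1
    have h3 : ∑ j ∈ Finset.range n, (2 : ℝ)⁻¹ ^ j * y j ≤ ∑' j : ℕ, (2 : ℝ)⁻¹ ^ j * y j :=
      hsum.sum_le_tsum _ fun j _ => mul_nonneg (by positivity) (hy0 j)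
    have h4 : c0 * ((n - 1 : ℕ) : ℝ) ≤ c0 * n := by
      apply mul_le_mul_of_nonneg_left _ hc00
      exact_mod_cast Nat.sub_le n 1
    have h5 := mul_le_mul_of_nonneg_left h3 (by positivity : (0 : ℝ) ≤ 2 * n)
    nlinarith

end DY
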