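import Pool.Agent.Lib.MP_40021b_an.BrFormalCore
import Pool.Agent.Lib.MP_40021b_an.BrWeight
import Pool.Agent.Lib.MP_40021b_an.BrMajorant

/-!
# Formal linearization with geometric bound under the Brjuno condition
-/

namespace DY

open Complex Metric Set Filter Topology Polynomial

/-- The formal linearization has geometrically bounded coefficients. -/
theorem brjuno_formal {P : ℂ[X]} (h0 : P.eval 0 = 0) {l : ℂ} (hd : P.derivative.eval 0 = l)
    (hl : ‖l‖ = 1) (hl' : ∀ n : ℕ, 1 ≤ n → l ^ n ≠ 1) (hB : Brjuno l) :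
    ∃ (φ : PowerSeries ℂ) (C : ℝ), PowerSeries.coeff 0 φ = 0 ∧ PowerSeries.coeff 1 φ = 1 ∧
      (∀ n, ‖PowerSeries.coeff n φ‖ ≤ C ^ n) ∧
      ∀ n, PowerSeries.coeff n (Polynomial.aeval φ P) = l ^ n * PowerSeries.coeff n φ := by
  obtain ⟨K, C, -, hK0, hK, hKl, hKC⟩ := brjuno_weight hl hl' hB
  obtain ⟨s, A, hA, hs, hs0, hs1, hsA, hsum⟩ := brjuno_majorant
  obtain ⟨b, hb, hbP⟩ : ∃ b : ℝ, 1 ≤ b ∧ ∀ k, 2 ≤ k → b * ‖P.coeff k‖ ≤ b ^ k := by
    refine ⟨1 + ∑ k ∈ Finset.range (P.natDegree + 1), ‖P.coeff k‖, ?_, ?_⟩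
    · have : 0 ≤ ∑ k ∈ Finset.range (P.natDegree + 1), ‖P.coeff k‖ :=
        Finset.sum_nonneg fun _ _ => norm_nonneg _
      linarith
    · intro k hk
      set b : ℝ := 1 + ∑ k ∈ Finset.range (P.natDegree + 1), ‖P.coeff k‖ with hbdef
      have hnn : 0 ≤ ∑ k ∈ Finset.range (P.natDegree + 1), ‖P.coeff k‖ :=
        Finset.sum_nonneg fun _ _ => norm_nonneg _
      have hb1 : 1 ≤ b := by linarith
      have hkb : ‖P.coeff k‖ ≤ b := by
        rcases Nat.lt_or_ge P.natDegree k with h | h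
        · rw [Polynomial.coeff_eq_zero_of_natDegree_lt h, norm_zero]
          linarith
        · have h1 : ‖P.coeff k‖ ≤ ∑ k ∈ Finset.range (P.natDegree + 1), ‖P.coeff k‖ :=
            Finset.single_le_sum (f := fun k => ‖P.coeff k‖) (fun _ _ => norm_nonneg _)
              (Finset.mem_range.mpr (by omega))
          linarith
      calc b * ‖P.coeff k‖ ≤ b * b := by
            apply mul_le_mul_of_nonneg_left hkb (by linarith)
        _ = b ^ 2 := by ring
        _ ≤ b ^ k := pow_le_pow_right₀ hb1 hk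
  have hb0 : 0 ≤ b := by linarith
  refine ⟨brLS l P, b * Real.exp C * A, coeff_zero_brLS l P, ?_, ?_, brLS_functional h0 hd hl hl'⟩
  · rw [coeff_brLS, brLC_one]
  · intro n
    rw [coeff_brLS]
    have h1 := brLC_bound (P := P) hl hl' hb hbP hs hs0 hs1 hsum hK0 hK hKl n
    have h2 : ‖brLC l P n‖ ≤ b * ‖brLC l P n‖ := by
      have := norm_nonneg (brLC l P n)
      nlinarith
    have h3 : Real.exp (K n) ≤ Real.exp C ^ n := by
      rw [← Real.exp_nat_mul]
      apply Real.exp_le_exp.mpr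
      rw [mul_comm]
      exact hKC n
    calc ‖brLC l P n‖ ≤ b ^ n * Real.exp (K n) * PowerSeries.coeff n s := h2.trans h1
      _ ≤ b ^ n * Real.exp C ^ n * A ^ n := by
          apply mul_le_mul _ (hsA n) (hs n) (by positivity)
          exact mul_le_mul_of_nonneg_left h3 (by positivity)
      _ = (b * Real.exp C * A) ^ n := by
          rw [mul_pow, mul_pow]

end DY
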