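import Pool.Agent.Lib.MP_40021b_an.Defs

/-!
# Formal linearization of a polynomial, with a weighted bound for the coefficients
-/

namespace DY

open Complex Metric Set Filter Topology Polynomial

/-- The coefficients of the formal linearization `φ (l w) = P (φ w)`. -/
noncomputable def brLC (l : ℂ) (P : ℂ[X]) : ℕ → ℂ
  | 0 => 0
  | 1 => 1
  | (n + 2) => (l ^ (n + 2) - l)⁻¹ * ∑ k ∈ Finset.Icc 2 P.natDegree, P.coeff k *
      PowerSeries.coeff (n + 2)
        ((PowerSeries.mk (fun j => if _h : j < n + 2 then brLC l P j else 0)) ^ k)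

/-- The truncation of the formal linearization. -/
noncomputable def brLT (l : ℂ) (P : ℂ[X]) (n : ℕ) : PowerSeries ℂ :=
  PowerSeries.mk (fun j => if j < n then brLC l P j else 0)

/-- The formal linearization. -/
noncomputable def brLS (l : ℂ) (P : ℂ[X]) : PowerSeries ℂ := PowerSeries.mk (brLC l P)

lemma coeff_brLS (l : ℂ) (P : ℂ[X]) (n : ℕ) : PowerSeries.coeff n (brLS l P) = brLC l P n := by
  rw [brLS, PowerSeries.coeff_mk]

lemma coeff_brLT (l : ℂ) (P : ℂ[X]) (n j : ℕ) :
    PowerSeries.coeff j (brLT l P n) = if j < n then brLC l P j else 0 := by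
  rw [brLT, PowerSeries.coeff_mk]

lemma brLC_zero (l : ℂ) (P : ℂ[X]) : brLC l P 0 = 0 := by rw [brLC]

lemma brLC_one (l : ℂ) (P : ℂ[X]) : brLC l P 1 = 1 := by rw [brLC]

lemma brLC_eq (l : ℂ) (P : ℂ[X]) {n : ℕ} (hn : 2 ≤ n) :
    brLC l P n = (l ^ n - l)⁻¹ * ∑ k ∈ Finset.Icc 2 P.natDegree, P.coeff k *
      PowerSeries.coeff n ((brLT l P n) ^ k) := by
  obtain ⟨m, rfl⟩ := Nat.exists_eq_add_of_le' hn
  rw [brLC]
  simp only [brLT, dite_eq_ite]

lemma br_coeff_pow_congr {φ ψ : PowerSeries ℂ} {n : ℕ}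
    (h : ∀ j, j < n → PowerSeries.coeff j φ = PowerSeries.coeff j ψ) (k : ℕ) :
    ∀ m, m < n → PowerSeries.coeff m (φ ^ k) = PowerSeries.coeff m (ψ ^ k) := by
  induction k with
  | zero => intro m _; rw [pow_zero, pow_zero]
  | succ k ih =>
    intro m hm
    rw [pow_succ, pow_succ, PowerSeries.coeff_mul, PowerSeries.coeff_mul]
    refine Finset.sum_congr rfl fun p hp => ?_
    have hp' := Finset.HasAntidiagonal.mem_antidiagonal.mp hp
    rw [ih p.1 (by omega), h p.2 (by omega)]

lemma br_coeff_zero_pow {R : Type*} [CommRing R] {φ : PowerSeries R}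
    (h0 : PowerSeries.coeff 0 φ = 0) {k : ℕ} (hk : 1 ≤ k) :
    PowerSeries.coeff 0 (φ ^ k) = 0 := by
  rw [PowerSeries.coeff_zero_eq_constantCoeff_apply] at h0 ⊢
  rw [map_pow, h0, zero_pow (by omega)]

/-- for `k ≥ 2` the coefficient of index `n` of `φ ^ k` only depends on the coefficients of
index `< n` of `φ`, if `φ` has no constant term. -/
lemma br_coeff_pow_congr' {φ ψ : PowerSeries ℂ} {n : ℕ}
    (h0 : PowerSeries.coeff 0 φ = 0) (h0' : PowerSeries.coeff 0 ψ = 0)
    (h : ∀ j, j < n → PowerSeries.coeff j φ = PowerSeries.coeff j ψ) {k : ℕ} (hk : 2 ≤ k) :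
    PowerSeries.coeff n (φ ^ k) = PowerSeries.coeff n (ψ ^ k) := by
  obtain ⟨m, rfl⟩ := Nat.exists_eq_add_of_le' (show 1 ≤ k by omega)
  rw [pow_succ, pow_succ, PowerSeries.coeff_mul, PowerSeries.coeff_mul]
  refine Finset.sum_congr rfl fun p hp => ?_
  have hp' := Finset.HasAntidiagonal.mem_antidiagonal.mp hp
  rcases Nat.eq_zero_or_pos p.1 with h1 | h1
  · rw [h1, br_coeff_zero_pow h0 (by omega), br_coeff_zero_pow h0' (by omega), zero_mul, zero_mul]
  · rcases Nat.eq_zero_or_pos p.2 with h2 | h2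
    · rw [h2, h0, h0', mul_zero, mul_zero]
    · rw [br_coeff_pow_congr h m p.1 (by omega), h p.2 (by omega)]

lemma coeff_zero_brLS (l : ℂ) (P : ℂ[X]) : PowerSeries.coeff 0 (brLS l P) = 0 := by
  rw [coeff_brLS, brLC_zero]

lemma coeff_zero_brLT (l : ℂ) (P : ℂ[X]) (n : ℕ) : PowerSeries.coeff 0 (brLT l P n) = 0 := by
  rw [coeff_brLT, brLC_zero, ite_self]

/-- the functional equation. -/
lemma brLS_functional {P : ℂ[X]} (h0 : P.eval 0 = 0) {l : ℂ} (hd : P.derivative.eval 0 = l)
    (hl : ‖l‖ = 1) (hl' : ∀ n : ℕ, 1 ≤ n → l ^ n ≠ 1) (n : ℕ) :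
    PowerSeries.coeff n (Polynomial.aeval (brLS l P) P) = l ^ n * PowerSeries.coeff n (brLS l P) := by
  have hl0 : l ≠ 0 := by
    rintro rfl
    simp at hl
  have hc0 : P.coeff 0 = 0 := by rw [Polynomial.coeff_zero_eq_eval_zero, h0]
  have hc1 : P.coeff 1 = l := by
    have := Polynomial.coeff_derivative P 0
    rw [Polynomial.coeff_zero_eq_eval_zero, hd] at this
    simpa using this.symm
  have hsum : PowerSeries.coeff n (Polynomial.aeval (brLS l P) P) =
      l * PowerSeries.coeff n (brLS l P) +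
        ∑ k ∈ Finset.Icc 2 P.natDegree, P.coeff k * PowerSeries.coeff n ((brLS l P) ^ k) := by
    have hdeg : 1 ≤ P.natDegree := by
      by_contra hcon
      have : P.natDegree = 0 := by omega
      have h2 : P.coeff 1 = 0 := Polynomial.coeff_eq_zero_of_natDegree_lt (by omega)
      rw [hc1] at h2
      exact hl0 h2
    rw [Polynomial.aeval_eq_sum_range, map_sum]
    have hset : Finset.range (P.natDegree + 1) =
        insert 0 (insert 1 (Finset.Icc 2 P.natDegree)) := by
      ext k
      simp only [Finset.mem_range, Finset.mem_insert, Finset.mem_Icc]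
      omega
    rw [hset, Finset.sum_insert (by simp), Finset.sum_insert (by simp)]
    simp only [PowerSeries.coeff_smul, hc0, hc1, zero_smul, zero_add, pow_one, smul_eq_mul,
      map_zero]
  rw [hsum]
  rcases Nat.lt_or_ge n 2 with hn | hn
  · have hz : ∀ k ∈ Finset.Icc 2 P.natDegree,
        P.coeff k * PowerSeries.coeff n ((brLS l P) ^ k) = 0 := by
      intro k hk
      have hk2 := (Finset.mem_Icc.mp hk).1
      have : PowerSeries.coeff n ((brLS l P) ^ k) = PowerSeries.coeff n ((0 : PowerSeries ℂ) ^ k) := by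
        apply br_coeff_pow_congr' (coeff_zero_brLS l P) (by simp) _ hk2
        intro j hj
        have : j = 0 := by omega
        rw [this, coeff_zero_brLS, map_zero]
      rw [this, zero_pow (by omega), map_zero, mul_zero]
    rw [Finset.sum_eq_zero hz, add_zero]
    interval_cases n
    · rw [coeff_zero_brLS, mul_zero, mul_zero]
    · rw [pow_one]
  · have h1 : ∑ k ∈ Finset.Icc 2 P.natDegree, P.coeff k * PowerSeries.coeff n ((brLS l P) ^ k) =
        (l ^ n - l) * brLC l P n := by
      rw [brLC_eq l P hn, ← mul_assoc, mul_inv_cancel₀, one_mul]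
      · refine Finset.sum_congr rfl fun k hk => ?_
        rw [br_coeff_pow_congr' (coeff_zero_brLS l P) (coeff_zero_brLT l P n) _ (Finset.mem_Icc.mp hk).1]
        intro j hj
        rw [coeff_brLS, coeff_brLT, if_pos hj]
      · intro hcon
        apply hl' (n - 1) (by omega)
        have h2 : l ^ n = l ^ (n - 1) * l := by
          rw [← pow_succ, Nat.sub_add_cancel (by omega)]
        rw [h2] at hcon
        have h3 : (l ^ (n - 1) - 1) * l = 0 := by linear_combination hcon
        rcases mul_eq_zero.mp h3 with h4 | h4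
        · exact sub_eq_zero.mp h4
        · exact absurd h4 hl0
    rw [h1, coeff_brLS]
    ring

/-- the weighted bound for powers. -/
lemma br_pow_bound {φ : PowerSeries ℂ} {s : PowerSeries ℝ} {K : ℕ → ℝ} {b : ℝ} (hb : 0 ≤ b)
    (hs : ∀ n, 0 ≤ PowerSeries.coeff n s) (hs0 : PowerSeries.coeff 0 s = 0)
    (hK : ∀ a b, 1 ≤ a → 1 ≤ b → K a + K b ≤ K (a + b))
    (h : ∀ a, b * ‖PowerSeries.coeff a φ‖ ≤ b ^ a * Real.exp (K a) * PowerSeries.coeff a s)
    (k : ℕ) : 1 ≤ k → ∀ a, 0 ≤ PowerSeries.coeff a (s ^ k) ∧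
      b ^ k * ‖PowerSeries.coeff a (φ ^ k)‖ ≤
        b ^ a * Real.exp (K a) * PowerSeries.coeff a (s ^ k) := by
  intro hk
  induction k, hk using Nat.le_induction with
  | base => intro a; rw [pow_one, pow_one, pow_one]; exact ⟨hs a, h a⟩
  | succ k hk ih =>
    intro a
    constructor
    · rw [pow_succ, PowerSeries.coeff_mul]
      exact Finset.sum_nonneg fun p _ => mul_nonneg (ih p.1).1 (hs p.2)
    · rw [pow_succ φ, pow_succ s, PowerSeries.coeff_mul, PowerSeries.coeff_mul, Finset.mul_sum]
      calc b ^ (k + 1) * ‖∑ p ∈ Finset.HasAntidiagonal.antidiagonal a,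
            PowerSeries.coeff p.1 (φ ^ k) * PowerSeries.coeff p.2 φ‖
          ≤ b ^ (k + 1) * ∑ p ∈ Finset.HasAntidiagonal.antidiagonal a,
            ‖PowerSeries.coeff p.1 (φ ^ k) * PowerSeries.coeff p.2 φ‖ := by
            apply mul_le_mul_of_nonneg_left (norm_sum_le _ _) (pow_nonneg hb _)
        _ = ∑ p ∈ Finset.HasAntidiagonal.antidiagonal a, (b ^ k * ‖PowerSeries.coeff p.1 (φ ^ k)‖) *
            (b * ‖PowerSeries.coeff p.2 φ‖) := by
            rw [Finset.mul_sum]
            refine Finset.sum_congr rfl fun p _ => ?_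
            rw [norm_mul]
            ring
        _ ≤ _ := by
            refine Finset.sum_le_sum fun p hp => ?_
            have hp' := Finset.HasAntidiagonal.mem_antidiagonal.mp hp
            have h1 := (ih p.1).1
            have h2 := (ih p.1).2
            have h3 := h p.2
            have h4 := hs p.2
            have hnn : 0 ≤ b ^ p.1 * Real.exp (K p.1) * PowerSeries.coeff p.1 (s ^ k) := by
              positivity
            refine (mul_le_mul h2 h3 (by positivity) hnn).trans ?_
            rcases Nat.eq_zero_or_pos p.1 with h5 | h5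
            · rw [h5, br_coeff_zero_pow hs0 hk]
              simp
            · rcases Nat.eq_zero_or_pos p.2 with h6 | h6
              · rw [h6, hs0]
                simp
              · have hKK := hK p.1 p.2 h5 h6
                rw [hp'] at hKK
                have hexp : Real.exp (K p.1) * Real.exp (K p.2) ≤ Real.exp (K a) := by
                  rw [← Real.exp_add]
                  exact Real.exp_le_exp.mpr hKK
                have hba : b ^ p.1 * b ^ p.2 = b ^ a := by rw [← pow_add, hp']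
                calc b ^ p.1 * Real.exp (K p.1) * PowerSeries.coeff p.1 (s ^ k) *
                      (b ^ p.2 * Real.exp (K p.2) * PowerSeries.coeff p.2 s)
                    = (b ^ p.1 * b ^ p.2) * (Real.exp (K p.1) * Real.exp (K p.2)) *
                      (PowerSeries.coeff p.1 (s ^ k) * PowerSeries.coeff p.2 s) := by ring
                  _ ≤ b ^ a * Real.exp (K a) *
                      (PowerSeries.coeff p.1 (s ^ k) * PowerSeries.coeff p.2 s) := by
                      rw [hba]
                      apply mul_le_mul_of_nonneg_right _ (mul_nonneg h1 h4)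
                      exact mul_le_mul_of_nonneg_left hexp (pow_nonneg hb _)

/-- the weighted bound, with small divisor. -/
lemma br_pow_bound_div {φ : PowerSeries ℂ} {s : PowerSeries ℝ} {K : ℕ → ℝ} {b : ℝ} (hb : 0 ≤ b)
    (hs : ∀ n, 0 ≤ PowerSeries.coeff n s) (hs0 : PowerSeries.coeff 0 s = 0)
    (hK : ∀ a b, 1 ≤ a → 1 ≤ b → K a + K b ≤ K (a + b))
    (h : ∀ a, b * ‖PowerSeries.coeff a φ‖ ≤ b ^ a * Real.exp (K a) * PowerSeries.coeff a s)
    {n : ℕ} {w : ℝ} (hw : 0 < w)
    (hKw : ∀ a b, 1 ≤ a → 1 ≤ b → a + b = n → K a + K b + Real.log (1 / w) ≤ K n)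
    {k : ℕ} (hk : 2 ≤ k) :
    b ^ k * (w⁻¹ * ‖PowerSeries.coeff n (φ ^ k)‖) ≤
        b ^ n * Real.exp (K n) * PowerSeries.coeff n (s ^ k) := by
  obtain ⟨k, rfl⟩ := Nat.exists_eq_add_of_le' (show 1 ≤ k by omega)
  have hk : 1 ≤ k := by omega
  have ih := br_pow_bound hb hs hs0 hK h k hk
  rw [pow_succ φ, pow_succ s, PowerSeries.coeff_mul, PowerSeries.coeff_mul, Finset.mul_sum]
  have hwn : 0 ≤ w⁻¹ := by positivity
  calc b ^ (k + 1) * (w⁻¹ * ‖∑ p ∈ Finset.HasAntidiagonal.antidiagonal n,
        PowerSeries.coeff p.1 (φ ^ k) * PowerSeries.coeff p.2 φ‖)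
      ≤ b ^ (k + 1) * (w⁻¹ * ∑ p ∈ Finset.HasAntidiagonal.antidiagonal n,
        ‖PowerSeries.coeff p.1 (φ ^ k) * PowerSeries.coeff p.2 φ‖) := by
        apply mul_le_mul_of_nonneg_left _ (pow_nonneg hb _)
        apply mul_le_mul_of_nonneg_left (norm_sum_le _ _) hwn
    _ = ∑ p ∈ Finset.HasAntidiagonal.antidiagonal n, w⁻¹ * ((b ^ k * ‖PowerSeries.coeff p.1 (φ ^ k)‖) *
        (b * ‖PowerSeries.coeff p.2 φ‖)) := by
        rw [Finset.mul_sum, Finset.mul_sum]
        refine Finset.sum_congr rfl fun p _ => ?_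
        rw [norm_mul]
        ring
    _ ≤ _ := by
        refine Finset.sum_le_sum fun p hp => ?_
        have hp' := Finset.HasAntidiagonal.mem_antidiagonal.mp hp
        have h1 := (ih p.1).1
        have h2 := (ih p.1).2
        have h3 := h p.2
        have h4 := hs p.2
        have hnn : 0 ≤ b ^ p.1 * Real.exp (K p.1) * PowerSeries.coeff p.1 (s ^ k) := by
          positivity
        refine (mul_le_mul_of_nonneg_left
          (mul_le_mul h2 h3 (by positivity) hnn) hwn).trans ?_
        rcases Nat.eq_zero_or_pos p.1 with h5 | h5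
        · rw [h5, br_coeff_zero_pow hs0 hk]
          simp
        · rcases Nat.eq_zero_or_pos p.2 with h6 | h6
          · rw [h6, hs0]
            simp
          · have hKK := hKw p.1 p.2 h5 h6 hp'
            have hexp : Real.exp (K p.1) * Real.exp (K p.2) * w⁻¹ ≤ Real.exp (K n) := by
              have h7 : w⁻¹ = Real.exp (Real.log (1 / w)) := by
                rw [Real.exp_log (by positivity), one_div]
              rw [h7, ← Real.exp_add, ← Real.exp_add]
              exact Real.exp_le_exp.mpr hKK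
            have hba : b ^ p.1 * b ^ p.2 = b ^ n := by rw [← pow_add, hp']
            calc w⁻¹ * (b ^ p.1 * Real.exp (K p.1) * PowerSeries.coeff p.1 (s ^ k) *
                  (b ^ p.2 * Real.exp (K p.2) * PowerSeries.coeff p.2 s))
                = (b ^ p.1 * b ^ p.2) * (Real.exp (K p.1) * Real.exp (K p.2) * w⁻¹) *
                  (PowerSeries.coeff p.1 (s ^ k) * PowerSeries.coeff p.2 s) := by ring
              _ ≤ b ^ n * Real.exp (K n) *
                  (PowerSeries.coeff p.1 (s ^ k) * PowerSeries.coeff p.2 s) := by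
                  rw [hba]
                  apply mul_le_mul_of_nonneg_right _ (mul_nonneg h1 h4)
                  exact mul_le_mul_of_nonneg_left hexp (pow_nonneg hb _)

/-- The coefficients of the formal linearization satisfy the weighted bound. -/
lemma brLC_bound {P : ℂ[X]} {l : ℂ} (hl : ‖l‖ = 1) (hl' : ∀ n : ℕ, 1 ≤ n → l ^ n ≠ 1)
    {s : PowerSeries ℝ} {K : ℕ → ℝ} {b : ℝ} (hb : 1 ≤ b)
    (hbP : ∀ k, 2 ≤ k → b * ‖P.coeff k‖ ≤ b ^ k)
    (hs : ∀ n, 0 ≤ PowerSeries.coeff n s) (hs0 : PowerSeries.coeff 0 s = 0)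
    (hs1 : 1 ≤ PowerSeries.coeff 1 s)
    (hsum : ∀ (d n : ℕ), ∑ k ∈ Finset.Icc 2 d, PowerSeries.coeff n (s ^ k) ≤
        PowerSeries.coeff n s)
    (hK0 : ∀ n, 0 ≤ K n)
    (hK : ∀ a b, 1 ≤ a → 1 ≤ b → K a + K b ≤ K (a + b))
    (hKl : ∀ a b, 1 ≤ a → 1 ≤ b →
      K a + K b + Real.log (1 / ‖l ^ (a + b - 1) - 1‖) ≤ K (a + b)) (n : ℕ) :
    b * ‖brLC l P n‖ ≤ b ^ n * Real.exp (K n) * PowerSeries.coeff n s := by
  have hb0 : 0 ≤ b := by linarith
  induction n using Nat.strong_induction_on with
  | _ n ih =>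
    rcases Nat.lt_or_ge n 2 with hn | hn
    · interval_cases n
      · rw [brLC_zero, hs0]
        simp
      · rw [brLC_one, norm_one, pow_one, mul_one]
        have h1 : 1 ≤ Real.exp (K 1) := Real.one_le_exp (hK0 1)
        have h2 : 1 ≤ Real.exp (K 1) * PowerSeries.coeff 1 s := by nlinarith
        nlinarith
    · have hw : 0 < ‖l ^ (n - 1) - 1‖ := by
        rw [norm_pos_iff]
        exact sub_ne_zero.mpr (hl' (n - 1) (by omega))
      have htr : ∀ a, b * ‖PowerSeries.coeff a (brLT l P n)‖ ≤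
          b ^ a * Real.exp (K a) * PowerSeries.coeff a s := by
        intro a
        rw [coeff_brLT]
        split_ifs with ha
        · exact ih a ha
        · rw [norm_zero, mul_zero]
          exact mul_nonneg (by positivity) (hs a)
      have hln : ‖l ^ n - l‖ = ‖l ^ (n - 1) - 1‖ := by
        have h2 : l ^ n = l ^ (n - 1) * l := by
          rw [← pow_succ, Nat.sub_add_cancel (by omega)]
        rw [h2, show l ^ (n - 1) * l - l = (l ^ (n - 1) - 1) * l by ring, norm_mul, hl, mul_one]
      rw [brLC_eq l P hn, norm_mul, norm_inv, hln]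
      calc b * (‖l ^ (n - 1) - 1‖⁻¹ * ‖∑ k ∈ Finset.Icc 2 P.natDegree, P.coeff k *
              PowerSeries.coeff n ((brLT l P n) ^ k)‖)
          ≤ b * (‖l ^ (n - 1) - 1‖⁻¹ * ∑ k ∈ Finset.Icc 2 P.natDegree, ‖P.coeff k *
              PowerSeries.coeff n ((brLT l P n) ^ k)‖) := by
            apply mul_le_mul_of_nonneg_left _ hb0
            exact mul_le_mul_of_nonneg_left (norm_sum_le _ _) (by positivity)
        _ = ∑ k ∈ Finset.Icc 2 P.natDegree, (b * ‖P.coeff k‖) *
              (‖l ^ (n - 1) - 1‖⁻¹ * ‖PowerSeries.coeff n ((brLT l P n) ^ k)‖) := by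
            rw [Finset.mul_sum, Finset.mul_sum]
            refine Finset.sum_congr rfl fun k _ => ?_
            rw [norm_mul]
            ring
        _ ≤ ∑ k ∈ Finset.Icc 2 P.natDegree, b ^ k *
              (‖l ^ (n - 1) - 1‖⁻¹ * ‖PowerSeries.coeff n ((brLT l P n) ^ k)‖) := by
            refine Finset.sum_le_sum fun k hk => ?_
            apply mul_le_mul_of_nonneg_right (hbP k (Finset.mem_Icc.mp hk).1) (by positivity)
        _ ≤ ∑ k ∈ Finset.Icc 2 P.natDegree,
              b ^ n * Real.exp (K n) * PowerSeries.coeff n (s ^ k) := by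
            refine Finset.sum_le_sum fun k hk => ?_
            apply br_pow_bound_div hb0 hs hs0 hK htr hw _ (Finset.mem_Icc.mp hk).1
            intro a c ha hc hac
            have := hKl a c ha hc
            rwa [hac] at this
        _ = b ^ n * Real.exp (K n) *
              ∑ k ∈ Finset.Icc 2 P.natDegree, PowerSeries.coeff n (s ^ k) := by
            rw [Finset.mul_sum]
        _ ≤ b ^ n * Real.exp (K n) * PowerSeries.coeff n s := by
            apply mul_le_mul_of_nonneg_left (hsum _ _) (by positivity)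

end DY
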