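import Mathlib

/-!
# MP_40021b_an: definitions

Elliptic polynomials, holomorphic linearizability, the Brjuno condition, and the domains
`V P R k` (the component at `0` of the set where the `k`-th iterate has modulus `< R`).
-/

namespace DY

open Complex Metric Set Filter Topology Polynomial

/-- `f` (with `f 0 = 0` and multiplier `l`) is holomorphically linearizable at `0`: there is a
biholomorphism `φ` between neighbourhoods of `0` (with inverse `ψ`), `φ 0 = 0`, such that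
`φ (f (ψ w)) = l * w` near `0`. -/
def Linearizable (f : ℂ → ℂ) (l : ℂ) : Prop :=
  ∃ φ ψ : ℂ → ℂ, AnalyticAt ℂ φ 0 ∧ AnalyticAt ℂ ψ 0 ∧ φ 0 = 0 ∧ ψ 0 = 0 ∧
    (∀ᶠ w in 𝓝 (0 : ℂ), φ (ψ w) = w) ∧ (∀ᶠ z in 𝓝 (0 : ℂ), ψ (φ z) = z) ∧
    ∀ᶠ w in 𝓝 (0 : ℂ), φ (f (ψ w)) = l * w

/-- `Om l m = min {|l ^ k - 1| : 1 ≤ k ≤ m}` (for `m ≥ 1`). -/
noncomputable def Om (l : ℂ) (m : ℕ) : ℝ :=
  sInf ((fun k : ℕ => ‖l ^ k - 1‖) '' Set.Icc 1 m)

/-- The Brjuno condition. -/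
def Brjuno (l : ℂ) : Prop :=
  Summable fun k : ℕ => (2 : ℝ)⁻¹ ^ k * Real.log (1 / Om l (2 ^ (k + 1)))

/-- Standing assumptions on the polynomial `P`, the escape radius `R` and the Lipschitz
constant `L`. -/
structure Setup (P : ℂ[X]) (R L : ℝ) : Prop where
  deg : 2 ≤ P.natDegree
  zero : P.eval 0 = 0
  one_le : 1 ≤ R
  out : ∀ z : ℂ, R / 2 ≤ ‖z‖ → 2 * ‖z‖ ≤ ‖P.eval z‖
  two_le : 2 ≤ L
  lip : ∀ z w : ℂ, ‖z‖ ≤ 2 * R → ‖w‖ ≤ 2 * R → ‖P.eval z - P.eval w‖ ≤ L * ‖z - w‖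

/-- The map `z ↦ P z`. -/
noncomputable def pm (P : ℂ[X]) : ℂ → ℂ := fun z => P.eval z

/-- The set where the `k`-th iterate has modulus `< R`. -/
def W (P : ℂ[X]) (R : ℝ) (k : ℕ) : Set ℂ := {z | ‖(pm P)^[k] z‖ < R}

/-- The component of `W P R k` containing `0`. -/
def V (P : ℂ[X]) (R : ℝ) (k : ℕ) : Set ℂ := connectedComponentIn (W P R k) 0

/-- A holomorphic self-map of the unit disc fixing `0`, with derivative `b` at `0`. -/
structure DiscMap (f : ℂ → ℂ) (b : ℂ) : Prop where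
  diff : DifferentiableOn ℂ f (ball 0 1)
  maps : MapsTo f (ball 0 1) (ball 0 1)
  zero : f 0 = 0
  der : deriv f 0 = b

/-- Every zero-free holomorphic function on `U` has a holomorphic square root. -/
def HasSqrt (U : Set ℂ) : Prop :=
  ∀ g : ℂ → ℂ, DifferentiableOn ℂ g U → (∀ z ∈ U, g z ≠ 0) →
    ∃ s : ℂ → ℂ, DifferentiableOn ℂ s U ∧ ∀ z ∈ U, s z ^ 2 = g z

/-- Every holomorphic function on `U` is a locally uniform limit of polynomials. -/
def PolyApprox (U : Set ℂ) : Prop :=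
  ∀ f : ℂ → ℂ, DifferentiableOn ℂ f U →
    ∃ p : ℕ → ℂ[X], TendstoLocallyUniformlyOn (fun n z => (p n).eval z) f atTop U

/-- A candidate for the Riemann map: injective holomorphic map to the unit disc fixing `0`. -/
structure Cand (U : Set ℂ) (g : ℂ → ℂ) : Prop where
  diff : DifferentiableOn ℂ g U
  inj : InjOn g U
  maps : MapsTo g U (ball 0 1)
  zero : g 0 = 0

end DY
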