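import Pool.Agent.Lib.MP_40021b_an.Defs

/-!
# MP_40021b_an: Fatou's theorem for proper maps

An attracting cycle of a proper holomorphic map `f : {z ∈ U | f z ∈ U} → U` (`U` open and
bounded) attracts a critical point.
-/

namespace DY

open Complex Metric Set Filter Topology Polynomial

/-- The basin of the point `x` (period `q`). -/
def Bas (U : Set ℂ) (f : ℂ → ℂ) (q : ℕ) (x : ℂ) : Set ℂ :=
  {z | (∀ i, f^[i] z ∈ U) ∧ ∃ j : ℕ, Tendsto (fun n : ℕ => f^[j + n * q] z) atTop (𝓝 x)}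

theorem differentiableAt_iterate {U : Set ℂ} (hU : IsOpen U) {f : ℂ → ℂ}
    (hf : DifferentiableOn ℂ f U) {z : ℂ} (n : ℕ) (hz : ∀ i < n, f^[i] z ∈ U) :
    DifferentiableAt ℂ f^[n] z := by
  induction n with
  | zero => exact differentiableAt_id
  | succ n ih =>
    rw [Function.iterate_succ']
    exact ((hf _ (hz n (Nat.lt_succ_self n))).differentiableAt
      (hU.mem_nhds (hz n (Nat.lt_succ_self n)))).comp z (ih fun i hi => hz i (hi.trans (Nat.lt_succ_self n)))

theorem hasDerivAt_iterate_ne {U : Set ℂ} (hU : IsOpen U) {f : ℂ → ℂ}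
    (hf : DifferentiableOn ℂ f U) {z : ℂ} (n : ℕ) (hz : ∀ i, f^[i] z ∈ U)
    (hd : ∀ i, deriv f (f^[i] z) ≠ 0) :
    ∃ d : ℂ, d ≠ 0 ∧ HasDerivAt f^[n] d z := by
  induction n with
  | zero => exact ⟨1, one_ne_zero, hasDerivAt_id z⟩
  | succ n ih =>
    obtain ⟨d, hd0, hdd⟩ := ih
    rw [Function.iterate_succ']
    refine ⟨deriv f (f^[n] z) * d, mul_ne_zero (hd n) hd0, ?_⟩
    exact HasDerivAt.comp z ((hf _ (hz n)).differentiableAt (hU.mem_nhds (hz n))).hasDerivAt hdd

theorem Bas.sub {U : Set ℂ} {f : ℂ → ℂ} {q : ℕ} {x : ℂ} : Bas U f q x ⊆ U :=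
  fun _ hz => hz.1 0

theorem Bas.fwd {U : Set ℂ} {f : ℂ → ℂ} {q : ℕ} (hq : 0 < q) {x z : ℂ} (hz : z ∈ Bas U f q x) :
    f z ∈ Bas U f q x := by
  obtain ⟨h1, j, hj⟩ := hz
  refine ⟨fun i => ?_, j + (q - 1), ?_⟩
  · rw [← Function.iterate_succ_apply]; exact h1 (i + 1)
  · have h2 := hj.comp (tendsto_add_atTop_nat 1)
    refine h2.congr fun n => ?_
    simp only [Function.comp]
    rw [← Function.iterate_succ_apply]
    congr 1
    obtain ⟨k, rfl⟩ : ∃ k, q = k + 1 := ⟨q - 1, by omega⟩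
    simp only [Nat.add_sub_cancel, Nat.succ_eq_add_one]
    ring

theorem Bas.fwd_iter {U : Set ℂ} {f : ℂ → ℂ} {q : ℕ} (hq : 0 < q) {x z : ℂ}
    (hz : z ∈ Bas U f q x) (n : ℕ) : f^[n] z ∈ Bas U f q x := by
  induction n with
  | zero => exact hz
  | succ n ih => rw [Function.iterate_succ_apply']; exact Bas.fwd hq ih

theorem Bas.back {U : Set ℂ} {f : ℂ → ℂ} {q : ℕ} {x z : ℂ} (N : ℕ) (h : ∀ i < N, f^[i] z ∈ U)
    (hz : f^[N] z ∈ Bas U f q x) : z ∈ Bas U f q x := by
  obtain ⟨h1, j, hj⟩ := hz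
  refine ⟨fun i => ?_, j + N, ?_⟩
  · by_cases hi : i < N
    · exact h i hi
    · obtain ⟨k, rfl⟩ := Nat.exists_eq_add_of_le (not_lt.1 hi)
      rw [add_comm, Function.iterate_add_apply]
      exact h1 k
  · refine hj.congr fun n => ?_
    rw [← Function.iterate_add_apply]
    congr 1
    ring

/-- A whole ball around the attracting periodic point lies in the basin. -/
theorem Bas.near {U : Set ℂ} (hU : IsOpen U) {f : ℂ → ℂ}
    (hf : DifferentiableOn ℂ f U) {x : ℂ} {q : ℕ} (hq : 0 < q) (hx : ∀ i, f^[i] x ∈ U)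
    (hper : f^[q] x = x) (h1 : ‖deriv (f^[q]) x‖ < 1) :
    ∃ r > 0, ball x r ⊆ Bas U f q x := by
  obtain ⟨k, hk1, hk2⟩ := exists_between h1
  have hk0 : 0 ≤ k := (norm_nonneg _).trans hk1.le
  have hdF : HasDerivAt (f^[q]) (deriv (f^[q]) x) x :=
    (differentiableAt_iterate hU hf q fun i _ => hx i).hasDerivAt
  have hev1 : ∀ᶠ z in 𝓝 x, ‖f^[q] z - x‖ ≤ k * ‖z - x‖ := by
    have h := hdF.isLittleO
    have h2 := h.def (sub_pos.2 hk1)
    filter_upwards [h2] with z hz
    rw [hper] at hz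
    have h3 : f^[q] z - x = (f^[q] z - x - (z - x) • deriv (f^[q]) x)
        + (z - x) • deriv (f^[q]) x := by abel
    rw [h3]
    refine (norm_add_le _ _).trans ?_
    rw [norm_smul]
    nlinarith [hz]
  have hev2 : ∀ᶠ z in 𝓝 x, ∀ i ∈ Finset.range q, f^[i] z ∈ U := by
    rw [Filter.eventually_all_finset]
    intro i _
    exact (differentiableAt_iterate hU hf i fun i _ => hx i).continuousAt.eventually_mem
      (hU.mem_nhds (hx i))
  obtain ⟨r, hr, hball⟩ := Metric.eventually_nhds_iff_ball.1 (hev1.and hev2)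
  refine ⟨r, hr, fun z hz => ?_⟩
  have hind : ∀ n : ℕ, f^[n * q] z ∈ ball x r ∧ ‖f^[n * q] z - x‖ ≤ k ^ n * ‖z - x‖ := by
    intro n
    induction n with
    | zero => simpa using hz
    | succ n ih =>
      have e : f^[(n + 1) * q] z = f^[q] (f^[n * q] z) := by
        rw [← Function.iterate_add_apply]; congr 1; ring
      have h4 := (hball _ ih.1).1
      rw [← e] at h4
      have h5 : ‖f^[(n + 1) * q] z - x‖ ≤ k ^ (n + 1) * ‖z - x‖ := by
        refine h4.trans ?_
        rw [pow_succ']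
        rw [mul_assoc]
        exact mul_le_mul_of_nonneg_left ih.2 hk0
      refine ⟨?_, h5⟩
      rw [mem_ball_iff_norm] at hz ⊢
      refine lt_of_le_of_lt h5 (lt_of_le_of_lt ?_ hz)
      exact mul_le_of_le_one_left (norm_nonneg _) (pow_le_one₀ hk0 hk2.le)
  refine ⟨fun i => ?_, 0, ?_⟩
  · have e : f^[i] z = f^[i % q] (f^[i / q * q] z) := by
      rw [← Function.iterate_add_apply]; congr 1
      rw [add_comm]; exact (Nat.div_add_mod' i q).symm
    rw [e]
    exact (hball _ (hind (i / q)).1).2 _ (Finset.mem_range.2 (Nat.mod_lt _ hq))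
  · rw [tendsto_iff_norm_sub_tendsto_zero]
    refine squeeze_zero (fun n => norm_nonneg _) (fun n => ?_)
      (g := fun n => k ^ n * ‖z - x‖) ?_
    · rw [zero_add]; exact (hind n).2
    · have := (tendsto_pow_atTop_nhds_zero_of_lt_one hk0 hk2).mul_const ‖z - x‖
      simpa using this

theorem Bas.isOpen {U : Set ℂ} (hU : IsOpen U) {f : ℂ → ℂ}
    (hf : DifferentiableOn ℂ f U) {x : ℂ} {q : ℕ} (hq : 0 < q) (hx : ∀ i, f^[i] x ∈ U)
    (hper : f^[q] x = x) (h1 : ‖deriv (f^[q]) x‖ < 1) : IsOpen (Bas U f q x) := by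
  obtain ⟨r, hr, hball⟩ := Bas.near hU hf hq hx hper h1
  rw [isOpen_iff_mem_nhds]
  rintro z ⟨hz1, j, hj⟩
  obtain ⟨n, hn⟩ := (hj.eventually (ball_mem_nhds x hr)).exists
  have hev : ∀ᶠ w in 𝓝 z, ∀ i ∈ Finset.range (j + n * q), f^[i] w ∈ U := by
    rw [Filter.eventually_all_finset]
    intro i _
    exact (differentiableAt_iterate hU hf i fun i _ => hz1 i).continuousAt.eventually_mem
      (hU.mem_nhds (hz1 i))
  have hev2 : ∀ᶠ w in 𝓝 z, f^[j + n * q] w ∈ ball x r :=
    (differentiableAt_iterate hU hf (j + n * q) fun i _ => hz1 i).continuousAt.eventually_mem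
      (isOpen_ball.mem_nhds hn)
  filter_upwards [hev, hev2] with w h3 h4
  exact Bas.back (j + n * q) (fun i hi => h3 i (Finset.mem_range.2 hi)) (hball h4)

/-- Lifts of the identity of a ball in the basin through all iterates of `f`. -/
theorem Bas.lift {U : Set ℂ} (hU : IsOpen U) {f : ℂ → ℂ}
    (hf : DifferentiableOn ℂ f U)
    (hprop : ∀ K : Set ℂ, K ⊆ U → IsCompact K → IsCompact {z | z ∈ U ∧ f z ∈ K})
    {x : ℂ} {q : ℕ} (hq : 0 < q) (hx : ∀ i, f^[i] x ∈ U) (hper : f^[q] x = x)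
    (h1 : ‖deriv (f^[q]) x‖ < 1) (hcrit : ∀ z ∈ Bas U f q x, deriv f z ≠ 0)
    {r : ℝ} (hr : 0 < r) (hball : ball x r ⊆ Bas U f q x) (n : ℕ) :
    ∃ g : C(ball x r, Bas U f q x), (g ⟨x, mem_ball_self hr⟩ : ℂ) = f^[n * (q - 1)] x ∧
      ∀ b, f^[n] (g b : ℂ) = b := by
  have hAo := Bas.isOpen hU hf hq hx hper h1
  set A := Bas U f q x with hA
  have hxA : x ∈ A := hball (mem_ball_self hr)
  have : LocallyCompactSpace A := hAo.locallyCompactSpace
  let φ : A → A := fun z => ⟨f z, Bas.fwd hq z.2⟩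
  have hcf : ContinuousOn f A := (hf.mono Bas.sub).continuousOn
  have hcont : Continuous φ :=
    (continuousOn_iff_continuous_domRestrict.1 hcf).subtype_mk _
  have hpm : IsProperMap φ := by
    rw [isProperMap_iff_isCompact_preimage]
    refine ⟨hcont, fun K hK => ?_⟩
    rw [Subtype.isCompact_iff]
    have hK' : IsCompact ((↑) '' K : Set ℂ) := hK.image continuous_subtype_val
    have := hprop ((↑) '' K) (by rintro _ ⟨y, _, rfl⟩; exact Bas.sub y.2) hK'
    convert this using 1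
    ext z
    constructor
    · rintro ⟨y, hy, rfl⟩
      exact ⟨Bas.sub y.2, ⟨φ y, hy, rfl⟩⟩
    · rintro ⟨hz, y, hy, hyz⟩
      have hzA : z ∈ A := by
        refine Bas.back 1 (fun i hi => ?_) ?_
        · have : i = 0 := by omega
          subst this; exact hz
        · simp only [Function.iterate_one]
          rw [← hyz]; exact y.2
      refine ⟨⟨z, hzA⟩, ?_, rfl⟩
      have : φ ⟨z, hzA⟩ = y := Subtype.ext hyz.symm
      simp only [mem_preimage, this, hy]
  have hlocf : IsLocalHomeomorphOn f A := by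
    apply IsLocalHomeomorphOn.mk
    intro z hz
    have han : AnalyticAt ℂ f z :=
      hf.analyticAt (hU.mem_nhds (Bas.sub hz))
    have hsd : HasStrictDerivAt f (deriv f z) z := by
      have := han.contDiffAt (n := 1)
      exact this.hasStrictDerivAt (by norm_num)
    have hsf := hsd.hasStrictFDerivAt_equiv (hcrit z hz)
    refine ⟨hsf.toOpenPartialHomeomorph f, hsf.mem_toOpenPartialHomeomorph_source, ?_⟩
    intro y _
    rfl
  have hloc : IsLocalHomeomorph φ := by
    apply IsLocalHomeomorph.of_comp (g := ((↑) : A → ℂ)) _ hAo.isOpenEmbedding_subtypeVal.isLocalHomeomorph hcont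
    have h3 : IsLocalHomeomorphOn (f ∘ ((↑) : A → ℂ)) univ :=
      IsLocalHomeomorphOn.comp hlocf
        hAo.isOpenEmbedding_subtypeVal.isLocalHomeomorph.isLocalHomeomorphOn
        (fun z _ => z.2)
    rw [isLocalHomeomorph_iff_isLocalHomeomorphOn_univ]
    exact h3
  have hcov : IsCoveringMap φ := by
    rw [isCoveringMap_iff_isCoveringMapOn_univ]
    apply IsClosedMap.isCoveringMapOn_of_isLocalHomeomorphOn hpm.isClosedMap
    · intro y _
      have hK : IsCompact (φ ⁻¹' {y}) := hpm.isCompact_preimage isCompact_singleton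
      apply hK.finite
      have h4 : IsLocalHomeomorphOn φ (φ ⁻¹' {y}) := hloc.isLocalHomeomorphOn.mono (subset_univ _)
      refine h4.isDiscrete_of_image ?_
      have h5 : φ '' (φ ⁻¹' {y}) ⊆ {y} := image_preimage_subset _ _
      exact (Set.subsingleton_singleton.anti h5).isDiscrete
    · exact hloc.isLocalHomeomorphOn.mono (subset_univ _)
  have : ContractibleSpace (ball x r) := contractibleSpace_ball hr
  have : LocallyPathConnectedSpace (ball x r) := (convex_ball x r).locallyPathConnectedSpace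
  induction n with
  | zero =>
    exact ⟨⟨fun b => ⟨b, hball b.2⟩, by fun_prop⟩, by simp, fun b => by simp⟩
  | succ n ih =>
    obtain ⟨g, hg1, hg2⟩ := ih
    have he : φ ⟨f^[(n + 1) * (q - 1)] x, Bas.fwd_iter hq hxA _⟩ = g ⟨x, mem_ball_self hr⟩ := by
      apply Subtype.ext
      rw [hg1]
      change f (f^[(n + 1) * (q - 1)] x) = _
      rw [← Function.iterate_succ_apply' f]
      have e : ((n + 1) * (q - 1)).succ = n * (q - 1) + q := by
        obtain ⟨k, rfl⟩ : ∃ k, q = k + 1 := ⟨q - 1, by omega⟩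
        simp only [Nat.add_sub_cancel, Nat.succ_eq_add_one]
        ring
      rw [e, Function.iterate_add_apply, hper]
    obtain ⟨g', ⟨hg'1, hg'2⟩, _⟩ := hcov.existsUnique_continuousMap_lifts g
      ⟨x, mem_ball_self hr⟩ ⟨f^[(n + 1) * (q - 1)] x, Bas.fwd_iter hq hxA _⟩ he
    refine ⟨g', by rw [hg'1], fun b => ?_⟩
    have h6 : φ (g' b) = g b := congrFun hg'2 b
    have h7 : f (g' b : ℂ) = g b := congrArg Subtype.val h6
    rw [Function.iterate_succ_apply, h7]
    exact hg2 b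

theorem fatou_attract {U : Set ℂ} (hU : IsOpen U) (hb : Bornology.IsBounded U) {f : ℂ → ℂ}
    (hf : DifferentiableOn ℂ f U)
    (hprop : ∀ K : Set ℂ, K ⊆ U → IsCompact K → IsCompact {z | z ∈ U ∧ f z ∈ K})
    {x : ℂ} {q : ℕ} (hq : 0 < q) (hx : ∀ i, f^[i] x ∈ U) (hper : f^[q] x = x)
    (h0 : deriv (f^[q]) x ≠ 0) (h1 : ‖deriv (f^[q]) x‖ < 1) :
    ∃ c ∈ U, (∀ i, f^[i] c ∈ U) ∧ deriv f c = 0 ∧
      ∃ j : ℕ, Tendsto (fun n : ℕ => f^[j + n * q] c) atTop (𝓝 x) := by
  by_contra hcon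
  have hcrit : ∀ z ∈ Bas U f q x, deriv f z ≠ 0 := by
    intro z hz hd
    exact hcon ⟨z, Bas.sub hz, hz.1, hd, hz.2⟩
  obtain ⟨r, hr, hball⟩ := Bas.near hU hf hq hx hper h1
  obtain ⟨M, hM⟩ := hb.exists_norm_le
  set F' := deriv (f^[q]) x with hF'
  -- the derivative bound
  have key : ∀ N : ℕ, ‖F'⁻¹‖ ^ N ≤ M / (r / 2) := by
    intro N
    obtain ⟨g, hg1, hg2⟩ := Bas.lift hU hf hprop hq hx hper h1 hcrit hr hball (N * q)
    classical
    let G : ℂ → ℂ := fun z => if h : z ∈ ball x r then (g ⟨z, h⟩ : ℂ) else 0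
    have hGg : ∀ z (h : z ∈ ball x r), G z = g ⟨z, h⟩ := fun z h => by simp only [G, dif_pos h]
    have hGA : ∀ z ∈ ball x r, G z ∈ Bas U f q x := fun z h => by
      rw [hGg z h]; exact (g ⟨z, h⟩).2
    have hGf : ∀ z ∈ ball x r, f^[N * q] (G z) = z := fun z h => by
      rw [hGg z h]; exact hg2 ⟨z, h⟩
    have hGc : ContinuousOn G (ball x r) := by
      rw [continuousOn_iff_continuous_domRestrict]
      have : (ball x r).domRestrict G = fun b => (g b : ℂ) := by
        ext b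
        rw [domRestrict_apply, hGg b.1 b.2]
      rw [this]
      exact continuous_subtype_val.comp g.continuous
    have hGd : ∀ z ∈ ball x r, ∀ d : ℂ, d ≠ 0 → HasDerivAt (f^[N * q]) d (G z) →
        HasDerivAt G d⁻¹ z := by
      intro z hz d hd0 hd
      refine HasDerivAt.of_local_left_inverse (hGc.continuousAt (isOpen_ball.mem_nhds hz)) hd hd0 ?_
      filter_upwards [isOpen_ball.mem_nhds hz] with y hy using hGf y hy
    have hGdiff : DifferentiableOn ℂ G (ball x r) := by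
      intro z hz
      obtain ⟨d, hd0, hd⟩ := hasDerivAt_iterate_ne hU hf (N * q) (hGA z hz).1
        (fun i => hcrit _ (Bas.fwd_iter hq (hGA z hz) i))
      exact (hGd z hz d hd0 hd).differentiableAt.differentiableWithinAt
    have hxb : x ∈ ball x r := mem_ball_self hr
    have hGx : G x = x := by
      rw [hGg x hxb, hg1]
      have e : N * q * (q - 1) = q * (N * (q - 1)) := by ring
      rw [e, Function.iterate_mul]
      exact Function.iterate_fixed hper _
    have hFd : HasDerivAt (f^[q]) F' x :=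
      (differentiableAt_iterate hU hf q fun i _ => hx i).hasDerivAt
    have hFN : HasDerivAt (f^[N * q]) (F' ^ N) x := by
      have := HasDerivAt.iterate x hFd hper N
      rwa [← Function.iterate_mul, mul_comm q N] at this
    have hGx' : HasDerivAt G (F' ^ N)⁻¹ x := by
      apply hGd x hxb _ (pow_ne_zero _ h0)
      rw [hGx]; exact hFN
    have hcau := Complex.norm_deriv_le_of_forall_mem_sphere_norm_le (c := x) (R := r / 2) (C := M)
      (f := G) (by positivity) ?_ ?_
    · rw [hGx'.deriv] at hcau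
      rw [← norm_pow, inv_pow]
      exact hcau
    · refine DifferentiableOn.diffContOnCl ?_
      rw [closure_ball x (by positivity)]
      exact hGdiff.mono (closedBall_subset_ball (by linarith))
    · intro z hz
      exact hM _ (Bas.sub (hGA z (sphere_subset_closedBall.trans
        (closedBall_subset_ball (by linarith)) hz)))
  have hgt : 1 < ‖F'⁻¹‖ := by
    rw [norm_inv]
    exact (one_lt_inv₀ (norm_pos_iff.2 h0)).2 h1
  obtain ⟨N, hN⟩ := pow_unbounded_of_one_lt (M / (r / 2)) hgt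
  exact absurd (key N) (not_le.2 hN)

theorem fatou_count {U : Set ℂ} (hU : IsOpen U) (hb : Bornology.IsBounded U) {f : ℂ → ℂ}
    (hf : DifferentiableOn ℂ f U)
    (hprop : ∀ K : Set ℂ, K ⊆ U → IsCompact K → IsCompact {z | z ∈ U ∧ f z ∈ K})
    {q : ℕ} (hq : 0 < q) (X : Finset ℂ)
    (hX : ∀ x ∈ X, (∀ i, f^[i] x ∈ U) ∧ f^[q] x = x ∧ deriv (f^[q]) x ≠ 0 ∧
      ‖deriv (f^[q]) x‖ < 1)
    (hdis : ∀ x ∈ X, ∀ y ∈ X, x ≠ y → ∀ i, f^[i] x ≠ y) :
    ∃ Z : Finset ℂ, Z.card = X.card ∧ ∀ c ∈ Z, c ∈ U ∧ f c ∈ U ∧ deriv f c = 0 := by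
  classical
  have hex : ∀ x ∈ X, ∃ c ∈ U, (∀ i, f^[i] c ∈ U) ∧ deriv f c = 0 ∧
      ∃ j : ℕ, Tendsto (fun n : ℕ => f^[j + n * q] c) atTop (𝓝 x) := by
    intro x hx
    obtain ⟨h1, h2, h3, h4⟩ := hX x hx
    exact fatou_attract hU hb hf hprop hq h1 h2 h3 h4
  choose! c hc1 hc2 hc3 hc4 using hex
  refine ⟨X.image c, ?_, ?_⟩
  · apply Finset.card_image_of_injOn
    intro x hx y hy hxy
    by_contra hne
    obtain ⟨j, hj⟩ := hc4 x hx
    obtain ⟨j', hj'⟩ := hc4 y hy
    rw [← hxy] at hj'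
    have e1 : Tendsto (fun n : ℕ => f^[j'] (f^[j + n * q] (c x))) atTop (𝓝 (f^[j'] x)) :=
      (differentiableAt_iterate hU hf j' fun i _ => (hX x hx).1 i).continuousAt.tendsto.comp hj
    have e2 : Tendsto (fun n : ℕ => f^[j] (f^[j' + n * q] (c x))) atTop (𝓝 (f^[j] y)) :=
      (differentiableAt_iterate hU hf j fun i _ => (hX y hy).1 i).continuousAt.tendsto.comp hj'
    have e3 : f^[j'] x = f^[j] y := by
      refine tendsto_nhds_unique e1 (e2.congr fun n => ?_)
      rw [← Function.iterate_add_apply, ← Function.iterate_add_apply]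
      congr 1
      ring
    apply hdis x hx y hy hne (j * (q - 1) + j')
    rw [Function.iterate_add_apply, e3, ← Function.iterate_add_apply]
    have e4 : j * (q - 1) + j = q * j := by
      obtain ⟨k, rfl⟩ : ∃ k, q = k + 1 := ⟨q - 1, by omega⟩
      simp only [Nat.add_sub_cancel]
      ring
    rw [e4, Function.iterate_mul]
    exact Function.iterate_fixed (hX y hy).2.1 _
  · intro z hz
    obtain ⟨x, hx, rfl⟩ := Finset.mem_image.1 hz
    exact ⟨hc1 x hx, hc2 x hx 1, hc3 x hx⟩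

end DY
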