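import Pool.Agent.Lib.MP_40021b_an.Defs

/-!
# MP_40021b_an module HARNACK: Harnack and Schwarz-Pick estimates
-/

namespace DY

open Complex Metric Set Filter Topology Polynomial

/-- Borel-Caratheodory for functions with nonpositive real part. -/
theorem harn_bc {f : ℂ → ℂ} {R : ℝ} {z : ℂ} (hf : DifferentiableOn ℂ f (ball 0 R))
    (h1 : ∀ z ∈ ball (0 : ℂ) R, (f z).re ≤ 0) (hz : z ∈ ball (0 : ℂ) R) :
    ‖f z‖ ≤ ‖f 0‖ * (R + ‖z‖) / (R - ‖z‖) := by
  have hzR : ‖z‖ < R := mem_ball_zero_iff.1 hz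
  have hR : 0 < R := lt_of_le_of_lt (norm_nonneg z) hzR
  have hd : 0 < R - ‖z‖ := by linarith
  refine le_of_forall_pos_le_add fun ε hε => ?_
  set M := ε * (R - ‖z‖) / (2 * (‖z‖ + 1)) with hM
  have hz1 : 0 < ‖z‖ + 1 := by positivity
  have hM0 : 0 < M := by rw [hM]; positivity
  have h2 := borelCaratheodory hM0 hf (fun x hx => le_trans (h1 x hx) hM0.le) hR hz
  have h3 : 2 * M * ‖z‖ / (R - ‖z‖) = ε * (‖z‖ / (‖z‖ + 1)) := by
    rw [hM]
    field_simp
  have h4 : ‖z‖ / (‖z‖ + 1) ≤ 1 := by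
    rw [div_le_one hz1]
    linarith
  have h5 : ε * (‖z‖ / (‖z‖ + 1)) ≤ ε * 1 := mul_le_mul_of_nonneg_left h4 hε.le
  rw [h3] at h2
  linarith

/-- A zero-free holomorphic function on a ball has a logarithm, normalised to be real at the
centre up to a unimodular factor. -/
theorem harn_log {k : ℂ → ℂ} {c : ℂ} {r : ℝ} (hr : 0 < r) (hk : DifferentiableOn ℂ k (ball c r))
    (h0 : ∀ z ∈ ball c r, k z ≠ 0) :
    ∃ f : ℂ → ℂ, DifferentiableOn ℂ f (ball c r) ∧ f c = (Real.log ‖k c‖ : ℝ) ∧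
      ∀ z ∈ ball c r, ‖k z‖ = Real.exp (f z).re := by
  have hc : c ∈ ball c r := mem_ball_self hr
  have hk' : DifferentiableOn ℂ (deriv k) (ball c r) := hk.deriv isOpen_ball
  have hq : DifferentiableOn ℂ (fun z => deriv k z / k z) (ball c r) := hk'.div hk h0
  obtain ⟨q, hq'⟩ := hq.isExactOn_ball
  -- `k * exp (-q)` is constant
  have hconst : ∀ z ∈ ball c r, k z * exp (-q z) = k c * exp (-q c) := by
    intro z hz
    have hder : ∀ x ∈ ball c r, HasDerivAt (fun x => k x * exp (-q x)) 0 x := by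
      intro x hx
      have e1 : HasDerivAt k (deriv k x) x :=
        (hk.differentiableAt (isOpen_ball.mem_nhds hx)).hasDerivAt
      have e2 : HasDerivAt q (deriv k x / k x) x := hq' x hx
      have e3 := e1.mul e2.neg.cexp
      have h := h0 x hx
      have e4 : deriv k x * cexp (-q x) + k x * (cexp (-q x) * -(deriv k x / k x)) = 0 := by
        field_simp
        ring
      exact e4 ▸ e3
    have hd : DifferentiableOn ℂ (fun x => k x * exp (-q x)) (ball c r) :=
      fun x hx => (hder x hx).differentiableAt.differentiableWithinAt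
    have := (convex_ball c r).norm_image_sub_le_of_norm_deriv_le (𝕜 := ℂ)
      (f := fun x => k x * exp (-q x)) (C := 0) (fun x hx => (hder x hx).differentiableAt)
      (fun x hx => by rw [(hder x hx).deriv, norm_zero]) hc hz
    rw [zero_mul] at this
    exact sub_eq_zero.1 (norm_le_zero_iff.1 this)
  have hkc : k c ≠ 0 := h0 c hc
  refine ⟨fun z => q z - q c + (Real.log ‖k c‖ : ℝ), ?_, ?_, ?_⟩
  · intro z hz
    exact (((hq' z hz).differentiableAt.sub_const _).add_const _).differentiableWithinAt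
  · simp
  · intro z hz
    have h1 : k z = k c * exp (q z - q c) := by
      have h2 := hconst z hz
      have h3 : k z = k z * exp (-q z) * exp (q z) := by
        rw [mul_assoc, ← Complex.exp_add, neg_add_cancel, Complex.exp_zero, mul_one]
      rw [h3, h2, mul_assoc, ← Complex.exp_add]
      congr 2
      ring
    rw [h1, norm_mul, Complex.norm_exp]
    have h4 : (q z - q c + ((Real.log ‖k c‖ : ℝ) : ℂ)).re = Real.log ‖k c‖ + (q z - q c).re := by
      rw [add_re, ofReal_re, add_comm]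
    rw [h4, Real.exp_add, Real.exp_log (norm_pos_iff.2 hkc)]

/-! ### HARNACK -/
theorem harnack_norm {k : ℂ → ℂ} {c : ℂ} {r : ℝ} (hk : DifferentiableOn ℂ k (ball c r))
    (h0 : ∀ z ∈ ball c r, k z ≠ 0) (h1 : ∀ z ∈ ball c r, ‖k z‖ ≤ 1) {w : ℂ}
    (hw : w ∈ ball c r) : ‖k c‖ ^ ((r + ‖w - c‖) / (r - ‖w - c‖)) ≤ ‖k w‖ := by
  have hwr : ‖w - c‖ < r := by rwa [mem_ball, dist_eq_norm] at hw
  have hr : 0 < r := lt_of_le_of_lt (norm_nonneg _) hwr
  obtain ⟨f, hf, hfc, hfn⟩ := harn_log hr hk h0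
  have hc : c ∈ ball c r := mem_ball_self hr
  have hkc : 0 < ‖k c‖ := norm_pos_iff.2 (h0 c hc)
  have hre : ∀ z ∈ ball c r, (f z).re ≤ 0 := by
    intro z hz
    have h2 := h1 z hz
    rw [hfn z hz] at h2
    exact Real.exp_le_one_iff.1 h2
  have hmem : ∀ z ∈ ball (0 : ℂ) r, c + z ∈ ball c r := by
    intro z hz
    rw [mem_ball, dist_eq_norm] at hz ⊢
    simpa using hz
  have hF : DifferentiableOn ℂ (fun z => f (c + z)) (ball 0 r) :=
    hf.comp ((differentiable_id.const_add c).differentiableOn) hmem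
  have hwc : w - c ∈ ball (0 : ℂ) r := by
    rw [mem_ball_zero_iff]
    exact hwr
  have h3 := harn_bc hF (fun z hz => hre _ (hmem z hz)) hwc
  have h4 : c + (w - c) = w := by ring
  simp only [h4, add_zero] at h3
  have hlog : Real.log ‖k c‖ ≤ 0 := Real.log_nonpos (norm_nonneg _) (h1 c hc)
  have h5 : ‖f c‖ = - Real.log ‖k c‖ := by
    rw [hfc, Complex.norm_real, Real.norm_eq_abs, abs_of_nonpos hlog]
  rw [h5] at h3
  rw [hfn w hw, Real.rpow_def_of_pos hkc]
  apply Real.exp_le_exp.2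
  have h6 : -‖f w‖ ≤ (f w).re := by
    have := Complex.abs_re_le_norm (f w)
    linarith [neg_abs_le (f w).re]
  have h7 : Real.log ‖k c‖ * ((r + ‖w - c‖) / (r - ‖w - c‖)) =
      -(-Real.log ‖k c‖ * (r + ‖w - c‖) / (r - ‖w - c‖)) := by ring
  rw [h7]
  linarith

theorem one_sub_le {k : ℂ → ℂ} (hk : DifferentiableOn ℂ k (ball 0 1))
    (h1 : ∀ z ∈ ball (0 : ℂ) 1, ‖k z‖ ≤ 1) {κ : ℝ} (hκ : 0 ≤ κ) (h0 : k 0 = κ) {w : ℂ}
    (hw : w ∈ ball (0 : ℂ) 1) : ‖1 - k w‖ ≤ 2 * (1 - κ) / (1 - ‖w‖) := by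
  have hw1 : ‖w‖ < 1 := mem_ball_zero_iff.1 hw
  have hκ1 : κ ≤ 1 := by
    have := h1 0 (mem_ball_self one_pos)
    rw [h0, Complex.norm_real, Real.norm_eq_abs, abs_of_nonneg hκ] at this
    exact this
  have h2 := harn_bc (f := fun z => k z - 1) (hk.sub_const 1) (fun z hz => by
    have h3 := (Complex.re_le_norm (k z)).trans (h1 z hz)
    simp only [sub_re, one_re]
    linarith) hw
  have h3 : ‖k 0 - 1‖ = 1 - κ := by
    rw [h0]
    have : ((κ : ℂ) - 1) = ((κ - 1 : ℝ) : ℂ) := by push_cast; ring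
    rw [this, Complex.norm_real, Real.norm_eq_abs, abs_of_nonpos (by linarith)]
    ring
  simp only [h3] at h2
  rw [norm_sub_rev]
  refine h2.trans ?_
  have h4 : 0 < 1 - ‖w‖ := by linarith
  rw [div_le_div_iff_of_pos_right h4]
  nlinarith

theorem DiscMap.near {g : ℂ → ℂ} {l : ℂ} {a : ℝ} (hl : ‖l‖ = 1) (ha : 0 ≤ a)
    (hg : DiscMap g (l * (Real.exp (-a) : ℝ))) {w : ℂ} (hw : w ∈ ball (0 : ℂ) 1) :
    ‖g w - l * w‖ ≤ 2 * a * ‖w‖ / (1 - ‖w‖) := by
  have hw1 : ‖w‖ < 1 := mem_ball_zero_iff.1 hw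
  have hl0 : l ≠ 0 := by
    intro h
    rw [h, norm_zero] at hl
    exact zero_ne_one hl
  have hmaps : MapsTo g (ball 0 1) (closedBall (g 0) 1) := by
    intro z hz
    rw [hg.zero]
    exact ball_subset_closedBall (hg.maps hz)
  have hds : DifferentiableOn ℂ (dslope g 0) (ball 0 1) :=
    (differentiableOn_dslope (isOpen_ball.mem_nhds (mem_ball_self one_pos))).2 hg.diff
  have hk : DifferentiableOn ℂ (fun z => dslope g 0 z / l) (ball 0 1) := hds.div_const l
  have hk1 : ∀ z ∈ ball (0 : ℂ) 1, ‖dslope g 0 z / l‖ ≤ 1 := by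
    intro z hz
    have := norm_dslope_le_div_of_mapsTo_ball hg.diff hmaps hz
    rw [norm_div, hl, div_one]
    simpa using this
  have hk0 : dslope g 0 0 / l = (Real.exp (-a) : ℝ) := by
    rw [dslope_same, hg.der]
    field_simp
  have h2 := one_sub_le hk hk1 (Real.exp_pos _).le hk0 hw
  have h3 : 1 - Real.exp (-a) ≤ a := by
    have := Real.add_one_le_exp (-a)
    linarith
  have h4 : g w - l * w = -(l * w * (1 - dslope g 0 w / l)) := by
    have h5 : w * dslope g 0 w = g w := by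
      have := sub_smul_dslope g 0 w
      rw [hg.zero, sub_zero, sub_zero, smul_eq_mul] at this
      exact this
    rw [← h5]
    field_simp
    ring
  rw [h4, norm_neg, norm_mul, norm_mul, hl, one_mul]
  have h5 : 0 < 1 - ‖w‖ := by linarith
  calc ‖w‖ * ‖1 - dslope g 0 w / l‖ ≤ ‖w‖ * (2 * (1 - Real.exp (-a)) / (1 - ‖w‖)) :=
        mul_le_mul_of_nonneg_left h2 (norm_nonneg w)
    _ ≤ ‖w‖ * (2 * a / (1 - ‖w‖)) := by
        apply mul_le_mul_of_nonneg_left _ (norm_nonneg w)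
        rw [div_le_div_iff_of_pos_right h5]
        linarith
    _ = 2 * a * ‖w‖ / (1 - ‖w‖) := by ring

theorem DiscMap.norm_le {g : ℂ → ℂ} {b : ℂ} (hg : DiscMap g b) {w : ℂ}
    (hw : w ∈ ball (0 : ℂ) 1) : ‖g w‖ ≤ ‖w‖ := by
  have hmaps : MapsTo g (ball 0 1) (closedBall 0 1) := fun z hz =>
    ball_subset_closedBall (hg.maps hz)
  exact norm_le_norm_of_mapsTo_ball hg.diff hmaps hg.zero (mem_ball_zero_iff.1 hw)

theorem DiscMap.lip {g : ℂ → ℂ} {b : ℂ} (hg : DiscMap g b) {e : ℝ} (he : 0 < e) {z w : ℂ}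
    (hz : ‖z‖ ≤ 1 - e) (hw : ‖w‖ ≤ 1 - e) : ‖g z - g w‖ ≤ 1 / e * ‖z - w‖ := by
  have hmem : ∀ u ∈ closedBall (0 : ℂ) (1 - e), u ∈ ball (0 : ℂ) 1 := by
    intro u hu
    rw [mem_closedBall_zero_iff] at hu
    rw [mem_ball_zero_iff]
    linarith
  have hder : ∀ u ∈ closedBall (0 : ℂ) (1 - e), ‖deriv g u‖ ≤ 1 / e := by
    intro u hu
    have hu' : ‖u‖ ≤ 1 - e := mem_closedBall_zero_iff.1 hu
    have key : ∀ ρ : ℝ, 0 < ρ → ρ < e → ρ * ‖deriv g u‖ ≤ 1 := by
      intro ρ hρ hρe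
      have hsub : closedBall u ρ ⊆ ball (0 : ℂ) 1 := by
        intro x hx
        rw [mem_closedBall, dist_eq_norm] at hx
        rw [mem_ball_zero_iff]
        have : ‖x‖ ≤ ‖x - u‖ + ‖u‖ := by
          have := norm_add_le (x - u) u
          simpa using this
        linarith
      have h1 := Complex.norm_deriv_le_of_forall_mem_sphere_norm_le (f := g) (c := u) (C := 1) hρ
        (DifferentiableOn.diffContOnCl (by
          rw [closure_ball u hρ.ne']
          exact hg.diff.mono hsub))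
        (fun x hx => (mem_ball_zero_iff.1 (hg.maps (hsub (sphere_subset_closedBall hx)))).le)
      rwa [le_div_iff₀ hρ, mul_comm] at h1
    rw [le_div_iff₀ he, mul_comm]
    by_contra hcon
    push Not at hcon
    have hn : 0 < ‖deriv g u‖ := by
      by_contra h
      have : ‖deriv g u‖ = 0 := le_antisymm (not_lt.1 h) (norm_nonneg _)
      rw [this, mul_zero] at hcon
      linarith
    have h1 : 1 / ‖deriv g u‖ < e := by
      rw [div_lt_iff₀ hn]
      exact hcon
    have h0 : 0 < 1 / ‖deriv g u‖ := by positivity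
    have h2 := key ((e + 1 / ‖deriv g u‖) / 2) (by linarith) (by linarith)
    have h3 : (e + 1 / ‖deriv g u‖) / 2 * ‖deriv g u‖ = (e * ‖deriv g u‖ + 1) / 2 := by
      field_simp
    rw [h3] at h2
    linarith
  have := (convex_closedBall (0 : ℂ) (1 - e)).norm_image_sub_le_of_norm_deriv_le (𝕜 := ℂ)
    (fun u hu => hg.diff.differentiableAt (isOpen_ball.mem_nhds (hmem u hu))) hder
    (mem_closedBall_zero_iff.2 hw) (mem_closedBall_zero_iff.2 hz)
  exact this

end DY
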