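import Pool.Agent.Lib.MP_40021b_an.InterpCore
import Pool.Agent.Lib.MP_40021b_an.Harnack

/-!
# MP_40021b_an, module INTERP: Hermite interpolation by a bounded holomorphic function
-/

namespace DY

open Complex Metric Set Filter Topology Polynomial

theorem interp {g : ℂ → ℂ} (hg : DifferentiableOn ℂ g (ball 0 1))
    (hm : MapsTo g (ball 0 1) (ball 0 1)) (hinj : InjOn g (ball 0 1)) (h0 : g 0 = 0)
    {e : ℝ} (he : 0 < e) (he' : e ≤ 1 / 4) {r : ℝ} (hr : 1 - e < r) (hr1 : r ≤ 1)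
    {F : ℂ → ℂ} (hF : DifferentiableOn ℂ F (ball 0 r)) (N : Finset ℂ)
    (hN : ∀ v ∈ N, ‖v‖ ≤ 1 / 2) {E M : ℝ} (hgE : ∀ w, ‖w‖ = 1 - e → Real.exp (-E) ≤ ‖g w‖)
    (hM : ∀ w, ‖w‖ = 1 - e → ‖F w‖ ≤ M) :
    ∃ H : ℂ → ℂ, DifferentiableOn ℂ H (ball 0 1) ∧
      (∀ y ∈ ball (0 : ℂ) 1, ‖H y‖ ≤ 2 / e ^ 2 * M * Real.exp (10 * N.card * E)) ∧
      ∀ v ∈ N, H (g v) = F v ∧ deriv (fun u => H (g u)) v = deriv F v := by
  refine interp_of hg hm hinj h0 he he' hr hr1 hF N hN ?_ hM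
  intro w hw v hv
  set ρ : ℝ := 1 - e with hρdef
  have hρ34 : 3 / 4 ≤ ρ := by rw [hρdef]; linarith
  have hρ1 : ρ < 1 := by rw [hρdef]; linarith
  have hw1 : w ∈ ball (0 : ℂ) 1 := by rw [mem_ball_zero_iff, hw]; exact hρ1
  have hgw : ‖g w‖ < 1 := by simpa using hm hw1
  have hsub : ball (0 : ℂ) ρ ⊆ ball 0 1 := ball_subset_ball hρ1.le
  have hvn : ‖v‖ ≤ 1 / 2 := hN v hv
  have hvρ : v ∈ ball (0 : ℂ) ρ := by
    rw [mem_ball_zero_iff]
    linarith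
  have hgv : ‖g v‖ < 1 := by simpa using hm (hsub hvρ)
  -- the function `u ↦ mob (g w) (g u)`
  have hk : DifferentiableOn ℂ (fun u => mob (g w) (g u)) (ball 0 ρ) :=
    (mob_diff hgw).comp (hg.mono hsub) (hm.mono_left hsub)
  have hk0 : ∀ z ∈ ball (0 : ℂ) ρ, mob (g w) (g z) ≠ 0 := by
    intro z hz h
    have hz1 := hsub hz
    have hgz : ‖g z‖ < 1 := by simpa using hm hz1
    rw [← mob_self (g w)] at h
    have h2 := mob_inj hgw hgz hgw h
    have h3 := hinj hz1 hw1 h2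
    rw [h3, mem_ball_zero_iff, hw] at hz
    exact lt_irrefl _ hz
  have hk1 : ∀ z ∈ ball (0 : ℂ) ρ, ‖mob (g w) (g z)‖ ≤ 1 := by
    intro z hz
    have hgz : ‖g z‖ < 1 := by simpa using hm (hsub hz)
    exact (mob_norm hgw hgz).le
  have hH := harnack_norm hk hk0 hk1 hvρ
  have e0 : ‖mob (g w) (g 0)‖ = ‖g w‖ := by
    rw [h0]
    unfold mob
    simp
  simp only [e0, sub_zero] at hH
  -- symmetry of the pseudo-hyperbolic distance
  have hsym : ‖mob (g w) (g v)‖ = ‖mob (g v) (g w)‖ := by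
    unfold mob
    rw [norm_div, norm_div, norm_sub_rev (g v) (g w)]
    congr 1
    have : (1 - (starRingEnd ℂ) (g w) * g v) =
        (starRingEnd ℂ) (1 - (starRingEnd ℂ) (g v) * g w) := by
      simp only [map_sub, map_mul, map_one, Complex.conj_conj]
      ring
    rw [this, RCLike.norm_conj]
  rw [← hsym]
  refine le_trans ?_ hH
  have hE := hgE w hw
  have hgpos : 0 < ‖g w‖ := lt_of_lt_of_le (Real.exp_pos _) hE
  have hexp : (ρ + ‖v‖) / (ρ - ‖v‖) ≤ 5 := by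
    have : 0 < ρ - ‖v‖ := by linarith
    rw [div_le_iff₀ this]
    linarith
  calc Real.exp (-(5 * E)) = Real.exp (-E) ^ (5 : ℝ) := by
        rw [← Real.exp_mul]
        congr 1
        ring
    _ ≤ ‖g w‖ ^ (5 : ℝ) := Real.rpow_le_rpow (Real.exp_pos _).le hE (by norm_num)
    _ ≤ ‖g w‖ ^ ((ρ + ‖v‖) / (ρ - ‖v‖)) :=
        Real.rpow_le_rpow_of_exponent_ge hgpos hgw.le hexp

end DY
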