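import Pool.Agent.Lib.MP_40021b_an.Koebe
import Pool.Agent.Lib.MP_1f4a82_an.Local

/-!
# MP_40021b_an, module INTERP, part 1: the interpolation integral
-/

namespace DY

open Complex Metric Set Filter Topology Polynomial

theorem mob_self (b : ℂ) : mob b b = 0 := by
  unfold mob
  simp

/-- A kernel for the difference quotient of `B`, for which integrals are holomorphic. -/
structure Ker (g : ℂ → ℂ) (ρ : ℝ) (B : ℂ → ℂ) (K : ℂ → ℂ → ℂ) : Prop where
  bd : DifferentiableOn ℂ B (ball 0 1)
  eq : ∀ x ∈ ball (0 : ℂ) 1, ∀ y ∈ ball (0 : ℂ) 1, B x - B y = (x - y) * K x y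
  cx : ∀ y ∈ ball (0 : ℂ) 1, ContinuousOn (fun x => K x y) (ball 0 1)
  cy : ∀ x ∈ ball (0 : ℂ) 1, ContinuousOn (fun y => K x y) (ball 0 1)
  int : ∀ φ : ℂ → ℂ, ContinuousOn φ (sphere 0 ρ) →
    DifferentiableOn ℂ (fun y => ∮ w in C(0, ρ), φ w * K (g w) y) (ball 0 1)

theorem Ker.one (g : ℂ → ℂ) (ρ : ℝ) : Ker g ρ (fun _ => 1) (fun _ _ => 0) where
  bd := differentiableOn_const _
  eq := by intro x _ y _; simp
  cx := by intro y _; exact continuousOn_const
  cy := by intro y _; exact continuousOn_const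
  int := by
    intro φ _
    simp only [mul_zero]
    exact differentiableOn_const _

theorem Ker.mul {g : ℂ → ℂ} {ρ : ℝ} (hρ : 0 ≤ ρ) (hg : ContinuousOn g (sphere 0 ρ))
    (hgm : MapsTo g (sphere 0 ρ) (ball 0 1)) {B₁ B₂ : ℂ → ℂ} {K₁ K₂ : ℂ → ℂ → ℂ}
    (h₁ : Ker g ρ B₁ K₁) (h₂ : Ker g ρ B₂ K₂) :
    Ker g ρ (fun x => B₁ x * B₂ x) (fun x y => B₁ x * K₂ x y + K₁ x y * B₂ y) where
  bd := h₁.bd.mul h₂.bd
  eq := by
    intro x hx y hy
    linear_combination B₁ x * h₂.eq x hx y hy + B₂ y * h₁.eq x hx y hy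
  cx := by
    intro y hy
    exact (h₁.bd.continuousOn.mul (h₂.cx y hy)).add ((h₁.cx y hy).mul continuousOn_const)
  cy := by
    intro x hx
    exact (continuousOn_const.mul (h₂.cy x hx)).add ((h₁.cy x hx).mul h₂.bd.continuousOn)
  int := by
    intro φ hφ
    have hBg : ContinuousOn (fun w => φ w * B₁ (g w)) (sphere 0 ρ) :=
      hφ.mul (h₁.bd.continuousOn.comp hg hgm)
    have e1 := h₂.int _ hBg
    have e2 := (h₁.int _ hφ).mul h₂.bd
    refine (e1.add e2).congr ?_
    intro y hy
    have i1 : CircleIntegrable (fun w => φ w * B₁ (g w) * K₂ (g w) y) 0 ρ :=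
      (hBg.mul ((h₂.cx y hy).comp hg hgm)).circleIntegrable hρ
    have i2 : CircleIntegrable (fun w => B₂ y * (φ w * K₁ (g w) y)) 0 ρ :=
      (continuousOn_const.mul (hφ.mul ((h₁.cx y hy).comp hg hgm))).circleIntegrable hρ
    show (∮ w in C(0, ρ), φ w * (B₁ (g w) * K₂ (g w) y + K₁ (g w) y * B₂ y)) =
      (∮ w in C(0, ρ), φ w * B₁ (g w) * K₂ (g w) y) +
        (∮ w in C(0, ρ), φ w * K₁ (g w) y) * B₂ y
    rw [mul_comm (∮ w in C(0, ρ), φ w * K₁ (g w) y) (B₂ y),
      ← circleIntegral.integral_const_mul, ← circleIntegral.integral_add i1 i2]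
    congr 1
    funext w
    ring

theorem mob_diff {a : ℂ} (ha : ‖a‖ < 1) : DifferentiableOn ℂ (mob a) (ball 0 1) := by
  intro z hz
  exact (mob_hasDerivAt ha (by simpa using hz)).differentiableAt.differentiableWithinAt

theorem Ker.mob {g : ℂ → ℂ} {ρ : ℝ} {a : ℂ} (ha : ‖a‖ < 1) :
    Ker g ρ (DY.mob a) (fun x y => (1 - (starRingEnd ℂ) a * a) /
      ((1 - (starRingEnd ℂ) a * x) * (1 - (starRingEnd ℂ) a * y))) := by
  have hden : ∀ z ∈ ball (0 : ℂ) 1, 1 - (starRingEnd ℂ) a * z ≠ 0 := fun z hz =>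
    mob_den ha (by simpa using hz)
  refine ⟨mob_diff ha, ?_, ?_, ?_, ?_⟩
  · intro x hx y hy
    have h1 := hden x hx
    have h2 := hden y hy
    unfold DY.mob
    rw [div_sub_div _ _ h1 h2, mul_div_assoc', div_left_inj' (mul_ne_zero h1 h2)]
    ring
  · intro y hy
    refine ContinuousOn.div continuousOn_const (by fun_prop) ?_
    intro x hx
    exact mul_ne_zero (hden x hx) (hden y hy)
  · intro x hx
    refine ContinuousOn.div continuousOn_const (by fun_prop) ?_
    intro y hy
    exact mul_ne_zero (hden x hx) (hden y hy)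
  · intro φ _
    have e : DifferentiableOn ℂ (fun y => (1 - (starRingEnd ℂ) a * y)⁻¹ *
        ∮ w in C(0, ρ), φ w * ((1 - (starRingEnd ℂ) a * a) / (1 - (starRingEnd ℂ) a * g w)))
        (ball 0 1) := by
      refine DifferentiableOn.mul_const ?_ _
      refine DifferentiableOn.inv (by fun_prop) hden
    refine e.congr ?_
    intro y hy
    rw [← circleIntegral.integral_const_mul]
    congr 1
    funext w
    have h2 := hden y hy
    rw [div_mul_eq_div_div]
    field_simp

/-- The squared Blaschke product. -/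
noncomputable def bla (g : ℂ → ℂ) (N : Finset ℂ) (y : ℂ) : ℂ := ∏ v ∈ N, mob (g v) y ^ 2

theorem exists_ker {g : ℂ → ℂ} {ρ : ℝ} (hρ : 0 ≤ ρ) (hg : ContinuousOn g (sphere 0 ρ))
    (hgm : MapsTo g (sphere 0 ρ) (ball 0 1)) (N : Finset ℂ) (hN : ∀ v ∈ N, ‖g v‖ < 1) :
    ∃ K : ℂ → ℂ → ℂ, Ker g ρ (bla g N) K := by
  classical
  induction N using Finset.induction_on with
  | empty =>
    have e : bla g ∅ = fun _ => 1 := by
      funext x
      simp [bla]
    exact ⟨_, by rw [e]; exact Ker.one g ρ⟩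
  | insert v N hv ih =>
    obtain ⟨K, hK⟩ := ih fun u hu => hN u (Finset.mem_insert_of_mem hu)
    have h1 : Ker g ρ (DY.mob (g v)) _ := Ker.mob (hN v (Finset.mem_insert_self _ _))
    have h2 := Ker.mul hρ hg hgm (Ker.mul hρ hg hgm h1 h1) hK
    have e : bla g (insert v N) = fun x => DY.mob (g v) x * DY.mob (g v) x * bla g N x := by
      funext x
      unfold bla
      rw [Finset.prod_insert hv, sq]
    rw [e]
    exact ⟨_, h2⟩

theorem bla_norm_le {g : ℂ → ℂ} {N : Finset ℂ} (hN : ∀ v ∈ N, ‖g v‖ < 1) {y : ℂ}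
    (hy : y ∈ ball (0 : ℂ) 1) : ‖bla g N y‖ ≤ 1 := by
  unfold bla
  rw [norm_prod]
  apply Finset.prod_le_one
  · intro v _
    exact norm_nonneg _
  · intro v hv
    rw [norm_pow]
    exact pow_le_one₀ (norm_nonneg _) (mob_norm (hN v hv) (by simpa using hy)).le

theorem bla_norm_ge {g : ℂ → ℂ} {N : Finset ℂ} {y : ℂ} {E : ℝ}
    (h : ∀ v ∈ N, Real.exp (-(5 * E)) ≤ ‖mob (g v) y‖) :
    Real.exp (-(10 * N.card * E)) ≤ ‖bla g N y‖ := by
  unfold bla
  rw [norm_prod]
  have : Real.exp (-(10 * N.card * E)) = ∏ _v ∈ N, Real.exp (-(5 * E)) ^ 2 := by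
    rw [Finset.prod_const, ← Real.exp_nat_mul, ← Real.exp_nat_mul]
    congr 1
    push_cast
    ring
  rw [this]
  apply Finset.prod_le_prod
  · intro v _
    positivity
  · intro v hv
    rw [norm_pow]
    exact pow_le_pow_left₀ (Real.exp_pos _).le (h v hv) 2

theorem bla_eq_mul {g : ℂ → ℂ} {N : Finset ℂ} {v : ℂ} (hv : v ∈ N) (y : ℂ) :
    bla g N y = mob (g v) y ^ 2 * bla g (N.erase v) y := by
  unfold bla
  rw [← Finset.mul_prod_erase N _ hv]

/-- The kernel is bounded by `2 / (1 - |x|)`. -/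
theorem Ker.bound {g : ℂ → ℂ} {ρ : ℝ} {B : ℂ → ℂ} {K : ℂ → ℂ → ℂ} (h : Ker g ρ B K)
    (hB : ∀ y ∈ ball (0 : ℂ) 1, ‖B y‖ ≤ 1) {x y : ℂ} (hx : x ∈ ball (0 : ℂ) 1)
    (hy : y ∈ ball (0 : ℂ) 1) : ‖K x y‖ ≤ 2 / (1 - ‖x‖) := by
  have hx1 : ‖x‖ < 1 := by simpa using hx
  have hd : 0 < 1 - ‖x‖ := by linarith
  -- first for `y ≠ x`
  have key : ∀ y ∈ ball (0 : ℂ) 1, y ≠ x → ‖K x y‖ ≤ 2 / (1 - ‖x‖) := by
    intro y hy hne
    have hxy : x - y ≠ 0 := sub_ne_zero.mpr hne.symm
    have hKe : K x y = (B y - B x) / (y - x) := by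
      have := h.eq x hx y hy
      have hyx : y - x ≠ 0 := sub_ne_zero.mpr hne
      rw [eq_div_iff hyx]
      linear_combination this
    by_cases hfar : 1 - ‖x‖ ≤ ‖y - x‖
    · rw [hKe, norm_div]
      have h1 : ‖B y - B x‖ ≤ 2 := by
        have := norm_sub_le (B y) (B x)
        have := hB y hy
        have := hB x hx
        linarith
      calc ‖B y - B x‖ / ‖y - x‖ ≤ 2 / ‖y - x‖ := by gcongr
        _ ≤ 2 / (1 - ‖x‖) := by gcongr
    · push Not at hfar
      have hsub : ball x (1 - ‖x‖) ⊆ ball (0 : ℂ) 1 := by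
        intro z hz
        rw [mem_ball_iff_norm] at hz
        rw [mem_ball_zero_iff]
        have := norm_add_le (z - x) x
        rw [sub_add_cancel] at this
        linarith
      have hm : MapsTo B (ball x (1 - ‖x‖)) (closedBall (B x) 2) := by
        intro z hz
        rw [mem_closedBall, dist_eq_norm]
        have := norm_sub_le (B z) (B x)
        have := hB z (hsub hz)
        have := hB x hx
        linarith
      have hs := Complex.norm_dslope_le_div_of_mapsTo_ball (h.bd.mono hsub) hm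
        (show y ∈ ball x (1 - ‖x‖) by rw [mem_ball_iff_norm]; exact hfar)
      rw [dslope_of_ne _ hne, slope_def_field] at hs
      rwa [hKe]
  by_cases hne : y = x
  · subst hne
    have hcont : Tendsto (fun z => ‖K y z‖) (𝓝[≠] y) (𝓝 ‖K y y‖) := by
      have h1 : ContinuousAt (fun z => K y z) y := (h.cy y hx).continuousAt
        (isOpen_ball.mem_nhds hx)
      exact (h1.norm.tendsto).mono_left nhdsWithin_le_nhds
    refine le_of_tendsto hcont ?_
    have h2 : ∀ᶠ z in 𝓝[≠] y, z ∈ ball (0 : ℂ) 1 :=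
      nhdsWithin_le_nhds (isOpen_ball.mem_nhds hx)
    filter_upwards [h2, self_mem_nhdsWithin] with z hz hz'
    exact key z hz hz'
  · exact key y hy hne

theorem deriv_norm_le {g : ℂ → ℂ} (hg : DifferentiableOn ℂ g (ball 0 1))
    (hm : MapsTo g (ball 0 1) (ball 0 1)) {e : ℝ} (he : 0 < e) {w : ℂ} (hw : ‖w‖ = 1 - e) :
    ‖deriv g w‖ ≤ 1 / e := by
  have hsub : ball w e ⊆ ball (0 : ℂ) 1 := by
    intro z hz
    rw [mem_ball_iff_norm] at hz
    rw [mem_ball_zero_iff]
    have := norm_add_le (z - w) w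
    rw [sub_add_cancel] at this
    linarith
  -- Cauchy estimate on smaller balls
  have key : ∀ t : ℝ, 0 < t → t < e → ‖deriv g w‖ ≤ 1 / t := by
    intro t ht hte
    refine Complex.norm_deriv_le_of_forall_mem_sphere_norm_le ht ?_ ?_
    · apply DifferentiableOn.diffContOnCl
      rw [closure_ball _ ht.ne']
      exact hg.mono ((closedBall_subset_ball hte).trans hsub)
    · intro z hz
      have h1 : z ∈ ball (0 : ℂ) 1 := hsub (closedBall_subset_ball hte (sphere_subset_closedBall hz))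
      have h2 := hm h1
      rw [mem_ball_zero_iff] at h2
      exact h2.le
  have hcont : Tendsto (fun t : ℝ => 1 / t) (𝓝[<] e) (𝓝 (1 / e)) :=
    (ContinuousAt.tendsto (by fun_prop (disch := exact he.ne'))).mono_left nhdsWithin_le_nhds
  refine ge_of_tendsto hcont ?_
  have h1 : ∀ᶠ t in 𝓝[<] e, 0 < t := nhdsWithin_le_nhds (lt_mem_nhds he)
  filter_upwards [h1, self_mem_nhdsWithin] with t ht hte
  exact key t ht hte

/-- The interpolation lemma, from the lower bound for the Blaschke factors. -/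
theorem interp_of {g : ℂ → ℂ} (hg : DifferentiableOn ℂ g (ball 0 1))
    (hm : MapsTo g (ball 0 1) (ball 0 1)) (hinj : InjOn g (ball 0 1)) (h0 : g 0 = 0)
    {e : ℝ} (he : 0 < e) (he' : e ≤ 1 / 4) {r : ℝ} (hr : 1 - e < r) (hr1 : r ≤ 1)
    {F : ℂ → ℂ} (hF : DifferentiableOn ℂ F (ball 0 r)) (N : Finset ℂ)
    (hN : ∀ v ∈ N, ‖v‖ ≤ 1 / 2) {E M : ℝ}
    (hL : ∀ w, ‖w‖ = 1 - e → ∀ v ∈ N, Real.exp (-(5 * E)) ≤ ‖mob (g v) (g w)‖)
    (hM : ∀ w, ‖w‖ = 1 - e → ‖F w‖ ≤ M) :
    ∃ H : ℂ → ℂ, DifferentiableOn ℂ H (ball 0 1) ∧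
      (∀ y ∈ ball (0 : ℂ) 1, ‖H y‖ ≤ 2 / e ^ 2 * M * Real.exp (10 * N.card * E)) ∧
      ∀ v ∈ N, H (g v) = F v ∧ deriv (fun u => H (g u)) v = deriv F v := by
  set ρ : ℝ := 1 - e with hρdef
  have hρ : 0 < ρ := by rw [hρdef]; linarith
  have hρ1 : ρ < 1 := by rw [hρdef]; linarith
  have hρ34 : 3 / 4 ≤ ρ := by rw [hρdef]; linarith
  have hsph : ∀ w ∈ sphere (0 : ℂ) ρ, ‖w‖ = ρ := fun w hw => by simpa using hw
  have hsph1 : sphere (0 : ℂ) ρ ⊆ ball 0 1 := by
    intro w hw
    rw [mem_ball_zero_iff, hsph w hw]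
    exact hρ1
  have hcl1 : closedBall (0 : ℂ) ρ ⊆ ball 0 1 := closedBall_subset_ball hρ1
  have hclr : closedBall (0 : ℂ) ρ ⊆ ball 0 r := closedBall_subset_ball hr
  have hvb : ∀ v ∈ N, v ∈ ball (0 : ℂ) 1 := by
    intro v hv
    rw [mem_ball_zero_iff]
    have := hN v hv
    linarith
  have hgN : ∀ v ∈ N, ‖g v‖ < 1 := fun v hv => by simpa using hm (hvb v hv)
  have hgs : ContinuousOn g (sphere 0 ρ) := hg.continuousOn.mono hsph1
  have hgms : MapsTo g (sphere 0 ρ) (ball 0 1) := hm.mono_left hsph1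
  obtain ⟨K, hK⟩ := exists_ker hρ.le hgs hgms N hgN
  have hdg : DifferentiableOn ℂ (deriv g) (ball 0 1) := hg.deriv isOpen_ball
  -- the density
  have hBne : ∀ w ∈ sphere (0 : ℂ) ρ, bla g N (g w) ≠ 0 := by
    intro w hw h
    have h1 := bla_norm_ge (fun v hv => hL w (hsph w hw) v hv)
    rw [h, norm_zero] at h1
    exact absurd h1 (not_le.mpr (Real.exp_pos _))
  have hBinv : ∀ w ∈ sphere (0 : ℂ) ρ,
      ‖(bla g N (g w))⁻¹‖ ≤ Real.exp (10 * N.card * E) := by
    intro w hw
    have h1 := bla_norm_ge (fun v hv => hL w (hsph w hw) v hv)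
    rw [norm_inv]
    have h2 : Real.exp (10 * N.card * E) = (Real.exp (-(10 * N.card * E)))⁻¹ := by
      rw [← Real.exp_neg, neg_neg]
    rw [h2]
    exact inv_anti₀ (Real.exp_pos _) h1
  have hBc : ContinuousOn (fun w => bla g N (g w)) (sphere 0 ρ) :=
    hK.bd.continuousOn.comp hgs hgms
  have hM0 : 0 ≤ M := by
    have h1 := hM (ρ : ℂ) (by
      rw [Complex.norm_real, Real.norm_eq_abs, abs_of_pos hρ])
    exact (norm_nonneg _).trans h1
  set φ : ℂ → ℂ := fun w => F w * deriv g w * (bla g N (g w))⁻¹ with hφ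
  have hφc : ContinuousOn φ (sphere 0 ρ) := by
    refine ContinuousOn.mul (ContinuousOn.mul ?_ ?_) ?_
    · exact hF.continuousOn.mono (sphere_subset_closedBall.trans hclr)
    · exact hdg.continuousOn.mono hsph1
    · exact hBc.inv₀ hBne
  have hφn : ∀ w ∈ sphere (0 : ℂ) ρ, ‖φ w‖ ≤ M * (1 / e) * Real.exp (10 * N.card * E) := by
    intro w hw
    rw [hφ]
    simp only [norm_mul]
    have h1 := hM w (hsph w hw)
    have h2 := deriv_norm_le hg hm he (hsph w hw)
    have h3 := hBinv w hw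
    have h4 : 0 < 1 / e := by positivity
    gcongr
  set H : ℂ → ℂ := fun y => (2 * Real.pi * I : ℂ)⁻¹ • ∮ w in C(0, ρ), φ w * K (g w) y with hH
  have hHd : DifferentiableOn ℂ H (ball 0 1) := by
    have := (hK.int φ hφc).const_smul ((2 * Real.pi * I : ℂ)⁻¹)
    exact this.congr fun y _ => rfl
  refine ⟨H, hHd, ?_, ?_⟩
  · -- the bound
    intro y hy
    have hb : ∀ w ∈ sphere (0 : ℂ) ρ, ‖φ w * K (g w) y‖ ≤
        M * (1 / e) * Real.exp (10 * N.card * E) * (2 / e) := by
      intro w hw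
      rw [norm_mul]
      have h1 := hφn w hw
      have hgw : g w ∈ ball (0 : ℂ) 1 := hgms hw
      have h2 := hK.bound (fun y hy => bla_norm_le hgN hy) hgw hy
      have h3 : ‖g w‖ ≤ ρ := by
        have := Complex.norm_le_norm_of_mapsTo_ball hg
          (fun z hz => ball_subset_closedBall (hm hz)) h0
          (show ‖w‖ < 1 by rw [hsph w hw]; exact hρ1)
        rw [hsph w hw] at this
        exact this
      have h4 : 2 / (1 - ‖g w‖) ≤ 2 / e := by
        have : e ≤ 1 - ‖g w‖ := by rw [hρdef] at h3; linarith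
        gcongr
      have h5 : (0 : ℝ) ≤ M * (1 / e) * Real.exp (10 * N.card * E) := by positivity
      exact mul_le_mul h1 (h2.trans h4) (norm_nonneg _) h5
    have := circleIntegral.norm_two_pi_i_inv_smul_integral_le_of_norm_le_const hρ.le hb
    refine this.trans ?_
    have h5 : (0 : ℝ) ≤ M * (1 / e) * Real.exp (10 * N.card * E) * (2 / e) := by positivity
    calc ρ * (M * (1 / e) * Real.exp (10 * N.card * E) * (2 / e))
        ≤ 1 * (M * (1 / e) * Real.exp (10 * N.card * E) * (2 / e)) := by gcongr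
      _ = 2 / e ^ 2 * M * Real.exp (10 * N.card * E) := by
        field_simp
  · -- interpolation
    intro v hv
    have hvρ : v ∈ ball (0 : ℂ) ρ := by
      rw [mem_ball_zero_iff]
      have := hN v hv
      linarith
    -- the identity
    set T : ℂ → ℂ := fun u => (2 * Real.pi * I : ℂ)⁻¹ • ∮ w in C(0, ρ), φ w * (g w - g u)⁻¹
      with hT
    have hne : ∀ u ∈ ball (0 : ℂ) ρ, ∀ w ∈ sphere (0 : ℂ) ρ, g w - g u ≠ 0 := by
      intro u hu w hw h
      have hu1 : u ∈ ball (0 : ℂ) 1 := hcl1 (ball_subset_closedBall hu)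
      have := hinj (hsph1 hw) hu1 (sub_eq_zero.mp h)
      rw [← this, mem_ball_zero_iff, hsph w hw] at hu
      exact lt_irrefl _ hu
    have hid : ∀ u ∈ ball (0 : ℂ) ρ, H (g u) - F u = -(bla g N (g u) * T u) := by
      intro u hu
      have hu1 : u ∈ ball (0 : ℂ) 1 := hcl1 (ball_subset_closedBall hu)
      -- Cauchy formula
      have hds : DifferentiableOn ℂ (dslope g u) (ball 0 1) :=
        (differentiableOn_dslope (isOpen_ball.mem_nhds hu1)).mpr hg
      have hdne : ∀ w ∈ ball (0 : ℂ) 1, dslope g u w ≠ 0 := by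
        intro w hw
        by_cases hwu : w = u
        · rw [hwu, dslope_same]
          exact Pool.Agent.Lib.MP_1f4a82_an.deriv_ne_zero_of_injOn
            (hg.analyticAt (isOpen_ball.mem_nhds hu1)) (isOpen_ball.mem_nhds hu1) hinj
        · rw [dslope_of_ne _ hwu, slope_def_field]
          intro h
          rcases div_eq_zero_iff.mp h with h | h
          · exact hwu (hinj hw hu1 (sub_eq_zero.mp h))
          · exact hwu (sub_eq_zero.mp h)
      have hΦ : DifferentiableOn ℂ (fun w => F w * deriv g w * (dslope g u w)⁻¹)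
          (closedBall 0 ρ) :=
        ((hF.mono hclr).mul (hdg.mono hcl1)).mul ((hds.mono hcl1).inv
          fun w hw => hdne w (hcl1 hw))
      have hC := hΦ.circleIntegral_sub_inv_smul hu
      have hΦu : F u * deriv g u * (dslope g u u)⁻¹ = F u := by
        have := hdne u hu1
        rw [dslope_same] at this ⊢
        field_simp
      rw [hΦu] at hC
      have i1 : CircleIntegrable (fun w => F w * deriv g w * (g w - g u)⁻¹) 0 ρ := by
        apply ContinuousOn.circleIntegrable hρ.le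
        refine ContinuousOn.mul (ContinuousOn.mul ?_ ?_) ?_
        · exact hF.continuousOn.mono (sphere_subset_closedBall.trans hclr)
        · exact hdg.continuousOn.mono hsph1
        · exact (hgs.sub continuousOn_const).inv₀ (hne u hu)
      have i2 : CircleIntegrable (fun w => bla g N (g u) * (φ w * (g w - g u)⁻¹)) 0 ρ := by
        apply ContinuousOn.circleIntegrable hρ.le
        exact continuousOn_const.mul (hφc.mul
          ((hgs.sub continuousOn_const).inv₀ (hne u hu)))
      have e1 : (∮ w in C(0, ρ), φ w * K (g w) (g u)) =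
          (∮ w in C(0, ρ), F w * deriv g w * (g w - g u)⁻¹) -
            bla g N (g u) * ∮ w in C(0, ρ), φ w * (g w - g u)⁻¹ := by
        rw [← circleIntegral.integral_const_mul, ← circleIntegral.integral_sub i1 i2]
        apply circleIntegral.integral_congr hρ.le
        intro w hw
        have h1 := hne u hu w hw
        have h2 := hBne w hw
        have h3 := hK.eq (g w) (hgms hw) (g u) (hm hu1)
        have h4 : K (g w) (g u) = (bla g N (g w) - bla g N (g u)) * (g w - g u)⁻¹ := by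
          rw [h3]
          field_simp
        simp only [h4, hφ]
        field_simp
      have e2 : (∮ w in C(0, ρ), F w * deriv g w * (g w - g u)⁻¹) =
          (2 * Real.pi * I : ℂ) • F u := by
        rw [← hC]
        apply circleIntegral.integral_congr hρ.le
        intro w hw
        have hwu : w ≠ u := by
          rintro rfl
          rw [mem_ball_zero_iff, hsph w hw] at hu
          exact lt_irrefl _ hu
        simp only [smul_eq_mul]
        rw [dslope_of_ne _ hwu, slope_def_field]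
        have h1 := hne u hu w hw
        have h2 : w - u ≠ 0 := sub_ne_zero.mpr hwu
        field_simp
      show (2 * Real.pi * I : ℂ)⁻¹ • (∮ w in C(0, ρ), φ w * K (g w) (g u)) - F u =
        -(bla g N (g u) * ((2 * Real.pi * I : ℂ)⁻¹ • ∮ w in C(0, ρ), φ w * (g w - g u)⁻¹))
      rw [e1, e2]
      have h2pi := Complex.two_pi_I_ne_zero
      simp only [smul_eq_mul]
      field_simp
      ring
    -- the value at `v`
    have hBv : bla g N (g v) = 0 := by
      rw [bla_eq_mul hv, mob_self]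
      simp
    have hval : H (g v) = F v := by
      have := hid v hvρ
      rw [hBv, zero_mul, neg_zero] at this
      exact sub_eq_zero.mp this
    refine ⟨hval, ?_⟩
    -- boundedness of `T` near `v`
    have hcb : closedBall v (1 / 8) ⊆ ball (0 : ℂ) ρ := by
      intro z hz
      rw [mem_closedBall, dist_eq_norm] at hz
      rw [mem_ball_zero_iff]
      have := norm_add_le (z - v) v
      rw [sub_add_cancel] at this
      have := hN v hv
      linarith
    have hcomp : IsCompact (sphere (0 : ℂ) ρ ×ˢ closedBall v (1 / 8)) :=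
      (isCompact_sphere _ _).prod (isCompact_closedBall _ _)
    have hnon : (sphere (0 : ℂ) ρ ×ˢ closedBall v (1 / 8)).Nonempty := by
      refine ⟨((ρ : ℂ), v), ?_, ?_⟩
      · simp [abs_of_pos hρ]
      · simp
    have hcont : ContinuousOn (fun p : ℂ × ℂ => ‖g p.1 - g p.2‖)
        (sphere (0 : ℂ) ρ ×ˢ closedBall v (1 / 8)) := by
      refine ContinuousOn.norm (ContinuousOn.sub ?_ ?_)
      · exact hgs.comp continuousOn_fst fun p hp => hp.1
      · exact (hg.continuousOn.mono (hcb.trans (ball_subset_closedBall.trans hcl1))).comp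
          continuousOn_snd fun p hp => hp.2
    obtain ⟨p, hp, hpmin⟩ := hcomp.exists_isMinOn hnon hcont
    set c₀ : ℝ := ‖g p.1 - g p.2‖ with hc₀
    have hc₀pos : 0 < c₀ := norm_pos_iff.mpr (hne p.2 (hcb hp.2) p.1 hp.1)
    have hTb : ∀ u ∈ closedBall v (1 / 8), ‖T u‖ ≤
        ρ * (M * (1 / e) * Real.exp (10 * N.card * E) * c₀⁻¹) := by
      intro u hu
      apply circleIntegral.norm_two_pi_i_inv_smul_integral_le_of_norm_le_const hρ.le
      intro w hw
      rw [norm_mul, norm_inv]
      have h1 := hφn w hw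
      have h2 : c₀ ≤ ‖g w - g u‖ := hpmin (show (w, u) ∈ _ from ⟨hw, hu⟩)
      have h3 : ‖g w - g u‖⁻¹ ≤ c₀⁻¹ := inv_anti₀ hc₀pos h2
      exact mul_le_mul h1 h3 (by positivity) (by positivity)
    set Cb : ℝ := ρ * (M * (1 / e) * Real.exp (10 * N.card * E) * c₀⁻¹) with hCb
    -- the difference is O(|u - v|^2)
    have hgv : DifferentiableAt ℂ g v := (hg v (hvb v hv)).differentiableAt
      (isOpen_ball.mem_nhds (hvb v hv))
    have hmo : (fun u => mob (g v) (g u)) =O[𝓝 v] fun u => u - v := by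
      have h1 : DifferentiableAt ℂ (fun u => mob (g v) (g u)) v :=
        (mob_hasDerivAt (hgN v hv) (hgN v hv)).differentiableAt.comp v hgv
      have h2 := h1.isBigO_sub
      simpa [mob_self] using h2
    have hO : (fun u => H (g u) - F u) =O[𝓝 v] fun u => ‖u - v‖ ^ 2 := by
      have h1 : (fun u => bla g N (g u) * T u) =O[𝓝 v] fun u => (u - v) ^ 2 * (1 : ℂ) := by
        refine Asymptotics.IsBigO.mul ?_ ?_
        · have h2 : (fun u => mob (g v) (g u) ^ 2 * bla g (N.erase v) (g u)) =O[𝓝 v]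
              fun u => (u - v) ^ 2 * (1 : ℂ) := by
            refine Asymptotics.IsBigO.mul (hmo.pow 2) ?_
            refine Asymptotics.IsBigO.of_bound 1 ?_
            filter_upwards [isOpen_ball.mem_nhds (hvb v hv)] with u hu
            rw [norm_one, mul_one]
            exact bla_norm_le (fun w hw => hgN w (Finset.mem_of_mem_erase hw)) (hm hu)
          simp only [mul_one] at h2
          refine h2.congr_left ?_
          intro u
          rw [bla_eq_mul hv]
        · refine Asymptotics.IsBigO.of_bound Cb ?_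
          filter_upwards [closedBall_mem_nhds v (by norm_num : (0:ℝ) < 1 / 8)] with u hu
          rw [norm_one, mul_one]
          exact hTb u hu
      have h3 : (fun u => H (g u) - F u) =O[𝓝 v] fun u => (u - v) ^ 2 * (1 : ℂ) := by
        refine (Asymptotics.IsBigO.neg_left h1).congr' ?_ EventuallyEq.rfl
        filter_upwards [isOpen_ball.mem_nhds hvρ] with u hu
        exact (hid u hu).symm
      refine h3.trans ?_
      refine Asymptotics.IsBigO.of_bound 1 ?_
      filter_upwards with u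
      simp
    have hder0 : HasDerivAt (fun u => H (g u) - F u) 0 v := by
      have h1 := hO.hasFDerivAt (𝕜 := ℂ) (by norm_num : 1 < 2)
      rw [hasDerivAt_iff_hasFDerivAt]
      refine h1.congr_fderiv ?_
      ext
      simp
    have hFd : DifferentiableAt ℂ F v := (hF v (hclr (ball_subset_closedBall hvρ))).differentiableAt
      (isOpen_ball.mem_nhds (hclr (ball_subset_closedBall hvρ)))
    have h5 := hder0.add hFd.hasDerivAt
    have h6 : (fun u => H (g u)) = (fun u => H (g u) - F u) + F := by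
      funext u
      simp
    rw [h6, h5.deriv, zero_add]

end DY
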