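import Pool.Agent.Lib.MP_40021b_an.Defs
import Pool.Agent.Lib.MP_40021b_an.Harnack

namespace DY

open Complex Metric Set Filter Topology Polynomial

/-- One step: comparison of `g (l w)` with `g w` on the circle of radius `1 - e`. -/
theorem K1_step {l : ℂ} (hl : ‖l‖ = 1) {e : ℝ} (he : 0 < e) (he1 : e < 1)
    {g z gm Bm gmK gK BK : ℂ → ℂ} {am aK : ℝ} {b1 b2 b3 : ℂ} (ham : 0 ≤ am)
    (haK : 0 ≤ aK) (hz : DiscMap z b1)
    (hgm : DiscMap gm (Real.exp (-am) : ℝ)) (h1 : ∀ w ∈ ball (0 : ℂ) 1, g w = gm (z w))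
    (hBm : DiscMap Bm b2) (hgmK : DiscMap gmK b3) (hgK : DiscMap gK (Real.exp (-aK) : ℝ))
    (h2 : ∀ w ∈ ball (0 : ℂ) 1, g w = gmK (gK w))
    (hBK : DiscMap BK (l * (Real.exp (-aK) : ℝ)))
    (h3 : ∀ w ∈ ball (0 : ℂ) 1, gmK (BK w) = Bm (z w))
    (hme : 4 * am ≤ e) {w : ℂ} (hw : ‖w‖ = 1 - e) :
    ‖g (l * w)‖ ≤ (1 + 4 * am / e) * ‖g w‖ + 4 * aK / e ^ 2 := by
  have hwb : w ∈ ball (0 : ℂ) 1 := by rw [mem_ball_zero_iff, hw]; linarith
  have hlw : ‖l * w‖ = 1 - e := by rw [norm_mul, hl, hw, one_mul]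
  have hlwb : l * w ∈ ball (0 : ℂ) 1 := by rw [mem_ball_zero_iff, hlw]; linarith
  have hgK' : DiscMap gK (1 * (Real.exp (-aK) : ℝ)) := by rw [one_mul]; exact hgK
  have hgm' : DiscMap gm (1 * (Real.exp (-am) : ℝ)) := by rw [one_mul]; exact hgm
  have e1 := DiscMap.near (l := 1) (by simp) haK hgK' hlwb
  have e2 := DiscMap.near hl haK hBK hwb
  rw [hlw, one_mul] at e1
  rw [hw] at e2
  have e3 : 2 * aK * (1 - e) / (1 - (1 - e)) ≤ 2 * aK / e := by
    have : 1 - (1 - e) = e := by ring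
    rw [this]
    apply div_le_div_of_nonneg_right _ he.le
    nlinarith
  have e4 : ‖gK (l * w) - BK w‖ ≤ 4 * aK / e := by
    have : gK (l * w) - BK w = (gK (l * w) - l * w) - (BK w - l * w) := by ring
    rw [this]
    refine (norm_sub_le _ _).trans ?_
    have : 4 * aK / e = 2 * aK / e + 2 * aK / e := by ring
    rw [this]
    linarith
  have e5 := hgK.norm_le hlwb
  have e6 := hBK.norm_le hwb
  rw [hlw] at e5
  rw [hw] at e6
  have e7 := hgmK.lip he e5 e6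
  have hzb : z w ∈ ball (0 : ℂ) 1 := hz.maps hwb
  have e8 : ‖g (l * w)‖ ≤ ‖z w‖ + 4 * aK / e ^ 2 := by
    have a1 : g (l * w) = (gmK (gK (l * w)) - gmK (BK w)) + Bm (z w) := by
      rw [h2 _ hlwb, ← h3 _ hwb]; ring
    rw [a1]
    refine (norm_add_le _ _).trans ?_
    have a2 := hBm.norm_le hzb
    have a3 : 1 / e * ‖gK (l * w) - BK w‖ ≤ 1 / e * (4 * aK / e) :=
      mul_le_mul_of_nonneg_left e4 (by positivity)
    have a4 : 1 / e * (4 * aK / e) = 4 * aK / e ^ 2 := by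
      field_simp
    linarith
  have e9 : ‖z w‖ ≤ 1 - e := by rw [← hw]; exact hz.norm_le hwb
  have e10 := DiscMap.near (l := 1) (by simp) ham hgm' hzb
  rw [one_mul, ← h1 _ hwb] at e10
  have e11 : 2 * am * ‖z w‖ / (1 - ‖z w‖) ≤ 2 * am * ‖z w‖ / e :=
    div_le_div_of_nonneg_left (by positivity) he (by linarith)
  have e12 : ‖z w‖ ≤ ‖g w‖ + 2 * am / e * ‖z w‖ := by
    have a1 : z w = g w - (g w - z w) := by ring
    have a2 : ‖z w‖ ≤ ‖g w‖ + ‖g w - z w‖ := by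
      calc ‖z w‖ = ‖g w - (g w - z w)‖ := by rw [← a1]
        _ ≤ _ := norm_sub_le _ _
    have a3 : 2 * am * ‖z w‖ / e = 2 * am / e * ‖z w‖ := by ring
    linarith
  set t : ℝ := 2 * am / e with ht
  have ht0 : 0 ≤ t := by positivity
  have ht1 : t ≤ 1 / 2 := by
    rw [ht, div_le_iff₀ he]; linarith
  have e13 : ‖z w‖ ≤ (1 + 4 * am / e) * ‖g w‖ := by
    have a1 : 4 * am / e = 2 * t := by rw [ht]; ring
    rw [a1]
    have a2 : (1 - t) * ‖z w‖ ≤ ‖g w‖ := by nlinarith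
    have a3 : 0 ≤ ‖z w‖ := norm_nonneg _
    have a4 : (1 + 2 * t) * ((1 - t) * ‖z w‖) ≤ (1 + 2 * t) * ‖g w‖ :=
      mul_le_mul_of_nonneg_left a2 (by linarith)
    have a5 : 0 ≤ t * (1 - 2 * t) * ‖z w‖ := by
      apply mul_nonneg (mul_nonneg ht0 (by linarith)) a3
    nlinarith
  linarith

theorem K1 {l : ℂ} (hl : ‖l‖ = 1) {q' : ℕ} (hq' : 40 ≤ q')
    (hdense : ∀ ζ : ℂ, ‖ζ‖ = 1 → ∃ j < q', ‖ζ - l ^ j‖ ≤ 5 / q')
    {g z gm Bm gmK gK BK : ℂ → ℂ} {D am aK : ℝ} {b1 b2 b3 : ℂ} (hD : 0 ≤ D) (ham : 0 ≤ am)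
    (haK : 0 ≤ aK)
    (hg : DiscMap g (Real.exp (-D) : ℝ)) (hgi : InjOn g (ball 0 1)) (hz : DiscMap z b1)
    (hgm : DiscMap gm (Real.exp (-am) : ℝ)) (h1 : ∀ w ∈ ball (0 : ℂ) 1, g w = gm (z w))
    (hBm : DiscMap Bm b2) (hgmK : DiscMap gmK b3) (hgK : DiscMap gK (Real.exp (-aK) : ℝ))
    (h2 : ∀ w ∈ ball (0 : ℂ) 1, g w = gmK (gK w))
    (hBK : DiscMap BK (l * (Real.exp (-aK) : ℝ)))
    (h3 : ∀ w ∈ ball (0 : ℂ) 1, gmK (BK w) = Bm (z w))
    (hq1 : (q' : ℝ) ^ 2 * am ≤ 1)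
    (hq2 : Real.exp (1 + 3 * D) * (q' : ℝ) ^ 4 * aK ≤ 1) {w : ℂ}
    (hw : ‖w‖ = 1 - 10 / q') :
    Real.exp (-(40 / q' + 3 * D + (q' : ℝ) ^ 2 * am)) ≤ ‖g w‖ := by
  have hQ : (40 : ℝ) ≤ (q' : ℝ) := by exact_mod_cast hq'
  have hQ0 : (0 : ℝ) < (q' : ℝ) := by linarith
  obtain ⟨e, hedef⟩ : ∃ e : ℝ, e = 10 / q' := ⟨_, rfl⟩
  rw [← hedef] at hw
  have he : 0 < e := by rw [hedef]; positivity
  have he1 : e ≤ 1 / 4 := by
    rw [hedef, div_le_iff₀ hQ0]; linarith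
  have hqe : (q' : ℝ) * e = 10 := by rw [hedef]; field_simp
  have hme : 4 * am ≤ e := by
    have a1 : (q' : ℝ) ^ 2 * (4 * am) ≤ (q' : ℝ) ^ 2 * e := by
      have : (q' : ℝ) ^ 2 * e = 10 * q' := by
        calc (q' : ℝ) ^ 2 * e = q' * (q' * e) := by ring
          _ = _ := by rw [hqe]; ring
      rw [this]; nlinarith
    exact le_of_mul_le_mul_left a1 (by positivity)
  -- iteration
  have hx0 : 0 ≤ 4 * am / e := by positivity
  have ht0 : 0 ≤ 4 * aK / e ^ 2 := by positivity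
  have hiter : ∀ j : ℕ, ‖g (l ^ j * w)‖ ≤
      (1 + 4 * am / e) ^ j * (‖g w‖ + j * (4 * aK / e ^ 2)) := by
    intro j
    induction j with
    | zero => simp
    | succ j ih =>
      have a1 : ‖l ^ j * w‖ = 1 - e := by rw [norm_mul, norm_pow, hl, one_pow, one_mul, hw]
      have a2 := K1_step hl he (by linarith) ham haK hz hgm h1 hBm hgmK hgK h2 hBK h3 hme a1
      have a3 : l ^ (j + 1) * w = l * (l ^ j * w) := by ring
      rw [a3]
      refine a2.trans ?_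
      have a4 : (1 + 4 * am / e) * ‖g (l ^ j * w)‖ ≤ (1 + 4 * am / e) *
          ((1 + 4 * am / e) ^ j * (‖g w‖ + j * (4 * aK / e ^ 2))) :=
        mul_le_mul_of_nonneg_left ih (by linarith)
      have a5 : (1 : ℝ) ≤ (1 + 4 * am / e) ^ (j + 1) := one_le_pow₀ (by linarith)
      have a6 : 4 * aK / e ^ 2 ≤ (1 + 4 * am / e) ^ (j + 1) * (4 * aK / e ^ 2) :=
        le_mul_of_one_le_left ht0 a5
      push_cast
      calc (1 + 4 * am / e) * ‖g (l ^ j * w)‖ + 4 * aK / e ^ 2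
          ≤ (1 + 4 * am / e) * ((1 + 4 * am / e) ^ j * (‖g w‖ + j * (4 * aK / e ^ 2))) +
            (1 + 4 * am / e) ^ (j + 1) * (4 * aK / e ^ 2) := add_le_add a4 a6
        _ = _ := by ring
  -- the function `k = dslope g 0`
  have hball0 : ball (0 : ℂ) 1 ∈ 𝓝 (0 : ℂ) := ball_mem_nhds _ one_pos
  have hk : DifferentiableOn ℂ (dslope g 0) (ball 0 1) :=
    (Complex.differentiableOn_dslope hball0).2 hg.diff
  have hk0 : dslope g 0 0 = (Real.exp (-D) : ℝ) := by rw [dslope_same, hg.der]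
  have hkne : ∀ y : ℂ, y ≠ 0 → dslope g 0 y = g y / y := by
    intro y hy
    rw [dslope_of_ne _ hy, slope_def_field, hg.zero, sub_zero, sub_zero]
  obtain ⟨ws, hws, hmax⟩ : ∃ ws : ℂ, ‖ws‖ = 1 - e ∧
      Real.exp (-D) ≤ ‖dslope g 0 ws‖ := by
    have hb : Bornology.IsBounded (ball (0 : ℂ) (1 - e)) := isBounded_ball
    have hne : (ball (0 : ℂ) (1 - e)).Nonempty := ⟨0, by simp; linarith⟩
    have hsub : closedBall (0 : ℂ) (1 - e) ⊆ ball 0 1 :=
      closedBall_subset_ball (by linarith)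
    have hd : DiffContOnCl ℂ (dslope g 0) (ball (0 : ℂ) (1 - e)) := by
      apply DifferentiableOn.diffContOnCl
      rw [closure_ball _ (by linarith)]
      exact hk.mono hsub
    obtain ⟨ws, h1, h2⟩ := Complex.exists_mem_frontier_isMaxOn_norm hb hne hd
    rw [frontier_ball _ (by linarith)] at h1
    refine ⟨ws, by simpa using h1, ?_⟩
    have h3 := h2 (subset_closure (mem_ball_self (by linarith : (0 : ℝ) < 1 - e)))
    simp only [mem_ofPred_eq, Function.comp_apply] at h3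
    rw [hk0] at h3
    have h4 : ‖((Real.exp (-D) : ℝ) : ℂ)‖ = Real.exp (-D) := by
      rw [Complex.norm_real, Real.norm_eq_abs, abs_of_pos (Real.exp_pos _)]
    rw [h4] at h3
    exact h3
  have hwne : w ≠ 0 := by
    intro h; rw [h, norm_zero] at hw; linarith
  have hwnorm : 0 < ‖w‖ := norm_pos_iff.2 hwne
  obtain ⟨j, hj, hjd⟩ := hdense (ws / w) (by rw [norm_div, hws, hw]; exact div_self (by linarith))
  have hdist : ‖l ^ j * w - ws‖ ≤ e / 2 := by
    have a1 : l ^ j * w - ws = -((ws / w - l ^ j) * w) := by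
      field_simp; ring
    rw [a1, norm_neg, norm_mul, hw]
    have a2 : (5 : ℝ) / q' = e / 2 := by rw [hedef]; ring
    rw [a2] at hjd
    nlinarith [norm_nonneg (ws / w - l ^ j)]
  -- Harnack on the ball around `ws`
  have hsub : ball ws e ⊆ ball (0 : ℂ) 1 := by
    intro y hy
    rw [mem_ball_zero_iff]
    rw [mem_ball, dist_eq_norm] at hy
    calc ‖y‖ = ‖(y - ws) + ws‖ := by ring_nf
      _ ≤ ‖y - ws‖ + ‖ws‖ := norm_add_le _ _
      _ < 1 := by rw [hws]; linarith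
  have hynz : ∀ y ∈ ball ws e, y ≠ 0 := by
    rintro y hy rfl
    rw [mem_ball, dist_eq_norm, zero_sub, norm_neg, hws] at hy
    linarith
  have hjb : l ^ j * w ∈ ball ws e := by
    rw [mem_ball, dist_eq_norm]; linarith
  have hH := harnack_norm (k := dslope g 0) (c := ws) (r := e) (hk.mono hsub)
    (by
      intro y hy
      rw [hkne y (hynz y hy)]
      apply div_ne_zero _ (hynz y hy)
      intro h
      apply hynz y hy
      exact hgi (hsub hy) (mem_ball_self one_pos) (by rw [h, hg.zero]))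
    (by
      intro y hy
      rw [hkne y (hynz y hy), norm_div]
      exact div_le_one_of_le₀ (hg.norm_le (hsub hy)) (norm_nonneg _)) hjb
  have hws0 : ws ≠ 0 := hynz ws (mem_ball_self he)
  have hks1 : ‖dslope g 0 ws‖ ≤ 1 := by
    rw [hkne ws hws0, norm_div]
    exact div_le_one_of_le₀ (hg.norm_le (hsub (mem_ball_self he))) (norm_nonneg _)
  have hp : (e + ‖l ^ j * w - ws‖) / (e - ‖l ^ j * w - ws‖) ≤ 3 := by
    rw [div_le_iff₀ (by linarith)]; linarith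
  have hlow : Real.exp (-(3 * D)) ≤ ‖dslope g 0 (l ^ j * w)‖ := by
    refine le_trans ?_ hH
    have a1 : ‖dslope g 0 ws‖ ^ (3 : ℝ) ≤ ‖dslope g 0 ws‖ ^
        ((e + ‖l ^ j * w - ws‖) / (e - ‖l ^ j * w - ws‖)) :=
      Real.rpow_le_rpow_of_exponent_ge (lt_of_lt_of_le (Real.exp_pos _) hmax) hks1 hp
    refine le_trans ?_ a1
    have a2 : Real.exp (-(3 * D)) = Real.exp (-D) ^ (3 : ℝ) := by
      rw [← Real.exp_mul]; ring_nf
    rw [a2]
    exact Real.rpow_le_rpow (Real.exp_pos _).le hmax (by norm_num)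
  have hglow : (1 - e) * Real.exp (-(3 * D)) ≤ ‖g (l ^ j * w)‖ := by
    rw [hkne _ (hynz _ hjb), norm_div] at hlow
    have a1 : ‖l ^ j * w‖ = 1 - e := by rw [norm_mul, norm_pow, hl, one_pow, one_mul, hw]
    rw [a1, le_div_iff₀ (by linarith)] at hlow
    linarith
  have hupp := hiter j
  -- numerical end
  obtain ⟨u, hu⟩ : ∃ u : ℝ, u = (q' : ℝ) ^ 2 * am := ⟨_, rfl⟩
  rw [← hu] at hq1 ⊢
  have hu0 : 0 ≤ u := by rw [hu]; positivity
  have hpow : (1 + 4 * am / e) ^ j ≤ Real.exp (2 / 5 * u) := by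
    have a1 : (1 + 4 * am / e) ^ j ≤ (Real.exp (4 * am / e)) ^ j := by
      apply pow_le_pow_left₀ (by linarith)
      have := Real.add_one_le_exp (4 * am / e)
      linarith
    refine a1.trans ?_
    rw [← Real.exp_nat_mul]
    apply Real.exp_le_exp.2
    have a2 : (j : ℝ) ≤ q' := by exact_mod_cast hj.le
    calc (j : ℝ) * (4 * am / e) ≤ q' * (4 * am / e) := mul_le_mul_of_nonneg_right a2 hx0
      _ = 2 / 5 * u := by rw [hu, hedef]; field_simp; ring
  have htau : (j : ℝ) * (4 * aK / e ^ 2) ≤ e / 250 * Real.exp (-(1 + 3 * D)) := by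
    have a2 : (j : ℝ) ≤ q' := by exact_mod_cast hj.le
    have a3 : (j : ℝ) * (4 * aK / e ^ 2) ≤ q' * (4 * aK / e ^ 2) :=
      mul_le_mul_of_nonneg_right a2 ht0
    refine a3.trans ?_
    have a4 : (q' : ℝ) * (4 * aK / e ^ 2) = e / 250 * ((q' : ℝ) ^ 4 * aK) := by
      rw [hedef]; field_simp; ring
    rw [a4]
    apply mul_le_mul_of_nonneg_left _ (by positivity)
    have a5 : Real.exp (-(1 + 3 * D)) = (Real.exp (1 + 3 * D))⁻¹ := Real.exp_neg _
    rw [a5, ← one_div, le_div_iff₀ (Real.exp_pos _)]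
    linarith
  have hmain : (1 - e) * Real.exp (-(3 * D)) ≤
      Real.exp (2 / 5 * u) * (‖g w‖ + e / 250 * Real.exp (-(1 + 3 * D))) := by
    refine hglow.trans (hupp.trans ?_)
    apply mul_le_mul hpow _ (by positivity) (Real.exp_pos _).le
    linarith
  have hmain2 : Real.exp (-(2 / 5 * u)) * ((1 - e) * Real.exp (-(3 * D))) -
      e / 250 * Real.exp (-(1 + 3 * D)) ≤ ‖g w‖ := by
    have a1 : Real.exp (-(2 / 5 * u)) * ((1 - e) * Real.exp (-(3 * D))) ≤
        Real.exp (-(2 / 5 * u)) * (Real.exp (2 / 5 * u) *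
          (‖g w‖ + e / 250 * Real.exp (-(1 + 3 * D)))) :=
      mul_le_mul_of_nonneg_left hmain (Real.exp_pos _).le
    rw [← mul_assoc, ← mul_assoc, ← Real.exp_add] at a1
    rw [show -(2 / 5 * u) + 2 / 5 * u = 0 by ring, Real.exp_zero, one_mul] at a1
    rw [← mul_assoc]
    linarith
  refine le_trans ?_ hmain2
  have b1 : Real.exp (-(40 / (q' : ℝ) + 3 * D + u)) =
      Real.exp (-(4 * e)) * Real.exp (-u) * Real.exp (-(3 * D)) := by
    rw [← Real.exp_add, ← Real.exp_add]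
    congr 1
    rw [hedef]; ring
  have b2 : Real.exp (-(1 + 3 * D)) = Real.exp (-1) * Real.exp (-(3 * D)) := by
    rw [← Real.exp_add]; congr 1; ring
  rw [b1, b2]
  have b3 : Real.exp (-u) ≤ Real.exp (-(2 / 5 * u)) := Real.exp_le_exp.2 (by linarith)
  have b4 : Real.exp (-1) ≤ Real.exp (-(2 / 5 * u)) := Real.exp_le_exp.2 (by linarith)
  have b5 : Real.exp (-(4 * e)) * (1 + 4 * e) ≤ 1 := by
    have a1 : 1 + 4 * e ≤ Real.exp (4 * e) := by
      have := Real.add_one_le_exp (4 * e); linarith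
    calc Real.exp (-(4 * e)) * (1 + 4 * e) ≤ Real.exp (-(4 * e)) * Real.exp (4 * e) :=
          mul_le_mul_of_nonneg_left a1 (Real.exp_pos _).le
      _ = 1 := by rw [← Real.exp_add]; simp
  have b6 : Real.exp (-(4 * e)) ≤ 1 - e - e / 250 := by
    have a1 : 1 ≤ (1 - e - e / 250) * (1 + 4 * e) := by nlinarith
    have a2 : Real.exp (-(4 * e)) * (1 + 4 * e) ≤ (1 - e - e / 250) * (1 + 4 * e) := b5.trans a1
    exact le_of_mul_le_mul_right a2 (by linarith)
  have b7 : 0 < Real.exp (-(3 * D)) := Real.exp_pos _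
  have b8 : 0 < Real.exp (-(2 / 5 * u)) := Real.exp_pos _
  have b9 : 0 < Real.exp (-u) := Real.exp_pos _
  have key : Real.exp (-(4 * e)) * Real.exp (-u) ≤
      Real.exp (-(2 / 5 * u)) * (1 - e) - e / 250 * Real.exp (-1) := by
    calc Real.exp (-(4 * e)) * Real.exp (-u) ≤ (1 - e - e / 250) * Real.exp (-(2 / 5 * u)) := by
          apply mul_le_mul b6 b3 b9.le
          linarith [Real.exp_pos (-(4 * e))]
      _ = Real.exp (-(2 / 5 * u)) * (1 - e) - e / 250 * Real.exp (-(2 / 5 * u)) := by ring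
      _ ≤ _ := by
          have := mul_le_mul_of_nonneg_left b4 (by positivity : (0 : ℝ) ≤ e / 250)
          linarith
  calc Real.exp (-(4 * e)) * Real.exp (-u) * Real.exp (-(3 * D))
      ≤ (Real.exp (-(2 / 5 * u)) * (1 - e) - e / 250 * Real.exp (-1)) * Real.exp (-(3 * D)) :=
        mul_le_mul_of_nonneg_right key b7.le
    _ = _ := by ring

end DY
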