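import Pool.Agent.Lib.MP_40021b_an.Defs

/-!
# MP_40021b_an: basic facts on the domains `V P R k`
-/

namespace DY

open Complex Metric Set Filter Topology Polynomial

/-- An escape radius and a Lipschitz constant exist. -/
theorem exists_setup (P : ℂ[X]) (hd : 2 ≤ P.natDegree) (h0 : P.eval 0 = 0) :
    ∃ R L : ℝ, Setup P R L := by
  -- `P = X * Q` with `Q` of degree ≥ 1
  have hQ : ∃ Q : ℂ[X], P = X * Q := by
    have : (X : ℂ[X]) ∣ P := by
      rw [Polynomial.X_dvd_iff, Polynomial.coeff_zero_eq_eval_zero]; exact h0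
    exact this
  obtain ⟨Q, hPQ⟩ := hQ
  have hP0 : P ≠ 0 := by
    rintro rfl; simp at hd
  have hQ0 : Q ≠ 0 := by
    rintro rfl; exact hP0 (by simp [hPQ])
  have hQdeg : 0 < Q.degree := by
    have h1 : P.natDegree = 1 + Q.natDegree := by
      rw [hPQ, Polynomial.natDegree_mul Polynomial.X_ne_zero hQ0, Polynomial.natDegree_X]
    rw [← Polynomial.natDegree_pos_iff_degree_pos]; omega
  have htend : Tendsto (fun z : ℂ => ‖Q.eval z‖) (cocompact ℂ) atTop := by
    exact Polynomial.tendsto_norm_atTop Q hQdeg tendsto_norm_cocompact_atTop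
  have hev : ∀ᶠ z : ℂ in cocompact ℂ, 2 ≤ ‖Q.eval z‖ := htend.eventually_ge_atTop 2
  rw [← Metric.cobounded_eq_cocompact, Filter.HasBasis.eventually_iff
    (Metric.hasBasis_cobounded_compl_closedBall (0 : ℂ))] at hev
  obtain ⟨r, -, hr⟩ := hev
  set R : ℝ := max 1 (2 * r + 2) with hR
  have hR1 : 1 ≤ R := le_max_left _ _
  -- Lipschitz constant
  have hcont : ContinuousOn (fun z : ℂ => ‖P.derivative.eval z‖) (closedBall 0 (2 * R)) :=
    (Polynomial.continuous _).norm.continuousOn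
  obtain ⟨M, hM⟩ := (isCompact_closedBall (0 : ℂ) (2 * R)).bddAbove_image hcont
  refine ⟨R, max 2 M, ⟨hd, h0, hR1, ?_, le_max_left _ _, ?_⟩⟩
  · intro z hz
    have hz' : z ∈ (closedBall (0 : ℂ) r)ᶜ := by
      have h2 : 2 * r + 2 ≤ R := le_max_right _ _
      simp only [mem_compl_iff, mem_closedBall, dist_zero_right, not_le]
      linarith
    have h3 := hr hz'
    rw [hPQ]
    simp only [Polynomial.eval_mul, Polynomial.eval_X, norm_mul]
    nlinarith [norm_nonneg z]
  · intro z w hz hw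
    have hconv : Convex ℝ (closedBall (0 : ℂ) (2 * R)) := convex_closedBall _ _
    have := hconv.norm_image_sub_le_of_norm_hasDerivWithin_le (f := fun z => P.eval z)
      (f' := fun z => P.derivative.eval z) (C := max 2 M)
      (fun x _ => (P.hasDerivAt x).hasDerivWithinAt)
      (fun x hx => (hM ⟨x, hx, rfl⟩ : ‖P.derivative.eval x‖ ≤ M).trans (le_max_right _ _))
      (x := w) (y := z) (by simpa using hw) (by simpa using hz)
    simpa using this

variable {P : ℂ[X]} {R L : ℝ}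

theorem continuous_pm (P : ℂ[X]) : Continuous (pm P) := P.continuous

theorem isOpen_W (P : ℂ[X]) (R : ℝ) (k : ℕ) : IsOpen (W P R k) :=
  isOpen_lt (((continuous_pm P).iterate k).norm) continuous_const

theorem Setup.W_succ {P : ℂ[X]} {R L : ℝ} (hS : Setup P R L) (k : ℕ) :
    W P R (k + 1) ⊆ W P R k := by
  intro z hz
  simp only [W, mem_setOf_eq, Function.iterate_succ_apply'] at hz ⊢
  by_contra hcon
  push Not at hcon
  have h1 := hS.one_le
  have h2 := hS.out ((pm P)^[k] z) (by linarith)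
  have h3 : ‖pm P ((pm P)^[k] z)‖ = ‖P.eval ((pm P)^[k] z)‖ := rfl
  rw [h3] at hz
  linarith

theorem Setup.W_anti {P : ℂ[X]} {R L : ℝ} (hS : Setup P R L) {i k : ℕ} (h : i ≤ k) :
    W P R k ⊆ W P R i :=
  antitone_nat_of_succ_le (f := W P R) hS.W_succ h

theorem Setup.W_ball {P : ℂ[X]} {R L : ℝ} (hS : Setup P R L) (k : ℕ) :
    W P R k ⊆ ball 0 R := by
  intro z hz
  have := hS.W_anti (Nat.zero_le k) hz
  simpa [W] using this

theorem Setup.iter_zero {P : ℂ[X]} {R L : ℝ} (hS : Setup P R L) (k : ℕ) :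
    (pm P)^[k] 0 = 0 := by
  have h : pm P 0 = 0 := hS.zero
  exact Function.iterate_fixed h k

theorem Setup.zero_mem_W {P : ℂ[X]} {R L : ℝ} (hS : Setup P R L) (k : ℕ) :
    (0 : ℂ) ∈ W P R k := by
  have h1 := hS.one_le
  simp only [W, mem_setOf_eq, hS.iter_zero, norm_zero]
  linarith

theorem Setup.V_open {P : ℂ[X]} {R L : ℝ} (hS : Setup P R L) (k : ℕ) : IsOpen (V P R k) :=
  (isOpen_W P R k).connectedComponentIn

theorem Setup.V_conn {P : ℂ[X]} {R L : ℝ} (hS : Setup P R L) (k : ℕ) :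
    IsPreconnected (V P R k) :=
  isPreconnected_connectedComponentIn

theorem Setup.zero_mem {P : ℂ[X]} {R L : ℝ} (hS : Setup P R L) (k : ℕ) :
    (0 : ℂ) ∈ V P R k :=
  mem_connectedComponentIn (hS.zero_mem_W k)

theorem V_sub_W (P : ℂ[X]) (R : ℝ) (k : ℕ) : V P R k ⊆ W P R k :=
  connectedComponentIn_subset _ _

theorem Setup.V_ball {P : ℂ[X]} {R L : ℝ} (hS : Setup P R L) (k : ℕ) :
    V P R k ⊆ ball 0 R :=
  (V_sub_W P R k).trans (hS.W_ball k)

/-- Maximality of the component. -/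
theorem Setup.subset_V {P : ℂ[X]} {R L : ℝ} (hS : Setup P R L) {k : ℕ} {S : Set ℂ}
    (h1 : IsPreconnected S) (h2 : S ⊆ W P R k) (h3 : (S ∩ V P R k).Nonempty) :
    S ⊆ V P R k := by
  obtain ⟨x, hxS, hxV⟩ := h3
  have h4 : V P R k = connectedComponentIn (W P R k) x :=
    connectedComponentIn_eq hxV
  rw [h4]
  exact h1.subset_connectedComponentIn hxS h2

theorem Setup.V_succ {P : ℂ[X]} {R L : ℝ} (hS : Setup P R L) (k : ℕ) :
    V P R (k + 1) ⊆ V P R k :=
  hS.subset_V (hS.V_conn (k + 1)) ((V_sub_W P R (k + 1)).trans (hS.W_succ k))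
    ⟨0, hS.zero_mem (k + 1), hS.zero_mem k⟩

theorem Setup.V_anti {P : ℂ[X]} {R L : ℝ} (hS : Setup P R L) {i k : ℕ} (h : i ≤ k) :
    V P R k ⊆ V P R i :=
  antitone_nat_of_succ_le (f := V P R) hS.V_succ h

theorem Setup.V_maps {P : ℂ[X]} {R L : ℝ} (hS : Setup P R L) (k : ℕ) :
    MapsTo (pm P) (V P R (k + 1)) (V P R k) := by
  have h1 : pm P '' V P R (k + 1) ⊆ V P R k := by
    refine hS.subset_V ((hS.V_conn (k + 1)).image _ (continuous_pm P).continuousOn) ?_
      ⟨0, ⟨0, hS.zero_mem (k + 1), hS.zero⟩, hS.zero_mem k⟩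
    rintro _ ⟨z, hz, rfl⟩
    have := V_sub_W P R (k + 1) hz
    simpa [W, Function.iterate_succ_apply] using this
  intro z hz
  exact h1 ⟨z, hz, rfl⟩

end DY
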