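import Pool.Agent.Lib.MP_40021b_an.Defs

/-!
# MP_40021b_an: zero counting

If `p + u` has `n + 1` zeros, `p` a polynomial of degree `n`, then `u` cannot be too small.
-/

namespace DY

open Complex Metric Set Filter Topology Polynomial

/-- Bound for the divided difference: if `u` is holomorphic near `ball a s` and on `Ω`, bounded
by `t`, then `dslope u a` is bounded by `8 t / s`. -/
theorem norm_dslope_le {u : ℂ → ℂ} {a : ℂ} {s t : ℝ} (hs : 0 < s) {Ω : Set ℂ} (hΩ : IsOpen Ω)
    (ha : ball a s ⊆ Ω) (hu : DifferentiableOn ℂ u Ω) (hb : ∀ w ∈ Ω, ‖u w‖ ≤ t) {w : ℂ}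
    (hw : w ∈ Ω) : ‖dslope u a w‖ ≤ 8 * t / s := by
  have haΩ : a ∈ Ω := ha (mem_ball_self hs)
  have key : ∀ v ∈ Ω, s / 4 ≤ ‖v - a‖ → ‖dslope u a v‖ ≤ 8 * t / s := by
    intro v hv hva
    have hne : v ≠ a := by
      rintro rfl
      simp at hva; linarith
    rw [dslope_of_ne _ hne, slope_def_field, norm_div]
    have hpos : 0 < ‖v - a‖ := by linarith
    rw [div_le_div_iff₀ hpos hs]
    have h1 : ‖u v - u a‖ ≤ 2 * t := by
      have := norm_sub_le (u v) (u a)
      have h2 := hb v hv
      have h3 := hb a haΩ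
      linarith
    have ht : 0 ≤ t := (norm_nonneg _).trans (hb a haΩ)
    nlinarith
  by_cases hwa : s / 4 ≤ ‖w - a‖
  · exact key w hw hwa
  · push Not at hwa
    have hd : DifferentiableOn ℂ (dslope u a) Ω :=
      (Complex.differentiableOn_dslope (hΩ.mem_nhds haΩ)).2 hu
    have hsub : closedBall a (s / 4) ⊆ Ω :=
      (closedBall_subset_ball (by linarith)).trans ha
    refine Complex.norm_le_of_forall_mem_frontier_norm_le (U := ball a (s / 4)) isBounded_ball
      (f := dslope u a) ?_ ?_ ?_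
    · refine DifferentiableOn.diffContOnCl ?_
      rw [closure_ball _ (by positivity)]
      exact hd.mono hsub
    · intro v hv
      rw [frontier_ball _ (by positivity)] at hv
      have hv' : ‖v - a‖ = s / 4 := by simpa [dist_eq_norm] using hv
      exact key v (hsub (sphere_subset_closedBall hv)) hv'.ge
    · exact subset_closure (by simpa [dist_eq_norm] using hwa)

theorem zero_count_aux (n : ℕ) : ∀ (p : ℂ[X]), p.natDegree = n → ∀ (s t : ℝ), 0 < s → 0 ≤ t →
    ∀ (u : ℂ → ℂ) (Z : Finset ℂ), Z.card = n + 1 →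
    (∀ z ∈ Z, DifferentiableOn ℂ u (ball z s)) →
    (∀ z ∈ Z, ∀ w ∈ ball z s, ‖u w‖ ≤ t) →
    (∀ z ∈ Z, p.eval z + u z = 0) →
    ‖p.leadingCoeff‖ ≤ t * (8 / s) ^ n := by
  induction n with
  | zero =>
    intro p hp s t hs ht u Z hZ hd hb h0
    obtain ⟨z, hz⟩ := Finset.card_pos.1 (by omega : 0 < Z.card)
    have h1 := h0 z hz
    rw [Polynomial.eq_C_of_natDegree_eq_zero hp] at h1 ⊢
    simp only [Polynomial.eval_C] at h1
    rw [Polynomial.leadingCoeff_C]
    have h2 : p.coeff 0 = - u z := eq_neg_of_add_eq_zero_left h1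
    rw [h2, norm_neg]
    simpa using hb z hz z (mem_ball_self hs)
  | succ n ih =>
    intro p hp s t hs ht u Z hZ hd hb h0
    obtain ⟨a, ha⟩ := Finset.card_pos.1 (by omega : 0 < Z.card)
    set Ω : Set ℂ := ⋃ z ∈ Z, ball z s with hΩdef
    have hΩ : IsOpen Ω := isOpen_biUnion fun _ _ => isOpen_ball
    have hsub : ∀ z ∈ Z, ball z s ⊆ Ω := fun z hz => subset_biUnion_of_mem (u := fun z => ball z s) hz
    have huΩ : DifferentiableOn ℂ u Ω := by
      intro w hw
      obtain ⟨z, hz, hwz⟩ := mem_iUnion₂.1 hw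
      exact ((hd z hz).differentiableAt (isOpen_ball.mem_nhds hwz)).differentiableWithinAt
    have hbΩ : ∀ w ∈ Ω, ‖u w‖ ≤ t := by
      intro w hw
      obtain ⟨z, hz, hwz⟩ := mem_iUnion₂.1 hw
      exact hb z hz w hwz
    -- division of the polynomial
    set p1 : ℂ[X] := p /ₘ (X - C a) with hp1
    have hdiv : p = (X - C a) * p1 + C (p.eval a) := by
      have := Polynomial.modByMonic_add_div p (X - C a)
      rw [Polynomial.modByMonic_X_sub_C_eq_C_eval] at this
      rw [add_comm]
      exact this.symm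
    have hdeg1 : p1.natDegree = n := by
      rw [hp1, Polynomial.natDegree_divByMonic _ (Polynomial.monic_X_sub_C a), hp]
      simp
    have hlc : p1.leadingCoeff = p.leadingCoeff := by
      refine Polynomial.leadingCoeff_divByMonic_of_monic (Polynomial.monic_X_sub_C a) ?_
      have hp0 : p ≠ 0 := by
        rintro rfl
        simp at hp
      rw [Polynomial.degree_X_sub_C, Polynomial.degree_eq_natDegree hp0, hp]
      exact_mod_cast Nat.succ_le_succ (Nat.zero_le n)
    have hda : DifferentiableOn ℂ (dslope u a) Ω :=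
      (Complex.differentiableOn_dslope (hΩ.mem_nhds (hsub a ha (mem_ball_self hs)))).2 huΩ
    have := ih p1 hdeg1 s (8 * t / s) hs (by positivity) (dslope u a) (Z.erase a)
      (by rw [Finset.card_erase_of_mem ha]; omega)
      (fun z hz => hda.mono (hsub z (Finset.mem_of_mem_erase hz)))
      (fun z hz w hw => norm_dslope_le hs hΩ (hsub a ha) huΩ hbΩ
        (hsub z (Finset.mem_of_mem_erase hz) hw))
      (by
        intro z hz
        have hza : z ≠ a := Finset.ne_of_mem_erase hz
        have h1 := h0 z (Finset.mem_of_mem_erase hz)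
        have h2 := h0 a ha
        rw [dslope_of_ne _ hza, slope_def_field]
        have h3 : p.eval z = (z - a) * p1.eval z + p.eval a := by
          conv_lhs => rw [hdiv]
          simp
        have h4 : z - a ≠ 0 := sub_ne_zero.2 hza
        field_simp
        linear_combination h1 - h2 - h3)
    rw [hlc] at this
    calc ‖p.leadingCoeff‖ ≤ 8 * t / s * (8 / s) ^ n := this
      _ = t * (8 / s) ^ (n + 1) := by ring

theorem zero_count (n : ℕ) : ∀ (p : ℂ[X]), p.natDegree = n → ∀ (s t : ℝ), 0 < s → 0 ≤ t →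
    ∀ (u : ℂ → ℂ) (Z : Finset ℂ), Z.card = n + 1 →
    (∀ z ∈ Z, DifferentiableOn ℂ u (ball z s)) →
    (∀ z ∈ Z, ∀ w ∈ ball z s, ‖u w‖ ≤ t) →
    (∀ z ∈ Z, p.eval z + u z = 0) →
    ‖p.leadingCoeff‖ ≤ t * (8 / s) ^ n * 2 ^ (n ^ 2) := by
  intro p hp s t hs ht u Z hZ hd hb h0
  refine (zero_count_aux n p hp s t hs ht u Z hZ hd hb h0).trans ?_
  refine le_mul_of_one_le_right (by positivity) ?_
  exact one_le_pow₀ (by norm_num)

end DY
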