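import Pool.Agent.Lib.MP_40021b_an.Defs
import Pool.Agent.Lib.MP_40021b_an.Fatou
import Pool.Agent.Lib.MP_40021b_an.ZeroCount
import Pool.Agent.Lib.MP_40021b_an.VBasic

/-!
# MP_40021b_an: Theorem A

An exponentially small perturbation of `P` on `V P R m` has at most `deg P - 1` attracting
cycles (with nonzero multipliers).
-/

namespace DY

open Complex Metric Set Filter Topology Polynomial

variable {P : ℂ[X]} {R L : ℝ}

theorem Setup.L_pos (hS : Setup P R L) : 0 < L := by have := hS.two_le; linarith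

theorem Setup.R_pos (hS : Setup P R L) : 0 < R := by have := hS.one_le; linarith

theorem Setup.iter_lt (hS : Setup P R L) {m : ℕ} {z : ℂ} (hz : z ∈ W P R m) {j : ℕ}
    (hj : j ≤ m) : ‖(pm P)^[j] z‖ < R :=
  hS.W_anti hj hz

theorem Setup.lip_iter (hS : Setup P R L) (i : ℕ) {z w : ℂ}
    (hz : ∀ j < i, ‖(pm P)^[j] z‖ ≤ 2 * R) (hw : ∀ j < i, ‖(pm P)^[j] w‖ ≤ 2 * R) :
    ‖(pm P)^[i] z - (pm P)^[i] w‖ ≤ L ^ i * ‖z - w‖ := by
  induction i with
  | zero => simp
  | succ i ih =>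
    have h1 := ih (fun j hj => hz j (by omega)) (fun j hj => hw j (by omega))
    rw [Function.iterate_succ_apply', Function.iterate_succ_apply']
    have h2 := hS.lip ((pm P)^[i] z) ((pm P)^[i] w) (hz i (by omega)) (hw i (by omega))
    calc ‖pm P ((pm P)^[i] z) - pm P ((pm P)^[i] w)‖
        ≤ L * ‖(pm P)^[i] z - (pm P)^[i] w‖ := h2
      _ ≤ L * (L ^ i * ‖z - w‖) := mul_le_mul_of_nonneg_left h1 hS.L_pos.le
      _ = L ^ (i + 1) * ‖z - w‖ := by ring

/-- Points close to a point `z` with `|P^m z| ≤ 3R/4` lie in `W P R m`. -/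
theorem Setup.ball_W (hS : Setup P R L) (m : ℕ) {z : ℂ} (hz : ‖(pm P)^[m] z‖ ≤ 3 * R / 4) :
    ball z (R / 4 / L ^ m) ⊆ W P R m := by
  intro w hw
  have hR := hS.R_pos
  have hL := hS.L_pos
  have hL1 : 1 ≤ L := by have := hS.two_le; linarith
  have hzW : z ∈ W P R m := by
    change ‖(pm P)^[m] z‖ < R
    linarith
  have hwz : ‖w - z‖ < R / 4 / L ^ m := by simpa [dist_eq_norm] using hw
  have hwz' : L ^ m * ‖w - z‖ < R / 4 := by
    rw [lt_div_iff₀ (by positivity)] at hwz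
    linarith
  have key : ∀ i ≤ m, ‖(pm P)^[i] w - (pm P)^[i] z‖ ≤ L ^ i * ‖w - z‖ := by
    intro i
    induction i with
    | zero => intro _; simp
    | succ i ih =>
      intro hi
      have h1 := ih (by omega)
      have h2 : ‖(pm P)^[i] z‖ < R := hS.iter_lt hzW (by omega)
      have h3 : L ^ i ≤ L ^ m := pow_le_pow_right₀ hL1 (by omega)
      have h4 : L ^ i * ‖w - z‖ ≤ L ^ m * ‖w - z‖ := mul_le_mul_of_nonneg_right h3 (norm_nonneg _)
      have h5 : ‖(pm P)^[i] w‖ ≤ 2 * R := by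
        have := norm_le_norm_add_norm_sub' ((pm P)^[i] w) ((pm P)^[i] z)
        linarith
      rw [Function.iterate_succ_apply', Function.iterate_succ_apply']
      have h6 := hS.lip ((pm P)^[i] w) ((pm P)^[i] z) h5 (by linarith)
      calc ‖pm P ((pm P)^[i] w) - pm P ((pm P)^[i] z)‖
          ≤ L * ‖(pm P)^[i] w - (pm P)^[i] z‖ := h6
        _ ≤ L * (L ^ i * ‖w - z‖) := mul_le_mul_of_nonneg_left h1 hL.le
        _ = L ^ (i + 1) * ‖w - z‖ := by ring
  have h7 := key m le_rfl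
  have h8 := norm_le_norm_add_norm_sub' ((pm P)^[m] w) ((pm P)^[m] z)
  change ‖(pm P)^[m] w‖ < R
  linarith

/-- The compact part of `V P R m`. -/
def Lm (P : ℂ[X]) (R : ℝ) (m : ℕ) : Set ℂ := {z | z ∈ V P R m ∧ ‖(pm P)^[m] z‖ ≤ 3 * R / 4}

theorem Setup.ball_V (hS : Setup P R L) (m : ℕ) {z : ℂ} (hz : z ∈ Lm P R m) :
    ball z (R / 4 / L ^ m) ⊆ V P R m := by
  have hR := hS.R_pos
  have hL := hS.L_pos
  exact hS.subset_V (convex_ball _ _).isPreconnected (hS.ball_W m hz.2)
    ⟨z, mem_ball_self (by positivity), hz.1⟩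

theorem Setup.isCompact_Lm (hS : Setup P R L) (m : ℕ) : IsCompact (Lm P R m) := by
  have hR := hS.R_pos
  have hL := hS.L_pos
  refine Metric.isCompact_of_isClosed_isBounded ?_ ?_
  · refine isClosed_of_closure_subset ?_
    intro z hz
    have h1 : ‖(pm P)^[m] z‖ ≤ 3 * R / 4 := by
      have hcl : IsClosed {z : ℂ | ‖(pm P)^[m] z‖ ≤ 3 * R / 4} :=
        isClosed_le (((continuous_pm P).iterate m).norm) continuous_const
      have : closure (Lm P R m) ⊆ {z : ℂ | ‖(pm P)^[m] z‖ ≤ 3 * R / 4} :=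
        closure_minimal (fun w hw => hw.2) hcl
      exact this hz
    have hpos : 0 < R / 4 / L ^ m := by positivity
    obtain ⟨w, hw, hwz⟩ := Metric.mem_closure_iff.1 hz _ hpos
    have h2 : ball z (R / 4 / L ^ m) ⊆ V P R m :=
      hS.subset_V (convex_ball _ _).isPreconnected (hS.ball_W m h1)
        ⟨w, by rwa [mem_ball, dist_comm], hw.1⟩
    exact ⟨h2 (mem_ball_self hpos), h1⟩
  · exact isBounded_ball.subset (fun z hz => hS.V_ball m hz.1)

/-- Points of `V` mapped to `V` by a small perturbation lie in the compact part. -/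
theorem Setup.sub_Lm (hS : Setup P R L) {m : ℕ} (hm : 1 ≤ m) {h : ℂ → ℂ} {t : ℝ}
    (ht : ∀ z ∈ V P R m, ‖h z‖ ≤ t) (hLt : L ^ m * t ≤ 1 / 4) {z : ℂ} (hz : z ∈ V P R m)
    (hfz : pm P z + h z ∈ V P R m) : z ∈ Lm P R m := by
  obtain ⟨k, rfl⟩ : ∃ k, m = k + 1 := ⟨m - 1, by omega⟩
  have hR := hS.R_pos
  have hL := hS.L_pos
  have hL2 := hS.two_le
  have hzW := V_sub_W P R _ hz
  have hfW := V_sub_W P R _ hfz
  refine ⟨hz, ?_⟩
  have h1 : ‖(pm P)^[k] (pm P z + h z)‖ < R / 2 := by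
    by_contra hcon
    push Not at hcon
    have h2 := hS.out _ hcon
    have h3 : ‖(pm P)^[k + 1] (pm P z + h z)‖ < R := hfW
    rw [Function.iterate_succ_apply'] at h3
    have h4 : ‖pm P ((pm P)^[k] (pm P z + h z))‖ = ‖P.eval ((pm P)^[k] (pm P z + h z))‖ := rfl
    rw [h4] at h3
    linarith
  have h5 : ‖(pm P)^[k] (pm P z) - (pm P)^[k] (pm P z + h z)‖ ≤
      L ^ k * ‖pm P z - (pm P z + h z)‖ := by
    refine hS.lip_iter k ?_ ?_
    · intro j hj
      have := hS.iter_lt hzW (j := j + 1) (by omega)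
      rw [Function.iterate_succ_apply] at this
      linarith
    · intro j hj
      have := hS.iter_lt hfW (j := j) (by omega)
      linarith
  have h6 : ‖pm P z - (pm P z + h z)‖ ≤ t := by
    have : pm P z - (pm P z + h z) = - h z := by ring
    rw [this, norm_neg]
    exact ht z hz
  have ht0 : 0 ≤ t := (norm_nonneg _).trans (ht z hz)
  have h7 : L ^ k * ‖pm P z - (pm P z + h z)‖ ≤ 1 / 4 := by
    have h8 : L ^ k * ‖pm P z - (pm P z + h z)‖ ≤ L ^ k * t :=
      mul_le_mul_of_nonneg_left h6 (by positivity)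
    have h9 : L ^ k * t ≤ L ^ (k + 1) * t :=
      mul_le_mul_of_nonneg_right (pow_le_pow_right₀ (by linarith) (by omega)) ht0
    linarith
  have h10 := norm_le_norm_add_norm_sub' ((pm P)^[k] (pm P z)) ((pm P)^[k] (pm P z + h z))
  rw [Function.iterate_succ_apply]
  have h11 := hS.one_le
  linarith

theorem thmA {P : ℂ[X]} {R L : ℝ} (hS : Setup P R L) :
    ∃ C : ℝ, 0 < C ∧ ∀ m : ℕ, 1 ≤ m → ∀ h : ℂ → ℂ, DifferentiableOn ℂ h (V P R m) →
      (∀ z ∈ V P R m, ‖h z‖ ≤ Real.exp (-(C * m))) →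
      ∀ q : ℕ, 0 < q → ∀ X : Finset ℂ, X.card = P.natDegree →
      (∀ x ∈ X, (∀ i, (fun z => pm P z + h z)^[i] x ∈ V P R m) ∧
        (fun z => pm P z + h z)^[q] x = x ∧
        deriv ((fun z => pm P z + h z)^[q]) x ≠ 0 ∧
        ‖deriv ((fun z => pm P z + h z)^[q]) x‖ < 1) →
      (∀ x ∈ X, ∀ y ∈ X, x ≠ y → ∀ i, (fun z => pm P z + h z)^[i] x ≠ y) → False := by
  have hR := hS.R_pos
  have hR1 := hS.one_le
  have hL := hS.L_pos
  have hL2 := hS.two_le
  have hdeg := hS.deg
  set d : ℕ := P.natDegree with hd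
  have hP0 : P ≠ 0 := by
    rintro rfl
    simp at hd
    omega
  have hlc : 0 < ‖P.leadingCoeff‖ := norm_pos_iff.2 (Polynomial.leadingCoeff_ne_zero.2 hP0)
  set a : ℝ := ‖P.leadingCoeff‖ with ha
  set K : ℝ := 64 ^ d * L ^ d * (1 + 2 / a) with hK
  have hfac : 1 < 1 + 2 / a := by
    have : 0 < 2 / a := by positivity
    linarith
  have h64 : 64 * L ≤ 64 ^ d * L ^ d := by
    have h1 : (64 * L) ^ 1 ≤ (64 * L) ^ d := pow_le_pow_right₀ (by linarith) (by omega)
    rw [pow_one, mul_pow] at h1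
    exact h1
  have hK64 : 64 * L ≤ K := by
    calc 64 * L ≤ 64 ^ d * L ^ d := h64
      _ ≤ 64 ^ d * L ^ d * (1 + 2 / a) := le_mul_of_one_le_right (by positivity) hfac.le
  have hK1 : 1 < K := by linarith
  have hKpos : 0 < K := by linarith
  refine ⟨Real.log K, Real.log_pos hK1, ?_⟩
  intro m hm h hh hht q hq X hX hXper hXdis
  set t : ℝ := Real.exp (-(Real.log K * m)) with htdef
  have ht : t = (K⁻¹) ^ m := by
    rw [htdef, Real.exp_neg, mul_comm, Real.exp_nat_mul, Real.exp_log hKpos, inv_pow]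
  have htpos : 0 < t := Real.exp_pos _
  have hLt : L ^ m * t ≤ 1 / 4 := by
    rw [ht, ← mul_pow]
    have h1 : L * K⁻¹ ≤ 1 / 64 := by
      rw [← div_eq_mul_inv, div_le_div_iff₀ hKpos (by norm_num)]
      linarith
    calc (L * K⁻¹) ^ m ≤ (1 / 64 : ℝ) ^ m := pow_le_pow_left₀ (by positivity) h1 m
      _ ≤ (1 / 64 : ℝ) ^ 1 := pow_le_pow_of_le_one (by norm_num) (by norm_num) hm
      _ ≤ 1 / 4 := by norm_num
  set f : ℂ → ℂ := fun z => pm P z + h z with hf
  have hVo := hS.V_open m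
  have hfV : DifferentiableOn ℂ f (V P R m) := P.differentiable.differentiableOn.add hh
  set U : Set ℂ := V P R m ∩ f ⁻¹' V P R m with hU
  have hUo : IsOpen U := hfV.continuousOn.isOpen_inter_preimage hVo hVo
  have hUL : U ⊆ Lm P R m := fun z hz => hS.sub_Lm hm hht hLt hz.1 hz.2
  have hUb : Bornology.IsBounded U := isBounded_ball.subset (fun z hz => hS.V_ball m hz.1)
  have hprop : ∀ K : Set ℂ, K ⊆ U → IsCompact K → IsCompact {z | z ∈ U ∧ f z ∈ K} := by
    intro K hK hKc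
    have hcl : IsClosed (Lm P R m ∩ f ⁻¹' K) :=
      (hfV.continuousOn.mono fun z hz => hz.1).preimage_isClosed_of_isClosed
        (hS.isCompact_Lm m).isClosed hKc.isClosed
    have heq : {z | z ∈ U ∧ f z ∈ K} = Lm P R m ∩ f ⁻¹' K := by
      ext z
      constructor
      · rintro ⟨h1, h2⟩
        exact ⟨hUL h1, h2⟩
      · rintro ⟨h1, h2⟩
        exact ⟨⟨h1.1, (hK h2).1⟩, h2⟩
    rw [heq]
    exact (hS.isCompact_Lm m).of_isClosed_subset hcl inter_subset_left
  obtain ⟨Z, hZc, hZ⟩ := fatou_count hUo hUb (hfV.mono fun z hz => hz.1) hprop hq X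
    (fun x hx => by
      obtain ⟨h1, h2, h3, h4⟩ := hXper x hx
      refine ⟨fun i => ⟨h1 i, ?_⟩, h2, h3, h4⟩
      have := h1 (i + 1)
      rw [Function.iterate_succ_apply'] at this
      exact this) hXdis
  -- the zero count
  set s : ℝ := R / 4 / L ^ m with hs
  have hspos : 0 < s := by positivity
  have hdn : P.derivative.natDegree = d - 1 :=
    Polynomial.natDegree_derivative P
  have hdlc : P.derivative.leadingCoeff = (d : ℂ) * P.leadingCoeff := by
    rw [Polynomial.leadingCoeff, hdn, Polynomial.coeff_derivative]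
    have : d - 1 + 1 = d := by omega
    rw [this, Polynomial.leadingCoeff, ← hd]
    have h2 : ((d - 1 : ℕ) : ℂ) + 1 = d := by
      rw [← Nat.cast_add_one, this]
    rw [h2]
    ring
  have hbd : ∀ z ∈ Z, ∀ w ∈ ball z (s / 2), ‖deriv h w‖ ≤ t / (s / 2) := by
    intro z hz w hw
    have hzL := hUL (hZ z hz).1
    have hsub : closedBall w (s / 2) ⊆ V P R m := by
      refine Subset.trans ?_ (hS.ball_V m hzL)
      intro v hv
      rw [mem_ball] at hw ⊢
      rw [mem_closedBall] at hv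
      have := dist_triangle v w z
      rw [← hs]
      linarith
    refine Complex.norm_deriv_le_of_forall_mem_sphere_norm_le (by positivity) ?_ ?_
    · refine DifferentiableOn.diffContOnCl ?_
      rw [closure_ball _ (by positivity)]
      exact hh.mono hsub
    · intro v hv
      exact hht v (hsub (sphere_subset_closedBall hv))
  have hzc := zero_count_aux (d - 1) P.derivative hdn (s / 2) (t / (s / 2)) (by positivity)
    (by positivity) (deriv h) Z (by rw [hZc, hX]; omega)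
    (fun z hz => (hh.deriv hVo).mono ((ball_subset_ball (by linarith)).trans
      (hS.ball_V m (hUL (hZ z hz).1)))) hbd
    (fun z hz => by
      obtain ⟨h1, h2, h3⟩ := hZ z hz
      have h4 : HasDerivAt f (P.derivative.eval z + deriv h z) z :=
        (P.hasDerivAt z).add ((hh.differentiableAt (hVo.mem_nhds h1.1)).hasDerivAt)
      rw [h4.deriv] at h3
      exact h3)
  rw [hdlc, norm_mul, ← ha] at hzc
  have hdnorm : ‖(d : ℂ)‖ = d := by simp
  rw [hdnorm] at hzc
  -- final numerical contradiction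
  have hsinv : 1 / s ≤ 4 * L ^ m := by
    rw [hs, div_div, one_div_div, div_le_iff₀ hR]
    nlinarith [pow_pos hL m]
  have e1 : t / (s / 2) ≤ 8 * L ^ m * t := by
    have : t / (s / 2) = 2 * t * (1 / s) := by field_simp
    rw [this]
    nlinarith
  have e2 : 8 / (s / 2) ≤ 64 * L ^ m := by
    have : 8 / (s / 2) = 16 * (1 / s) := by field_simp; ring
    rw [this]
    linarith
  have e3 : (8 / (s / 2)) ^ (d - 1) ≤ (64 * L ^ m) ^ (d - 1) :=
    pow_le_pow_left₀ (by positivity) e2 _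
  have e4 : t / (s / 2) * (8 / (s / 2)) ^ (d - 1) ≤ 8 * L ^ m * t * (64 * L ^ m) ^ (d - 1) :=
    mul_le_mul e1 e3 (by positivity) (by positivity)
  have e5 : 8 * L ^ m * t * (64 * L ^ m) ^ (d - 1) ≤ (64 * L ^ m) ^ d * t := by
    have : (64 * L ^ m) ^ d = (64 * L ^ m) ^ (d - 1) * (64 * L ^ m) := by
      rw [← pow_succ]; congr 1; omega
    rw [this]
    have : 8 * L ^ m * t * (64 * L ^ m) ^ (d - 1) =
      (64 * L ^ m) ^ (d - 1) * (8 * L ^ m) * t := by ring
    rw [this]
    refine mul_le_mul_of_nonneg_right ?_ htpos.le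
    refine mul_le_mul_of_nonneg_left ?_ (by positivity)
    nlinarith [pow_pos hL m]
  have e6 : (64 * L ^ m) ^ d * t ≤ (64 ^ d * L ^ d / K) ^ m := by
    rw [ht, mul_pow, div_eq_mul_inv, mul_pow, mul_pow]
    refine mul_le_mul_of_nonneg_right ?_ (by positivity)
    have : (L ^ m) ^ d = (L ^ d) ^ m := by rw [← pow_mul, ← pow_mul, mul_comm]
    rw [this]
    refine mul_le_mul_of_nonneg_right ?_ (by positivity)
    calc (64 : ℝ) ^ d = ((64 : ℝ) ^ d) ^ 1 := by ring
      _ ≤ ((64 : ℝ) ^ d) ^ m := pow_le_pow_right₀ (one_le_pow₀ (by norm_num)) hm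
  have e7 : 64 ^ d * L ^ d / K = a / (a + 2) := by
    rw [hK]
    field_simp
  have e8 : (a / (a + 2)) ^ m ≤ a / (a + 2) := by
    calc (a / (a + 2)) ^ m ≤ (a / (a + 2)) ^ 1 := by
          refine pow_le_pow_of_le_one (by positivity) ?_ hm
          rw [div_le_one (by positivity)]
          linarith
      _ = a / (a + 2) := pow_one _
  have e9 : a / (a + 2) < a := by
    rw [div_lt_iff₀ (by positivity)]
    nlinarith
  have e10 : a ≤ d * a := by
    have : (1 : ℝ) ≤ d := by exact_mod_cast (by omega : 1 ≤ d)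
    nlinarith
  rw [e7] at e6
  linarith

end DY
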