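import Pool.Agent.Lib.MP_40021b_an.Defs
import Pool.Agent.Lib.MP_40021b_an.VBasic
import Pool.Agent.Lib.MP_40021b_an.Harnack
import Pool.Agent.Lib.MP_40021b_an.Interp
import Pool.Agent.Lib.MP_40021b_an.ThmA

/-!
# MP_40021b_an, module K2: construction of a perturbation with `d` attracting cycles
-/

namespace DY

open Complex Metric Set Filter Topology Polynomial

/-- A point of the unit circle is close to a `q`-th root of unity if its `q`-th power is close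
to `1`. -/
theorem K2_rot {l : ℂ} (hl : ‖l‖ = 1) {q : ℕ} (hq : 1 ≤ q) :
    ∃ l0 : ℂ, ‖l0‖ = 1 ∧ l0 ^ q = 1 ∧ ‖l - l0‖ ≤ 2 * ‖l ^ q - 1‖ := by
  have hq0 : (0 : ℝ) < q := by exact_mod_cast hq
  set θ : ℝ := arg (l ^ q) with hθ
  have hlq : ‖l ^ q‖ = 1 := by rw [norm_pow, hl, one_pow]
  have h1 : exp (I * θ) = l ^ q := by
    have h := norm_mul_exp_arg_mul_I (l ^ q)
    rw [hlq, ofReal_one, one_mul, mul_comm] at h
    exact h
  have hn : ∀ x : ℝ, ‖exp (I * x)‖ = 1 := fun x => by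
    rw [mul_comm]
    exact norm_exp_ofReal_mul_I x
  have hθ1 : |θ| ≤ 2 * ‖l ^ q - 1‖ := by
    rw [← h1, norm_exp_I_mul_ofReal_sub_one, Real.norm_eq_abs, abs_mul, abs_two]
    have h2 : |θ / 2| ≤ Real.pi / 2 := by
      rw [abs_div, abs_two]
      have := abs_arg_le_pi (l ^ q)
      linarith
    have h3 := Real.mul_abs_le_abs_sin h2
    rw [abs_div, abs_two] at h3
    have h4 : |θ| / 4 ≤ 2 / Real.pi * (|θ| / 2) := by
      rw [div_mul_div_comm, mul_comm Real.pi 2, mul_div_mul_left _ _ two_ne_zero]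
      gcongr
      exact Real.pi_le_four
    linarith
  refine ⟨l * exp (I * ((-(θ / q) : ℝ) : ℂ)), ?_, ?_, ?_⟩
  · rw [norm_mul, hl, hn, one_mul]
  · rw [mul_pow, ← Complex.exp_nat_mul, ← h1, ← Complex.exp_add, ← Complex.exp_zero]
    congr 1
    push_cast
    have : (q : ℂ) ≠ 0 := by exact_mod_cast hq0.ne'
    field_simp
    ring
  · have h5 : l - l * exp (I * ((-(θ / q) : ℝ) : ℂ)) = -(l * (exp (I * ((-(θ / q) : ℝ) : ℂ)) - 1)) := by
      ring
    rw [h5, norm_neg, norm_mul, hl, one_mul]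
    refine (Real.norm_exp_I_mul_ofReal_sub_one_le).trans (le_trans ?_ hθ1)
    rw [Real.norm_eq_abs, abs_neg, abs_div, abs_of_pos hq0]
    refine div_le_self (abs_nonneg _) ?_
    exact_mod_cast hq

/-- The model map. -/
noncomputable def K2M (l0 : ℂ) (δ : ℝ) (N : ℕ) (w : ℂ) : ℂ :=
  l0 * w * (1 - δ * (w ^ N - (1 / 2) ^ N))

theorem K2M_deriv (l0 : ℂ) (δ : ℝ) {N : ℕ} {v : ℂ} (hv : v ^ N = (1 / 2) ^ N) :
    HasDerivAt (K2M l0 δ N) (l0 * (1 - δ * (N * (1 / 2) ^ N))) v := by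
  have h1 : HasDerivAt (fun w : ℂ => l0 * w) l0 v := by
    simpa using (hasDerivAt_id v).const_mul l0
  have h2 : HasDerivAt (fun w : ℂ => 1 - (δ : ℂ) * (w ^ N - (1 / 2) ^ N))
      (-((δ : ℂ) * (N * v ^ (N - 1)))) v := by
    have h3 := (((hasDerivAt_pow N v).sub_const ((1 / 2 : ℂ) ^ N)).const_mul (δ : ℂ)).const_sub 1
    exact h3
  have h4 := h1.mul h2
  refine h4.congr_deriv ?_
  rw [hv, sub_self, mul_zero, sub_zero, mul_one]
  rcases Nat.eq_zero_or_pos N with rfl | hN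
  · simp
  · have h5 : v * v ^ (N - 1) = (1 / 2) ^ N := by
      rw [← hv, ← pow_succ', Nat.sub_add_cancel hN]
    linear_combination (-(l0 * δ * N)) * h5

theorem K2M_diff (l0 : ℂ) (δ : ℝ) (N : ℕ) : Differentiable ℂ (K2M l0 δ N) := by
  unfold K2M
  fun_prop

theorem K2M_close {l0 : ℂ} (hl0 : ‖l0‖ = 1) {δ : ℝ} (hδ : 0 ≤ δ) {N : ℕ} (hN : 1 ≤ N) {w : ℂ}
    (hw : ‖w‖ ≤ 1) : ‖K2M l0 δ N w - l0 * w‖ ≤ 3 / 2 * δ * ‖w‖ := by
  have h1 : K2M l0 δ N w - l0 * w = -(l0 * w * (δ * (w ^ N - (1 / 2) ^ N))) := by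
    unfold K2M
    ring
  have h2 : ‖w ^ N - (1 / 2 : ℂ) ^ N‖ ≤ 3 / 2 := by
    refine (norm_sub_le _ _).trans ?_
    rw [norm_pow, norm_pow]
    have h3 : ‖w‖ ^ N ≤ 1 := pow_le_one₀ (norm_nonneg _) hw
    have h4 : ‖(1 / 2 : ℂ)‖ ^ N ≤ 1 / 2 := by
      have : ‖(1 / 2 : ℂ)‖ = 1 / 2 := by norm_num
      rw [this]
      calc (1 / 2 : ℝ) ^ N ≤ (1 / 2) ^ 1 := pow_le_pow_of_le_one (by norm_num) (by norm_num) hN
        _ = 1 / 2 := pow_one _
    linarith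
  rw [h1, norm_neg, norm_mul, norm_mul, norm_mul, hl0, one_mul, norm_real, Real.norm_eq_abs,
    abs_of_nonneg hδ]
  calc ‖w‖ * (δ * ‖w ^ N - (1 / 2) ^ N‖) ≤ ‖w‖ * (δ * (3 / 2)) := by gcongr
    _ = 3 / 2 * δ * ‖w‖ := by ring

/-- Iteration along an orbit of conjugated points. -/
theorem K2_orbit {f φ : ℂ → ℂ} {l0 κ : ℂ} {S : Set ℂ} (hS : ∀ v ∈ S, l0 * v ∈ S)
    (h0 : ∀ v ∈ S, deriv φ v ≠ 0)
    (h1 : ∀ v ∈ S, f (φ v) = φ (l0 * v))
    (h2 : ∀ v ∈ S, HasDerivAt f (deriv φ (l0 * v) * (l0 * κ) / deriv φ v) (φ v)) {v : ℂ}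
    (hv : v ∈ S) (i : ℕ) : l0 ^ i * v ∈ S ∧ f^[i] (φ v) = φ (l0 ^ i * v) ∧
      HasDerivAt (f^[i]) (deriv φ (l0 ^ i * v) * (l0 * κ) ^ i / deriv φ v) (φ v) := by
  induction i with
  | zero =>
    refine ⟨by simpa using hv, by simp, ?_⟩
    simp only [pow_zero, one_mul, mul_one, div_self (h0 v hv), Function.iterate_zero]
    exact hasDerivAt_id _
  | succ i ih =>
    obtain ⟨i1, i2, i3⟩ := ih
    have e1 : l0 ^ (i + 1) * v = l0 * (l0 ^ i * v) := by rw [pow_succ']; ring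
    refine ⟨by rw [e1]; exact hS _ i1, ?_, ?_⟩
    · rw [Function.iterate_succ_apply', i2, h1 _ i1, e1]
    · have h3 := h2 _ i1
      rw [← i2] at h3
      have h4 := h3.comp (φ v) i3
      rw [Function.iterate_succ']
      refine h4.congr_deriv ?_
      rw [e1]
      have h5 := h0 _ i1
      have h6 := h0 _ hv
      generalize deriv φ (l0 * (l0 ^ i * v)) = x
      generalize deriv φ (l0 ^ i * v) = y at h5
      generalize deriv φ v = z at h6
      rw [pow_succ]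
      field_simp

theorem K2_lip {ψ : ℂ → ℂ} {R : ℝ} (hR : 0 < R) (hψ : DifferentiableOn ℂ ψ (ball 0 1))
    (hm : MapsTo ψ (ball 0 1) (ball 0 R)) (h0 : ψ 0 = 0) {e : ℝ} (he : 0 < e) {z w : ℂ}
    (hz : ‖z‖ ≤ 1 - e) (hw : ‖w‖ ≤ 1 - e) : ‖ψ z - ψ w‖ ≤ R / e * ‖z - w‖ := by
  have hd : DiscMap (fun z => ψ z / R) (deriv (fun z => ψ z / R) 0) := by
    refine ⟨hψ.div_const _, fun z hz => ?_, by simp [h0], rfl⟩
    have h1 := hm hz
    rw [mem_ball_zero_iff] at h1 ⊢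
    rw [norm_div, norm_real, Real.norm_eq_abs, abs_of_pos hR]
    exact (div_lt_one hR).2 h1
  have h2 := hd.lip he hz hw
  rw [← sub_div, norm_div, norm_real, Real.norm_eq_abs, abs_of_pos hR, div_le_iff₀ hR] at h2
  refine h2.trans (le_of_eq ?_)
  ring

/-- The bound for `F` on the circle. -/
theorem K2_F {R δ e aK : ℝ} (hR : 1 ≤ R) (hδ : 0 ≤ δ) (he : 0 < e) (he4 : e ≤ 1 / 4)
    (hδe : δ ≤ e / 8) (haK0 : 0 ≤ aK) (haK : aK ≤ δ) {l l0 : ℂ} (hl : ‖l‖ = 1) (hl0 : ‖l0‖ = 1)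
    (hll : ‖l - l0‖ ≤ 2 * δ) {N : ℕ} (hN : 1 ≤ N) {ψK gK BK : ℂ → ℂ}
    (hψ : DifferentiableOn ℂ ψK (ball 0 1)) (hψm : MapsTo ψK (ball 0 1) (ball 0 R))
    (hψ0 : ψK 0 = 0)
    (hgK : DiscMap gK (Real.exp (-aK) : ℝ)) (hBK : DiscMap BK (l * (Real.exp (-aK) : ℝ)))
    {w : ℂ} (hw : ‖w‖ = 1 - e) :
    ‖ψK (gK (K2M l0 δ N w)) - ψK (BK w)‖ ≤ 20 * R * δ / e ^ 2 := by
  have hw1 : ‖w‖ ≤ 1 := by rw [hw]; linarith
  have hMc := K2M_close hl0 hδ hN hw1
  set z := K2M l0 δ N w with hz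
  have hz1 : ‖z‖ ≤ 1 - 13 / 16 * e := by
    have h1 : ‖z‖ ≤ ‖l0 * w‖ + ‖z - l0 * w‖ := by
      have := norm_add_le (l0 * w) (z - l0 * w)
      rwa [add_sub_cancel] at this
    rw [norm_mul, hl0, one_mul] at h1
    have h2 : 3 / 2 * δ * ‖w‖ ≤ 3 / 16 * e * 1 := by
      apply mul_le_mul _ hw1 (norm_nonneg _) (by positivity)
      linarith
    rw [hw] at h1 h2 hMc
    linarith
  have hzb : z ∈ ball (0 : ℂ) 1 := by
    rw [mem_ball_zero_iff]; linarith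
  have hwb : w ∈ ball (0 : ℂ) 1 := by
    rw [mem_ball_zero_iff]; linarith
  have hg1 : ‖gK z‖ ≤ 1 - e / 2 := (hgK.norm_le hzb).trans (by linarith)
  have hB1 : ‖BK w‖ ≤ 1 - e / 2 := (hBK.norm_le hwb).trans (by linarith)
  have hg' : DiscMap gK (1 * (Real.exp (-aK) : ℝ)) := by rwa [one_mul]
  have hg2 := hg'.near (by simp) haK0 hzb
  have hB2 := hBK.near hl haK0 hwb
  rw [one_mul] at hg2
  have t1 : 2 * aK * ‖z‖ / (1 - ‖z‖) ≤ 5 / 2 * δ / e := by
    have hp : 0 < 1 - ‖z‖ := by linarith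
    rw [div_le_div_iff₀ hp he]
    have e1 : 2 * aK * ‖z‖ * e ≤ 2 * δ * 1 * e := by
      have hz2 : ‖z‖ ≤ 1 := by linarith
      gcongr
    have e2 : 5 / 2 * δ * (13 / 16 * e) ≤ 5 / 2 * δ * (1 - ‖z‖) := by
      apply mul_le_mul_of_nonneg_left _ (by positivity)
      linarith
    have e3 : 0 ≤ δ * e := by positivity
    linarith
  have t2 : 2 * aK * ‖w‖ / (1 - ‖w‖) ≤ 2 * δ / e := by
    rw [hw, show 1 - (1 - e) = e by ring]
    have e1 : 2 * aK * (1 - e) ≤ 2 * δ * 1 := by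
      have : 0 ≤ 1 - e := by linarith
      have h3 : 1 - e ≤ 1 := by linarith
      gcongr
    rw [mul_one] at e1
    gcongr
  have t3 : ‖z - l0 * w‖ ≤ 3 / 2 * δ := by
    refine hMc.trans ?_
    have := mul_le_mul_of_nonneg_left hw1 (show 0 ≤ 3 / 2 * δ by positivity)
    linarith
  have t4 : ‖l0 * w - l * w‖ ≤ 2 * δ := by
    rw [← sub_mul, norm_mul, norm_sub_rev]
    calc ‖l - l0‖ * ‖w‖ ≤ (2 * δ) * 1 := by gcongr
      _ = 2 * δ := mul_one _
  have t5 : ‖gK z - BK w‖ ≤ 5 / 2 * δ / e + 3 / 2 * δ + 2 * δ + 2 * δ / e := by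
    have h3 : gK z - BK w = (gK z - z) + (z - l0 * w) + (l0 * w - l * w) + (l * w - BK w) := by
      ring
    rw [h3]
    refine (norm_add_le _ _).trans (add_le_add ((norm_add_le _ _).trans (add_le_add
      ((norm_add_le _ _).trans (add_le_add (hg2.trans t1) t3)) t4)) ?_)
    rw [norm_sub_rev]
    exact hB2.trans t2
  have t6 : 5 / 2 * δ / e + 3 / 2 * δ + 2 * δ + 2 * δ / e ≤ 10 * δ / e := by
    have h4 : 3 / 2 * δ + 2 * δ ≤ δ / e := by
      rw [le_div_iff₀ he]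
      nlinarith
    have h5 : 5 / 2 * δ / e = 5 / 2 * (δ / e) := by ring
    have h6 : 2 * δ / e = 2 * (δ / e) := by ring
    have h7 : 10 * δ / e = 10 * (δ / e) := by ring
    have h8 : 0 ≤ δ / e := by positivity
    rw [h5, h6, h7]
    linarith
  have hlip := K2_lip (by linarith : 0 < R) hψ hψm hψ0 (by linarith : 0 < e / 2) hg1 hB1
  refine hlip.trans ?_
  have h9 : R / (e / 2) * ‖gK z - BK w‖ ≤ R / (e / 2) * (10 * δ / e) := by
    apply mul_le_mul_of_nonneg_left (t5.trans t6)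
    positivity
  refine h9.trans (le_of_eq ?_)
  field_simp
  ring

/-- The bound for the perturbation. -/
theorem K2_small {R δ e E C2 : ℝ} {d q m K : ℕ} (hR : 1 ≤ R) (hδ : 0 < δ) (he : 0 < e)
    (hE : 0 ≤ E) (hm : 1 ≤ m) (hK : K ≤ d * q)
    (hcon : 10 * d * q * E + (C2 + Real.log (40 * R)) * m + 4 * Real.log (1 / e) <
      Real.log (1 / δ)) :
    2 / e ^ 2 * (20 * R * δ / e ^ 2) * Real.exp (10 * K * E) ≤ Real.exp (-(C2 * m)) := by
  have hm1 : (1 : ℝ) ≤ m := by exact_mod_cast hm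
  have hK1 : (K : ℝ) ≤ d * q := by exact_mod_cast hK
  have hl : 0 ≤ Real.log (40 * R) := Real.log_nonneg (by linarith)
  have h1 : Real.log (40 * R) ≤ Real.log (40 * R) * m := le_mul_of_one_le_right hl hm1
  have h2 : 10 * K * E ≤ 10 * d * q * E := by
    have := mul_le_mul_of_nonneg_right hK1 hE
    nlinarith
  have h3 : 2 / e ^ 2 * (20 * R * δ / e ^ 2) =
      Real.exp (Real.log (40 * R) - Real.log (1 / δ) + 4 * Real.log (1 / e)) := by
    rw [Real.exp_add, Real.exp_sub, Real.exp_log (by positivity), Real.exp_log (by positivity)]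
    have h4 : Real.exp (4 * Real.log (1 / e)) = (1 / e) ^ 4 := by
      rw [show (4 : ℝ) * Real.log (1 / e) = ((4 : ℕ) : ℝ) * Real.log (1 / e) by norm_num,
        Real.exp_nat_mul, Real.exp_log (by positivity)]
    rw [h4]
    field_simp
    ring
  rw [h3, ← Real.exp_add]
  apply Real.exp_le_exp.2
  nlinarith

theorem K2 {P : ℂ[X]} {R L : ℝ} (hS : Setup P R L) :
    ∃ C : ℝ, 0 < C ∧ ∀ (m q : ℕ) (l : ℂ) (e E aK : ℝ) (G φ ψK gK BK : ℂ → ℂ), 1 ≤ m → 1 ≤ q →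
      ‖l‖ = 1 → l ^ q ≠ 1 → 0 < e → e ≤ 1 / 4 → ‖l ^ q - 1‖ ≤ e / 8 → 0 ≤ E → 0 ≤ aK →
      aK ≤ ‖l ^ q - 1‖ →
      DifferentiableOn ℂ G (V P R m) → MapsTo G (V P R m) (ball 0 1) → InjOn G (V P R m) →
      G 0 = 0 →
      DifferentiableOn ℂ φ (ball 0 1) → MapsTo φ (ball 0 1) (V P R m) →
      InjOn φ (ball 0 1) → φ 0 = 0 → (∀ w ∈ ball (0 : ℂ) 1, deriv φ w ≠ 0) →
      DifferentiableOn ℂ ψK (ball 0 1) → MapsTo ψK (ball 0 1) (ball 0 R) →
      DiscMap gK (Real.exp (-aK) : ℝ) → DiscMap BK (l * (Real.exp (-aK) : ℝ)) →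
      (∀ w ∈ ball (0 : ℂ) 1, φ w = ψK (gK w)) →
      (∀ w ∈ ball (0 : ℂ) 1, pm P (φ w) = ψK (BK w)) →
      (∀ w, ‖w‖ = 1 - e → Real.exp (-E) ≤ ‖G (φ w)‖) →
      Real.log (1 / ‖l ^ q - 1‖) ≤
        10 * P.natDegree * q * E + C * m + 4 * Real.log (1 / e) := by
  obtain ⟨C2, hC2, hA⟩ := thmA hS
  have hR := hS.one_le
  refine ⟨C2 + Real.log (40 * R), by
    have := Real.log_nonneg (show (1 : ℝ) ≤ 40 * R by linarith)
    linarith, ?_⟩
  intro m q l e E aK G φ ψK gK BK hm hq hl hlq he he4 hδ hE haK0 haK hG hGm hGi hG0 hφ hφm hφi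
    hφ0 hφd hψ hψm hgK hBK hc1 hc2 hlow
  by_contra hcon
  push Not at hcon
  have hδ0 : 0 < ‖l ^ q - 1‖ := norm_pos_iff.2 (sub_ne_zero.2 hlq)
  obtain ⟨l0, hl0, hl0q, hl0c⟩ := K2_rot hl hq
  set δ : ℝ := ‖l ^ q - 1‖ with hδdef
  have hd : 2 ≤ P.natDegree := hS.deg
  set d := P.natDegree with hddef
  set N := d * q with hNdef
  have hN : 1 ≤ N := Nat.mul_pos (by omega) hq
  have hψ0 : ψK 0 = 0 := by
    have h1 := hc1 0 (mem_ball_self one_pos)
    rw [hφ0, hgK.zero] at h1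
    exact h1.symm
  -- the model map stays in the disc
  have hMball : MapsTo (K2M l0 δ N) (ball 0 (1 - e / 2)) (ball 0 1) := by
    intro w hw
    rw [mem_ball_zero_iff] at hw ⊢
    have hw1 : ‖w‖ ≤ 1 := by linarith
    have hMc := K2M_close hl0 hδ0.le hN hw1
    have h1 : ‖K2M l0 δ N w‖ ≤ ‖l0 * w‖ + ‖K2M l0 δ N w - l0 * w‖ := by
      have := norm_add_le (l0 * w) (K2M l0 δ N w - l0 * w)
      rwa [add_sub_cancel] at this
    rw [norm_mul, hl0, one_mul] at h1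
    have h2 : 3 / 2 * δ * ‖w‖ ≤ 3 / 2 * (e / 8) * 1 := by gcongr
    linarith
  set F : ℂ → ℂ := fun w => φ (K2M l0 δ N w) - pm P (φ w) with hFdef
  have hsub : ball (0 : ℂ) (1 - e / 2) ⊆ ball 0 1 := ball_subset_ball (by linarith)
  have hpm : Differentiable ℂ (pm P) := P.differentiable
  have hF : DifferentiableOn ℂ F (ball 0 (1 - e / 2)) :=
    (hφ.comp (K2M_diff l0 δ N).differentiableOn hMball).sub
      (hpm.comp_differentiableOn (hφ.mono hsub))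
  have hFb : ∀ w, ‖w‖ = 1 - e → ‖F w‖ ≤ 20 * R * δ / e ^ 2 := by
    intro w hw
    have hwb : w ∈ ball (0 : ℂ) (1 - e / 2) := by
      rw [mem_ball_zero_iff, hw]; linarith
    have h1 : F w = ψK (gK (K2M l0 δ N w)) - ψK (BK w) := by
      rw [hFdef]
      simp only
      rw [hc1 _ (hMball hwb), hc2 _ (hsub hwb)]
    rw [h1]
    exact K2_F hR hδ0.le he he4 hδ haK0 haK hl hl0 hl0c hN hψ hψm hψ0 hgK hBK hw
  -- the interpolating function
  set Wf : Finset ℂ := nthRootsFinset N ((1 / 2 : ℂ) ^ N) with hWf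
  have hmemW : ∀ v, v ∈ Wf ↔ v ^ N = (1 / 2) ^ N := fun v => mem_nthRootsFinset hN _
  have hcard : Wf.card ≤ N := by
    classical
    rw [hWf, nthRootsFinset_def]
    exact (Multiset.toFinset_card_le _).trans (card_nthRoots _ _)
  have hnormW : ∀ v : ℂ, v ^ N = (1 / 2) ^ N → ‖v‖ = 1 / 2 := by
    intro v hv
    have h1 : ‖v‖ ^ N = (1 / 2) ^ N := by
      rw [← norm_pow, hv, norm_pow]
      norm_num
    exact (pow_left_inj₀ (norm_nonneg _) (by norm_num) (by omega)).1 h1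
  have hg : DifferentiableOn ℂ (fun w => G (φ w)) (ball 0 1) := hG.comp hφ hφm
  have hgm : MapsTo (fun w => G (φ w)) (ball 0 1) (ball 0 1) := fun w hw => hGm (hφm hw)
  have hgi : InjOn (fun w => G (φ w)) (ball 0 1) := fun z hz w hw h =>
    hφi hz hw (hGi (hφm hz) (hφm hw) h)
  have hg0 : (fun w => G (φ w)) 0 = 0 := by
    simp only
    rw [hφ0, hG0]
  obtain ⟨H, hHd, hHb, hHv⟩ := interp hg hgm hgi hg0 he he4 (r := 1 - e / 2) (by linarith)
    (by linarith) hF Wf (fun v hv => (hnormW v ((hmemW v).1 hv)).le) hlow hFb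
  -- the perturbation
  have hVo := hS.V_open m
  set h : ℂ → ℂ := fun z => H (G z) with hhdef
  have hhd : DifferentiableOn ℂ h (V P R m) := hHd.comp hG hGm
  have hhb : ∀ z ∈ V P R m, ‖h z‖ ≤ Real.exp (-(C2 * m)) := fun z hz =>
    (hHb _ (hGm hz)).trans (K2_small hR hδ0 he hE hm hcard hcon)
  set f : ℂ → ℂ := fun z => pm P z + h z with hfdef
  -- the invariant set
  set S : Set ℂ := {v | v ^ N = (1 / 2) ^ N} with hSdef
  have hl0N : l0 ^ N = 1 := by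
    rw [hNdef, mul_comm, pow_mul, hl0q, one_pow]
  have hS1 : ∀ v ∈ S, l0 * v ∈ S := by
    intro v hv
    change (l0 * v) ^ N = (1 / 2) ^ N
    rw [mul_pow, hl0N, one_mul]
    exact hv
  have hSb : ∀ v ∈ S, v ∈ ball (0 : ℂ) 1 := by
    intro v hv
    rw [mem_ball_zero_iff, hnormW v hv]
    norm_num
  have hMS : ∀ v ∈ S, K2M l0 δ N v = l0 * v := by
    intro v hv
    unfold K2M
    rw [show v ^ N = (1 / 2) ^ N from hv, sub_self, mul_zero, sub_zero, mul_one]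
  set κ : ℂ := 1 - δ * (N * (1 / 2) ^ N) with hκ
  have hconj : ∀ v ∈ S, f (φ v) = φ (l0 * v) := by
    intro v hv
    have h1 := (hHv v ((hmemW v).2 hv)).1
    change pm P (φ v) + H (G (φ v)) = φ (l0 * v)
    change H (G (φ v)) = φ (K2M l0 δ N v) - pm P (φ v) at h1
    rw [h1, hMS v hv]
    ring
  have hder : ∀ v ∈ S, HasDerivAt f (deriv φ (l0 * v) * (l0 * κ) / deriv φ v) (φ v) := by
    intro v hv
    have hvb := hSb v hv
    have hvn : ball (0 : ℂ) 1 ∈ 𝓝 v := isOpen_ball.mem_nhds hvb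
    have hVn : V P R m ∈ 𝓝 (φ v) := hVo.mem_nhds (hφm hvb)
    have hφv : HasDerivAt φ (deriv φ v) v := (hφ.differentiableAt hvn).hasDerivAt
    have hf' : HasDerivAt f (deriv f (φ v)) (φ v) :=
      ((hpm.differentiableAt).add (hhd.differentiableAt hVn)).hasDerivAt
    have hcomp : HasDerivAt (fun u => f (φ u)) (deriv f (φ v) * deriv φ v) v := hf'.comp v hφv
    have hP : HasDerivAt (fun u => pm P (φ u)) (deriv (fun u => pm P (φ u)) v) v :=
      (hpm.differentiableAt.comp v (hφ.differentiableAt hvn)).hasDerivAt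
    have hH : HasDerivAt (fun u => H (G (φ u))) (deriv (fun u => H (G (φ u))) v) v :=
      ((hhd.differentiableAt hVn).comp v (hφ.differentiableAt hvn)).hasDerivAt
    have hH2 : deriv (fun u => H (G (φ u))) v = deriv F v := (hHv v ((hmemW v).2 hv)).2
    have hφM : HasDerivAt (fun u => φ (K2M l0 δ N u)) (deriv φ (l0 * v) * (l0 * κ)) v := by
      have h1 : HasDerivAt φ (deriv φ (l0 * v)) (K2M l0 δ N v) := by
        rw [hMS v hv]
        exact (hφ.differentiableAt (isOpen_ball.mem_nhds (hSb _ (hS1 v hv)))).hasDerivAt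
      exact h1.comp v (K2M_deriv l0 δ hv)
    have hF' : HasDerivAt F (deriv φ (l0 * v) * (l0 * κ) - deriv (fun u => pm P (φ u)) v) v :=
      hφM.sub hP
    rw [hF'.deriv] at hH2
    have hsum := hP.add hH
    rw [hH2] at hsum
    have huniq : deriv f (φ v) * deriv φ v = deriv φ (l0 * v) * (l0 * κ) := by
      have h1 := hcomp.unique hsum
      rw [h1]
      ring
    have h2 : deriv f (φ v) = deriv φ (l0 * v) * (l0 * κ) / deriv φ v := by
      rw [eq_div_iff (hφd v hvb)]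
      exact huniq
    rw [← h2]
    exact hf'
  have horb : ∀ v ∈ S, ∀ i : ℕ, l0 ^ i * v ∈ S ∧ f^[i] (φ v) = φ (l0 ^ i * v) ∧
      HasDerivAt (f^[i]) (deriv φ (l0 ^ i * v) * (l0 * κ) ^ i / deriv φ v) (φ v) :=
    fun v hv i => K2_orbit hS1 (fun v hv => hφd v (hSb v hv)) hconj hder hv i
  -- the multiplier
  have hκr : κ = ((1 - δ * (N * (1 / 2) ^ N) : ℝ) : ℂ) := by
    rw [hκ]; push_cast; ring
  have hNpow : (N : ℝ) * (1 / 2) ^ N ≤ 1 := by
    have h1 : (N : ℝ) ≤ 2 ^ N := by exact_mod_cast N.lt_two_pow_self.le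
    rw [one_div, inv_pow, ← div_eq_mul_inv]
    exact div_le_one_of_le₀ h1 (by positivity)
  have hNpos : 0 < (N : ℝ) * (1 / 2) ^ N := by
    have : (0 : ℝ) < N := by exact_mod_cast hN
    positivity
  have hκ0 : 0 < 1 - δ * ((N : ℝ) * (1 / 2) ^ N) := by
    have h1 : δ * ((N : ℝ) * (1 / 2) ^ N) ≤ δ * 1 := by gcongr
    linarith
  have hκ1 : 1 - δ * ((N : ℝ) * (1 / 2) ^ N) < 1 := by
    have h1 : 0 < δ * ((N : ℝ) * (1 / 2) ^ N) := by positivity
    linarith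
  -- the starting points
  set ζ : ℂ := exp (2 * Real.pi * I / N) with hζ
  have hprim : IsPrimitiveRoot ζ N := isPrimitiveRoot_exp N (by omega)
  set vv : ℕ → ℂ := fun a => 1 / 2 * ζ ^ a with hvv
  have hvS : ∀ a, vv a ∈ S := by
    intro a
    change (1 / 2 * ζ ^ a) ^ N = (1 / 2) ^ N
    have h1 : (ζ ^ a) ^ N = 1 := by
      rw [← pow_mul, mul_comm a N, pow_mul ζ N a, hprim.pow_eq_one, one_pow]
    rw [mul_pow, h1, mul_one]
  have hdis0 : ∀ a < d, ∀ b < d, ∀ i, l0 ^ i * vv a = vv b → a = b := by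
    intro a ha b hb i hab
    have h1 : (l0 ^ i * (1 / 2 * ζ ^ a)) ^ q = (1 / 2 * ζ ^ b) ^ q := congrArg (fun x => x ^ q) hab
    rw [mul_pow, ← pow_mul l0 i q, mul_comm i q, pow_mul l0 q i, hl0q, one_pow, one_mul, mul_pow,
      mul_pow, ← pow_mul, ← pow_mul] at h1
    have h2 : ((1 / 2 : ℂ)) ^ q ≠ 0 := pow_ne_zero _ (by norm_num)
    have h3 := mul_left_cancel₀ h2 h1
    have h4 := hprim.pow_inj (by rw [hNdef]; exact Nat.mul_lt_mul_of_pos_right ha hq)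
      (by rw [hNdef]; exact Nat.mul_lt_mul_of_pos_right hb hq) h3
    exact Nat.eq_of_mul_eq_mul_right hq h4
  classical
  have hinj : Set.InjOn (fun a => φ (vv a)) (Finset.range d : Set ℕ) := by
    intro a ha b hb hab
    rw [Finset.mem_coe, Finset.mem_range] at ha hb
    have h1 := hφi (hSb _ (hvS a)) (hSb _ (hvS b)) hab
    exact hdis0 a ha b hb 0 (by simpa using h1)
  refine hA m hm h hhd hhb q hq ((Finset.range d).image fun a => φ (vv a)) ?_ ?_ ?_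
  · rw [Finset.card_image_of_injOn hinj, Finset.card_range]
  · intro x hx
    rw [Finset.mem_image] at hx
    obtain ⟨a, _, rfl⟩ := hx
    have hva := hvS a
    obtain ⟨h1, h2, h3⟩ := horb _ hva q
    rw [hl0q, one_mul] at h2 h3
    have h4 : deriv (f^[q]) (φ (vv a)) = κ ^ q := by
      rw [h3.deriv, mul_pow, hl0q, one_mul, mul_div_assoc, mul_comm, div_mul_cancel₀]
      exact hφd _ (hSb _ hva)
    refine ⟨fun i => ?_, h2, ?_, ?_⟩
    · obtain ⟨i1, i2, _⟩ := horb _ hva i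
      rw [i2]
      exact hφm (hSb _ i1)
    · rw [h4, hκr]
      exact pow_ne_zero _ (by exact_mod_cast hκ0.ne')
    · rw [h4, hκr, norm_pow, norm_real, Real.norm_eq_abs, abs_of_pos hκ0]
      exact pow_lt_one₀ hκ0.le hκ1 (by omega)
  · intro x hx y hy hxy i hi
    rw [Finset.mem_image] at hx hy
    obtain ⟨a, ha, rfl⟩ := hx
    obtain ⟨b, hb, rfl⟩ := hy
    rw [Finset.mem_range] at ha hb
    obtain ⟨i1, i2, _⟩ := horb _ (hvS a) i
    rw [i2] at hi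
    have h1 := hφi (hSb _ i1) (hSb _ (hvS b)) hi
    exact hxy (by rw [hdis0 a ha b hb i h1])

end DY
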