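import Pool.Agent.Lib.MP_40021b_an.Defs

/-!
# MP_40021b_an, module TRANSFER

A holomorphic function on the preimage of an open set `U` under a polynomial `Q` of degree `n`
is `∑_{j<n} A_j (Q z) z^j` with `A_j` holomorphic on `U`.
-/

namespace DY

open Complex Metric Set Filter Topology Polynomial

theorem tr_dslope {O : Set ℂ} (hO : IsOpen O) {G : ℂ → ℂ} (hG : DifferentiableOn ℂ G O) {a : ℂ}
    (ha : a ∈ O) : DifferentiableOn ℂ (dslope G a) O :=
  (Complex.differentiableOn_dslope (hO.mem_nhds ha)).2 hG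

/-- Newton interpolation with bounds. -/
theorem tr_newton {O S : Set ℂ} (hO : IsOpen O) (hSb : Bornology.IsBounded S)
    (hSO : closure S ⊆ O) {δ B : ℝ} (hδ : 0 < δ) (hSB : ∀ z ∈ S, ‖z‖ ≤ B) : ∀ k : ℕ,
    ∃ C : ℝ, 0 ≤ C ∧ ∀ L : Multiset ℂ, Multiset.card L = k →
      (∀ a ∈ L, a ∈ S ∧ ∀ y ∈ frontier S, δ ≤ ‖y - a‖) →
      ∀ G : ℂ → ℂ, DifferentiableOn ℂ G O → ∀ M : ℝ, 0 ≤ M → (∀ z ∈ closure S, ‖G z‖ ≤ M) →
      ∃ p : ℂ[X], (∀ j, k ≤ j → p.coeff j = 0) ∧ (∀ j, ‖p.coeff j‖ ≤ C * M) ∧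
        ∃ R : ℂ → ℂ, DifferentiableOn ℂ R O ∧
          ∀ z ∈ O, G z = p.eval z + (L.map (fun a => z - a)).prod * R z := by
  intro k
  induction k with
  | zero =>
    refine ⟨0, le_rfl, fun L hL _ G hG M _ _ => ⟨0, by simp, by simp, G, hG, fun z _ => ?_⟩⟩
    rw [Multiset.card_eq_zero] at hL
    subst hL
    simp
  | succ k ih =>
    obtain ⟨C, hC, ih⟩ := ih
    refine ⟨1 + (|B| + 1) * (C * (2 / δ)), by positivity, ?_⟩
    intro L hL hLS G hG M hM hGM
    obtain ⟨a, ha⟩ : ∃ a, a ∈ L := by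
      apply Multiset.card_pos_iff_exists_mem.1
      omega
    obtain ⟨L', rfl⟩ := Multiset.exists_cons_of_mem ha
    have haS : a ∈ S := (hLS a ha).1
    have haO : a ∈ O := hSO (subset_closure haS)
    have hG1 : DifferentiableOn ℂ (dslope G a) O := tr_dslope hO hG haO
    have hb1 : ∀ z ∈ closure S, ‖dslope G a z‖ ≤ 2 / δ * M := by
      intro z hz
      refine Complex.norm_le_of_forall_mem_frontier_norm_le hSb
        (DifferentiableOn.diffContOnCl (hG1.mono hSO)) ?_ hz
      intro y hy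
      have hya := (hLS a ha).2 y hy
      have hne : y ≠ a := by
        intro h
        rw [h, sub_self, norm_zero] at hya
        linarith
      rw [dslope_of_ne _ hne, slope_def_field, norm_div]
      have h1 : ‖G y - G a‖ ≤ 2 * M := by
        refine (norm_sub_le _ _).trans ?_
        have := hGM y (frontier_subset_closure hy)
        have := hGM a (subset_closure haS)
        linarith
      have h2 : 0 < ‖y - a‖ := lt_of_lt_of_le hδ hya
      calc ‖G y - G a‖ / ‖y - a‖ ≤ (2 * M) / δ := by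
            gcongr
        _ = 2 / δ * M := by ring
    obtain ⟨p, hp1, hp2, R, hR, hpR⟩ := ih L' (by simpa using hL)
      (fun b hb => hLS b (Multiset.mem_cons_of_mem hb)) (dslope G a) hG1 (2 / δ * M)
      (by positivity) hb1
    refine ⟨Polynomial.C (G a) + (X - Polynomial.C a) * p, ?_, ?_, R, hR, ?_⟩
    · intro j hj
      obtain ⟨i, rfl⟩ : ∃ i, j = i + 1 := ⟨j - 1, by omega⟩
      rw [coeff_add, coeff_C_succ, sub_mul, coeff_sub, coeff_X_mul, coeff_C_mul,
        hp1 i (by omega), hp1 (i + 1) (by omega)]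
      simp
    · intro j
      have hGa : ‖G a‖ ≤ M := hGM a (subset_closure haS)
      have haB : ‖a‖ ≤ |B| := (hSB a haS).trans (le_abs_self B)
      have hX : 0 ≤ C * (2 / δ * M) := by positivity
      rcases j with _ | i
      · rw [coeff_add, coeff_C_zero, sub_mul, coeff_sub, coeff_C_mul, coeff_X_mul_zero]
        have h1 : ‖G a + (0 - a * p.coeff 0)‖ ≤ ‖G a‖ + ‖a‖ * ‖p.coeff 0‖ := by
          refine (norm_add_le _ _).trans ?_
          rw [zero_sub, norm_neg, norm_mul]
        have h2 : ‖a‖ * ‖p.coeff 0‖ ≤ |B| * (C * (2 / δ * M)) := by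
          gcongr
          exact hp2 0
        nlinarith
      · rw [coeff_add, coeff_C_succ, sub_mul, coeff_sub, coeff_C_mul, coeff_X_mul]
        have h1 : ‖0 + (p.coeff i - a * p.coeff (i + 1))‖ ≤
            ‖p.coeff i‖ + ‖a‖ * ‖p.coeff (i + 1)‖ := by
          rw [zero_add]
          refine (norm_sub_le _ _).trans ?_
          rw [norm_mul]
        have h2 : ‖a‖ * ‖p.coeff (i + 1)‖ ≤ |B| * (C * (2 / δ * M)) := by
          gcongr
          exact hp2 (i + 1)
        have h3 := hp2 i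
        nlinarith
    · intro z hz
      have h1 : G z = G a + (z - a) * dslope G a z := by
        have := sub_smul_dslope G a z
        rw [smul_eq_mul] at this
        rw [this]
        ring
      rw [h1, hpR z hz]
      simp only [eval_add, eval_C, eval_mul, eval_sub, eval_X, Multiset.map_cons,
        Multiset.prod_cons]
      ring

/-- Uniqueness: divisibility. -/
theorem tr_dvd {O : Set ℂ} (hO : IsOpen O) (L : Multiset ℂ) : (∀ a ∈ L, a ∈ O) →
    ∀ p : ℂ[X], ∀ R : ℂ → ℂ, ContinuousOn R O →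
      (∀ z ∈ O, p.eval z = (L.map (fun a => z - a)).prod * R z) →
      (L.map (fun a => X - Polynomial.C a)).prod ∣ p := by
  induction L using Multiset.induction_on with
  | empty => intro _ p R _ _; simp
  | cons a L ih =>
    intro hL p R hR hp
    have haO : a ∈ O := hL a (Multiset.mem_cons_self a L)
    have h0 : p.eval a = 0 := by
      rw [hp a haO]
      simp
    obtain ⟨p1, hp1⟩ := Polynomial.dvd_iff_isRoot.2 h0
    have hL' : ∀ b ∈ L, b ∈ O := fun b hb => hL b (Multiset.mem_cons_of_mem hb)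
    have hcont : ContinuousOn (fun z => (L.map (fun b => z - b)).prod) O := by
      have : (fun z => (L.map (fun b => z - b)).prod) =
          fun z => ((L.map (fun b => X - Polynomial.C b)).prod).eval z := by
        funext z
        rw [Polynomial.eval_multiset_prod, Multiset.map_map]
        simp
      rw [this]
      exact (Polynomial.continuous _).continuousOn
    have key : ∀ z ∈ O, p1.eval z = (L.map (fun b => z - b)).prod * R z := by
      have h1 : ∀ z ∈ O, z ≠ a → p1.eval z = (L.map (fun b => z - b)).prod * R z := by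
        intro z hz hza
        have h2 := hp z hz
        rw [hp1] at h2
        simp only [eval_mul, eval_sub, eval_X, eval_C, Multiset.map_cons,
          Multiset.prod_cons] at h2
        have h3 : z - a ≠ 0 := sub_ne_zero.2 hza
        apply mul_left_cancel₀ h3
        rw [h2]
        ring
      intro z hz
      by_cases hza : z = a
      · subst hza
        have c1 : Tendsto (fun y => p1.eval y) (𝓝[≠] z) (𝓝 (p1.eval z)) :=
          (Polynomial.continuous p1).continuousAt.mono_left nhdsWithin_le_nhds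
        have c2 : Tendsto (fun y => (L.map (fun b => y - b)).prod * R y) (𝓝[≠] z)
            (𝓝 ((L.map (fun b => z - b)).prod * R z)) :=
          ((hcont.mul hR).continuousAt (hO.mem_nhds hz)).mono_left nhdsWithin_le_nhds
        refine tendsto_nhds_unique (c1.congr' ?_) c2
        filter_upwards [self_mem_nhdsWithin, mem_nhdsWithin_of_mem_nhds (hO.mem_nhds hz)]
          with y hy1 hy2
        exact h1 y hy2 hy1
      · exact h1 z hz hza
    rw [Multiset.map_cons, Multiset.prod_cons, hp1]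
    exact mul_dvd_mul_left _ (ih hL' p1 R hR key)

/-- The relation `f = p + (Q - w) R` on `O`, with `p` of degree `< n`. -/
def TrRel (Q : ℂ[X]) (O : Set ℂ) (w : ℂ) (f : ℂ → ℂ) (p : ℂ[X]) (R : ℂ → ℂ) : Prop :=
  (∀ j, Q.natDegree ≤ j → p.coeff j = 0) ∧ DifferentiableOn ℂ R O ∧
    ∀ z ∈ O, f z = p.eval z + (Q.eval z - w) * R z

theorem tr_factor {Q : ℂ[X]} (hQ : 1 ≤ Q.natDegree) (w : ℂ) :
    ∃ L : Multiset ℂ, Multiset.card L = Q.natDegree ∧ (∀ a ∈ L, Q.eval a = w) ∧
      Q - Polynomial.C w =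
        Polynomial.C Q.leadingCoeff * (L.map (fun a => X - Polynomial.C a)).prod := by
  have hnd : (Q - Polynomial.C w).natDegree = Q.natDegree := natDegree_sub_C
  have hlc : (Q - Polynomial.C w).leadingCoeff = Q.leadingCoeff := by
    rw [leadingCoeff, hnd, coeff_sub, coeff_C, if_neg (by omega), sub_zero]
    rfl
  have hsp := IsAlgClosed.splits (Q - Polynomial.C w)
  refine ⟨(Q - Polynomial.C w).roots, ?_, ?_, ?_⟩
  · rw [← hnd]
    exact hsp.natDegree_eq_card_roots.symm
  · intro a ha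
    have := isRoot_of_mem_roots ha
    rw [IsRoot.def, eval_sub, eval_C, sub_eq_zero] at this
    exact this
  · rw [← hlc]
    exact hsp.eq_prod_roots

theorem tr_uniq {Q : ℂ[X]} (hQ : 1 ≤ Q.natDegree) {U : Set ℂ} (hU : IsOpen U) {w : ℂ}
    (hw : w ∈ U) {f : ℂ → ℂ} {p p' : ℂ[X]} {R R' : ℂ → ℂ}
    (h : TrRel Q {z | Q.eval z ∈ U} w f p R) (h' : TrRel Q {z | Q.eval z ∈ U} w f p' R') :
    p = p' := by
  obtain ⟨L, hL1, hL2, hL3⟩ := tr_factor hQ w
  have hO : IsOpen {z | Q.eval z ∈ U} := hU.preimage (Polynomial.continuous Q)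
  have hQ0 : Q.leadingCoeff ≠ 0 := by
    intro h0
    rw [leadingCoeff_eq_zero] at h0
    rw [h0] at hQ
    simp at hQ
  have hprod : ∀ z, Q.eval z - w = Q.leadingCoeff * (L.map (fun a => z - a)).prod := by
    intro z
    have h1 := congrArg (eval z) hL3
    rw [eval_sub, eval_C, eval_mul, eval_C, Polynomial.eval_multiset_prod,
      Multiset.map_map] at h1
    simpa using h1
  have hdvd : (L.map (fun a => X - Polynomial.C a)).prod ∣ p - p' := by
    refine tr_dvd hO L ?_ (p - p') (fun z => Q.leadingCoeff * (R' z - R z)) ?_ ?_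
    · intro a ha
      change Q.eval a ∈ U
      rw [hL2 a ha]
      exact hw
    · exact (continuousOn_const.mul (h'.2.1.continuousOn.sub h.2.1.continuousOn))
    · intro z hz
      have e1 := h.2.2 z hz
      have e2 := h'.2.2 z hz
      rw [hprod z] at e1 e2
      rw [eval_sub]
      linear_combination e2 - e1
  have hdeg : (p - p').degree < (L.map (fun a => X - Polynomial.C a)).prod.degree := by
    rw [degree_eq_natDegree (monic_multiset_prod_of_monic _ _ fun a _ => monic_X_sub_C a).ne_zero,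
      natDegree_multiset_prod_X_sub_C_eq_card]
    rw [hL1, degree_lt_iff_coeff_zero]
    intro j hj
    rw [coeff_sub, h.1 j hj, h'.1 j hj, sub_zero]
  have := Polynomial.eq_zero_of_dvd_of_degree_lt hdvd hdeg
  exact sub_eq_zero.1 this

/-- Local existence with bounds. -/
theorem tr_exists {Q : ℂ[X]} (hQ : 1 ≤ Q.natDegree) {U : Set ℂ} (hU : IsOpen U) {w₀ : ℂ}
    (hw : w₀ ∈ U) {G : ℂ → ℂ} (hG : DifferentiableOn ℂ G {z | Q.eval z ∈ U}) :
    ∃ r K : ℝ, 0 < r ∧ 0 ≤ K ∧ ball w₀ r ⊆ U ∧ ∀ w ∈ ball w₀ r, ∃ (p : ℂ[X]) (R : ℂ → ℂ),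
      TrRel Q {z | Q.eval z ∈ U} w G p R ∧ ∀ j, ‖p.coeff j‖ ≤ K := by
  obtain ⟨ρ, hρ, hρU⟩ := Metric.nhds_basis_closedBall.mem_iff.1 (hU.mem_nhds hw)
  have hO : IsOpen {z | Q.eval z ∈ U} := hU.preimage (Polynomial.continuous Q)
  have hQc : Continuous fun z => ‖Q.eval z - w₀‖ :=
    ((Polynomial.continuous Q).sub continuous_const).norm
  set S : Set ℂ := {z | ‖Q.eval z - w₀‖ < ρ} with hS
  have hSb : Bornology.IsBounded S := by
    have h1 : Tendsto (fun z : ℂ => ‖Q.eval z‖) (Bornology.cobounded ℂ) atTop :=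
      Polynomial.tendsto_norm_atTop Q (natDegree_pos_iff_degree_pos.1 hQ)
        tendsto_norm_cobounded_atTop
    rw [Bornology.isBounded_def]
    filter_upwards [h1.eventually_gt_atTop (‖w₀‖ + ρ)] with z hz
    rw [hS, mem_compl_iff, mem_ofPred_eq, not_lt]
    have := norm_sub_norm_le (Q.eval z) w₀
    linarith
  have hcl : closure S ⊆ {z | ‖Q.eval z - w₀‖ ≤ ρ} := by
    refine closure_minimal (fun z hz => ?_) (isClosed_le hQc continuous_const)
    have hz' : ‖Q.eval z - w₀‖ < ρ := hz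
    exact hz'.le
  have hSO : closure S ⊆ {z | Q.eval z ∈ U} := by
    intro z hz
    apply hρU
    rw [mem_closedBall, dist_eq_norm]
    exact hcl hz
  have hfr : frontier S ⊆ {z | ‖Q.eval z - w₀‖ = ρ} :=
    frontier_lt_subset_eq hQc continuous_const
  have hcomp : IsCompact (closure S) := hSb.isCompact_closure
  have huc := hcomp.uniformContinuousOn_of_continuous
    (f := fun z => Q.eval z) (Polynomial.continuous Q).continuousOn
  rw [Metric.uniformContinuousOn_iff] at huc
  obtain ⟨δ, hδ, huc⟩ := huc (ρ / 2) (by positivity)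
  obtain ⟨B, hB⟩ := hSb.exists_norm_le
  obtain ⟨M, hM⟩ := hcomp.exists_bound_of_continuousOn (hG.continuousOn.mono hSO)
  obtain ⟨C, hC, hN⟩ := tr_newton hO hSb hSO hδ hB Q.natDegree
  have hQ0 : Q.leadingCoeff ≠ 0 := by
    intro h0
    rw [leadingCoeff_eq_zero] at h0
    rw [h0] at hQ
    simp at hQ
  refine ⟨ρ / 2, C * |M|, by positivity, by positivity, ?_, ?_⟩
  · intro w hw'
    apply hρU
    rw [mem_ball] at hw'
    rw [mem_closedBall]
    linarith
  · intro w hw'
    rw [mem_ball, dist_eq_norm] at hw'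
    obtain ⟨L, hL1, hL2, hL3⟩ := tr_factor hQ w
    have hprod : ∀ z, Q.eval z - w = Q.leadingCoeff * (L.map (fun a => z - a)).prod := by
      intro z
      have h1 := congrArg (eval z) hL3
      rw [eval_sub, eval_C, eval_mul, eval_C, Polynomial.eval_multiset_prod,
        Multiset.map_map] at h1
      simpa using h1
    have hLS : ∀ a ∈ L, a ∈ S ∧ ∀ y ∈ frontier S, δ ≤ ‖y - a‖ := by
      intro a ha
      have haS : a ∈ S := by
        rw [hS, mem_ofPred_eq, hL2 a ha]
        linarith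
      refine ⟨haS, fun y hy => ?_⟩
      by_contra hlt
      push Not at hlt
      have h1 := huc y (frontier_subset_closure hy) a (subset_closure haS)
        (by rw [dist_eq_norm]; exact hlt)
      rw [dist_eq_norm, hL2 a ha] at h1
      have h2 : ‖Q.eval y - w₀‖ = ρ := hfr hy
      have h3 : ‖Q.eval y - w₀‖ ≤ ‖Q.eval y - w‖ + ‖w - w₀‖ := by
        have := norm_add_le (Q.eval y - w) (w - w₀)
        rwa [sub_add_sub_cancel] at this
      linarith
    obtain ⟨p, hp1, hp2, R, hR, hpR⟩ := hN L hL1 hLS G hG |M| (abs_nonneg M)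
      (fun z hz => (hM z hz).trans (le_abs_self M))
    refine ⟨p, fun z => Q.leadingCoeff⁻¹ * R z, ⟨hp1, hR.const_mul _, fun z hz => ?_⟩, hp2⟩
    rw [hpR z hz, hprod z]
    field_simp

theorem tr_step {Q : ℂ[X]} {O : Set ℂ} {w₀ w : ℂ} {f F R : ℂ → ℂ} {p0 p1 : ℂ[X]}
    (h0 : TrRel Q O w₀ f p0 F) (h1 : TrRel Q O w F p1 R) :
    TrRel Q O w f (p0 + Polynomial.C (w - w₀) * p1) (fun z => F z + (w - w₀) * R z) := by
  refine ⟨fun j hj => ?_, h0.2.1.add (h1.2.1.const_mul _), fun z hz => ?_⟩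
  · rw [coeff_add, coeff_C_mul, h0.1 j hj, h1.1 j hj]
    simp
  · have e0 := h0.2.2 z hz
    have e1 := h1.2.2 z hz
    rw [e0, eval_add, eval_mul, eval_C]
    linear_combination (w - w₀) * e1

theorem transfer {Q : ℂ[X]} (hQ : 1 ≤ Q.natDegree) {U : Set ℂ} (hU : IsOpen U) {f : ℂ → ℂ}
    (hf : DifferentiableOn ℂ f {z | Q.eval z ∈ U}) :
    ∃ A : ℕ → ℂ → ℂ, (∀ j, DifferentiableOn ℂ (A j) U) ∧
      ∀ z, Q.eval z ∈ U → f z = ∑ j ∈ Finset.range Q.natDegree, A j (Q.eval z) * z ^ j := by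
  have ex : ∀ G : ℂ → ℂ, DifferentiableOn ℂ G {z | Q.eval z ∈ U} →
      ∃ (p : ℂ → ℂ[X]) (R : ℂ → ℂ → ℂ), ∀ w ∈ U,
        TrRel Q {z | Q.eval z ∈ U} w G (p w) (R w) := by
    intro G hG
    have h1 : ∀ w, ∃ (p : ℂ[X]) (R : ℂ → ℂ), w ∈ U → TrRel Q {z | Q.eval z ∈ U} w G p R := by
      intro w
      by_cases hw : w ∈ U
      · obtain ⟨r, K, hr, _, _, h⟩ := tr_exists hQ hU hw hG
        obtain ⟨p, R, h, _⟩ := h w (mem_ball_self hr)
        exact ⟨p, R, fun _ => h⟩
      · exact ⟨0, 0, fun h => absurd h hw⟩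
    choose p R h using h1
    exact ⟨p, R, h⟩
  obtain ⟨p, R, hpR⟩ := ex f hf
  refine ⟨fun j w => (p w).coeff j, ?_, ?_⟩
  · intro j w₀ hw₀
    have h0 := hpR w₀ hw₀
    obtain ⟨p1, R1, h1⟩ := ex (R w₀) h0.2.1
    have h10 := h1 w₀ hw₀
    obtain ⟨r, K, hr, hK, hrU, h2⟩ := tr_exists hQ hU hw₀ h10.2.1
    have key : ∀ w ∈ ball w₀ r, ∃ c : ℂ, ‖c‖ ≤ K ∧
        (p w).coeff j - (p w₀).coeff j - (w - w₀) * (p1 w₀).coeff j = (w - w₀) ^ 2 * c := by
      intro w hw
      obtain ⟨p2, R2, h2, h2K⟩ := h2 w hw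
      have e1 : p1 w = p1 w₀ + Polynomial.C (w - w₀) * p2 :=
        tr_uniq hQ hU (hrU hw) (h1 w (hrU hw)) (tr_step h10 h2)
      have e0 : p w = p w₀ + Polynomial.C (w - w₀) * p1 w :=
        tr_uniq hQ hU (hrU hw) (hpR w (hrU hw)) (tr_step h0 (h1 w (hrU hw)))
      refine ⟨p2.coeff j, h2K j, ?_⟩
      rw [e0, e1]
      simp only [coeff_add, coeff_C_mul]
      ring
    have hd : HasDerivAt (fun w => (p w).coeff j) ((p1 w₀).coeff j) w₀ := by
      rw [hasDerivAt_iff_isLittleO, Asymptotics.isLittleO_iff]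
      intro c hc
      have hc' : 0 < min r (c / (K + 1)) := lt_min hr (by positivity)
      filter_upwards [Metric.ball_mem_nhds w₀ hc'] with w hw
      rw [mem_ball, lt_min_iff] at hw
      obtain ⟨b, hb, hbe⟩ := key w (mem_ball.2 hw.1)
      rw [smul_eq_mul, hbe, norm_mul, norm_pow]
      rw [dist_eq_norm] at hw
      have h3 : ‖w - w₀‖ * (K + 1) ≤ c := by
        have := hw.2.le
        rwa [le_div_iff₀ (by positivity)] at this
      have h4 : 0 ≤ ‖w - w₀‖ := norm_nonneg _
      calc ‖w - w₀‖ ^ 2 * ‖b‖ ≤ ‖w - w₀‖ ^ 2 * (K + 1) := by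
            gcongr
            linarith
        _ = (‖w - w₀‖ * (K + 1)) * ‖w - w₀‖ := by ring
        _ ≤ c * ‖w - w₀‖ := by gcongr
    exact hd.differentiableAt.differentiableWithinAt
  · intro z hz
    have h := hpR (Q.eval z) hz
    have e := h.2.2 z hz
    rw [sub_self, zero_mul, add_zero] at e
    rw [e]
    have hdeg : (p (Q.eval z)).natDegree < Q.natDegree := by
      rcases eq_or_ne (p (Q.eval z)) 0 with h0 | h0
      · rw [h0, natDegree_zero]
        omega
      · by_contra hlt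
        push Not at hlt
        exact leadingCoeff_ne_zero.2 h0 (h.1 _ hlt)
    exact eval_eq_sum_range' hdeg z

end DY
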