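import Pool.Agent.Lib.MP_40021b_an.Defs
import Pool.Agent.Lib.MP_40021b_an.Transfer

/-!
# Polynomial approximation on the domains `V P R k` and holomorphic square roots
-/

namespace DY

open Complex Metric Set Filter Topology Polynomial

/-- Discs have the polynomial approximation property. -/
theorem polyApprox_ball {R : ℝ} (hR : 0 < R) : PolyApprox (ball (0 : ℂ) R) := by
  intro f hf
  have hser : ∀ r : NNReal, 0 < r → (r : ℝ) < R →
      HasFPowerSeriesOnBall f (cauchyPowerSeries f 0 r) 0 r := fun r hr0 hr =>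
    (hf.mono (closedBall_subset_ball hr)).hasFPowerSeriesOnBall hr0
  obtain ⟨r₀, hr₀, hr₀R⟩ : ∃ r₀ : NNReal, 0 < r₀ ∧ (r₀ : ℝ) < R := by
    refine ⟨⟨R / 2, by positivity⟩, ?_, ?_⟩
    · rw [← NNReal.coe_pos]
      change 0 < R / 2
      positivity
    · change R / 2 < R
      linarith
  set p : FormalMultilinearSeries ℂ ℂ ℂ := cauchyPowerSeries f 0 r₀ with hp
  have hser' : ∀ r : NNReal, 0 < r → (r : ℝ) < R → HasFPowerSeriesOnBall f p 0 r := by
    intro r hr0 hr
    have h1 := hser r hr0 hr
    have h2 : cauchyPowerSeries f 0 r = p :=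
      h1.hasFPowerSeriesAt.eq_formalMultilinearSeries (hser r₀ hr₀ hr₀R).hasFPowerSeriesAt
    rwa [h2] at h1
  refine ⟨fun n => ∑ i ∈ Finset.range n, C (p.coeff i) * X ^ i, ?_⟩
  have heval : ∀ (n : ℕ) (z : ℂ), (∑ i ∈ Finset.range n, C (p.coeff i) * X ^ i : ℂ[X]).eval z =
      p.partialSum n z := by
    intro n z
    rw [eval_finsetSum, FormalMultilinearSeries.partialSum]
    refine Finset.sum_congr rfl fun i _ => ?_
    rw [FormalMultilinearSeries.apply_eq_pow_smul_coeff]
    simp only [eval_mul, eval_C, eval_pow, eval_X, smul_eq_mul]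
    ring
  intro u hu z hz
  obtain ⟨r, hzr, hrR⟩ := exists_between (mem_ball_zero_iff.mp hz)
  have hr0 : 0 < r := lt_of_le_of_lt (norm_nonneg z) hzr
  lift r to NNReal using hr0.le
  have h1 := (hser' r (by exact_mod_cast hr0) hrR).tendstoLocallyUniformlyOn'
  have hzr' : z ∈ eball (0 : ℂ) (r : ENNReal) := by
    rw [eball_coe]
    exact mem_ball_zero_iff.mpr hzr
  obtain ⟨t, ht, htu⟩ := h1 u hu z hzr'
  have hopen : IsOpen (eball (0 : ℂ) (r : ENNReal)) := isOpen_eball
  rw [hopen.nhdsWithin_eq hzr'] at ht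
  refine ⟨t, mem_nhdsWithin_of_mem_nhds ht, ?_⟩
  filter_upwards [htu] with n hn y hy
  have := hn y hy
  rw [sub_zero] at this
  rw [heval]
  exact this

/-- The polynomial approximation property passes to preimages under polynomials. -/
theorem polyApprox_preimage {Q : ℂ[X]} (hQ : 1 ≤ Q.natDegree) {U : Set ℂ} (hU : IsOpen U)
    (h : PolyApprox U) : PolyApprox {z | Q.eval z ∈ U} := by
  classical
  intro f hf
  obtain ⟨A, hA, hfA⟩ := transfer hQ hU hf
  choose p hp using fun j => h (A j) (hA j)
  refine ⟨fun n => ∑ j ∈ Finset.range Q.natDegree, (p j n).comp Q * X ^ j, ?_⟩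
  have hmaps : MapsTo (fun z : ℂ => Q.eval z) {z | Q.eval z ∈ U} U := fun z hz => hz
  have hcont : ContinuousOn (fun z : ℂ => Q.eval z) {z | Q.eval z ∈ U} :=
    Q.continuous.continuousOn
  have key : ∀ s : Finset ℕ, TendstoLocallyUniformlyOn
      (fun (n : ℕ) (z : ℂ) => ∑ j ∈ s, (p j n).eval (Q.eval z) * z ^ j)
      (fun z => ∑ j ∈ s, A j (Q.eval z) * z ^ j) atTop {z | Q.eval z ∈ U} := by
    intro s
    induction s using Finset.induction_on with
    | empty =>
      simp only [Finset.sum_empty]
      intro u hu z _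
      exact ⟨univ, univ_mem, Eventually.of_forall fun n y _ => refl_mem_uniformity hu⟩
    | insert a s ha ih =>
      have h1 : TendstoLocallyUniformlyOn (fun (n : ℕ) (z : ℂ) => (p a n).eval (Q.eval z))
          (fun z => A a (Q.eval z)) atTop {z | Q.eval z ∈ U} :=
        (hp a).comp (fun z : ℂ => Q.eval z) hmaps hcont
      have h2 : TendstoLocallyUniformlyOn (fun (_ : ℕ) (z : ℂ) => z ^ a)
          (fun z => z ^ a) atTop {z | Q.eval z ∈ U} := by
        intro u hu z _
        exact ⟨univ, univ_mem, Eventually.of_forall fun n y _ => refl_mem_uniformity hu⟩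
      have h3 := h1.fun_mul₀ h2
        ((hA a).continuousOn.comp hcont hmaps) (continuous_pow a).continuousOn
      have h4 := h3.fun_add ih
      simp only [Finset.sum_insert ha]
      exact h4
  refine ((key (Finset.range Q.natDegree)).congr_right
    (fun z hz => (hfA z hz).symm)).congr fun n z _ => ?_
  simp only [eval_finsetSum, eval_mul, eval_comp, eval_pow, eval_X]

/-- The polynomial approximation property passes to relatively closed and open subsets. -/
theorem polyApprox_clopen {O O' : Set ℂ} (h' : IsOpen O') (h'' : IsOpen (O \ O'))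
    (hsub : O' ⊆ O) (h : PolyApprox O) : PolyApprox O' := by
  classical
  intro f hf
  have hF : DifferentiableOn ℂ (O'.indicator f) O := by
    intro z hz
    by_cases hz' : z ∈ O'
    · have h1 : O'.indicator f =ᶠ[𝓝 z] f := by
        filter_upwards [h'.mem_nhds hz'] with y hy
        exact indicator_of_mem hy f
      have h2 : DifferentiableAt ℂ f z := (hf z hz').differentiableAt (h'.mem_nhds hz')
      exact (h2.congr_of_eventuallyEq h1).differentiableWithinAt
    · have h1 : O'.indicator f =ᶠ[𝓝 z] fun _ => 0 := by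
        filter_upwards [h''.mem_nhds ⟨hz, hz'⟩] with y hy
        exact indicator_of_notMem hy.2 f
      exact ((differentiableAt_const (0 : ℂ)).congr_of_eventuallyEq h1).differentiableWithinAt
  obtain ⟨p, hp⟩ := h _ hF
  exact ⟨p, (hp.mono hsub).congr_right fun z hz => indicator_of_mem hz f⟩

theorem W_isOpen (P : ℂ[X]) (R : ℝ) (k : ℕ) : IsOpen (W P R k) := by
  have h1 : Continuous (pm P) := P.continuous
  exact isOpen_lt (h1.iterate k).norm continuous_const

theorem polyApprox_W {P : ℂ[X]} {R L : ℝ} (hS : Setup P R L) (k : ℕ) :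
    PolyApprox (W P R k) := by
  induction k with
  | zero =>
    have h1 : W P R 0 = ball (0 : ℂ) R := by
      ext z
      simp [W]
    rw [h1]
    exact polyApprox_ball (by linarith [hS.one_le])
  | succ k ih =>
    have h1 : W P R (k + 1) = {z | P.eval z ∈ W P R k} := by
      ext z
      change ‖(pm P)^[k + 1] z‖ < R ↔ ‖(pm P)^[k] (pm P z)‖ < R
      rw [Function.iterate_succ_apply]
    rw [h1]
    exact polyApprox_preimage (by have := hS.deg; omega) (W_isOpen P R k) ih

theorem polyApprox_V {P : ℂ[X]} {R L : ℝ} (hS : Setup P R L) (k : ℕ) :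
    PolyApprox (V P R k) := by
  have hW := W_isOpen P R k
  refine polyApprox_clopen (O := W P R k) hW.connectedComponentIn ?_
    (connectedComponentIn_subset _ _) (polyApprox_W hS k)
  rw [isOpen_iff_mem_nhds]
  rintro z ⟨hz, hz'⟩
  have h1 : connectedComponentIn (W P R k) z ∈ 𝓝 z :=
    hW.connectedComponentIn.mem_nhds (mem_connectedComponentIn hz)
  filter_upwards [h1] with y hy
  refine ⟨connectedComponentIn_subset _ _ hy, fun hy' => hz' ?_⟩
  have h2 := connectedComponentIn_eq hy
  have h3 := connectedComponentIn_eq hy'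
  change z ∈ connectedComponentIn (W P R k) 0
  rw [h3, ← h2]
  exact mem_connectedComponentIn hz

/-- Polynomials have polynomial primitives. -/
theorem exists_primitive (p : ℂ[X]) (z₀ : ℂ) :
    ∃ F : ℂ[X], F.derivative = p ∧ F.eval z₀ = 0 := by
  have h1 : ∃ F : ℂ[X], F.derivative = p := by
    induction p using Polynomial.induction_on' with
    | add p q hp hq =>
      obtain ⟨F, hF⟩ := hp
      obtain ⟨G, hG⟩ := hq
      exact ⟨F + G, by rw [derivative_add, hF, hG]⟩
    | monomial n a =>
      refine ⟨monomial (n + 1) (a / (n + 1)), ?_⟩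
      rw [derivative_monomial]
      have : (a / ((n : ℂ) + 1)) * ((n + 1 : ℕ) : ℂ) = a := by
        have hn : ((n : ℂ) + 1) ≠ 0 := Nat.cast_add_one_ne_zero n
        push_cast
        field_simp
      rw [this, Nat.add_sub_cancel]
  obtain ⟨F, hF⟩ := h1
  refine ⟨F - C (F.eval z₀), ?_, ?_⟩
  · rw [derivative_sub, derivative_C, sub_zero, hF]
  · rw [eval_sub, eval_C, sub_self]

/-- A holomorphic function on a connected open set with the polynomial approximation property
has a primitive. -/
theorem exists_primitive_of_polyApprox {U : Set ℂ} (ho : IsOpen U) (hc : IsPreconnected U)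
    (hne : U.Nonempty) (h : PolyApprox U) {f : ℂ → ℂ} (hf : DifferentiableOn ℂ f U) :
    ∃ F : ℂ → ℂ, ∀ z ∈ U, HasDerivAt F (f z) z := by
  classical
  obtain ⟨z₀, hz₀⟩ := hne
  obtain ⟨p, hp⟩ := h f hf
  choose F hF hF0 using fun n => exists_primitive (p n) z₀
  have hder : ∀ n z, HasDerivAt (fun z => (F n).eval z) ((p n).eval z) z := by
    intro n z
    have := (F n).hasDerivAt z
    rwa [hF n] at this
  -- the set of convergence
  set S : Set ℂ := {z | Cauchy (map (fun n => (F n).eval z) atTop)} with hSdef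
  have hball : ∀ z ∈ U, ∃ r > 0, ball z r ⊆ U ∧
      UniformCauchySeqOn (fun n z => (p n).eval z) atTop (ball z r) := by
    intro z hz
    obtain ⟨r, hr, hrU⟩ := Metric.isOpen_iff.mp ho z hz
    have hcomp : IsCompact (closedBall z (r / 2)) := isCompact_closedBall z (r / 2)
    have hsub : closedBall z (r / 2) ⊆ U :=
      (closedBall_subset_ball (by linarith)).trans hrU
    have h1 : TendstoUniformlyOn (fun n z => (p n).eval z) f atTop (closedBall z (r / 2)) :=
      (tendstoLocallyUniformlyOn_iff_tendstoUniformlyOn_of_compact hcomp).mp (hp.mono hsub)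
    exact ⟨r / 2, by positivity, (ball_subset_closedBall.trans hsub),
      (h1.mono ball_subset_closedBall).uniformCauchySeqOn⟩
  have hprop : ∀ z ∈ U, ∀ r > 0, UniformCauchySeqOn (fun n z => (p n).eval z) atTop (ball z r) →
      ∀ x ∈ ball z r, ∀ y ∈ ball z r, x ∈ S → y ∈ S := by
    intro z _ r _ hu x hx y hy hxS
    have hfd : UniformCauchySeqOn
        (fun n z => (ContinuousLinearMap.toSpanSingleton ℂ ((p n).eval z) : ℂ →L[ℂ] ℂ))
        atTop (ball z r) := by
      rw [uniformCauchySeqOn_iff_uniformCauchySeqOnFilter] at hu ⊢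
      exact hu.one_smulRight
    exact cauchy_map_of_uniformCauchySeqOn_fderiv isOpen_ball (convex_ball z r).isPreconnected
      hfd (fun n w _ => (hder n w).hasFDerivAt) hx hy hxS
  have hz₀S : z₀ ∈ S := by
    change Cauchy (map (fun n => (F n).eval z₀) atTop)
    simp only [hF0]
    exact tendsto_const_nhds.cauchy_map
  have hUS : U ⊆ S := by
    have h1 : IsOpen (U ∩ S) := by
      rw [isOpen_iff_mem_nhds]
      rintro z ⟨hz, hzS⟩
      obtain ⟨r, hr, hrU, hu⟩ := hball z hz
      filter_upwards [ball_mem_nhds z hr] with y hy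
      exact ⟨hrU hy, hprop z hz r hr hu z (mem_ball_self hr) y hy hzS⟩
    have h2 : IsOpen (U \ S) := by
      rw [isOpen_iff_mem_nhds]
      rintro z ⟨hz, hzS⟩
      obtain ⟨r, hr, hrU, hu⟩ := hball z hz
      filter_upwards [ball_mem_nhds z hr] with y hy
      exact ⟨hrU hy, fun hyS => hzS (hprop z hz r hr hu y hy z (mem_ball_self hr) hyS)⟩
    intro z hz
    by_contra hzS
    obtain ⟨w, _, hw1, hw2⟩ := hc (U ∩ S) (U \ S) h1 h2 (fun y hy => by
      by_cases hyS : y ∈ S
      · exact Or.inl ⟨hy, hyS⟩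
      · exact Or.inr ⟨hy, hyS⟩) ⟨z₀, hz₀, hz₀, hz₀S⟩ ⟨z, hz, hz, hzS⟩
    exact hw2.2 hw1.2
  have hlim : ∀ z, ∃ c : ℂ, z ∈ U → Tendsto (fun n => (F n).eval z) atTop (𝓝 c) := by
    intro z
    by_cases hz : z ∈ U
    · obtain ⟨c, hc'⟩ := cauchy_map_iff_exists_tendsto.mp (hUS hz)
      exact ⟨c, fun _ => hc'⟩
    · exact ⟨0, fun h => absurd h hz⟩
  choose G hG using hlim
  refine ⟨G, fun z hz => ?_⟩
  exact hasDerivAt_of_tendstoLocallyUniformlyOn ho hp
    (Eventually.of_forall fun n w _ => hder n w) (fun w hw => hG w hw) hz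

theorem hasSqrt_of_polyApprox {U : Set ℂ} (ho : IsOpen U) (hc : IsPreconnected U)
    (hne : U.Nonempty) (h : PolyApprox U) : HasSqrt U := by
  intro g hg hg0
  have hg' : DifferentiableOn ℂ (deriv g) U := hg.deriv ho
  obtain ⟨F, hF⟩ := exists_primitive_of_polyApprox ho hc hne h
    (f := fun z => deriv g z / g z) (hg'.div hg hg0)
  obtain ⟨z₀, hz₀⟩ := hne
  have hder : ∀ z ∈ U, HasDerivAt (fun z => g z * Complex.exp (-F z)) 0 z := by
    intro z hz
    have h1 : HasDerivAt g (deriv g z) z := ((hg z hz).differentiableAt (ho.mem_nhds hz)).hasDerivAt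
    have h2 : HasDerivAt (fun z => Complex.exp (-F z)) (Complex.exp (-F z) * -(deriv g z / g z)) z :=
      (hF z hz).neg.cexp
    have h3 := h1.mul h2
    have h4 : deriv g z / g z * g z = deriv g z := div_mul_cancel₀ _ (hg0 z hz)
    have h5 : deriv g z * Complex.exp (-F z) + g z * (Complex.exp (-F z) * -(deriv g z / g z)) =
        0 := by
      linear_combination (-Complex.exp (-F z)) * h4
    rw [h5] at h3
    exact h3
  have hconst : ∀ z ∈ U, g z * Complex.exp (-F z) = g z₀ * Complex.exp (-F z₀) := by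
    intro z hz
    refine ho.is_const_of_deriv_eq_zero hc
      (fun w hw => (hder w hw).differentiableAt.differentiableWithinAt) ?_ hz hz₀
    intro w hw
    exact (hder w hw).deriv
  obtain ⟨b, hb⟩ := IsAlgClosed.exists_pow_nat_eq (g z₀ * Complex.exp (-F z₀)) (n := 2)
    (by norm_num)
  refine ⟨fun z => b * Complex.exp (F z / 2), ?_, ?_⟩
  · intro z hz
    have h1 : HasDerivAt (fun z => F z / 2) (deriv g z / g z / 2) z := (hF z hz).div_const 2
    exact (h1.cexp.const_mul b).differentiableAt.differentiableWithinAt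
  · intro z hz
    have h1 := hconst z hz
    change (b * Complex.exp (F z / 2)) ^ 2 = g z
    rw [mul_pow, hb, ← h1, ← Complex.exp_nat_mul, mul_assoc, ← Complex.exp_add]
    have : -F z + ((2 : ℕ) : ℂ) * (F z / 2) = 0 := by push_cast; ring
    rw [this, Complex.exp_zero, mul_one]

end DY
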