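import Pool.Agent.Lib.MP_40021b_an.Defs
import Pool.Agent.Lib.MP_40021b_an.VBasic
import Pool.Agent.Lib.MP_40021b_an.Riemann
import Pool.Agent.Lib.MP_40021b_an.PolyApprox

namespace DY

open Complex Metric Set Filter Topology Polynomial

/-- From a linearization: a univalent germ `ψ` with `P ∘ ψ = ψ ∘ (l ·)`, whose image of a disc
lies in every `V P R k`. -/
theorem K3_lin {P : ℂ[X]} {R L : ℝ} (hS : Setup P R L) {l : ℂ} (hl : ‖l‖ = 1)
    (hlin : Linearizable (pm P) l) :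
    ∃ (p : ℂ → ℂ) (r : ℝ), 0 < r ∧ DifferentiableOn ℂ p (ball 0 r) ∧ p 0 = 0 ∧
      deriv p 0 ≠ 0 ∧ ∀ k, MapsTo p (ball 0 r) (V P R k) := by
  obtain ⟨φ, p, hφ, hp, hφ0, hp0, h1, h2, h3⟩ := hlin
  have hP0 : pm P 0 = 0 := hS.zero
  have hPc : Continuous (pm P) := P.continuous
  have hconj : ∀ᶠ w in 𝓝 (0 : ℂ), pm P (p w) = p (l * w) := by
    have ht : Tendsto (fun w => pm P (p w)) (𝓝 0) (𝓝 0) := by
      have a1 : ContinuousAt (fun w => pm P (p w)) 0 :=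
        hPc.continuousAt.comp hp.continuousAt
      have a3 := a1.tendsto
      simp only [hp0, hP0] at a3
      exact a3
    filter_upwards [ht.eventually h2, h3] with w hw1 hw2
    rw [← hw1, hw2]
  have hsmall : ∀ᶠ w in 𝓝 (0 : ℂ), ‖p w‖ < R := by
    have a1 : ContinuousAt (fun w => ‖p w‖) 0 := hp.continuousAt.norm
    have a2 : ‖p 0‖ < R := by rw [hp0, norm_zero]; linarith [hS.one_le]
    exact a1.eventually_lt continuousAt_const a2
  obtain ⟨r, hr, hball⟩ := Metric.eventually_nhds_iff_ball.1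
    (hconj.and (hsmall.and hp.eventually_analyticAt))
  have hder : deriv p 0 ≠ 0 := by
    intro h
    have a1 : HasDerivAt p (deriv p 0) 0 := hp.differentiableAt.hasDerivAt
    have a2 : HasDerivAt φ (deriv φ (p 0)) (p 0) := by
      rw [hp0]; exact hφ.differentiableAt.hasDerivAt
    have a3 : HasDerivAt (φ ∘ p) (deriv φ (p 0) * deriv p 0) 0 := a2.comp 0 a1
    have a4 : HasDerivAt (φ ∘ p) 1 0 := by
      refine (hasDerivAt_id (0 : ℂ)).congr_of_eventuallyEq ?_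
      filter_upwards [h1] with w hw
      simpa using hw
    have a5 := a3.unique a4
    rw [h, mul_zero] at a5
    exact zero_ne_one a5
  refine ⟨p, r, hr, fun w hw => (hball w hw).2.2.differentiableAt.differentiableWithinAt, hp0,
    hder, ?_⟩
  intro k
  have hpc : ContinuousOn p (ball 0 r) := fun w hw =>
    (hball w hw).2.2.continuousAt.continuousWithinAt
  have hpre : IsPreconnected (p '' ball 0 r) :=
    ((convex_ball (0 : ℂ) r).isPreconnected).image p hpc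
  have hit : ∀ (n : ℕ) (w : ℂ), w ∈ ball (0 : ℂ) r → (pm P)^[n] (p w) = p (l ^ n * w) := by
    intro n
    induction n with
    | zero => intro w _; simp
    | succ n ih =>
      intro w hw
      have hlw : l ^ n * w ∈ ball (0 : ℂ) r := by
        rw [mem_ball_zero_iff] at hw ⊢
        rwa [norm_mul, norm_pow, hl, one_pow, one_mul]
      rw [Function.iterate_succ_apply', ih w hw, (hball _ hlw).1]
      congr 1; ring
  have hsub : p '' ball 0 r ⊆ W P R k := by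
    rintro _ ⟨w, hw, rfl⟩
    have hlw : l ^ k * w ∈ ball (0 : ℂ) r := by
      rw [mem_ball_zero_iff] at hw ⊢
      rwa [norm_mul, norm_pow, hl, one_pow, one_mul]
    change ‖(pm P)^[k] (p w)‖ < R
    rw [hit k w hw]
    exact (hball _ hlw).2.1
  have hV := hS.subset_V hpre hsub ⟨0, ⟨0, mem_ball_self hr, hp0⟩, hS.zero_mem k⟩
  intro w hw
  exact hV ⟨w, hw, rfl⟩

theorem K3 {P : ℂ[X]} {R L : ℝ} (hS : Setup P R L) {l : ℂ} (hl : ‖l‖ = 1)
    (hd : P.derivative.eval 0 = l) (hlin : Linearizable (pm P) l) :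
    ∃ (ψ G : ℕ → ℂ → ℂ) (c : ℕ → ℝ) (c₀ : ℝ), 0 < c₀ ∧ (∀ k, c₀ ≤ c k) ∧
      (∀ k, c (k + 1) ≤ c k) ∧
      (∀ k, DifferentiableOn ℂ (ψ k) (ball 0 1)) ∧
      (∀ k, MapsTo (ψ k) (ball 0 1) (V P R k)) ∧
      (∀ k, DifferentiableOn ℂ (G k) (V P R k)) ∧
      (∀ k, MapsTo (G k) (V P R k) (ball 0 1)) ∧
      (∀ k, ∀ w ∈ ball (0 : ℂ) 1, G k (ψ k w) = w) ∧
      (∀ k, ∀ z ∈ V P R k, ψ k (G k z) = z) ∧ (∀ k, ψ k 0 = 0) ∧
      (∀ i k, i ≤ k → DiscMap (fun w => G i (ψ k w)) ((c k / c i : ℝ) : ℂ)) ∧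
      (∀ k, DiscMap (fun w => G k (pm P (ψ (k + 1) w))) (l * ((c (k + 1) / c k : ℝ) : ℂ))) := by
  have hR : ∀ k, ∃ (ψ G : ℂ → ℂ) (c : ℝ), 0 < c ∧ DifferentiableOn ℂ ψ (ball 0 1) ∧
      MapsTo ψ (ball 0 1) (V P R k) ∧ DifferentiableOn ℂ G (V P R k) ∧
      MapsTo G (V P R k) (ball 0 1) ∧
      (∀ w ∈ ball (0 : ℂ) 1, G (ψ w) = w) ∧ (∀ z ∈ V P R k, ψ (G z) = z) ∧ ψ 0 = 0 ∧
      deriv ψ 0 = (c : ℂ) := fun k =>
    riemann_map (hS.V_open k) (hS.V_conn k) (isBounded_ball.subset (hS.V_ball k))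
      (hS.zero_mem k) (hasSqrt_of_polyApprox (hS.V_open k) (hS.V_conn k) ⟨0, hS.zero_mem k⟩
        (polyApprox_V hS k))
  choose ψ G c hc hψd hψm hGd hGm hGψ hψG hψ0 hψ' using hR
  have h0b : (0 : ℂ) ∈ ball (0 : ℂ) 1 := mem_ball_self one_pos
  have hG0 : ∀ k, G k 0 = 0 := by
    intro k
    have := hGψ k 0 h0b
    rwa [hψ0] at this
  have hψat : ∀ k, HasDerivAt (ψ k) (c k : ℂ) 0 := by
    intro k
    rw [← hψ' k]
    exact ((hψd k).differentiableAt (ball_mem_nhds _ one_pos)).hasDerivAt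
  have hGda : ∀ k, DifferentiableAt ℂ (G k) 0 := fun k =>
    (hGd k).differentiableAt ((hS.V_open k).mem_nhds (hS.zero_mem k))
  have hcne : ∀ k, (c k : ℂ) ≠ 0 := fun k => by exact_mod_cast (hc k).ne'
  have hG' : ∀ k, deriv (G k) 0 = (c k : ℂ)⁻¹ := by
    intro k
    have a1 : HasDerivAt (G k) (deriv (G k) (ψ k 0)) (ψ k 0) := by
      rw [hψ0]; exact (hGda k).hasDerivAt
    have a2 : HasDerivAt (G k ∘ ψ k) (deriv (G k) (ψ k 0) * (c k : ℂ)) 0 :=
      a1.comp 0 (hψat k)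
    have a3 : HasDerivAt (G k ∘ ψ k) 1 0 := by
      refine (hasDerivAt_id (0 : ℂ)).congr_of_eventuallyEq ?_
      filter_upwards [ball_mem_nhds (0 : ℂ) one_pos] with w hw
      simpa using hGψ k w hw
    have a4 := a2.unique a3
    rw [hψ0] at a4
    exact eq_inv_of_mul_eq_one_left a4
  have hGat : ∀ k, HasDerivAt (G k) ((c k : ℂ)⁻¹) 0 := by
    intro k
    rw [← hG' k]
    exact (hGda k).hasDerivAt
  have hdisc : ∀ i k, i ≤ k → DiscMap (fun w => G i (ψ k w)) ((c k / c i : ℝ) : ℂ) := by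
    intro i k hik
    have hm : MapsTo (ψ k) (ball 0 1) (V P R i) := fun w hw => hS.V_anti hik (hψm k hw)
    refine ⟨(hGd i).comp (hψd k) hm, fun w hw => hGm i (hm hw), ?_, ?_⟩
    · simp only [hψ0, hG0]
    · have a1 : HasDerivAt (G i) ((c i : ℂ)⁻¹) (ψ k 0) := by rw [hψ0]; exact hGat i
      have a2 : HasDerivAt (G i ∘ ψ k) ((c i : ℂ)⁻¹ * (c k : ℂ)) 0 := a1.comp 0 (hψat k)
      have a3 : deriv (fun w => G i (ψ k w)) 0 = (c i : ℂ)⁻¹ * (c k : ℂ) := a2.deriv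
      rw [a3]
      push_cast
      rw [div_eq_mul_inv, mul_comm]
  have hdB : ∀ k, DiscMap (fun w => G k (pm P (ψ (k + 1) w)))
      (l * ((c (k + 1) / c k : ℝ) : ℂ)) := by
    intro k
    have hm : MapsTo (fun w => pm P (ψ (k + 1) w)) (ball 0 1) (V P R k) :=
      fun w hw => hS.V_maps k (hψm (k + 1) hw)
    have hPd : Differentiable ℂ (pm P) := P.differentiable
    have hd1 : DifferentiableOn ℂ (fun w => pm P (ψ (k + 1) w)) (ball 0 1) :=
      hPd.comp_differentiableOn (hψd (k + 1))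
    refine ⟨(hGd k).comp hd1 hm, fun w hw => hGm k (hm hw), ?_, ?_⟩
    · have : pm P 0 = 0 := hS.zero
      simp only [hψ0, this, hG0]
    · have hP0 : pm P 0 = 0 := hS.zero
      have a0 : HasDerivAt (pm P) l (ψ (k + 1) 0) := by
        rw [hψ0, ← hd]
        exact P.hasDerivAt 0
      have a1 : HasDerivAt (pm P ∘ ψ (k + 1)) (l * (c (k + 1) : ℂ)) 0 :=
        a0.comp 0 (hψat (k + 1))
      have a2 : HasDerivAt (G k) ((c k : ℂ)⁻¹) ((pm P ∘ ψ (k + 1)) 0) := by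
        have : (pm P ∘ ψ (k + 1)) 0 = 0 := by simp only [Function.comp_apply, hψ0, hP0]
        rw [this]; exact hGat k
      have a3 : HasDerivAt (G k ∘ (pm P ∘ ψ (k + 1)))
          ((c k : ℂ)⁻¹ * (l * (c (k + 1) : ℂ))) 0 := a2.comp 0 a1
      have a4 : deriv (fun w => G k (pm P (ψ (k + 1) w))) 0 =
          (c k : ℂ)⁻¹ * (l * (c (k + 1) : ℂ)) := a3.deriv
      rw [a4]
      push_cast
      rw [div_eq_mul_inv]
      ring
  have hmono : ∀ k, c (k + 1) ≤ c k := by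
    intro k
    have h := hdisc k (k + 1) (Nat.le_succ k)
    have a1 : ‖deriv (fun w => G k (ψ (k + 1) w)) 0‖ ≤ 1 :=
      Complex.norm_deriv_le_one_of_mapsTo_ball h.diff (by rw [h.zero]; exact h.maps.mono_right ball_subset_closedBall) one_pos
    rw [h.der, Complex.norm_real, Real.norm_eq_abs,
      abs_of_pos (div_pos (hc (k + 1)) (hc k)), div_le_one (hc k)] at a1
    exact a1
  obtain ⟨p, r, hr, hpd, hp0, hp', hpm⟩ := K3_lin hS hl hlin
  refine ⟨ψ, G, c, r * ‖deriv p 0‖, mul_pos hr (norm_pos_iff.2 hp'), ?_, hmono, hψd, hψm, hGd,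
    hGm, hGψ, hψG, hψ0, hdisc, hdB⟩
  intro k
  have hsc : MapsTo (fun w : ℂ => (r : ℂ) * w) (ball 0 1) (ball 0 r) := by
    intro w hw
    rw [mem_ball_zero_iff] at hw ⊢
    rw [norm_mul, Complex.norm_real, Real.norm_eq_abs, abs_of_pos hr]
    nlinarith
  have hm : MapsTo (fun w : ℂ => p ((r : ℂ) * w)) (ball 0 1) (V P R k) :=
    fun w hw => hpm k (hsc hw)
  have hd1 : DifferentiableOn ℂ (fun w : ℂ => p ((r : ℂ) * w)) (ball 0 1) :=
    hpd.comp ((differentiable_id.const_mul (r : ℂ)).differentiableOn) hsc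
  have hf : DifferentiableOn ℂ (fun w : ℂ => G k (p ((r : ℂ) * w))) (ball 0 1) :=
    (hGd k).comp hd1 hm
  have hf0 : (fun w : ℂ => G k (p ((r : ℂ) * w))) 0 = 0 := by
    simp only [mul_zero, hp0, hG0]
  have hfm : MapsTo (fun w : ℂ => G k (p ((r : ℂ) * w))) (ball 0 1)
      (ball ((fun w : ℂ => G k (p ((r : ℂ) * w))) 0) 1) := by
    rw [hf0]
    exact fun w hw => hGm k (hm hw)
  have hb := Complex.norm_deriv_le_one_of_mapsTo_ball hf
    (hfm.mono_right ball_subset_closedBall) one_pos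
  have a0 : HasDerivAt (fun w : ℂ => (r : ℂ) * w) (r : ℂ) 0 := by
    simpa using (hasDerivAt_id (0 : ℂ)).const_mul (r : ℂ)
  have a1 : HasDerivAt p (deriv p 0) ((fun w : ℂ => (r : ℂ) * w) 0) := by
    simp only [mul_zero]
    exact (hpd.differentiableAt (ball_mem_nhds _ hr)).hasDerivAt
  have a2 : HasDerivAt (p ∘ fun w : ℂ => (r : ℂ) * w) (deriv p 0 * (r : ℂ)) 0 :=
    a1.comp 0 a0
  have a3 : HasDerivAt (G k) ((c k : ℂ)⁻¹) ((p ∘ fun w : ℂ => (r : ℂ) * w) 0) := by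
    have : (p ∘ fun w : ℂ => (r : ℂ) * w) 0 = 0 := by
      simp only [Function.comp_apply, mul_zero, hp0]
    rw [this]; exact hGat k
  have a4 : HasDerivAt (G k ∘ (p ∘ fun w : ℂ => (r : ℂ) * w))
      ((c k : ℂ)⁻¹ * (deriv p 0 * (r : ℂ))) 0 := a3.comp 0 a2
  have a5 : deriv (fun w : ℂ => G k (p ((r : ℂ) * w))) 0 =
      (c k : ℂ)⁻¹ * (deriv p 0 * (r : ℂ)) := a4.deriv
  rw [a5, norm_mul, norm_mul, norm_inv, Complex.norm_real, Complex.norm_real, Real.norm_eq_abs,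
    Real.norm_eq_abs, abs_of_pos hr, abs_of_pos (hc k)] at hb
  have a6 : (c k)⁻¹ * (‖deriv p 0‖ * r) ≤ 1 := hb
  rw [inv_mul_le_iff₀ (hc k), mul_one] at a6
  linarith

end DY
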