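import Pool.Agent.Lib.MP_40021b_an.Defs

/-!
# MP_40021b_an, module RIEMANN, part 1: Koebe step and Riemann mapping theorem from an
extremal candidate
-/

namespace DY

open Complex Metric Set Filter Topology Polynomial

/-- The disc automorphism `z ↦ (z - b) / (1 - conj b * z)`. -/
noncomputable def mob (b z : ℂ) : ℂ := (z - b) / (1 - (starRingEnd ℂ) b * z)

theorem mob_den {b z : ℂ} (hb : ‖b‖ < 1) (hz : ‖z‖ < 1) : 1 - (starRingEnd ℂ) b * z ≠ 0 := by
  intro h
  have h1 : (starRingEnd ℂ) b * z = 1 := by linear_combination -h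
  have h2 : ‖(starRingEnd ℂ) b * z‖ = 1 := by rw [h1]; simp
  rw [norm_mul, RCLike.norm_conj] at h2
  have := norm_nonneg b
  have := norm_nonneg z
  nlinarith

theorem mob_norm {b z : ℂ} (hb : ‖b‖ < 1) (hz : ‖z‖ < 1) : ‖mob b z‖ < 1 := by
  have hd := mob_den hb hz
  unfold mob
  rw [norm_div, div_lt_one (norm_pos_iff.mpr hd)]
  have hid : ‖1 - (starRingEnd ℂ) b * z‖ ^ 2 - ‖z - b‖ ^ 2 = (1 - ‖z‖ ^ 2) * (1 - ‖b‖ ^ 2) := by
    rw [← Complex.normSq_eq_norm_sq, ← Complex.normSq_eq_norm_sq, ← Complex.normSq_eq_norm_sq,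
      ← Complex.normSq_eq_norm_sq]
    simp only [Complex.normSq_apply, Complex.sub_re, Complex.sub_im, Complex.mul_re,
      Complex.mul_im, Complex.conj_re, Complex.conj_im, Complex.one_re, Complex.one_im]
    ring
  have hpos : 0 < (1 - ‖z‖ ^ 2) * (1 - ‖b‖ ^ 2) := by
    have h1 : ‖z‖ ^ 2 < 1 := by
      have := norm_nonneg z
      nlinarith
    have h2 : ‖b‖ ^ 2 < 1 := by
      have := norm_nonneg b
      nlinarith
    exact mul_pos (by linarith) (by linarith)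
  have h3 := norm_nonneg (z - b)
  have h4 := norm_nonneg (1 - (starRingEnd ℂ) b * z)
  nlinarith

theorem mob_inj {b z w : ℂ} (hb : ‖b‖ < 1) (hz : ‖z‖ < 1) (hw : ‖w‖ < 1)
    (h : mob b z = mob b w) : z = w := by
  have h1 := mob_den hb hz
  have h2 := mob_den hb hw
  unfold mob at h
  rw [div_eq_div_iff h1 h2] at h
  have h3 : (z - w) * (1 - (starRingEnd ℂ) b * b) = 0 := by linear_combination h
  rcases mul_eq_zero.mp h3 with h4 | h4
  · exact sub_eq_zero.mp h4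
  · exact absurd h4 (mob_den hb hb)

theorem mob_hasDerivAt {b z : ℂ} (hb : ‖b‖ < 1) (hz : ‖z‖ < 1) :
    HasDerivAt (mob b) ((1 - (starRingEnd ℂ) b * b) / (1 - (starRingEnd ℂ) b * z) ^ 2) z := by
  have hd := mob_den hb hz
  have h1 : HasDerivAt (fun z : ℂ => z - b) 1 z := (hasDerivAt_id z).sub_const b
  have h2 : HasDerivAt (fun z : ℂ => 1 - (starRingEnd ℂ) b * z) (-((starRingEnd ℂ) b)) z := by
    have := ((hasDerivAt_id z).const_mul ((starRingEnd ℂ) b)).const_sub 1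
    simpa using this
  have h3 := h1.div h2 hd
  refine h3.congr_deriv ?_
  congr 1
  ring

theorem koebe_step {U : Set ℂ} (ho : IsOpen U) (hc : IsPreconnected U)
    (h0 : (0 : ℂ) ∈ U) (hs : HasSqrt U) {g : ℂ → ℂ} (hg : Cand U g) (hd : deriv g 0 ≠ 0)
    {b : ℂ} (hb : b ∈ ball (0 : ℂ) 1) (hb' : b ∉ g '' U) :
    ∃ g' : ℂ → ℂ, Cand U g' ∧ ‖deriv g 0‖ < ‖deriv g' 0‖ := by
  have hb1 : ‖b‖ < 1 := by simpa using hb
  have hgn : ∀ z ∈ U, ‖g z‖ < 1 := fun z hz => by simpa using hg.maps hz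
  have hne : ∀ z ∈ U, mob b (g z) ≠ 0 := by
    intro z hz h
    unfold mob at h
    rcases div_eq_zero_iff.mp h with h | h
    · exact hb' ⟨z, hz, sub_eq_zero.mp h⟩
    · exact mob_den hb1 (hgn z hz) h
  have hgd : ∀ z ∈ U, HasDerivAt g (deriv g z) z := fun z hz =>
    ((hg.diff z hz).differentiableAt (ho.mem_nhds hz)).hasDerivAt
  have hdiff : DifferentiableOn ℂ (fun z => mob b (g z)) U := by
    intro z hz
    have := (mob_hasDerivAt hb1 (hgn z hz)).comp z (hgd z hz)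
    exact this.differentiableAt.differentiableWithinAt
  obtain ⟨s, hsd, hs2⟩ := hs _ hdiff hne
  have hsn : ∀ z ∈ U, ‖s z‖ < 1 := by
    intro z hz
    have h1 : ‖s z‖ ^ 2 < 1 := by
      rw [← norm_pow, hs2 z hz]
      exact mob_norm hb1 (hgn z hz)
    have h2 := norm_nonneg (s z)
    nlinarith
  have hsinj : InjOn s U := by
    intro z hz w hw h
    apply hg.inj hz hw
    apply mob_inj hb1 (hgn z hz) (hgn w hw)
    rw [← hs2 z hz, ← hs2 w hw, h]
  have hs0 : s 0 ^ 2 = -b := by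
    rw [hs2 0 h0, hg.zero]
    unfold mob
    simp
  have hs0n : ‖s 0‖ < 1 := hsn 0 h0
  have hs0ne : s 0 ≠ 0 := by
    intro h
    have h1 := hne 0 h0
    rw [← hs2 0 h0, h] at h1
    simp at h1
  have hsder : ∀ z ∈ U, HasDerivAt s (deriv s z) z := fun z hz =>
    ((hsd z hz).differentiableAt (ho.mem_nhds hz)).hasDerivAt
  refine ⟨fun z => mob (s 0) (s z), ⟨?_, ?_, ?_, ?_⟩, ?_⟩
  · intro z hz
    have := (mob_hasDerivAt hs0n (hsn z hz)).comp z (hsder z hz)
    exact this.differentiableAt.differentiableWithinAt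
  · intro z hz w hw h
    exact hsinj hz hw (mob_inj hs0n (hsn z hz) (hsn w hw) h)
  · intro z hz
    simpa using mob_norm hs0n (hsn z hz)
  · unfold mob
    simp
  · -- the derivative
    have e1 : HasDerivAt (fun z => mob (s 0) (s z))
        ((1 - (starRingEnd ℂ) (s 0) * s 0) / (1 - (starRingEnd ℂ) (s 0) * s 0) ^ 2
          * deriv s 0) 0 := (mob_hasDerivAt hs0n hs0n).comp 0 (hsder 0 h0)
    rw [e1.deriv]
    -- derivative of s
    have hg0n : ‖g 0‖ < 1 := hgn 0 h0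
    have e2 : HasDerivAt (fun z => mob b (g z))
        ((1 - (starRingEnd ℂ) b * b) / (1 - (starRingEnd ℂ) b * g 0) ^ 2 * deriv g 0) 0 :=
      (mob_hasDerivAt hb1 hg0n).comp 0 (hgd 0 h0)
    have e3 : HasDerivAt (fun z => s z ^ 2) (2 * s 0 * deriv s 0) 0 := by
      have := (hsder 0 h0).pow 2
      refine this.congr_deriv ?_
      simp
    have e4 : HasDerivAt (fun z => s z ^ 2)
        ((1 - (starRingEnd ℂ) b * b) / (1 - (starRingEnd ℂ) b * g 0) ^ 2 * deriv g 0) 0 := by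
      refine e2.congr_of_eventuallyEq ?_
      filter_upwards [ho.mem_nhds h0] with z hz
      exact hs2 z hz
    have e5 := e3.unique e4
    rw [hg.zero] at e5
    simp only [mul_zero, sub_zero, one_pow, div_one] at e5
    set r := ‖s 0‖ with hr
    have hr0 : 0 < r := norm_pos_iff.mpr hs0ne
    have hbr : ‖b‖ = r ^ 2 := by
      rw [hr, ← norm_pow, hs0, norm_neg]
    have hcs : (starRingEnd ℂ) (s 0) * s 0 = ((r ^ 2 : ℝ) : ℂ) := by
      rw [mul_comm, Complex.mul_conj, Complex.normSq_eq_norm_sq]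
    have hcb : (starRingEnd ℂ) b * b = ((r ^ 4 : ℝ) : ℂ) := by
      rw [mul_comm, Complex.mul_conj, Complex.normSq_eq_norm_sq, hbr]
      congr 1
      ring
    have hA : ‖(1 : ℂ) - (starRingEnd ℂ) (s 0) * s 0‖ = 1 - r ^ 2 := by
      rw [hcs, ← Complex.ofReal_one, ← Complex.ofReal_sub, Complex.norm_real, Real.norm_eq_abs,
        abs_of_pos]
      nlinarith
    have hB : ‖(1 : ℂ) - (starRingEnd ℂ) b * b‖ = 1 - r ^ 4 := by
      rw [hcb, ← Complex.ofReal_one, ← Complex.ofReal_sub, Complex.norm_real, Real.norm_eq_abs,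
        abs_of_pos]
      have : r ^ 2 < 1 := by nlinarith
      nlinarith [sq_nonneg r]
    have hn : 2 * r * ‖deriv s 0‖ = (1 - r ^ 4) * ‖deriv g 0‖ := by
      have := congrArg norm e5
      rw [norm_mul, norm_mul, norm_mul, hB] at this
      simpa [hr] using this
    rw [norm_mul, norm_div, norm_pow, hA]
    have hq : 0 < 1 - r ^ 2 := by nlinarith
    have hdg : 0 < ‖deriv g 0‖ := norm_pos_iff.mpr hd
    have hsn' : ‖deriv s 0‖ = (1 - r ^ 4) * ‖deriv g 0‖ / (2 * r) := by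
      field_simp
      linarith
    rw [hsn']
    have : (1 - r ^ 2) / (1 - r ^ 2) ^ 2 * ((1 - r ^ 4) * ‖deriv g 0‖ / (2 * r)) =
        ‖deriv g 0‖ * ((1 + r ^ 2) / (2 * r)) := by
      field_simp
      ring
    rw [this]
    have h2 : 1 < (1 + r ^ 2) / (2 * r) := by
      rw [lt_div_iff₀ (by positivity)]
      have : 0 < (1 - r) ^ 2 := by
        apply sq_pos_of_pos
        linarith
      nlinarith
    nlinarith

/-- The Riemann mapping theorem, given an extremal candidate. -/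
theorem riemann_map_of_extremal {U : Set ℂ} (ho : IsOpen U) (hc : IsPreconnected U)
    (h0 : (0 : ℂ) ∈ U) (hs : HasSqrt U)
    (hE : ∃ g : ℂ → ℂ, Cand U g ∧ (∀ z ∈ U, deriv g z ≠ 0) ∧
      ∀ g' : ℂ → ℂ, Cand U g' → ‖deriv g' 0‖ ≤ ‖deriv g 0‖) :
    ∃ (ψ G : ℂ → ℂ) (c : ℝ), 0 < c ∧ DifferentiableOn ℂ ψ (ball 0 1) ∧
      MapsTo ψ (ball 0 1) U ∧ DifferentiableOn ℂ G U ∧ MapsTo G U (ball 0 1) ∧
      (∀ w ∈ ball (0 : ℂ) 1, G (ψ w) = w) ∧ (∀ z ∈ U, ψ (G z) = z) ∧ ψ 0 = 0 ∧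
      deriv ψ 0 = (c : ℂ) := by
  obtain ⟨g, hg, hgne, hext⟩ := hE
  have hd0 : deriv g 0 ≠ 0 := hgne 0 h0
  have hsurj : ∀ w ∈ ball (0 : ℂ) 1, ∃ z ∈ U, g z = w := by
    intro w hw
    by_contra h
    have hw' : w ∉ g '' U := h
    obtain ⟨g', hg', hlt⟩ := koebe_step ho hc h0 hs hg hd0 hw hw'
    exact absurd (hext g' hg') (not_le.mpr hlt)
  -- normalise
  set d : ℝ := ‖deriv g 0‖ with hdd
  have hdpos : 0 < d := norm_pos_iff.mpr hd0
  set v : ℂ := (d : ℂ) / deriv g 0 with hv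
  have hvn : ‖v‖ = 1 := by
    rw [hv, norm_div, Complex.norm_real, Real.norm_eq_abs, abs_of_pos hdpos, ← hdd,
      div_self hdpos.ne']
  have hvne : v ≠ 0 := by
    intro h
    rw [h] at hvn
    simp at hvn
  set G : ℂ → ℂ := fun z => v * g z with hG
  have hGdiff : DifferentiableOn ℂ G U := hg.diff.const_mul v
  have hGd : ∀ z ∈ U, HasDerivAt G (v * deriv g z) z := fun z hz =>
    ((hg.diff z hz).differentiableAt (ho.mem_nhds hz)).hasDerivAt.const_mul v
  have hGne : ∀ z ∈ U, v * deriv g z ≠ 0 := fun z hz => mul_ne_zero hvne (hgne z hz)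
  have hGinj : InjOn G U := fun z hz w hw h => hg.inj hz hw (mul_left_cancel₀ hvne h)
  have hGmaps : MapsTo G U (ball 0 1) := by
    intro z hz
    have h1 : ‖g z‖ < 1 := by simpa using hg.maps hz
    have : ‖G z‖ < 1 := by rw [hG]; simp only [norm_mul, hvn, one_mul]; exact h1
    simpa using this
  have hGsurj : ∀ w ∈ ball (0 : ℂ) 1, ∃ z ∈ U, G z = w := by
    intro w hw
    have hw1 : ‖w‖ < 1 := by simpa using hw
    obtain ⟨z, hz, hzw⟩ := hsurj (w / v) (by
      rw [mem_ball_zero_iff, norm_div, hvn, div_one]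
      exact hw1)
    refine ⟨z, hz, ?_⟩
    show v * g z = w
    rw [hzw]
    field_simp
  set ψ : ℂ → ℂ := Function.invFunOn G U with hψ
  have hψmem : ∀ w ∈ ball (0 : ℂ) 1, ψ w ∈ U := fun w hw =>
    Function.invFunOn_mem (hGsurj w hw)
  have hψeq : ∀ w ∈ ball (0 : ℂ) 1, G (ψ w) = w := fun w hw =>
    Function.invFunOn_eq (hGsurj w hw)
  have hψG : ∀ z ∈ U, ψ (G z) = z := fun z hz =>
    hGinj (hψmem _ (hGmaps hz)) hz (hψeq _ (hGmaps hz))
  have hGstrict : ∀ z ∈ U, HasStrictDerivAt G (v * deriv g z) z := by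
    intro z hz
    have han : AnalyticAt ℂ G z := hGdiff.analyticAt (ho.mem_nhds hz)
    have := han.hasStrictDerivAt
    rwa [(hGd z hz).deriv] at this
  have hψcont : ∀ w ∈ ball (0 : ℂ) 1, ContinuousAt ψ w := by
    intro w hw
    have hzU := hψmem w hw
    have hmap := (hGstrict _ hzU).map_nhds_eq (hGne _ hzU)
    rw [hψeq w hw] at hmap
    intro N hN
    have h1 : N ∩ U ∈ 𝓝 (ψ w) := inter_mem hN (ho.mem_nhds hzU)
    have h2 : G '' (N ∩ U) ∈ 𝓝 w := by
      rw [← hmap]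
      exact image_mem_map h1
    rw [mem_map]
    filter_upwards [h2] with y hy
    obtain ⟨z, ⟨hzN, hzU'⟩, rfl⟩ := hy
    show ψ (G z) ∈ N
    rw [hψG z hzU']
    exact hzN
  have hψder : ∀ w ∈ ball (0 : ℂ) 1, HasDerivAt ψ (v * deriv g (ψ w))⁻¹ w := by
    intro w hw
    refine HasDerivAt.of_local_left_inverse (hψcont w hw) (hGd _ (hψmem w hw))
      (hGne _ (hψmem w hw)) ?_
    filter_upwards [isOpen_ball.mem_nhds hw] with y hy
    exact hψeq y hy
  have h0b : (0 : ℂ) ∈ ball (0 : ℂ) 1 := by simp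
  have hG0 : G 0 = 0 := by rw [hG]; simp [hg.zero]
  have hψ0 : ψ 0 = 0 := by
    have := hψG 0 h0
    rwa [hG0] at this
  refine ⟨ψ, G, d⁻¹, inv_pos.mpr hdpos, ?_, hψmem, hGdiff, hGmaps, hψeq, hψG, hψ0, ?_⟩
  · intro w hw
    exact (hψder w hw).differentiableAt.differentiableWithinAt
  · rw [(hψder 0 h0b).deriv, hψ0]
    have : v * deriv g 0 = (d : ℂ) := by
      rw [hv]
      field_simp
    rw [this, Complex.ofReal_inv]

end DY
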