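import Pool.Agent.Lib.MP_40021b_an.VBasic
import Pool.Agent.Lib.MP_40021b_an.Arith
import Pool.Agent.Lib.MP_40021b_an.K1
import Pool.Agent.Lib.MP_40021b_an.K2
import Pool.Agent.Lib.MP_40021b_an.K3

/-!
# MP_40021b_an: assembly of the implication linearizable => Brjuno
-/

namespace DY

open Complex Metric Set Filter Topology Polynomial

theorem main {P : ℂ[X]} (hd : 2 ≤ P.natDegree) (h0 : P.eval 0 = 0)
    (h1 : ‖P.derivative.eval 0‖ = 1) (h2 : ∀ n : ℕ, 1 ≤ n → (P.derivative.eval 0) ^ n ≠ 1)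
    (hlin : Linearizable (pm P) (P.derivative.eval 0)) : Brjuno (P.derivative.eval 0) := by
  obtain ⟨R, L, hS⟩ := exists_setup P hd h0
  generalize hl : P.derivative.eval 0 = l at *
  obtain ⟨ψ, G, c, c₀, hc₀, hc, hcs, hψd, hψm, hGd, hGm, hGψ, hψG, hψ0, hgik, hB⟩ :=
    K3 hS h1 hl hlin
  obtain ⟨C2, hC2, hK2⟩ := K2 hS
  have hcp : ∀ k, 0 < c k := fun k => lt_of_lt_of_le hc₀ (hc k)
  have hanti : ∀ i k, i ≤ k → c k ≤ c i := fun i k hik => antitone_nat_of_succ_le hcs hik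
  -- the numbers a k
  have ha : ∀ k, 0 ≤ Real.log (c k / c (k + 1)) := fun k =>
    Real.log_nonneg (by rw [le_div_iff₀ (hcp _), one_mul]; exact hcs k)
  have hsum : ∀ m K, m ≤ K → ∑ k ∈ Finset.Icc m K, Real.log (c k / c (k + 1))
      = Real.log (c m / c (K + 1)) := by
    intro m K hmK
    induction K, hmK using Nat.le_induction with
    | base => simp
    | succ n hmn ih =>
      rw [← Finset.insert_Icc_right_eq_Icc_add_one (by omega : m ≤ n + 1),
        Finset.sum_insert (by simp), ih]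
      rw [Real.log_div (hcp _).ne' (hcp _).ne', Real.log_div (hcp _).ne' (hcp _).ne',
        Real.log_div (hcp _).ne' (hcp _).ne']
      ring
  have hA : ∀ n, ∑ k ∈ Finset.range n, Real.log (c k / c (k + 1)) ≤ Real.log (c 0 / c₀) := by
    intro n
    have : ∑ k ∈ Finset.range n, Real.log (c k / c (k + 1)) = Real.log (c 0 / c n) := by
      induction n with
      | zero => simp [div_self (hcp 0).ne']
      | succ n ih =>
        rw [Finset.sum_range_succ, ih]
        rw [Real.log_div (hcp _).ne' (hcp _).ne', Real.log_div (hcp _).ne' (hcp _).ne',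
          Real.log_div (hcp _).ne' (hcp _).ne']
        ring
    rw [this]
    exact Real.log_le_log (div_pos (hcp _) (hcp _)) (div_le_div_of_nonneg_left (hcp _).le hc₀ (hc n))
  set A := Real.log (c 0 / c₀) with hAdef
  have hdpos : (0 : ℝ) ≤ P.natDegree := Nat.cast_nonneg _
  refine arith (C := Real.exp (1 + 3 * A) + 400 * P.natDegree + C2 + 4) h1 h2 ha hA ?_ ?_
  · have := Real.exp_pos (1 + 3 * A)
    linarith
  intro q q' m K hq hq' hdense hm hmK haK hq1 hq2
  rw [hsum m K hmK]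
  set D := Real.log (c m / c (K + 1)) with hD
  set am := Real.log (c m / c (m + 1)) with ham
  set aK := Real.log (c K / c (K + 1)) with haKd
  set ε := ‖l ^ q - 1‖ with hε
  have hεpos : 0 < ε := by
    rw [hε, norm_pos_iff, sub_ne_zero]
    exact h2 q hq
  have hD0 : 0 ≤ D := Real.log_nonneg (by
    rw [le_div_iff₀ (hcp _), one_mul]; exact hanti _ _ (by omega))
  have hDA : D ≤ A := Real.log_le_log (div_pos (hcp _) (hcp _))
    ((div_le_div_of_nonneg_right (hanti 0 m (by omega)) (hcp _).le).trans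
      (div_le_div_of_nonneg_left (hcp _).le hc₀ (hc _)))
  have hexp : ∀ i k, Real.exp (-Real.log (c i / c k)) = c k / c i := by
    intro i k
    rw [Real.exp_neg, Real.exp_log (div_pos (hcp _) (hcp _)), inv_div]
  have hq'pos : (0 : ℝ) < q' := by
    have : 0 < q' := by omega
    exact_mod_cast this
  have hq'40 : (40 : ℝ) ≤ q' := by exact_mod_cast hq'
  have hCbig : 1 ≤ Real.exp (1 + 3 * A) + 400 * P.natDegree + C2 + 4 := by
    have := Real.exp_pos (1 + 3 * A)
    linarith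
  have haK0 : 0 ≤ aK := ha K
  have ham0 : 0 ≤ am := ha m
  -- the functions
  have hsub : ∀ i k, i ≤ k → V P R k ⊆ V P R i := fun i k h => hS.V_anti h
  have hKm : MapsTo (ψ (K + 1)) (ball 0 1) (V P R m) := fun w hw =>
    hsub m (K + 1) (by omega) (hψm _ hw)
  have hψinj : ∀ k, InjOn (ψ k) (ball 0 1) := fun k x hx y hy hxy => by
    rw [← hGψ k x hx, ← hGψ k y hy, hxy]
  have hGinj : ∀ k, InjOn (G k) (V P R k) := fun k x hx y hy hxy => by
    rw [← hψG k x hx, ← hψG k y hy, hxy]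
  have hG0 : ∀ k, G k 0 = 0 := fun k => by
    have := hGψ k 0 (by simp)
    rwa [hψ0] at this
  have key1 : ∀ w : ℂ, ‖w‖ = 1 - 10 / q' →
      Real.exp (-(40 / q' + 3 * D + (q' : ℝ) ^ 2 * am)) ≤ ‖G m (ψ (K + 1) w)‖ := fun w hw =>
    K1 (l := l) h1 hq' hdense (g := fun w => G m (ψ (K + 1) w))
    (z := fun w => G (m + 1) (ψ (K + 1) w)) (gm := fun w => G m (ψ (m + 1) w))
    (Bm := fun w => G m (pm P (ψ (m + 1) w))) (gmK := fun w => G m (ψ K w))
    (gK := fun w => G K (ψ (K + 1) w)) (BK := fun w => G K (pm P (ψ (K + 1) w)))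
    (D := D) (am := am) (aK := aK) hD0 (ha m) (ha K)
    (by rw [hD, hexp]; exact hgik m (K + 1) (by omega))
    (fun x hx y hy hxy => hψinj (K + 1) hx hy (hGinj m (hKm hx) (hKm hy) hxy))
    (hgik (m + 1) (K + 1) (by omega))
    (by rw [ham, hexp]; exact hgik m (m + 1) (by omega))
    (fun w hw => by
      show G m (ψ (K + 1) w) = G m (ψ (m + 1) (G (m + 1) (ψ (K + 1) w)))
      rw [hψG (m + 1) _ (hsub (m + 1) (K + 1) (by omega) (hψm _ hw))])
    (hB m)
    (hgik m K hmK)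
    (by rw [haKd, hexp]; exact hgik K (K + 1) (by omega))
    (fun w hw => by
      show G m (ψ (K + 1) w) = G m (ψ K (G K (ψ (K + 1) w)))
      rw [hψG K _ (hsub K (K + 1) (by omega) (hψm _ hw))])
    (by rw [haKd, hexp]; exact hB K)
    (fun w hw => by
      show G m (ψ K (G K (pm P (ψ (K + 1) w)))) =
        G m (pm P (ψ (m + 1) (G (m + 1) (ψ (K + 1) w))))
      rw [hψG (m + 1) _ (hsub (m + 1) (K + 1) (by omega) (hψm _ hw)),
        hψG K _ (hS.V_maps K (hψm _ hw))])
    hq1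
    (by
      have h3 : Real.exp (1 + 3 * D) ≤ Real.exp (1 + 3 * A) + 400 * P.natDegree + C2 + 4 := by
        have := Real.exp_le_exp.mpr (show 1 + 3 * D ≤ 1 + 3 * A by linarith)
        linarith
      calc Real.exp (1 + 3 * D) * (q' : ℝ) ^ 4 * aK
          ≤ (Real.exp (1 + 3 * A) + 400 * P.natDegree + C2 + 4) * (q' : ℝ) ^ 4 * ε := by
            gcongr
        _ ≤ 1 := hq2) hw
  have hder : ∀ w ∈ ball (0 : ℂ) 1, deriv (ψ (K + 1)) w ≠ 0 := by
    intro w hw h
    have h4 : HasDerivAt (ψ (K + 1)) 0 w := by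
      rw [← h]
      exact ((hψd (K + 1)).differentiableAt (isOpen_ball.mem_nhds hw)).hasDerivAt
    have h5 : HasDerivAt (G (K + 1)) (deriv (G (K + 1)) (ψ (K + 1) w)) (ψ (K + 1) w) :=
      ((hGd (K + 1)).differentiableAt ((hS.V_open _).mem_nhds (hψm _ hw))).hasDerivAt
    have h6 := h5.comp w h4
    rw [mul_zero] at h6
    have h7 : (G (K + 1) ∘ ψ (K + 1)) =ᶠ[𝓝 w] id := by
      filter_upwards [isOpen_ball.mem_nhds hw] with y hy
      exact hGψ _ y hy
    have h8 := h6.congr_of_eventuallyEq h7.symm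
    exact zero_ne_one (h8.unique (hasDerivAt_id w))
  set E := 40 / (q' : ℝ) + 3 * D + (q' : ℝ) ^ 2 * am with hE
  have hE0 : 0 ≤ E := by
    have := ha m
    positivity
  have he14 : (10 : ℝ) / q' ≤ 1 / 4 := by
    rw [div_le_iff₀ hq'pos]; linarith
  have hεsmall : ε ≤ 10 / q' / 8 := by
    have h9 : ε * (q' : ℝ) ^ 4 ≤ 1 := by
      calc ε * (q' : ℝ) ^ 4 = 1 * (q' : ℝ) ^ 4 * ε := by ring
        _ ≤ (Real.exp (1 + 3 * A) + 400 * P.natDegree + C2 + 4) * (q' : ℝ) ^ 4 * ε := by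
            gcongr
        _ ≤ 1 := hq2
    have h10 : ε * q' ≤ ε * (q' : ℝ) ^ 4 := by
      have : (q' : ℝ) ≤ (q' : ℝ) ^ 4 := le_self_pow₀ (by linarith) (by norm_num)
      gcongr
    rw [le_div_iff₀ (by norm_num), le_div_iff₀ hq'pos]
    nlinarith
  have key2 := hK2 m q l (10 / q') E aK (G m) (ψ (K + 1)) (ψ K)
    (fun w => G K (ψ (K + 1) w)) (fun w => G K (pm P (ψ (K + 1) w))) hm hq h1 (h2 q hq)
    (by positivity) he14 hεsmall hE0 (ha K) haK (hGd m) (hGm m) (hGinj m) (hG0 m)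
    (hψd (K + 1)) hKm (hψinj (K + 1)) (hψ0 (K + 1)) hder (hψd K)
    (fun w hw => hS.V_ball K (hψm K hw))
    (by rw [haKd, hexp]; exact hgik K (K + 1) (by omega))
    (by rw [haKd, hexp]; exact hB K)
    (fun w hw => by
      show ψ (K + 1) w = ψ K (G K (ψ (K + 1) w))
      rw [hψG K _ (hsub K (K + 1) (by omega) (hψm _ hw))])
    (fun w hw => by
      show pm P (ψ (K + 1) w) = ψ K (G K (pm P (ψ (K + 1) w)))
      rw [hψG K _ (hS.V_maps K (hψm _ hw))])
    (fun w hw => key1 w hw)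
  refine key2.trans ?_
  have hlog : Real.log (1 / (10 / (q' : ℝ))) ≤ Real.log q' := by
    rw [one_div_div]
    exact Real.log_le_log (by positivity) (by linarith)
  have hlog0 : 0 ≤ Real.log q' := Real.log_nonneg (by linarith)
  have hB1 : 0 ≤ (q : ℝ) * (1 / q' + D + (q' : ℝ) ^ 2 * am) := by
    have := ha m
    positivity
  have hE1 : (q : ℝ) * E ≤ 40 * (q * (1 / q' + D + (q' : ℝ) ^ 2 * am)) := by
    have h11 : E ≤ 40 * (1 / q' + D + (q' : ℝ) ^ 2 * am) := by
      rw [hE]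
      have := ha m
      have h12 : 0 ≤ (q' : ℝ) ^ 2 * am := by positivity
      have h13 : (40 : ℝ) / q' = 40 * (1 / q') := by ring
      rw [h13]
      linarith
    calc (q : ℝ) * E ≤ q * (40 * (1 / q' + D + (q' : ℝ) ^ 2 * am)) := by gcongr
      _ = _ := by ring
  have hexp0 := Real.exp_pos (1 + 3 * A)
  have hm0 : (0 : ℝ) ≤ m := Nat.cast_nonneg _
  calc 10 * (P.natDegree : ℝ) * q * E + C2 * m + 4 * Real.log (1 / (10 / (q' : ℝ)))
      = 10 * (P.natDegree : ℝ) * (q * E) + C2 * m + 4 * Real.log (1 / (10 / (q' : ℝ))) := by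
        ring
    _ ≤ 10 * (P.natDegree : ℝ) * (40 * (q * (1 / q' + D + (q' : ℝ) ^ 2 * am))) + C2 * m
        + 4 * Real.log q' := by gcongr
    _ ≤ (Real.exp (1 + 3 * A) + 400 * P.natDegree + C2 + 4) *
        (m + q * (1 / q' + D + (q' : ℝ) ^ 2 * am) + Real.log q') := by
        nlinarith [mul_nonneg hexp0.le hm0, mul_nonneg hexp0.le hB1, mul_nonneg hexp0.le hlog0,
          mul_nonneg hdpos hm0, mul_nonneg hdpos hlog0, mul_nonneg hC2.le hB1,
          mul_nonneg hC2.le hlog0, hm0, hB1]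

end DY
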